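import Pool.Agent.helper74.QB.LimBD

/-!
# QB-35. Output for the contractions of `(so_{p+q}, so_p × so_q)`
-/

set_option autoImplicit false

namespace Pool.Agent.helper74.QB

open Finset Matrix LieAlgebra.Orthogonal Pool.Agent.helper5.AS Pool.Agent.helper49.QA
open Pool.Agent.helper5.ASQ (Invol even oddc brk IsContraction)

variable {K : Type*} [Field K] [CharZero K] {n : Type*} [Fintype n] [DecidableEq n]
variable {θ : Invol K (so n K)} {par : n → Bool}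
variable {k : Type*} [LieRing k] [LieAlgebra K k]

/-- the common part of the two theorems -/
private theorem LimOut_aux (S : UP K (so n K)) (T : TP K (so n K)) (hST : S = toUP K (so n K) T)
    (hS : IsSS (kso K n) (kso_isInv K n) S) {κ : K} (hκ : κ ≠ 0) (e : so n K ≃ₗ[K] k)
    (ξ : k →ₗ[K] K) {a b : ℕ} {y : Sy K k}
    (hdeg : (swc a (RT θ (TensorAlgebra.ι K) (ξ ∘ₗ (e : so n K →ₗ[K] k)) T)).natDegree ≤ b)
    (hRS : ((RS θ (ιS K k ∘ₗ (e : so n K →ₗ[K] k)) (ξ ∘ₗ (e : so n K →ₗ[K] k)) T).coeff b).coeff a =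
      κ • y) :
    ∃ (W : K → Ue K (so n K)) (v : Ue K k),
      (∀ s : K, s ≠ 0 → W s ∈ Cso (xis θ e ξ s)) ∧ Lim θ e b W v ∧ IsSymbol a y v := by
  refine ⟨fun s => κ⁻¹ • (EvU hid (xis θ e ξ s) S).coeff a,
    pU (tmap (e : so n K →ₗ[K] k)
      ((κ⁻¹ • swc a (RT θ (TensorAlgebra.ι K) (ξ ∘ₗ (e : so n K →ₗ[K] k)) T)).coeff b)), ?_, ?_, ?_⟩
  · intro s _
    refine Subalgebra.smul_mem _ ?_ _
    unfold Cso
    exact Algebra.subset_adjoin ⟨S, hS, a, rfl⟩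
  · refine ⟨κ⁻¹ • swc a (RT θ (TensorAlgebra.ι K) (ξ ∘ₗ (e : so n K →ₗ[K] k)) T),
      (Polynomial.natDegree_smul_le _ _).trans hdeg, ?_, rfl⟩
    intro s hs
    rw [map_smul, map_smul, map_smul, RT_evc θ hid _ T a hs, ← hST]
    rfl
  · rw [Polynomial.coeff_smul, map_smul, map_smul, swc_coeff, RT_top]
    have h := (RT_symbol θ (e : so n K →ₗ[K] k) (ξ ∘ₗ (e : so n K →ₗ[K] k)) T b a).smul κ⁻¹
    rw [hRS, smul_smul, inv_mul_cancel₀ hκ, one_smul] at h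
    exact h

/-- QB-34e. Proof.  `c` odd: `ek c XM0 = 0`, everything is `0`.  `c` even: `N = card n - c`, `γ` from
`exists_gr2`, `S = SV N c = toUP T`, `T = lamB (lamth N) (PsiT ..)` (`EvC_toUP_PsiT`, `lamB_EvC`).
For `ξ`, `m < c` let `a = c - m`, `κ = (N! 2^c)⁻¹`, `R = κ • swc a (RT θ ι (ξ ∘ e) T)`,
`W s = κ • (EvU hid (xis θ e ξ s) S).coeff a` (in `Cso` by `SV_isSS`; `xis θ e ξ s = ξ ∘ e ∘ scl θ s`),
`v = pU (tmap e (R.coeff b))`.  `Lim`: `deg_SV`, `RT_evc`.  Symbol: `RT_top`, `RT_symbol`, `RS_SV`. -/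
theorem limQ_ek (hn : 3 ≤ Fintype.card n) (hθ : IsPar θ par) (e : so n K ≃ₗ[K] k) (c : ℕ)
    (hc : c ≤ Fintype.card n) :
    LimQ θ e (Cso (K := K) (n := n)) c (min c (2 * blkCard par)) (ek c (XM0 K n)) := by
  obtain ⟨C, _, _, γ, hγ⟩ := exists_gr2 K n (Fintype.card n - c)
  have hN : Fintype.card n - c + c = Fintype.card n := Nat.sub_add_cancel hc
  intro ξ m hm
  have hκ : (((Fintype.card n - c).factorial : K) * 2 ^ c) ≠ 0 :=
    mul_ne_zero (by exact_mod_cast Nat.factorial_ne_zero _) (pow_ne_zero _ two_ne_zero)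
  exact LimOut_aux (γ.SV (Fintype.card n - c) c)
    (lamB (γ.lamth (Fintype.card n - c)) (PsiT (hso γ.F) c))
    (by rw [Gr2.SV, ← lamB_eq_lamU, ← EvC_toUP_PsiT, lamB_EvC])
    (γ.SV_isSS _ rfl hn c) hκ e ξ (deg_SV γ hθ _ _ _ _)
    (RS_SV γ hγ hN hθ (e : so n K →ₗ[K] k) ξ _ m hm.le)

/-- QB-34f. -/
theorem limQ_pfn (hn : 3 ≤ Fintype.card n) (hθ : IsPar θ par) (e : so n K ≃ₗ[K] k)
    {P : Type} [Fintype P] [DecidableEq P] (e' : P × Fin 2 ≃ n) :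
    LimQ θ e (Cso (K := K) (n := n)) (Fintype.card P) (min (Fintype.card P) (blkCard par))
      (pfn e' (XM0 K n)) := by
  obtain ⟨C, _, _, γ, hγ⟩ := exists_gr_pf K n P e'
  intro ξ m hm
  have hκ : (((Fintype.card P).factorial : K)⁻¹ * (-1) ^ Fintype.card P) ≠ 0 :=
    mul_ne_zero (inv_ne_zero (by exact_mod_cast Nat.factorial_ne_zero _))
      (pow_ne_zero _ (neg_ne_zero.2 one_ne_zero))
  exact LimOut_aux (γ.PV (Fintype.card P)) (lamB γ.I (PsiT (hso γ.F) (Fintype.card P)))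
    (by rw [Gr.PV, ← lamB_eq_lamU, ← EvC_toUP_PsiT, lamB_EvC])
    (γ.PV_isSS hn _) hκ e ξ (deg_PV γ hθ _ _ _)
    (RS_PV γ e' hγ hθ (e : so n K →ₗ[K] k) ξ _ m hm.le)

end Pool.Agent.helper74.QB
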