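import Mathlib

/-!
# QB-13. The even part of a Grassmann algebra

`Gr K V G`: a commutative algebra `G` with elements `m v w` (`= c_v c_w` for anticommuting `c_v`,
`v ∈ V`), the derivations `T a b` (`= c_a ∂_b`) and the integral `I` (the top coefficient).
-/

set_option autoImplicit false

namespace Pool.Agent.helper74.QB

universe u v w

/-- the structure of an even Grassmann algebra -/
structure Gr (K : Type*) [Field K] (V : Type*) [Fintype V] [DecidableEq V] (G : Type*)
    [CommRing G] [Algebra K G] where
  /-- the products `c_v c_w` -/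
  m : V → V → G
  anti : ∀ v w, m w v = - m v w
  cyc : ∀ a b c d, m a b * m c d = m b c * m a d
  /-- the derivations `c_a ∂_b` -/
  T : V → V → Derivation K G G
  T_m : ∀ a b v w, T a b (m v w) = (if b = v then m a w else 0) + (if b = w then m v a else 0)
  /-- the integral -/
  I : G →ₗ[K] K
  I_T : ∀ a b g, I (T a b g) = if a = b then I g else 0
  /-- the substitutions `c_v ↦ s_v c_v` -/
  sc : (V → K) → G →ₐ[K] G
  sc_m : ∀ s v w, sc s (m v w) = (s v * s w) • m v w
  I_sc : ∀ s g, I (sc s g) = (∏ v, s v) * I g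

section Aux

set_option linter.unusedSectionVars false

variable {K : Type u} [Field K] {V : Type v} [DecidableEq V]

/-- the anticommuting generators -/
private noncomputable def cc (v : V) : ExteriorAlgebra K (V → K) :=
  ExteriorAlgebra.ι K (Pi.single v 1)

/-- the contractions -/
private noncomputable def dd (b : V) : ExteriorAlgebra K (V → K) →ₗ[K] ExteriorAlgebra K (V → K) :=
  CliffordAlgebra.contractLeft (Q := (0 : QuadraticForm K (V → K)))
    (LinearMap.proj (R := K) (φ := fun _ : V => K) b)

private lemma dd_ι_mul (b : V) (m : V → K) (x : ExteriorAlgebra K (V → K)) :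
    dd b (ExteriorAlgebra.ι K m * x) = m b • x - ExteriorAlgebra.ι K m * dd b x := by
  exact CliffordAlgebra.contractLeft_ι_mul _ m x

private lemma dd_ι (b : V) (m : V → K) :
    dd b (ExteriorAlgebra.ι K m) = algebraMap K _ (m b) := by
  exact CliffordAlgebra.contractLeft_ι (Q := (0 : QuadraticForm K (V → K))) _ m

private lemma dd_algebraMap (b : V) (r : K) :
    dd b (algebraMap K (ExteriorAlgebra K (V → K)) r) = 0 := by
  exact CliffordAlgebra.contractLeft_algebraMap (Q := (0 : QuadraticForm K (V → K))) _ r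

private lemma dd_one (b : V) : dd b (1 : ExteriorAlgebra K (V → K)) = 0 := by
  exact CliffordAlgebra.contractLeft_one (Q := (0 : QuadraticForm K (V → K))) _

private lemma dd_dd (b : V) (x : ExteriorAlgebra K (V → K)) : dd b (dd b x) = 0 := by
  exact CliffordAlgebra.contractLeft_contractLeft _ x

private lemma dd_comm (a b : V) (x : ExteriorAlgebra K (V → K)) :
    dd a (dd b x) = - dd b (dd a x) := by
  exact CliffordAlgebra.contractLeft_comm _ _ x

private lemma ι_anti (m m' : V → K) :
    ExteriorAlgebra.ι K m * ExteriorAlgebra.ι K m' =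
      - (ExteriorAlgebra.ι K m' * ExteriorAlgebra.ι K m) :=
  eq_neg_of_add_eq_zero_left (ExteriorAlgebra.ι_add_mul_swap m m')

private lemma cc_anti (v w : V) : (cc v * cc w : ExteriorAlgebra K (V → K)) = - (cc w * cc v) :=
  ι_anti _ _

private lemma dd_cc_mul (b v : V) (x : ExteriorAlgebra K (V → K)) :
    dd b (cc v * x) = (if b = v then x else 0) - cc v * dd b x := by
  rw [cc, dd_ι_mul, Pi.single_apply, ite_smul, one_smul, zero_smul]

private lemma dd_cc (b v : V) :
    dd b (cc v : ExteriorAlgebra K (V → K)) = (if b = v then 1 else 0) := by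
  rw [cc, dd_ι, Pi.single_apply]
  split_ifs <;> simp

/-- the operator `c_a ∂_b` -/
private noncomputable def tt (a b : V) :
    ExteriorAlgebra K (V → K) →ₗ[K] ExteriorAlgebra K (V → K) :=
  (LinearMap.mulLeft K (cc a)).comp (dd b)

private lemma tt_apply (a b : V) (x : ExteriorAlgebra K (V → K)) : tt a b x = cc a * dd b x := rfl

private lemma tt_leibniz (a b : V) (x : ExteriorAlgebra K (V → K)) :
    ∀ y, tt a b (x * y) = tt a b x * y + x * tt a b y := by
  induction x using ExteriorAlgebra.induction with
  | algebraMap r =>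
    intro y
    rw [tt_apply, tt_apply, tt_apply, dd_algebraMap, mul_zero, zero_mul, zero_add,
      Algebra.algebraMap_eq_smul_one, smul_mul_assoc, one_mul, map_smul, mul_smul_comm,
      smul_mul_assoc, one_mul]
  | ι m =>
    intro y
    rw [tt_apply, tt_apply, tt_apply, dd_ι_mul, dd_ι, mul_sub, ← mul_assoc, ← mul_assoc, cc,
      ι_anti m (Pi.single a 1), neg_mul, ← sub_eq_add_neg, Algebra.algebraMap_eq_smul_one,
      mul_smul_comm, mul_smul_comm, smul_mul_assoc, mul_one]
  | mul x x' hx hx' =>
    intro y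
    rw [mul_assoc, hx, hx', hx]
    noncomm_ring
  | add x x' hx hx' =>
    intro y
    rw [add_mul, map_add, hx, hx', map_add]
    noncomm_ring

private lemma dd_tt_sub (a b : V) (x : ExteriorAlgebra K (V → K)) :
    tt a b x = (if a = b then x else 0) - dd b (cc a * x) := by
  rw [tt_apply, dd_cc_mul]
  by_cases h : a = b
  · subst h; simp
  · rw [if_neg h, if_neg (Ne.symm h)]; simp

/-- the substitution `c_v ↦ s_v c_v` -/
private noncomputable def ss (s : V → K) :
    ExteriorAlgebra K (V → K) →ₐ[K] ExteriorAlgebra K (V → K) :=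
  ExteriorAlgebra.map (LinearMap.pi fun v => s v • LinearMap.proj v)

private lemma ss_ι (s m : V → K) :
    ss s (ExteriorAlgebra.ι K m) = ExteriorAlgebra.ι K (fun v => s v * m v) := by
  rw [ss, ExteriorAlgebra.map_apply_ι]
  rfl

private lemma ss_cc (s : V → K) (v : V) :
    ss s (cc v) = s v • (cc v : ExteriorAlgebra K (V → K)) := by
  rw [cc, ss_ι, ← map_smul]
  congr 1
  funext w
  by_cases h : w = v
  · subst h; simp
  · simp [Pi.single_eq_of_ne h]

private lemma dd_ss (s : V → K) (b : V) (x : ExteriorAlgebra K (V → K)) :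
    dd b (ss s x) = s b • ss s (dd b x) := by
  induction x using CliffordAlgebra.left_induction with
  | algebraMap r =>
    have h1 : ss s (algebraMap K (ExteriorAlgebra K (V → K)) r) = algebraMap K _ r :=
      AlgHom.commutes _ _
    have h2 := dd_algebraMap (K := K) b r
    have h3 : dd b (ss s (algebraMap K (ExteriorAlgebra K (V → K)) r)) =
        s b • ss s (dd b (algebraMap K (ExteriorAlgebra K (V → K)) r)) := by
      rw [h1, h2, map_zero, smul_zero]
    exact h3
  | add x y hx hy => rw [map_add, map_add, hx, hy, map_add, map_add, smul_add]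
  | ι_mul x m hx =>
    have h : dd b (ss s (ExteriorAlgebra.ι K m * x)) =
        s b • ss s (dd b (ExteriorAlgebra.ι K m * x)) := by
      rw [map_mul, ss_ι, dd_ι_mul, hx, dd_ι_mul, map_sub, map_smul, map_mul, ss_ι, smul_sub,
        mul_smul_comm, smul_smul]
    exact h

/-- the counit -/
private noncomputable def ee : ExteriorAlgebra K (V → K) →ₐ[K] K :=
  ExteriorAlgebra.algebraMapInv

private lemma ee_ss (s : V → K) (x : ExteriorAlgebra K (V → K)) : ee (ss s x) = ee x := by
  have h : (ee (K := K) (V := V)).comp (ss s) = ee := by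
    apply ExteriorAlgebra.hom_ext
    ext m
    simp [ee, ss_ι, ExteriorAlgebra.algebraMapInv]
  exact DFunLike.congr_fun h x

variable {P : Type w}

/-- iterated contraction over a list of pairs -/
private noncomputable def jj (e : P × Fin 2 → V) :
    List P → (ExteriorAlgebra K (V → K) →ₗ[K] ExteriorAlgebra K (V → K))
  | [] => LinearMap.id
  | p :: L => (jj e L).comp ((dd (e (p, 1))).comp (dd (e (p, 0))))

private lemma jj_cons (e : P × Fin 2 → V) (p : P) (L : List P) (x : ExteriorAlgebra K (V → K)) :
    jj e (p :: L) x = jj e L (dd (e (p, 1)) (dd (e (p, 0)) x)) := rfl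

private lemma dd3 (a b c : V) (x : ExteriorAlgebra K (V → K)) :
    dd a (dd b (dd c x)) = dd c (dd a (dd b x)) := by
  rw [dd_comm b c, map_neg, dd_comm a c, neg_neg]

private lemma jj_dd (e : P × Fin 2 → V) (L : List P) (p : P) (hp : p ∈ L) (i : Fin 2) :
    ∀ x : ExteriorAlgebra K (V → K), jj e L (dd (e (p, i)) x) = 0 := by
  induction L with
  | nil => simp at hp
  | cons q L ih =>
    intro x
    rw [jj_cons, dd3]
    rcases List.mem_cons.1 hp with h | h
    · subst h
      rcases Fin.exists_fin_two.1 ⟨i, rfl⟩ with hi | hi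
      · rw [← hi, ← dd3, dd_dd, map_zero, map_zero]
      · rw [← hi, dd_dd, map_zero]
    · exact ih h _

private lemma dd_prod (e : P × Fin 2 ≃ V) (L : List P) (p : P) (hp : p ∉ L) (i : Fin 2) :
    dd (e (p, i)) ((L.map fun q => (cc (e (q, 0)) * cc (e (q, 1)) :
      ExteriorAlgebra K (V → K))).prod) = 0 := by
  induction L with
  | nil => simp [dd_one]
  | cons q L ih =>
    rw [List.mem_cons, not_or] at hp
    have h : ∀ j, e (p, i) ≠ e (q, j) := fun j h => hp.1 (by simpa using congrArg Prod.fst (e.injective h))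
    rw [List.map_cons, List.prod_cons, mul_assoc, dd_cc_mul, if_neg (h 0), dd_cc_mul, if_neg (h 1),
      ih hp.2]
    simp

private lemma jj_prod (e : P × Fin 2 ≃ V) (L : List P) (hL : L.Nodup) :
    jj e L ((L.map fun q => (cc (e (q, 0)) * cc (e (q, 1)) :
      ExteriorAlgebra K (V → K))).prod) = 1 := by
  induction L with
  | nil => simp [jj]
  | cons q L ih =>
    rw [List.nodup_cons] at hL
    have h01 : e (q, 0) ≠ e (q, 1) := fun h => by simpa using e.injective h
    rw [jj_cons, List.map_cons, List.prod_cons, mul_assoc, dd_cc_mul, if_pos rfl, dd_cc_mul,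
      if_neg h01, dd_prod e L q hL.1, mul_zero, sub_zero, mul_zero, sub_zero, dd_cc_mul,
      if_pos rfl, dd_prod e L q hL.1, mul_zero, sub_zero, ih hL.2]

private lemma jj_ss (e : P × Fin 2 → V) (s : V → K) (L : List P) :
    ∀ x : ExteriorAlgebra K (V → K), jj e L (ss s x) =
      (L.map fun q => s (e (q, 0)) * s (e (q, 1))).prod • ss s (jj e L x) := by
  induction L with
  | nil => intro x; simp [jj]
  | cons q L ih =>
    intro x
    rw [jj_cons, jj_cons, dd_ss, map_smul, dd_ss, map_smul, map_smul, ih, List.map_cons,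
      List.prod_cons, smul_smul, smul_smul]

private lemma tt_cc_cc (a b v w : V) :
    tt a b (cc v * cc w : ExteriorAlgebra K (V → K)) =
      (if b = v then cc a * cc w else 0) + (if b = w then cc v * cc a else 0) := by
  rw [tt_apply, dd_cc_mul, dd_cc, mul_sub, cc_anti v a]
  split_ifs <;> simp [sub_eq_add_neg]

private lemma cc2_comm (a b c d : V) :
    (cc a * cc b * (cc c * cc d) : ExteriorAlgebra K (V → K)) = cc c * cc d * (cc a * cc b) := by
  have h : ∀ u v w : V, (cc u * (cc v * cc w) : ExteriorAlgebra K (V → K)) =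
      cc v * cc w * cc u := by
    intro u v w
    rw [← mul_assoc, cc_anti u v, neg_mul, mul_assoc, cc_anti u w, mul_neg, neg_neg, mul_assoc]
  rw [mul_assoc, h b c d, ← mul_assoc, h a c d, mul_assoc]

/-- the generating set of the even part -/
private def genS (K : Type u) [Field K] (V : Type v) [DecidableEq V] :
    Set (ExteriorAlgebra K (V → K)) := {x | ∃ v w, x = cc v * cc w}

private lemma genS_comm : ∀ a ∈ genS K V, ∀ b ∈ genS K V, a * b = b * a := by
  rintro _ ⟨a, b, rfl⟩ _ ⟨c, d, rfl⟩
  exact cc2_comm a b c d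

private lemma tt_mem (a b : V) {x : ExteriorAlgebra K (V → K)}
    (hx : x ∈ Algebra.adjoin K (genS K V)) : tt a b x ∈ Algebra.adjoin K (genS K V) := by
  induction hx using Algebra.adjoin_induction with
  | mem x hx =>
    obtain ⟨v, w, rfl⟩ := hx
    rw [tt_cc_cc]
    refine Subalgebra.add_mem _ ?_ ?_
    · split_ifs
      · exact Algebra.subset_adjoin ⟨a, w, rfl⟩
      · exact Subalgebra.zero_mem _
    · split_ifs
      · exact Algebra.subset_adjoin ⟨v, a, rfl⟩
      · exact Subalgebra.zero_mem _
  | algebraMap r =>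
    rw [tt_apply, dd_algebraMap, mul_zero]
    exact Subalgebra.zero_mem _
  | add x y hx hy h1 h2 =>
    rw [map_add]
    exact Subalgebra.add_mem _ h1 h2
  | mul x y hx hy h1 h2 =>
    rw [tt_leibniz]
    exact Subalgebra.add_mem _ (Subalgebra.mul_mem _ h1 hy) (Subalgebra.mul_mem _ hx h2)

private lemma ss_mem (s : V → K) {x : ExteriorAlgebra K (V → K)}
    (hx : x ∈ Algebra.adjoin K (genS K V)) : ss s x ∈ Algebra.adjoin K (genS K V) := by
  induction hx using Algebra.adjoin_induction with
  | mem x hx =>
    obtain ⟨v, w, rfl⟩ := hx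
    rw [map_mul, ss_cc, ss_cc, smul_mul_assoc, mul_smul_comm]
    have h : (cc v * cc w : ExteriorAlgebra K (V → K)) ∈ Algebra.adjoin K (genS K V) :=
      Algebra.subset_adjoin ⟨v, w, rfl⟩
    exact Subalgebra.smul_mem _ (Subalgebra.smul_mem _ h _) _
  | algebraMap r =>
    rw [AlgHom.commutes]
    exact Subalgebra.algebraMap_mem _ _
  | add x y hx hy h1 h2 =>
    rw [map_add]
    exact Subalgebra.add_mem _ h1 h2
  | mul x y hx hy h1 h2 =>
    rw [map_mul]
    exact Subalgebra.mul_mem _ h1 h2

end Aux

open scoped IsMulCommutative in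
/-- QB-13. Existence.  `P` indexes pairs, `e : P × Fin 2 ≃ V`.  Proof.
Let `Λ = ExteriorAlgebra K (V → K)`, `c v = ι (Pi.single v 1)`, `∂ b = CliffordAlgebra.contractLeft (proj b)`
(`ExteriorAlgebra` is `CliffordAlgebra 0`); `∂ b (c v * x) = δ_{bv} x - c v * ∂ b x` and `∂ b 1 = 0`,
`∂ b ∘ ∂ b = 0`, `∂ a ∘ ∂ b = - ∂ b ∘ ∂ a` (`CliffordAlgebra.contractLeft_contractLeft`, `contractLeft_comm`).
`T a b x = c a * ∂ b x` satisfies `T a b (c v * x) = δ_{bv} c a * x + c v * T a b x` (`c a * c v = - c v * c a`),
hence (induction on `x`) it is a derivation of `Λ` : `T a b (x * y) = T a b x * y + x * T a b y`.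
`G = Algebra.adjoin K {c v * c w}`, a commutative subalgebra (`c v c w` commutes with every `c u`;
`Algebra.adjoinCommRingOfComm`); `T a b` maps `G` to itself.
`I₀ = ε ∘ ∂_{v_1} ∘ ... ∘ ∂_{v_d}` on `Λ` (`v_1, .., v_d` an enumeration of `V`, `ε = algebraMapInv`); since the `∂`
anticommute and have square `0`, `I₀ (∂ b x) = 0` for all `b` (here `d ≥ 1` is not needed: for empty `V`
there is no `b`), and `c a * ∂ b x = δ_{ab} x - ∂ b (c a * x)` gives `I₀ (T a b x) = δ_{ab} I₀ x`.
Take the enumeration adapted to `e`; `I = ± I₀` restricted to `G`; `I₀ (∏_p c (e (p,0)) * c (e (p,1))) = ± 1`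
by `∂ b (c b * x) = x - c b * ∂ b x` and `∂ b x = 0` if `x` is a product of `c v` with `v ≠ b`.
`sc s` is the restriction to `G` of `ExteriorAlgebra.map` of the diagonal map `v ↦ s v * v`; on `Λ`,
`∂ b (sc s x) = s b • sc s (∂ b x)` (induction with `c v * x`), hence `I₀ (sc s x) = (∏ v, s v) * I₀ x`. -/
theorem exists_gr (K : Type u) [Field K] (V : Type v) [Fintype V] [DecidableEq V] (P : Type w)
    [Fintype P] (e : P × Fin 2 ≃ V) :
    ∃ (G : Type (max u v)) (_ : CommRing G) (_ : Algebra K G) (γ : Gr K V G),
      γ.I (∏ p : P, γ.m (e (p, 0)) (e (p, 1))) = 1 := by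
  classical
  have := Algebra.isMulCommutative_adjoin K (genS_comm (K := K) (V := V))
  let instR : CommRing (Algebra.adjoin K (genS K V)) := inferInstance
  let instA : Algebra K (Algebra.adjoin K (genS K V)) :=
    (Algebra.adjoin K (genS K V)).algebra
  let L : List P := Finset.univ.toList
  have hLmem : ∀ p, p ∈ L := fun p => Finset.mem_toList.2 (Finset.mem_univ p)
  have hLnd : L.Nodup := Finset.nodup_toList _
  have hdd : ∀ (b : V) (x : ExteriorAlgebra K (V → K)), jj e L (dd b x) = 0 := by
    intro b x
    have := jj_dd e L (e.symm b).1 (hLmem _) (e.symm b).2 x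
    simpa using this
  refine ⟨Algebra.adjoin K (genS K V), instR, instA,
    { m := fun v w => (⟨cc v * cc w, Algebra.subset_adjoin ⟨v, w, rfl⟩⟩ :
        Algebra.adjoin K (genS K V))
      anti := fun v w => Subtype.ext (cc_anti w v)
      cyc := ?_
      T := fun a b => Derivation.mk'
        { toFun := fun x => ⟨tt a b x, tt_mem a b x.2⟩
          map_add' := fun x y => Subtype.ext (map_add (tt a b) (x : ExteriorAlgebra K (V → K)) y)
          map_smul' := fun c x => Subtype.ext (map_smul (tt a b) c (x : ExteriorAlgebra K (V → K))) }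
        ?_
      T_m := ?_
      I :=
        { toFun := fun x => ee (jj e L x)
          map_add' := ?_
          map_smul' := ?_ }
      I_T := ?_
      sc := fun s =>
        { toFun := fun x => ⟨ss s x, ss_mem s x.2⟩
          map_one' := Subtype.ext (map_one (ss s))
          map_mul' := fun x y => Subtype.ext (map_mul (ss s) (x : ExteriorAlgebra K (V → K)) y)
          map_zero' := Subtype.ext (map_zero (ss s))
          map_add' := fun x y => Subtype.ext (map_add (ss s) (x : ExteriorAlgebra K (V → K)) y)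
          commutes' := fun r => Subtype.ext ((ss s).commutes r) }
      sc_m := ?_
      I_sc := ?_ }, ?_⟩
  · -- cyc
    intro a b c d
    apply Subtype.ext
    change cc a * cc b * (cc c * cc d) = cc b * cc c * (cc a * cc d)
    rw [mul_assoc, ← mul_assoc (cc b), ← mul_assoc, ← mul_assoc (cc b * cc c)]
    congr 1
    rw [← mul_assoc, cc_anti a b, neg_mul, mul_assoc, cc_anti a c, mul_neg, neg_neg, mul_assoc]
  · -- Leibniz
    intro x y
    apply Subtype.ext
    change tt a b ((x : ExteriorAlgebra K (V → K)) * (y : ExteriorAlgebra K (V → K))) = (x : ExteriorAlgebra K (V → K)) *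
      tt a b (y : ExteriorAlgebra K (V → K)) + (y : ExteriorAlgebra K (V → K)) *
      tt a b (x : ExteriorAlgebra K (V → K))
    have hc : (y : ExteriorAlgebra K (V → K)) * tt a b (x : ExteriorAlgebra K (V → K)) =
        tt a b (x : ExteriorAlgebra K (V → K)) * (y : ExteriorAlgebra K (V → K)) :=
      congrArg Subtype.val (mul_comm y (⟨tt a b x, tt_mem a b x.2⟩ : Algebra.adjoin K (genS K V)))
    rw [tt_leibniz, hc, add_comm]
  · -- T_m
    intro a b v w
    apply Subtype.ext
    change tt a b (cc v * cc w) = _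
    rw [tt_cc_cc]
    split_ifs <;> simp
  · intro x y
    change ee (jj e L ((x : ExteriorAlgebra K (V → K)) + (y : ExteriorAlgebra K (V → K)))) = _
    rw [map_add, map_add]
  · intro c x
    change ee (jj e L (c • (x : ExteriorAlgebra K (V → K)))) = _
    rw [map_smul, map_smul]
    rfl
  · -- I_T
    intro a b g
    change ee (jj e L (tt a b (g : ExteriorAlgebra K (V → K)))) =
      if a = b then ee (jj e L (g : ExteriorAlgebra K (V → K))) else 0
    rw [dd_tt_sub, map_sub, hdd, sub_zero]
    split_ifs <;> simp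
  · -- sc_m
    intro s v w
    apply Subtype.ext
    change ss s (cc v * cc w) = (s v * s w) • (cc v * cc w)
    rw [map_mul, ss_cc, ss_cc, smul_mul_assoc, mul_smul_comm, smul_smul]
  · -- I_sc
    intro s g
    change ee (jj e L (ss s (g : ExteriorAlgebra K (V → K)))) =
      (∏ v, s v) * ee (jj e L (g : ExteriorAlgebra K (V → K)))
    have h : (L.map fun q => s (e (q, 0)) * s (e (q, 1))).prod = ∏ v, s v := by
      rw [Finset.prod_map_toList, ← Equiv.prod_comp e, Fintype.prod_prod_type]
      simp [Fin.prod_univ_two]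
    rw [jj_ss, map_smul, ee_ss, h, smul_eq_mul]
  · -- normalisation
    change ee (jj e L ((∏ p : P, (⟨cc (e (p, 0)) * cc (e (p, 1)),
      Algebra.subset_adjoin ⟨e (p, 0), e (p, 1), rfl⟩⟩ : Algebra.adjoin K (genS K V)) :
        Algebra.adjoin K (genS K V)) : ExteriorAlgebra K (V → K))) = 1
    have h : (((∏ p : P, (⟨cc (e (p, 0)) * cc (e (p, 1)),
        Algebra.subset_adjoin ⟨e (p, 0), e (p, 1), rfl⟩⟩ : Algebra.adjoin K (genS K V)) :
        Algebra.adjoin K (genS K V)) : ExteriorAlgebra K (V → K))) =
        (L.map fun q => (cc (e (q, 0)) * cc (e (q, 1)) : ExteriorAlgebra K (V → K))).prod := by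
      rw [← Finset.prod_map_toList]
      have h2 := map_list_prod (Algebra.adjoin K (genS K V)).val
        (Finset.univ.toList.map fun p : P => (⟨cc (e (p, 0)) * cc (e (p, 1)),
        Algebra.subset_adjoin ⟨e (p, 0), e (p, 1), rfl⟩⟩ : Algebra.adjoin K (genS K V)))
      rw [List.map_map] at h2
      exact h2
    rw [h, jj_prod e L hLnd, map_one]

end Pool.Agent.helper74.QB
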