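import Pool.Agent.helper74.QB.BD
import Pool.Agent.helper74.QB.Gr

/-!
# QB-18. Existence of the algebra with two more variables
-/

set_option autoImplicit false

namespace Pool.Agent.helper74.QB

open Finset TensorProduct

universe u v

/-- the weights `w_α` -/
noncomputable def BDCons_w (K : Type u) [Field K] (N : ℕ) : ℕ → K
  | 0 => 1
  | a + 1 => (-(2 * ((a : K) + 1)) / (2 * ((a : K) + 1) + N)) * BDCons_w K N a

theorem BDCons_w_succ (K : Type u) [Field K] [CharZero K] (N a : ℕ) :
    (2 * ((a : K) + 1) + N) * BDCons_w K N (a + 1) = -(2 * ((a : K) + 1)) * BDCons_w K N a := by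
  have h : (2 * ((a : K) + 1) + N) ≠ 0 := by
    have : ((2 * (a + 1) + N : ℕ) : K) ≠ 0 := Nat.cast_ne_zero.2 (by omega)
    push_cast at this
    exact this
  rw [BDCons_w]
  field_simp

/-- the functional -/
noncomputable def BDCons_ell (K : Type u) [Field K] (N : ℕ) : MvPolynomial (Fin 2) K →ₗ[K] K :=
  (MvPolynomial.basisMonomials (Fin 2) K).constr K
    (fun s => if s 0 = s 1 then BDCons_w K N (s 0) else 0)

theorem BDCons_ell_monomial (K : Type u) [Field K] (N : ℕ) (s : Fin 2 →₀ ℕ) (c : K) :
    BDCons_ell K N (MvPolynomial.monomial s c) =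
      c * (if s 0 = s 1 then BDCons_w K N (s 0) else 0) := by
  have h1 : MvPolynomial.monomial s c = c • (MvPolynomial.basisMonomials (Fin 2) K s) := by
    rw [MvPolynomial.coe_basisMonomials, MvPolynomial.smul_monomial, smul_eq_mul, mul_one]
  rw [h1, map_smul, BDCons_ell, Module.Basis.constr_basis, smul_eq_mul]

/-- QB-18a. the functional on `K[ν₀, ν₁]` with `ν₀^α ν₁^β ↦ δ_{αβ} w_α`,
`w_α = ∏_{c=1}^α (-2c/(2c+N))`, so `(2α + N) w_α = - 2 α w_{α-1}`.  Proof: on monomials. -/
theorem exists_ell (K : Type u) [Field K] [CharZero K] (N : ℕ) :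
    ∃ ell : MvPolynomial (Fin 2) K →ₗ[K] K, ell 1 = 1 ∧
      (∀ f, ell ((2 + MvPolynomial.X 0 * MvPolynomial.X 1) * MvPolynomial.pderiv 0 f +
        MvPolynomial.X 1 ^ 2 * MvPolynomial.pderiv 1 f +
        ((N : K) + 1) • (MvPolynomial.X 1 * f)) = 0) ∧
      (∀ f, ell (MvPolynomial.X 0 ^ 2 * MvPolynomial.pderiv 0 f +
        (2 + MvPolynomial.X 0 * MvPolynomial.X 1) * MvPolynomial.pderiv 1 f +
        ((N : K) + 1) • (MvPolynomial.X 0 * f)) = 0) := by
  have hX : ∀ i : Fin 2, (MvPolynomial.X i : MvPolynomial (Fin 2) K) =
      MvPolynomial.monomial (Finsupp.single i 1) 1 := fun i => rfl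
  have h2 : ∀ f : MvPolynomial (Fin 2) K, (2 : MvPolynomial (Fin 2) K) * f = (2 : K) • f := by
    intro f
    rw [MvPolynomial.smul_eq_C_mul]
    congr 1
  refine ⟨BDCons_ell K N, ?_, ?_, ?_⟩
  · have : (1 : MvPolynomial (Fin 2) K) = MvPolynomial.monomial 0 1 := rfl
    rw [this, BDCons_ell_monomial]
    simp [BDCons_w]
  · intro f
    induction f using MvPolynomial.induction_on' with
    | monomial s c =>
      rw [MvPolynomial.pderiv_monomial, MvPolynomial.pderiv_monomial, add_mul, h2, hX, hX,
        MvPolynomial.monomial_mul, MvPolynomial.monomial_mul, MvPolynomial.monomial_pow,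
        MvPolynomial.monomial_mul, MvPolynomial.monomial_mul, map_add, map_add, map_add, map_smul,
        map_smul, BDCons_ell_monomial, BDCons_ell_monomial, BDCons_ell_monomial,
        BDCons_ell_monomial]
      simp only [Finsupp.coe_add, Finsupp.coe_tsub, Pi.add_apply, Pi.sub_apply,
        Finsupp.single_eq_same, Finsupp.coe_smul, Pi.smul_apply, smul_eq_mul, one_mul, one_pow,
        mul_one, Finsupp.single_apply]
      norm_num
      generalize s 0 = a
      generalize s 1 = b
      rcases a with _ | a
      · have e1 : ¬ (0 = 2 + (b - 1)) := by omega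
        have e2 : ¬ (0 = 1 + b) := by omega
        simp [e1, e2]
      · simp only [Nat.add_sub_cancel]
        by_cases hab : a = b
        · subst hab
          have e3 : (if a + 1 = 2 + (a - 1) then c * (a : K) * BDCons_w K N (a + 1) else 0) =
              c * (a : K) * BDCons_w K N (a + 1) := by
            rcases a with _ | a
            · simp
            · rw [if_pos (by omega)]
          rw [e3, if_pos rfl, if_pos rfl, if_pos (by omega)]
          have h3 := BDCons_w_succ K N a
          rw [add_comm 1 a]
          push_cast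
          linear_combination c * h3
        · have e3 : (if a + 1 = 2 + (b - 1) then c * (b : K) * BDCons_w K N (a + 1) else 0) = 0 := by
            rcases b with _ | b
            · simp
            · rw [if_neg (by omega)]
          rw [e3, if_neg hab, if_neg hab, if_neg (by omega)]
          simp
    | add p q hp hq =>
      simp only [map_add, mul_add, smul_add] at hp hq ⊢
      linear_combination hp + hq
  · intro f
    induction f using MvPolynomial.induction_on' with
    | monomial s c =>
      rw [MvPolynomial.pderiv_monomial, MvPolynomial.pderiv_monomial, add_mul, h2, hX, hX,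
        MvPolynomial.monomial_mul, MvPolynomial.monomial_mul, MvPolynomial.monomial_pow,
        MvPolynomial.monomial_mul, MvPolynomial.monomial_mul, map_add, map_add, map_add, map_smul,
        map_smul, BDCons_ell_monomial, BDCons_ell_monomial, BDCons_ell_monomial,
        BDCons_ell_monomial]
      simp only [Finsupp.coe_add, Finsupp.coe_tsub, Pi.add_apply, Pi.sub_apply,
        Finsupp.single_eq_same, Finsupp.coe_smul, Pi.smul_apply, smul_eq_mul, one_mul, one_pow,
        mul_one, Finsupp.single_apply]
      norm_num
      generalize s 0 = a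
      generalize s 1 = b
      rcases b with _ | b
      · have e1 : ¬ (2 + (a - 1) = 0) := by omega
        have e2 : ¬ (1 + a = 0) := by omega
        simp
      · simp only [Nat.add_sub_cancel]
        by_cases hab : a = b
        · subst hab
          have e3 : (if 2 + (a - 1) = a + 1 then c * (a : K) * BDCons_w K N (2 + (a - 1)) else 0) =
              c * (a : K) * BDCons_w K N (a + 1) := by
            rcases a with _ | a
            · simp
            · rw [if_pos (by omega), show 2 + (a + 1 - 1) = a + 1 + 1 by omega]
          rw [e3, if_pos rfl, if_pos rfl, if_pos (by omega)]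
          have h3 := BDCons_w_succ K N a
          rw [add_comm 1 a]
          push_cast
          linear_combination c * h3
        · have e3 : (if 2 + (a - 1) = b + 1 then c * (a : K) * BDCons_w K N (2 + (a - 1)) else 0)
              = 0 := by
            rcases a with _ | a
            · simp
            · rw [if_neg (by omega)]
          rw [e3, if_neg hab, if_neg hab, if_neg (by omega)]
          simp
    | add p q hp hq =>
      simp only [map_add, mul_add, smul_add] at hp hq ⊢
      linear_combination hp + hq

/-- a derivation of the first factor, extended to the tensor product -/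
theorem BDCons_derivL {K : Type*} [Field K] {G R : Type*} [CommRing G] [Algebra K G] [CommRing R]
    [Algebra K R] (D : Derivation K G G) :
    ∃ D' : Derivation K (G ⊗[K] R) (G ⊗[K] R), ∀ g r, D' (g ⊗ₜ r) = D g ⊗ₜ r := by
  refine ⟨Derivation.mk' (LinearMap.rTensor R (D : G →ₗ[K] G)) ?_, ?_⟩
  · intro a b
    induction a using TensorProduct.induction_on with
    | zero => simp
    | add x y hx hy => rw [add_mul, map_add, hx, hy, map_add, add_smul, smul_add]; abel
    | tmul g r =>
      induction b using TensorProduct.induction_on with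
      | zero => simp
      | add x y hx hy => rw [mul_add, map_add, hx, hy, map_add, smul_add, add_smul]; abel
      | tmul g' r' =>
        simp only [Algebra.TensorProduct.tmul_mul_tmul, LinearMap.rTensor_tmul, smul_eq_mul]
        rw [show (D : G →ₗ[K] G) (g * g') = D (g * g') from rfl, Derivation.leibniz,
          smul_eq_mul, smul_eq_mul, TensorProduct.add_tmul]
        rw [show (D : G →ₗ[K] G) g' = D g' from rfl, show (D : G →ₗ[K] G) g = D g from rfl,
          mul_comm r' r]
  · intro g r
    rfl

/-- a derivation of the second factor, extended to the tensor product -/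
theorem BDCons_derivR {K : Type*} [Field K] {G R : Type*} [CommRing G] [Algebra K G] [CommRing R]
    [Algebra K R] (D : Derivation K R R) :
    ∃ D' : Derivation K (G ⊗[K] R) (G ⊗[K] R), ∀ g r, D' (g ⊗ₜ r) = g ⊗ₜ D r := by
  refine ⟨Derivation.mk' (LinearMap.lTensor G (D : R →ₗ[K] R)) ?_, ?_⟩
  · intro a b
    induction a using TensorProduct.induction_on with
    | zero => simp
    | add x y hx hy => rw [add_mul, map_add, hx, hy, map_add, add_smul, smul_add]; abel
    | tmul g r =>
      induction b using TensorProduct.induction_on with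
      | zero => simp
      | add x y hx hy => rw [mul_add, map_add, hx, hy, map_add, smul_add, add_smul]; abel
      | tmul g' r' =>
        simp only [Algebra.TensorProduct.tmul_mul_tmul, LinearMap.lTensor_tmul, smul_eq_mul]
        rw [show (D : R →ₗ[K] R) (r * r') = D (r * r') from rfl, Derivation.leibniz,
          smul_eq_mul, smul_eq_mul, TensorProduct.tmul_add]
        rw [show (D : R →ₗ[K] R) r' = D r' from rfl, show (D : R →ₗ[K] R) r = D r from rfl,
          mul_comm g' g]
  · intro g r
    rfl

/-- QB-18b. Proof.  `exists_gr` with `P = n`, `e = refl`, gives `G` and `γ : Gr K (n × Fin 2) G`.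
`C = G ⊗[K] MvPolynomial (Fin 2) K`, `m v w = γ.m v w ⊗ 1`, `nu i = 1 ⊗ X i`, `T a b = γ.T a b ⊗ id`
(`LinearMap.rTensor`, the Leibniz rule is checked on pure tensors; `Derivation.mk'`), `P i = id ⊗ pderiv i`
(`LinearMap.lTensor`), `lam = γ.I ⊗ ell` (`TensorProduct.lid`/`LinearMap.mul'` after `TensorProduct.map`),
`sc s = γ.sc s ⊗ id` (`Algebra.TensorProduct.map`).
All the conditions are checked on pure tensors. -/
theorem exists_gr2 (K : Type u) [Field K] [CharZero K] (n : Type v) [Fintype n] [DecidableEq n]
    (N : ℕ) :
    ∃ (C : Type (max u v)) (_ : CommRing C) (_ : Algebra K C)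
      (γ : Gr2 K (n × Fin 2) C (N : K)), γ.lam (∏ i : n, γ.m (i, 0) (i, 1)) = 1 := by
  obtain ⟨G, iG, aG, γ, hγ⟩ := exists_gr K (n × Fin 2) n (Equiv.refl _)
  obtain ⟨ell, hl1, hl2, hl3⟩ := exists_ell K N
  choose T hT using fun a b => BDCons_derivL (R := MvPolynomial (Fin 2) K) (γ.T a b)
  choose P hP using fun i : Fin 2 => BDCons_derivR (G := G)
    (MvPolynomial.pderiv i : Derivation K (MvPolynomial (Fin 2) K) (MvPolynomial (Fin 2) K))
  let lam : G ⊗[K] MvPolynomial (Fin 2) K →ₗ[K] K :=
    (TensorProduct.lid K K).toLinearMap ∘ₗ TensorProduct.map γ.I ell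
  have hlam : ∀ g r, lam (g ⊗ₜ r) = γ.I g * ell r := by
    intro g r
    simp [lam]
  have h2 : (2 : G ⊗[K] MvPolynomial (Fin 2) K) = (1 : G) ⊗ₜ (2 : MvPolynomial (Fin 2) K) := by
    have : (2 : MvPolynomial (Fin 2) K) = 1 + 1 := by norm_num
    rw [this, TensorProduct.tmul_add, ← Algebra.TensorProduct.one_def]
    norm_num
  have hC : ∀ (p : MvPolynomial (Fin 2) K) (g : G) (r : MvPolynomial (Fin 2) K),
      ((1 : G) ⊗ₜ[K] p) * (g ⊗ₜ[K] r) = g ⊗ₜ[K] (p * r) := by
    intro p g r
    rw [Algebra.TensorProduct.tmul_mul_tmul, one_mul]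
  have hA : (2 : G ⊗[K] MvPolynomial (Fin 2) K) + ((1 : G) ⊗ₜ[K] MvPolynomial.X 0) *
      ((1 : G) ⊗ₜ[K] MvPolynomial.X 1) = (1 : G) ⊗ₜ[K] (2 + MvPolynomial.X 0 * MvPolynomial.X 1) := by
    rw [hC, h2, TensorProduct.tmul_add]
  have hB : ∀ i : Fin 2, ((1 : G) ⊗ₜ[K] (MvPolynomial.X i : MvPolynomial (Fin 2) K)) ^ 2 =
      (1 : G) ⊗ₜ[K] (MvPolynomial.X i ^ 2) := by
    intro i
    rw [sq, hC, ← sq]
  let γ2 : Gr2 K (n × Fin 2) (G ⊗[K] MvPolynomial (Fin 2) K) (N : K) :=
    { m := fun v w => γ.m v w ⊗ₜ 1
      anti := fun v w => by rw [γ.anti, TensorProduct.neg_tmul]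
      cyc := fun a b c d => by
        rw [Algebra.TensorProduct.tmul_mul_tmul, γ.cyc, Algebra.TensorProduct.tmul_mul_tmul]
      T := T
      T_m := fun a b v w => by
        rw [hT, γ.T_m, TensorProduct.add_tmul]
        congr 1
        · split_ifs
          · rfl
          · exact TensorProduct.zero_tmul _ _
        · split_ifs
          · rfl
          · exact TensorProduct.zero_tmul _ _
      nu := fun i => 1 ⊗ₜ MvPolynomial.X i
      T_nu := fun a b i => by
        rw [hT, Derivation.map_one_eq_zero, TensorProduct.zero_tmul]
      P := P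
      P_nu := fun i j => by
        rw [hP, MvPolynomial.pderiv_X]
        by_cases h : i = j
        · subst h
          rw [Pi.single_eq_same, if_pos rfl, Algebra.TensorProduct.one_def]
        · rw [Pi.single_eq_of_ne (Ne.symm h), if_neg h, TensorProduct.tmul_zero]
      P_m := fun i v w => by
        rw [hP, Derivation.map_one_eq_zero, TensorProduct.tmul_zero]
      lam := lam
      lam_T := fun a b f => by
        induction f using TensorProduct.induction_on with
        | zero => simp
        | add x y hx hy =>
          rw [map_add, map_add, hx, hy, map_add]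
          split_ifs
          · rfl
          · rw [add_zero]
        | tmul g r =>
          rw [hT, hlam, γ.I_T, hlam]
          split_ifs
          · rfl
          · rw [zero_mul]
      lam_0 := fun f => by
        induction f using TensorProduct.induction_on with
        | zero => simp
        | add x y hx hy =>
          simp only [map_add, mul_add, smul_add] at hx hy ⊢
          linear_combination hx + hy
        | tmul g r =>
          have h3 := hl2 r
          rw [hP, hP, hA, hB, hC, hC, hC, ← TensorProduct.tmul_smul, ← TensorProduct.tmul_add,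
            ← TensorProduct.tmul_add, hlam, h3, mul_zero]
      lam_1 := fun f => by
        induction f using TensorProduct.induction_on with
        | zero => simp
        | add x y hx hy =>
          simp only [map_add, mul_add, smul_add] at hx hy ⊢
          linear_combination hx + hy
        | tmul g r =>
          have h3 := hl3 r
          rw [hP, hP, hA, hB, hC, hC, hC, ← TensorProduct.tmul_smul, ← TensorProduct.tmul_add,
            ← TensorProduct.tmul_add, hlam, h3, mul_zero]
      sc := fun s => Algebra.TensorProduct.map (γ.sc s) (AlgHom.id K _)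
      sc_m := fun s v w => by
        rw [Algebra.TensorProduct.map_tmul, γ.sc_m, map_one, TensorProduct.smul_tmul']
      sc_nu := fun s i => by
        rw [Algebra.TensorProduct.map_tmul, map_one]
        rfl
      lam_sc := fun s f => by
        induction f using TensorProduct.induction_on with
        | zero => simp
        | add x y hx hy => rw [map_add, map_add, hx, hy, map_add, mul_add]
        | tmul g r =>
          rw [Algebra.TensorProduct.map_tmul, hlam, γ.I_sc, hlam, AlgHom.id_apply, mul_assoc] }
  refine ⟨G ⊗[K] MvPolynomial (Fin 2) K, inferInstance, inferInstance, γ2, ?_⟩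
  have h3 : (∏ i : n, γ2.m (i, 0) (i, 1)) =
      (∏ i : n, γ.m (i, 0) (i, 1)) ⊗ₜ (1 : MvPolynomial (Fin 2) K) := by
    have h4 := map_prod (Algebra.TensorProduct.includeLeft (R := K) (S := K) (A := G)
      (B := MvPolynomial (Fin 2) K)) (fun i : n => γ.m (i, 0) (i, 1)) Finset.univ
    rw [Algebra.TensorProduct.includeLeft_apply] at h4
    rw [h4]
    rfl
  rw [h3]
  show lam _ = 1
  rw [hlam, hl1, mul_one]
  exact hγ

end Pool.Agent.helper74.QB
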