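import Pool.Agent.helper74.QB.GT

/-!
# QB-07. Commuting coefficients

`Ev : UP K g → B[X]` sends `X i x` to `π x * X^(i+1) + δ_{i0} ξ x`.  The coefficients of `Ev S` and
of `Ev S'` commute if `S` and `S'` are singular vectors.
-/

set_option autoImplicit false

namespace Pool.Agent.helper74.QB

open Polynomial TensorProduct

section

variable {K : Type*} [CommRing K] {g : Type*} [LieRing g] [LieAlgebra K g]
variable {B : Type*} [Ring B] [Algebra K B]

/-- the family defining the evaluation -/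
noncomputable def EvF (π : g →ₗ[K] B) (ξ : g →ₗ[K] K) (i : ℕ) : g →ₗ[K] B[X] :=
  ((Polynomial.monomial (i + 1) : B →ₗ[B] B[X]).restrictScalars K) ∘ₗ π +
    if i = 0 then (Algebra.linearMap K B[X]) ∘ₗ ξ else 0

theorem EvF_apply (π : g →ₗ[K] B) (ξ : g →ₗ[K] K) (i : ℕ) (x : g) :
    EvF π ξ i x = monomial (i + 1) (π x) + if i = 0 then algebraMap K B[X] (ξ x) else 0 := by
  unfold EvF
  split_ifs <;> simp

/-- QB-07a. Proof: `monomial_mul_monomial`, scalars commute; as `evF_isRep` in `GTmap.lean`. -/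
theorem EvF_isRep {π : g →ₗ[K] B} (hπ : IsLieMap π) (ξ : g →ₗ[K] K) :
    IsRep (EvF π ξ) := by
  intro i j x y
  have h1 : (monomial (i + 1) (π x) : B[X]) * monomial (j + 1) (π y) =
      monomial (j + 1) (π y) * monomial (i + 1) (π x) + monomial (i + j + 1 + 1) (π ⁅x, y⁆) := by
    have e1 : j + 1 + (i + 1) = i + 1 + (j + 1) := by omega
    have e2 : i + j + 1 + 1 = i + 1 + (j + 1) := by omega
    rw [monomial_mul_monomial, monomial_mul_monomial, e1, e2, ← map_add, ← hπ x y]
    congr 1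
    abel
  have h2 : ∀ (p : ℕ) (a : K) (z : B[X]), (if p = 0 then algebraMap K B[X] a else 0) * z =
      z * (if p = 0 then algebraMap K B[X] a else 0) := by
    intro p a z
    split_ifs
    · exact Algebra.commutes a z
    · simp
  have h3 : (if i + j + 1 = 0 then algebraMap K B[X] (ξ ⁅x, y⁆) else 0) = 0 := if_neg (by omega)
  have key : ∀ P Q Z s t : B[X], P * Q = Q * P + Z → (∀ z, s * z = z * s) →
      (∀ z, t * z = z * t) → (P + s) * (Q + t) = (Q + t) * (P + s) + Z := by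
    intro P Q Z s t hPQ hs ht
    rw [add_mul, mul_add, mul_add, hPQ, hs Q, hs t, add_mul, mul_add, mul_add, ht P]
    abel
  rw [EvF_apply, EvF_apply, EvF_apply, h3, add_zero]
  exact key _ _ _ _ _ h1 (h2 i (ξ x)) (h2 j (ξ y))

/-- the evaluation homomorphism with values in polynomials -/
noncomputable def Ev {π : g →ₗ[K] B} (hπ : IsLieMap π) (ξ : g →ₗ[K] K) :
    UP K g →ₐ[K] B[X] := lift (EvF π ξ) (EvF_isRep hπ ξ)

theorem Ev_X {π : g →ₗ[K] B} (hπ : IsLieMap π) (ξ : g →ₗ[K] K) (i : ℕ) (x : g) :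
    Ev hπ ξ (X K g i x) =
      monomial (i + 1) (π x) + if i = 0 then algebraMap K B[X] (ξ x) else 0 := by
  rw [Ev, lift_X, EvF_apply]

/-- functoriality in `B` -/
theorem map_Ev {π : g →ₗ[K] B} (hπ : IsLieMap π) (ξ : g →ₗ[K] K)
    {B' : Type*} [Ring B'] [Algebra K B'] (f : B →ₐ[K] B')
    (hπ' : IsLieMap (f.toLinearMap ∘ₗ π)) (w : UP K g) :
    Ev hπ' ξ w = Polynomial.map (f : B →+* B') (Ev hπ ξ w) := by
  have h : Ev hπ' ξ = (Polynomial.mapAlgHom f).comp (Ev hπ ξ) := by
    refine UP_hom_ext fun i x => ?_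
    rw [AlgHom.comp_apply, Ev_X, Ev_X, map_add]
    congr 1
    · simp
    · split_ifs
      · rw [AlgHom.commutes]
      · rw [map_zero]
  rw [h]
  rfl

end

variable {K : Type*} [Field K] [Infinite K] {g : Type*} [LieRing g] [LieAlgebra K g]
variable {B : Type*} [Ring B] [Algebra K B]

/-- The homomorphism `X ↦ c ⊗ 1` from `B[X]` to `R ⊗ B`. -/
noncomputable def GTpoly_Theta {R : Type*} [CommRing R] [Algebra K R] (c : R) :
    B[X] →ₐ[K] R ⊗[K] B :=
  { Polynomial.eval₂RingHom' (Algebra.TensorProduct.includeRight : B →ₐ[K] R ⊗[K] B).toRingHom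
      (c ⊗ₜ[K] (1 : B)) (fun b => by
        change (1 ⊗ₜ[K] b) * (c ⊗ₜ[K] (1 : B)) = (c ⊗ₜ[K] (1 : B)) * (1 ⊗ₜ[K] b)
        rw [Algebra.TensorProduct.tmul_mul_tmul, Algebra.TensorProduct.tmul_mul_tmul]
        simp) with
    commutes' := fun k => by
      change Polynomial.eval₂ _ _ (algebraMap K B[X] k) = _
      rw [Polynomial.algebraMap_apply, Polynomial.eval₂_C]
      exact AlgHom.commutes (Algebra.TensorProduct.includeRight : B →ₐ[K] R ⊗[K] B) k }

theorem GTpoly_Theta_apply {R : Type*} [CommRing R] [Algebra K R] (c : R) (P : B[X]) :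
    GTpoly_Theta (K := K) c P =
      ∑ a ∈ Finset.range (P.natDegree + 1), (c ^ a) ⊗ₜ[K] P.coeff a := by
  change Polynomial.eval₂ _ _ P = _
  rw [Polynomial.eval₂_eq_sum_range]
  refine Finset.sum_congr rfl fun a _ => ?_
  change (1 ⊗ₜ[K] P.coeff a) * (c ⊗ₜ[K] (1 : B)) ^ a = _
  rw [Algebra.TensorProduct.tmul_pow, Algebra.TensorProduct.tmul_mul_tmul]
  simp

theorem GTpoly_isLieMap {R : Type*} [CommRing R] [Algebra K R] {π : g →ₗ[K] B}
    (hπ : IsLieMap π) :
    IsLieMap ((Algebra.TensorProduct.includeRight : B →ₐ[K] R ⊗[K] B).toLinearMap ∘ₗ π) := by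
  intro x y
  simp only [LinearMap.comp_apply, AlgHom.toLinearMap_apply]
  rw [← hπ x y, map_sub, map_mul Algebra.TensorProduct.includeRight,
    map_mul Algebra.TensorProduct.includeRight]

theorem GTpoly_ev_eq {R : Type*} [CommRing R] [Algebra K R] {π : g →ₗ[K] B}
    (hπ : IsLieMap π) (ξ : g →ₗ[K] K) (c : R) (w : UP K g) :
    ev (GTpoly_isLieMap (R := R) hπ) ξ c w = GTpoly_Theta (K := K) c (Ev hπ ξ w) := by
  have h : ev (GTpoly_isLieMap (R := R) hπ) ξ c =
      (GTpoly_Theta (K := K) c).comp (Ev hπ ξ) := by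
    refine UP_hom_ext fun i x => ?_
    rw [AlgHom.comp_apply, ev_X, Ev_X, map_add]
    congr 1
    · change _ = Polynomial.eval₂ _ _ (monomial (i + 1) (π x))
      rw [Polynomial.eval₂_monomial]
      change c ^ (i + 1) • (1 ⊗ₜ[K] π x) = (1 ⊗ₜ[K] π x) * (c ⊗ₜ[K] (1 : B)) ^ (i + 1)
      rw [Algebra.TensorProduct.tmul_pow, Algebra.TensorProduct.tmul_mul_tmul,
        TensorProduct.smul_tmul', smul_eq_mul]
      simp
    · split_ifs
      · rw [AlgHom.commutes]
      · rw [map_zero]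
  rw [h]
  rfl

/-- A polynomial function with values in a vector space which vanishes outside `0` is zero. -/
theorem GTpoly_vandermonde (d : ℕ → B) (N : ℕ)
    (h : ∀ u₀ : K, u₀ ≠ 0 → ∑ a ∈ Finset.range N, u₀ ^ a • d a = 0) (a : ℕ) (ha : a < N) :
    d a = 0 := by
  rw [← Module.forall_dual_apply_eq_zero_iff K]
  intro φ
  have h1 : (∑ a ∈ Finset.range N, monomial a (φ (d a)) : K[X]) = 0 := by
    refine Polynomial.eq_zero_of_infinite_isRoot _ ?_
    refine Set.Infinite.mono (s := {u₀ : K | u₀ ≠ 0}) ?_ ?_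
    · intro u₀ hu₀
      have h2 := congrArg φ (h u₀ hu₀)
      rw [map_zero, map_sum] at h2
      change Polynomial.IsRoot _ _
      rw [Polynomial.IsRoot, Polynomial.eval_finsetSum, ← h2]
      refine Finset.sum_congr rfl fun a _ => ?_
      rw [Polynomial.eval_monomial, map_smul, smul_eq_mul, mul_comm]
    · exact (Set.finite_singleton (0 : K)).infinite_compl
  have h3 := congrArg (fun P : K[X] => P.coeff a) h1
  simp only [Polynomial.finsetSum_coeff, Polynomial.coeff_monomial, Polynomial.coeff_zero] at h3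
  rw [Finset.sum_ite_eq' (Finset.range N) a fun a => φ (d a)] at h3
  simpa [ha] using h3

/-- QB-07b (main point).  Proof.
Let `M = b + 1`, `R = K[X] ⧸ (X^M)`, `v` the class of `X`; `v ^ M = 0`.  For `u₀ : K`, `u₀ ≠ 0` let
`u = algebraMap K R u₀`.  `u - v` is a unit of `R` (unit minus nilpotent, `IsNilpotent.isUnit_..`);
`η = u * v * (u - v)⁻¹` satisfies `η ^ M = 0` and `u * v = η * (u - v)`.
Let `A = R ⊗[K] B` and `π' = includeRight ∘ π : g → A`, a Lie map.  For `c : R` let
`Θ c : B[X] →+* A` be `Polynomial.eval₂RingHom' includeRight (c ⊗ₜ 1) _`; it is a `K`-algebra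
homomorphism and `ev hπ' ξ c = Θ c ∘ Ev hπ ξ` by `UP_hom_ext` (`ev_X`, `Ev_X`, `c • (1 ⊗ₜ b) = c ⊗ₜ b`).
`two_point κ hκ hπ' ξ hη huv hS hS'` (file `GT.lean`) gives
`Θ u (Ev S) * Θ v (Ev S') = Θ v (Ev S') * Θ u (Ev S)`, where `Θ u (Ev S) = 1 ⊗ₜ p(u₀)`,
`p(u₀) = ∑_a u₀^a • (Ev S).coeff a` and `Θ v (Ev S') = ∑_j v^j ⊗ₜ (Ev S').coeff j`.  Apply the linear map
`R ⊗ B → B` given by the `b`-th coefficient `R → K` (`v^j ↦ δ_{jb}` for all `j`, since `b < M`):
`p(u₀) * (Ev S').coeff b = (Ev S').coeff b * p(u₀)` for all `u₀ ≠ 0`.  The polynomial (with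
coefficients in `B`) `∑_a (q_a * q' - q' * q_a) X^a`, `q_a = (Ev S).coeff a`, `q' = (Ev S').coeff b`,
vanishes at infinitely many scalars, so it is zero (apply a linear functional of `B` which does not vanish on a
given coefficient, or multiply: Vandermonde): all coefficients are zero. -/
theorem Ev_coeff_comm (κ : g →ₗ[K] g →ₗ[K] K) (hκ : IsInv κ) {π : g →ₗ[K] B} (hπ : IsLieMap π)
    (ξ : g →ₗ[K] K) {S S' : UP K g} (hS : IsSS κ hκ S) (hS' : IsSS κ hκ S') (a b : ℕ) :
    (Ev hπ ξ S).coeff a * (Ev hπ ξ S').coeff b = (Ev hπ ξ S').coeff b * (Ev hπ ξ S).coeff a := by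
  set P := Ev hπ ξ S with hP
  set Q := Ev hπ ξ S' with hQ
  -- the truncated polynomial ring
  have hmon : (Polynomial.X ^ (b + 1) : K[X]).Monic := Polynomial.monic_X_pow _
  set v : AdjoinRoot (Polynomial.X ^ (b + 1) : K[X]) := AdjoinRoot.root _ with hv
  have hvM : v ^ (b + 1) = 0 := by
    have h := AdjoinRoot.eval₂_root (Polynomial.X ^ (b + 1) : K[X])
    rwa [Polynomial.eval₂_pow, Polynomial.eval₂_X] at h
  have hvj : ∀ j, b + 1 ≤ j → v ^ j = 0 := fun j hj => by
    obtain ⟨k, hk⟩ := Nat.exists_eq_add_of_le hj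
    have h0 : v ^ (b + 1 + k) = 0 := by rw [pow_add v (b + 1) k, hvM, zero_mul]
    rw [hk]
    exact h0
  let pb := AdjoinRoot.powerBasis' hmon
  have hdim : pb.dim = b + 1 := by
    change (Polynomial.X ^ (b + 1) : K[X]).natDegree = b + 1
    rw [Polynomial.natDegree_X_pow]
  have hgen : pb.gen = v := rfl
  let lam : AdjoinRoot (Polynomial.X ^ (b + 1) : K[X]) →ₗ[K] K :=
    pb.basis.coord ⟨b, by omega⟩
  have hlam : ∀ j, lam (v ^ j) = if j = b then 1 else 0 := by
    intro j
    by_cases hj : j < b + 1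
    · have h1 : v ^ j = pb.basis ⟨j, by omega⟩ := by
        rw [PowerBasis.basis_eq_pow, hgen]
      rw [h1]
      simp only [lam, Module.Basis.coord_apply, Module.Basis.repr_self, Finsupp.single_apply,
        Fin.mk.injEq]
    · rw [hvj j (by omega), map_zero, if_neg (by omega)]
  -- the coefficient map
  let Lam : AdjoinRoot (Polynomial.X ^ (b + 1) : K[X]) ⊗[K] B →ₗ[K] B :=
    (TensorProduct.lid K B).toLinearMap ∘ₗ LinearMap.rTensor B lam
  have hLam : ∀ (c : AdjoinRoot (Polynomial.X ^ (b + 1) : K[X])) (y : B),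
      Lam (c ⊗ₜ[K] y) = lam c • y := by
    intro c y
    simp [Lam]
  have main : ∀ u₀ : K, u₀ ≠ 0 →
      ∑ a ∈ Finset.range (P.natDegree + 1), u₀ ^ a • (P.coeff a * Q.coeff b -
        Q.coeff b * P.coeff a) = 0 := by
    intro u₀ hu₀
    set u : AdjoinRoot (Polynomial.X ^ (b + 1) : K[X]) := algebraMap K _ u₀ with hu
    have hunit : IsUnit (u - v) := by
      have h1 : IsUnit u := (isUnit_iff_ne_zero.2 hu₀).map (algebraMap K _)
      have h2 : IsNilpotent (-v) := IsNilpotent.neg ⟨b + 1, hvM⟩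
      have h3 := h2.isUnit_add_left_of_commute h1 (Commute.all _ _)
      rwa [← sub_eq_add_neg] at h3
    obtain ⟨w, hw⟩ := hunit.exists_left_inv
    have hη : (u * v * w) ^ (b + 1) = 0 := by
      rw [mul_pow, mul_pow, hvM, mul_zero, zero_mul]
    have huv : u * v = (u * v * w) * (u - v) := by
      rw [mul_assoc (u * v) w, hw, mul_one]
    have h4 := two_point κ hκ (GTpoly_isLieMap
      (R := AdjoinRoot (Polynomial.X ^ (b + 1) : K[X])) hπ) ξ hη huv hS hS'
    rw [GTpoly_ev_eq hπ ξ u S, GTpoly_ev_eq hπ ξ v S', ← hP, ← hQ] at h4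
    have h5 : GTpoly_Theta (K := K) u P =
        1 ⊗ₜ[K] (∑ a ∈ Finset.range (P.natDegree + 1), u₀ ^ a • P.coeff a) := by
      rw [GTpoly_Theta_apply, TensorProduct.tmul_sum]
      refine Finset.sum_congr rfl fun a _ => ?_
      rw [hu, ← map_pow, Algebra.algebraMap_eq_smul_one, TensorProduct.smul_tmul]
    set p := ∑ a ∈ Finset.range (P.natDegree + 1), u₀ ^ a • P.coeff a with hp
    rw [h5, GTpoly_Theta_apply, Finset.mul_sum, Finset.sum_mul] at h4
    simp only [Algebra.TensorProduct.tmul_mul_tmul, one_mul, mul_one] at h4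
    have h6 := congrArg Lam h4
    simp only [map_sum, hLam, hlam, ite_smul, one_smul, zero_smul] at h6
    have hsel : ∀ F : ℕ → B, (∀ j, Q.natDegree < j → F j = 0) →
        ∑ j ∈ Finset.range (Q.natDegree + 1), (if j = b then F j else 0) = F b := by
      intro F hF
      rw [Finset.sum_ite_eq' (Finset.range (Q.natDegree + 1)) b F]
      split_ifs with hb
      · rfl
      · rw [hF b (by simpa using hb)]
    rw [hsel (fun j => p * Q.coeff j) (fun j hj => by
        simp [Polynomial.coeff_eq_zero_of_natDegree_lt hj]),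
      hsel (fun j => Q.coeff j * p) (fun j hj => by
        simp [Polynomial.coeff_eq_zero_of_natDegree_lt hj])] at h6
    have h7 : ∑ a ∈ Finset.range (P.natDegree + 1), u₀ ^ a • (P.coeff a * Q.coeff b -
        Q.coeff b * P.coeff a) = p * Q.coeff b - Q.coeff b * p := by
      rw [hp, Finset.sum_mul, Finset.mul_sum, ← Finset.sum_sub_distrib]
      refine Finset.sum_congr rfl fun a _ => ?_
      rw [smul_sub, smul_mul_assoc, mul_smul_comm]
    rw [h7, h6, sub_self]
  by_cases ha : a < P.natDegree + 1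
  · have h8 := GTpoly_vandermonde (fun a => P.coeff a * Q.coeff b - Q.coeff b * P.coeff a)
      (P.natDegree + 1) main a ha
    exact sub_eq_zero.1 h8
  · have h9 : P.coeff a = 0 := Polynomial.coeff_eq_zero_of_natDegree_lt (by omega)
    rw [h9, zero_mul, mul_zero]

end Pool.Agent.helper74.QB
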