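import Pool.Agent.helper74.QB.AdLemma
import Pool.Agent.helper74.QB.GTpoly

/-!
# QB-27. The antipode and the evaluation
-/

set_option autoImplicit false

namespace Pool.Agent.helper74.QB

open Polynomial

variable {K : Type*} [Field K] {g : Type*} [LieRing g] [LieAlgebra K g]
variable {B : Type*} [Ring B] [Algebra K B]

private theorem EvPar_sP_one : sP K g 1 = 1 := by
  change MulOpposite.unop (lift (sPF K g) (sPF_isRep K g) 1) = 1
  rw [map_one, MulOpposite.unop_one]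

private theorem EvPar_sP_X_mul (i : ℕ) (x : g) (u : UP K g) :
    sP K g (X K g i x * u) = sP K g u * (- X K g i x) := by
  change MulOpposite.unop (lift (sPF K g) (sPF_isRep K g) (X K g i x * u)) =
    MulOpposite.unop (lift (sPF K g) (sPF_isRep K g) u) * (- X K g i x)
  rw [map_mul, MulOpposite.unop_mul, lift_X]
  rfl

/-- products of coefficientwise reversed polynomials -/
private theorem EvPar_rev_mul (σ : B →ₐ[K] Bᵐᵒᵖ) {P P' Q Q' : B[X]}
    (hP : ∀ a, σ (P.coeff a) = MulOpposite.op (P'.coeff a))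
    (hQ : ∀ a, σ (Q.coeff a) = MulOpposite.op (Q'.coeff a)) (a : ℕ) :
    σ ((P * Q).coeff a) = MulOpposite.op ((Q' * P').coeff a) := by
  have hop : ∀ (s : Finset (ℕ × ℕ)) (f : ℕ × ℕ → B),
      MulOpposite.op (∑ p ∈ s, f p) = ∑ p ∈ s, MulOpposite.op (f p) := fun s f =>
    map_sum (MulOpposite.opAddEquiv : B ≃+ Bᵐᵒᵖ) f s
  rw [coeff_mul, coeff_mul, map_sum, ← Finset.Nat.sum_antidiagonal_swap, hop]
  refine Finset.sum_congr rfl fun p _ => ?_
  rw [map_mul, hP, hQ, MulOpposite.op_mul]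
  rfl

private theorem EvPar_sign_mul {P P' Q Q' : B[X]}
    (hP : ∀ a, P.coeff a = ((-1 : K) ^ a) • P'.coeff a)
    (hQ : ∀ a, Q.coeff a = ((-1 : K) ^ a) • Q'.coeff a) (a : ℕ) :
    (P * Q).coeff a = ((-1 : K) ^ a) • (P' * Q').coeff a := by
  rw [coeff_mul, coeff_mul, Finset.smul_sum]
  refine Finset.sum_congr rfl fun p hp => ?_
  rw [hP, hQ, smul_mul_smul_comm, ← pow_add, Finset.HasAntidiagonal.mem_antidiagonal.1 hp]

private theorem EvPar_coeff_X {π : g →ₗ[K] B} (hπ : IsLieMap π) (ξ : g →ₗ[K] K) (i : ℕ) (x : g)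
    (a : ℕ) : (Ev hπ ξ (X K g i x)).coeff a =
      (if i + 1 = a then π x else 0) + if i = 0 ∧ a = 0 then algebraMap K B (ξ x) else 0 := by
  rw [Ev_X, coeff_add, coeff_monomial]
  congr 1
  by_cases hi : i = 0
  · rw [if_pos hi, Polynomial.algebraMap_apply, coeff_C]
    by_cases ha : a = 0
    · rw [if_pos ha, if_pos ⟨hi, ha⟩]
    · rw [if_neg ha, if_neg fun h => ha h.2]
  · rw [if_neg hi, if_neg fun h => hi h.1, coeff_zero]

private theorem EvPar_rev {π : g →ₗ[K] B} (hπ : IsLieMap π) (ξ : g →ₗ[K] K)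
    (σ : B →ₐ[K] Bᵐᵒᵖ) (hσ : ∀ x, σ (π x) = - MulOpposite.op (π x)) (w : UP K g) :
    ∀ a, σ ((Ev hπ ξ w).coeff a) = MulOpposite.op ((Ev hπ (-ξ) (sP K g w)).coeff a) := by
  refine UP_ind (p := fun w => ∀ a, σ ((Ev hπ ξ w).coeff a) =
    MulOpposite.op ((Ev hπ (-ξ) (sP K g w)).coeff a)) ?_ ?_ ?_ ?_ ?_ w
  · intro a
    simp
  · intro a
    rw [EvPar_sP_one, map_one, map_one, coeff_one]
    split_ifs <;> simp
  · intro u v hu hv a
    rw [map_add, map_add, map_add, coeff_add, coeff_add, map_add, hu, hv, MulOpposite.op_add]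
  · intro c u hu a
    rw [map_smul, map_smul, map_smul, coeff_smul, coeff_smul, map_smul, hu, MulOpposite.op_smul]
  · intro i x u hu a
    rw [EvPar_sP_X_mul, map_mul, map_mul]
    refine EvPar_rev_mul σ ?_ hu a
    intro b
    rw [map_neg, coeff_neg, EvPar_coeff_X, EvPar_coeff_X, map_add]
    by_cases h1 : i + 1 = b
    · have h2 : ¬ (i = 0 ∧ b = 0) := by omega
      simp only [if_pos h1, if_neg h2, map_zero, add_zero, hσ, MulOpposite.op_neg]
    · by_cases h2 : i = 0 ∧ b = 0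
      · simp only [if_neg h1, if_pos h2, map_zero, zero_add, AlgHom.commutes, LinearMap.neg_apply,
          map_neg, neg_neg]
        rfl
      · simp only [if_neg h1, if_neg h2, map_zero, add_zero, neg_zero, MulOpposite.op_zero]

private theorem EvPar_sign {π : g →ₗ[K] B} (hπ : IsLieMap π) (ξ : g →ₗ[K] K) (w : UP K g) :
    ∀ a, (Ev hπ (-ξ) w).coeff a = ((-1 : K) ^ a) • (Ev hπ ξ (tauP K g w)).coeff a := by
  refine UP_ind (p := fun w => ∀ a, (Ev hπ (-ξ) w).coeff a =
    ((-1 : K) ^ a) • (Ev hπ ξ (tauP K g w)).coeff a) ?_ ?_ ?_ ?_ ?_ w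
  · intro a
    simp
  · intro a
    rw [map_one, map_one, map_one, coeff_one]
    split_ifs with h
    · rw [h, pow_zero, one_smul]
    · rw [smul_zero]
  · intro u v hu hv a
    rw [map_add, map_add, map_add, coeff_add, coeff_add, smul_add, hu, hv]
  · intro c u hu a
    rw [map_smul, map_smul, map_smul, coeff_smul, coeff_smul, hu, smul_comm]
  · intro i x u hu a
    rw [map_mul, map_mul, map_mul]
    refine EvPar_sign_mul ?_ hu a
    intro b
    have ht : tauP K g (X K g i x) = ((-1 : K) ^ (i + 1)) • X K g i x := by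
      exact lift_X _ _ i x
    rw [ht, map_smul, coeff_smul, EvPar_coeff_X, EvPar_coeff_X, smul_smul, ← pow_add]
    by_cases h1 : i + 1 = b
    · have h2 : ¬ (i = 0 ∧ b = 0) := by omega
      have h3 : (-1 : K) ^ (b + (i + 1)) = 1 := by
        rw [h1, ← two_mul, pow_mul]
        simp
      simp only [if_pos h1, if_neg h2, add_zero, h3, one_smul]
    · by_cases h2 : i = 0 ∧ b = 0
      · have h3 : (-1 : K) ^ (b + (i + 1)) = -1 := by
          rw [h2.1, h2.2]
          simp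
        simp only [if_neg h1, if_pos h2, zero_add, h3, LinearMap.neg_apply, map_neg, neg_smul,
          one_smul]
      · simp only [if_neg h1, if_neg h2, add_zero, smul_zero]

/-- QB-27. `σ` is an anti-automorphism of `B` with `σ(π x) = - π x`.  Proof.  Let `σ'` be `σ` applied to the
coefficients (`B[X] → B[X]`, it reverses products because `X` is central).
(1) `σ' (Ev ξ w) = Ev (-ξ) (sP w)` for all `w` (`UP_ind`; on `X i x * w'`:
`σ'(monomial (i+1) (π x) + δ ξ x) = - monomial (i+1) (π x) + δ ξ x = Ev (-ξ) (- X i x)`).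
(2) `Ev (-ξ) w = (Ev ξ (tauP w)) ∘ (X ↦ -X)`: both sides are algebra homomorphisms of `w`, `UP_hom_ext`:
`monomial (i+1) (π x) - δ ξ x = (-1)^(i+1) ((-1)^(i+1) monomial (i+1) (π x) + δ ξ x)`.
So if `sP S = (-1)^k S` and `tauP S = (-1)^k S`, then
`σ (coeff a (Ev ξ S)) = (-1)^k coeff a (Ev (-ξ) S) = (-1)^k (-1)^k (-1)^a coeff a (Ev ξ S)`. -/
theorem sigma_coeff {π : g →ₗ[K] B} (hπ : IsLieMap π) (ξ : g →ₗ[K] K)
    (σ : B →ₐ[K] Bᵐᵒᵖ) (hσ : ∀ x, σ (π x) = - MulOpposite.op (π x))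
    {S : UP K g} {k : ℕ} (hS : sP K g S = ((-1 : K) ^ k) • S)
    (hS' : tauP K g S = ((-1 : K) ^ k) • S) (a : ℕ) :
    σ ((Ev hπ ξ S).coeff a) = ((-1 : K) ^ a) • MulOpposite.op ((Ev hπ ξ S).coeff a) := by
  rw [EvPar_rev hπ ξ σ hσ S a, hS, map_smul, coeff_smul, EvPar_sign hπ ξ S a, hS', map_smul,
    coeff_smul, smul_smul, smul_smul, MulOpposite.op_smul]
  congr 1
  have : (-1 : K) ^ k * (-1) ^ k = 1 := by
    rw [← pow_add, ← two_mul, pow_mul]
    simp
  calc (-1 : K) ^ k * (-1) ^ a * (-1) ^ k = (-1) ^ a * ((-1) ^ k * (-1) ^ k) := by ring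
    _ = (-1) ^ a := by rw [this, mul_one]

end Pool.Agent.helper74.QB
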