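import Pool.Agent.helper74.QB.BDlam

/-!
# QB-17. The singular vectors of type B, D
-/

set_option autoImplicit false

namespace Pool.Agent.helper74.QB

open Finset Matrix LieAlgebra.Orthogonal

variable {K : Type*} [Field K] [CharZero K] {n : Type*} [Fintype n] [DecidableEq n]
variable {C : Type*} [CommRing C] [Algebra K C]

namespace Gr2

variable {μ : K} (γ : Gr2 K (n × Fin 2) C μ)

/-- the singular vector `S_k`, `N + k = card n` -/
noncomputable def SV (N k : ℕ) : UP K (so n K) := lamU (γ.lamth N) (Psi (hso γ.F) k)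

/-- QB-17k. -/
theorem SV_isSS (N : ℕ) (hμ : μ = N) (hn : 3 ≤ Fintype.card n) (k : ℕ) :
    IsSS (kso K n) (kso_isInv K n) (γ.SV N k) :=
  isSS_so γ.grp hn (fun x => ⟨γ.D0 x, γ.D0_F x, γ.lam_D0 N x⟩)
    (fun x => ⟨γ.D x, γ.D_F x, γ.lam_D N hμ x⟩) k

end Gr2

end Pool.Agent.helper74.QB
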