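import Mathlib

/-!
# QB-10. Logarithmic derivatives of power series over a noncommutative ring

`M` is a ring, `F`, `F'` are the coefficients of two power series which are inverse to each other.
`hh` are the coefficients of `θ(F) F'` (shifted by one), `θ = T d/dT`; `xx` are the coefficients of
`F x F'`.
-/

set_option autoImplicit false

namespace Pool.Agent.helper74.QB

open Finset

variable {M : Type*} [Ring M]

/-- `F` and `F'` are the coefficients of mutually inverse power series with constant term `1` -/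
structure Grp (F F' : ℕ → M) : Prop where
  zero : F 0 = 1
  zero' : F' 0 = 1
  mul : ∀ n : ℕ, ∑ p ∈ antidiagonal (n + 1), F p.1 * F' p.2 = 0
  mul' : ∀ n : ℕ, ∑ p ∈ antidiagonal (n + 1), F' p.1 * F p.2 = 0

/-- the coefficient of `T^(n+1)` in `(T dF/dT) F'` -/
def hh (F F' : ℕ → M) (n : ℕ) : M :=
  ∑ p ∈ antidiagonal n, ((p.1 + 1 : ℕ) : M) * F (p.1 + 1) * F' p.2

/-- the coefficient of `T^n` in `F x F'` -/
def xx (F F' : ℕ → M) (x : M) (n : ℕ) : M :=
  ∑ p ∈ antidiagonal n, F p.1 * x * F' p.2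

/-! ### power series -/

/-- `θ = T d/dT` -/
noncomputable def psTheta (f : PowerSeries M) : PowerSeries M :=
  PowerSeries.mk fun n => (n : M) * PowerSeries.coeff n f

/-- an additive map acting on the coefficients -/
noncomputable def psMap (D : M →+ M) (f : PowerSeries M) : PowerSeries M :=
  PowerSeries.mk fun n => D (PowerSeries.coeff n f)

theorem coeff_psTheta (f : PowerSeries M) (n : ℕ) :
    PowerSeries.coeff n (psTheta f) = (n : M) * PowerSeries.coeff n f := by
  simp [psTheta]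

theorem coeff_psMap (D : M →+ M) (f : PowerSeries M) (n : ℕ) :
    PowerSeries.coeff n (psMap D f) = D (PowerSeries.coeff n f) := by
  simp [psMap]

theorem psTheta_add (f g : PowerSeries M) : psTheta (f + g) = psTheta f + psTheta g := by
  ext n; simp [coeff_psTheta, mul_add]

theorem psTheta_sub (f g : PowerSeries M) : psTheta (f - g) = psTheta f - psTheta g := by
  ext n; simp [coeff_psTheta, mul_sub]

theorem psTheta_mul (f g : PowerSeries M) : psTheta (f * g) = psTheta f * g + f * psTheta g := by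
  ext n
  rw [coeff_psTheta, map_add, PowerSeries.coeff_mul, PowerSeries.coeff_mul, PowerSeries.coeff_mul,
    Finset.mul_sum, ← Finset.sum_add_distrib]
  refine Finset.sum_congr rfl fun p hp => ?_
  rw [coeff_psTheta, coeff_psTheta]
  have h : p.1 + p.2 = n := by simpa using hp
  rw [← h, Nat.cast_add, add_mul, mul_assoc, ← mul_assoc (PowerSeries.coeff p.1 f) (p.2 : M),
    ← Nat.cast_comm, mul_assoc]

theorem psTheta_C (x : M) : psTheta (PowerSeries.C x) = 0 := by
  ext n
  rw [coeff_psTheta, PowerSeries.coeff_C]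
  by_cases h : n = 0
  · simp [h]
  · simp [h]

theorem psTheta_one : psTheta (1 : PowerSeries M) = 0 := by
  have := psTheta_C (1 : M)
  simpa using this

theorem psTheta_X : psTheta (PowerSeries.X : PowerSeries M) = PowerSeries.X := by
  ext n
  rw [coeff_psTheta, PowerSeries.coeff_X]
  by_cases h : n = 1
  · simp [h]
  · simp [h]

theorem psMap_mul {D : M →+ M} (hD : ∀ a b, D (a * b) = D a * b + a * D b)
    (f g : PowerSeries M) : psMap D (f * g) = psMap D f * g + f * psMap D g := by
  ext n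
  rw [coeff_psMap, map_add, PowerSeries.coeff_mul, PowerSeries.coeff_mul, PowerSeries.coeff_mul,
    map_sum, ← Finset.sum_add_distrib]
  refine Finset.sum_congr rfl fun p hp => ?_
  rw [coeff_psMap, coeff_psMap, hD]

theorem psMap_C {D : M →+ M} {x : M} (hx : D x = 0) : psMap D (PowerSeries.C x) = 0 := by
  ext n
  rw [coeff_psMap, PowerSeries.coeff_C]
  by_cases h : n = 0
  · simp [h, hx]
  · simp [h]

theorem D_one {D : M →+ M} (hD : ∀ a b, D (a * b) = D a * b + a * D b) : D 1 = 0 := by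
  have h := hD 1 1
  simp only [mul_one, one_mul] at h
  have h2 : D 1 + D 1 = D 1 + 0 := by rw [add_zero]; exact h.symm
  exact add_left_cancel h2

theorem psMap_one {D : M →+ M} (hD : ∀ a b, D (a * b) = D a * b + a * D b) :
    psMap D (1 : PowerSeries M) = 0 := by
  have := psMap_C (D_one hD)
  simpa using this

theorem psMap_psTheta {D : M →+ M} (f : PowerSeries M) :
    psMap D (psTheta f) = psTheta (psMap D f) := by
  ext n
  rw [coeff_psMap, coeff_psTheta, coeff_psTheta, coeff_psMap, ← nsmul_eq_mul, map_nsmul,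
    nsmul_eq_mul]

/-- the two power series -/
noncomputable def ps (F : ℕ → M) : PowerSeries M := PowerSeries.mk F

theorem coeff_ps (F : ℕ → M) (n : ℕ) : PowerSeries.coeff n (ps F) = F n := by
  simp [ps]

theorem ps_mul {F F' : ℕ → M} (H : Grp F F') : ps F * ps F' = 1 := by
  ext n
  rw [PowerSeries.coeff_mul, PowerSeries.coeff_one]
  simp only [coeff_ps]
  cases n with
  | zero => simp [H.zero, H.zero']
  | succ n => rw [H.mul n]; simp

theorem ps_mul' {F F' : ℕ → M} (H : Grp F F') : ps F' * ps F = 1 := by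
  ext n
  rw [PowerSeries.coeff_mul, PowerSeries.coeff_one]
  simp only [coeff_ps]
  cases n with
  | zero => simp [H.zero, H.zero']
  | succ n => rw [H.mul' n]; simp

/-- `θ(F) F'` -/
noncomputable def psH (F F' : ℕ → M) : PowerSeries M := psTheta (ps F) * ps F'

/-- `F x F'` -/
noncomputable def psX (F F' : ℕ → M) (x : M) : PowerSeries M := ps F * PowerSeries.C x * ps F'

theorem coeff_psH_zero (F F' : ℕ → M) : PowerSeries.coeff 0 (psH F F') = 0 := by
  simp [psH, psTheta]

theorem coeff_psH_succ (F F' : ℕ → M) (n : ℕ) :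
    PowerSeries.coeff (n + 1) (psH F F') = hh F F' n := by
  rw [psH, PowerSeries.coeff_mul, Finset.Nat.sum_antidiagonal_succ, hh]
  simp only [coeff_psTheta, coeff_ps]
  simp

theorem coeff_psX (F F' : ℕ → M) (x : M) (n : ℕ) :
    PowerSeries.coeff n (psX F F' x) = xx F F' x n := by
  rw [psX, PowerSeries.coeff_mul, xx]
  refine Finset.sum_congr rfl fun p hp => ?_
  rw [coeff_ps, PowerSeries.coeff_mul_C, coeff_ps]

theorem psTheta_inv {F F' : ℕ → M} (H : Grp F F') :
    ps F * psTheta (ps F') = - psH F F' := by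
  have h := congrArg psTheta (ps_mul H)
  rw [psTheta_mul, psTheta_one] at h
  exact eq_neg_of_add_eq_zero_right h

theorem psTheta_inv' {F F' : ℕ → M} (H : Grp F F') :
    psTheta (ps F') = - (ps F' * psH F F') := by
  have h := psTheta_inv H
  have h2 := congrArg (fun y => ps F' * y) h
  simp only [← mul_assoc, ps_mul' H, one_mul, mul_neg] at h2
  exact h2

theorem psH_mul {F F' : ℕ → M} (H : Grp F F') : psH F F' * ps F = psTheta (ps F) := by
  rw [psH, mul_assoc, ps_mul' H, mul_one]

theorem psTheta_psX {F F' : ℕ → M} (H : Grp F F') (x : M) :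
    psTheta (psX F F' x) = psH F F' * psX F F' x - psX F F' x * psH F F' := by
  have e1 : psTheta (psX F F' x) = psTheta (ps F) * PowerSeries.C x * ps F' +
      ps F * PowerSeries.C x * psTheta (ps F') := by
    rw [psX, psTheta_mul, psTheta_mul, psTheta_C, mul_zero, add_zero]
  have e2 : psTheta (ps F) * PowerSeries.C x * ps F' = psH F F' * psX F F' x := by
    rw [psX, ← mul_assoc, ← mul_assoc, psH_mul H]
  have e3 : ps F * PowerSeries.C x * psTheta (ps F') = - (psX F F' x * psH F F') := by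
    rw [psTheta_inv' H, psX, mul_neg, mul_assoc, mul_assoc, mul_assoc]
  rw [e1, e2, e3, sub_eq_add_neg]

/-- QB-10a. -/
theorem hh_zero {F F' : ℕ → M} (H : Grp F F') : hh F F' 0 = F 1 := by
  simp [hh, H.zero']

theorem xx_zero {F F' : ℕ → M} (H : Grp F F') (x : M) : xx F F' x 0 = x := by
  simp [xx, H.zero, H.zero']

/-- QB-10b. Proof.  Work in `PowerSeries M` (a ring; `M` need not be commutative): `𝓕 = PowerSeries.mk F`,
`𝓕' = PowerSeries.mk F'`, `𝓕 * 𝓕' = 1 = 𝓕' * 𝓕`.  Let `θ f = PowerSeries.mk fun n => (n : M) * coeff n f`; it is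
additive and satisfies the Leibniz rule (`coeff_mul`, `n = p.1 + p.2` on the antidiagonal, `Nat.cast`s are
central).  `𝓱 = θ 𝓕 * 𝓕'` has coefficients `0` (at `0`), `hh F F' n` (at `n + 1`).  From `θ(𝓕 * 𝓕') = 0` one gets
`θ 𝓕' = - 𝓕' * θ 𝓕 * 𝓕'`, so for `𝔁 = 𝓕 * C x * 𝓕'`: `θ 𝔁 = 𝓱 * 𝔁 - 𝔁 * 𝓱`.  Compare the coefficients of
`T^(n+1)`. -/
theorem xx_succ {F F' : ℕ → M} (H : Grp F F') (x : M) (n : ℕ) :
    ((n + 1 : ℕ) : M) * xx F F' x (n + 1) =
      ∑ p ∈ antidiagonal n, (hh F F' p.1 * xx F F' x p.2 - xx F F' x p.2 * hh F F' p.1) := by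
  have h := congrArg (PowerSeries.coeff (n + 1)) (psTheta_psX H x)
  rw [coeff_psTheta, coeff_psX, map_sub, PowerSeries.coeff_mul, PowerSeries.coeff_mul,
    Finset.Nat.sum_antidiagonal_succ, Finset.Nat.sum_antidiagonal_succ'] at h
  rw [h]
  simp only [coeff_psH_zero, coeff_psH_succ, coeff_psX, zero_mul, mul_zero, zero_add]
  rw [Finset.sum_sub_distrib]
  congr 1
  rw [← Finset.Nat.sum_antidiagonal_swap]
  rfl

/-- QB-10c. Proof, with the notation of `xx_succ`; `D` acts on power series coefficientwise (a derivation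
`𝓓`, commuting with `θ`; `𝓓 (C x) = 0`).  The hypothesis says `T * 𝓓 𝓕 = C x * 𝓕 - 𝓕 * 𝓥`,
`𝓥 = C x + T * C (x * F 1 - F 1 * x)` (coefficient of `T^0`: `0 = x F_0 - F_0 x`; coefficient of `T^(n+1)`:
the hypothesis).  `θ 𝓥 = 𝓥 - C x`.  Apply `θ`:
`T * 𝓓 𝓕 + T * θ (𝓓 𝓕) = C x * θ 𝓕 - θ 𝓕 * 𝓥 - 𝓕 * (𝓥 - C x)`.  Then
`𝓓 𝓱 = θ (𝓓 𝓕) * 𝓕' - 𝓱 * 𝓓 𝓕 * 𝓕'`, and
`T * θ (𝓓 𝓕) * 𝓕' = C x * 𝓱 - θ 𝓕 * 𝓥 * 𝓕' - 𝓕 * 𝓥 * 𝓕' + 𝔁 - (C x - 𝓕 * 𝓥 * 𝓕')`,
`𝓱 * (T * 𝓓 𝓕) * 𝓕' = 𝓱 * C x - θ 𝓕 * 𝓥 * 𝓕'` (using `𝓱 * 𝓕 = θ 𝓕`),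
so `T * 𝓓 𝓱 = C x * 𝓱 - 𝓱 * C x + 𝔁 - C x`.  The coefficient of `T^(n+2)` is the claim. -/
theorem D_hh {F F' : ℕ → M} (H : Grp F F') (x : M) (D : M →+ M)
    (hD : ∀ a b, D (a * b) = D a * b + a * D b) (hx : D x = 0)
    (hF : ∀ n : ℕ, D (F n) = x * F (n + 1) - F (n + 1) * x - F n * (x * F 1 - F 1 * x)) (n : ℕ) :
    D (hh F F' n) = x * hh F F' (n + 1) - hh F F' (n + 1) * x + xx F F' x (n + 2) := by
  set c : M := x * F 1 - F 1 * x with hc
  set V : PowerSeries M := PowerSeries.C x + PowerSeries.X * PowerSeries.C c with hV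
  set f := ps F with hf
  set f' := ps F' with hf'
  set h := psH F F' with hh0
  have m1 : f * f' = 1 := ps_mul H
  have m2 : f' * f = 1 := ps_mul' H
  -- the hypothesis as an identity of power series
  have hyp : PowerSeries.X * psMap D f = PowerSeries.C x * f - f * V := by
    ext k
    cases k with
    | zero =>
      rw [PowerSeries.coeff_zero_X_mul, map_sub, PowerSeries.coeff_C_mul, hV, mul_add, map_add,
        PowerSeries.coeff_mul_C, ← mul_assoc, PowerSeries.coeff_mul_C]
      simp [hf, coeff_ps, H.zero]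
    | succ k =>
      rw [PowerSeries.coeff_succ_X_mul, coeff_psMap, map_sub, PowerSeries.coeff_C_mul, hV, mul_add,
        map_add, PowerSeries.coeff_mul_C, ← mul_assoc, PowerSeries.coeff_mul_C,
        PowerSeries.coeff_succ_mul_X]
      simp only [hf, coeff_ps]
      rw [hF k]
      abel
  have hθV : psTheta V = V - PowerSeries.C x := by
    rw [hV, psTheta_add, psTheta_C, psTheta_mul, psTheta_C, psTheta_X]
    simp
  have hθ : PowerSeries.X * psMap D f + PowerSeries.X * psTheta (psMap D f) =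
      PowerSeries.C x * psTheta f - (psTheta f * V + f * (V - PowerSeries.C x)) := by
    have := congrArg psTheta hyp
    rw [psTheta_mul, psTheta_X, psTheta_sub, psTheta_mul, psTheta_C, zero_mul, zero_add,
      psTheta_mul, hθV] at this
    exact this
  -- the derivative of the inverse
  have hDf' : psMap D f' = - (f' * psMap D f * f') := by
    have e := congrArg (psMap D) m1
    rw [psMap_mul hD, psMap_one hD] at e
    have e2 : f * psMap D f' = - (psMap D f * f') := eq_neg_of_add_eq_zero_right e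
    have e3 := congrArg (fun y => f' * y) e2
    simp only [← mul_assoc, m2, one_mul, mul_neg] at e3
    exact e3
  have hDh : psMap D h = psTheta (psMap D f) * f' - h * psMap D f * f' := by
    rw [hh0, psH, psMap_mul hD, psMap_psTheta, ← hf, ← hf', hDf', mul_neg, ← sub_eq_add_neg,
      mul_assoc (psTheta f) f' _, mul_assoc, mul_assoc, mul_assoc]
  have hhf : h * f = psTheta f := psH_mul H
  have key : PowerSeries.X * psMap D h =
      PowerSeries.C x * h - h * PowerSeries.C x + psX F F' x - PowerSeries.C x := by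
    have k1 : PowerSeries.X * psTheta (psMap D f) * f' =
        (PowerSeries.C x * psTheta f - (psTheta f * V + f * (V - PowerSeries.C x)) -
          (PowerSeries.C x * f - f * V)) * f' := by
      rw [← hθ, ← hyp]
      congr 1
      abel
    have k2 : h * (PowerSeries.X * psMap D f) * f' = h * (PowerSeries.C x * f - f * V) * f' := by
      rw [hyp]
    have k3 : PowerSeries.X * psMap D h = PowerSeries.X * psTheta (psMap D f) * f' -
        h * (PowerSeries.X * psMap D f) * f' := by
      rw [hDh, mul_sub]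
      congr 1
      · rw [mul_assoc]
      · rw [← mul_assoc, ← mul_assoc, ← mul_assoc, (PowerSeries.commute_X h).eq]
    rw [k3, k1, k2]
    have hX : psX F F' x = f * PowerSeries.C x * f' := rfl
    have hh1 : psTheta f * f' = h := rfl
    have g1 : h * (PowerSeries.C x * f - f * V) * f' = h * PowerSeries.C x - psTheta f * V * f' := by
      rw [mul_sub, sub_mul, ← mul_assoc h f V, hhf]
      congr 1
      rw [mul_assoc, mul_assoc (PowerSeries.C x) f f', m1, mul_one]
    have g2 : (PowerSeries.C x * psTheta f - (psTheta f * V + f * (V - PowerSeries.C x)) -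
          (PowerSeries.C x * f - f * V)) * f' =
        PowerSeries.C x * h - psTheta f * V * f' + f * PowerSeries.C x * f' - PowerSeries.C x := by
      have e1 : PowerSeries.C x * psTheta f * f' = PowerSeries.C x * h := by
        rw [mul_assoc, hh1]
      have e2 : PowerSeries.C x * f * f' = PowerSeries.C x := by
        rw [mul_assoc, m1, mul_one]
      rw [sub_mul, sub_mul, add_mul, e1, mul_sub f V, sub_mul, sub_mul, e2]
      abel
    rw [g1, g2, hX]
    abel
  have hcoef := congrArg (PowerSeries.coeff (n + 2)) key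
  rw [PowerSeries.coeff_succ_X_mul, coeff_psMap, hh0, coeff_psH_succ, map_sub, map_add, map_sub,
    PowerSeries.coeff_C_mul, PowerSeries.coeff_mul_C, coeff_psH_succ, coeff_psX,
    PowerSeries.coeff_C] at hcoef
  rw [hcoef]
  simp

/-- QB-10d. Proof: `𝓓 𝓕 = C x * 𝓕 - 𝓕 * C x` implies `𝓓 𝓕' = C x * 𝓕' - 𝓕' * C x`, hence the same for
`𝓱 = θ 𝓕 * 𝓕'`. -/
theorem D0_hh {F F' : ℕ → M} (H : Grp F F') (x : M) (D : M →+ M)
    (hD : ∀ a b, D (a * b) = D a * b + a * D b) (hx : D x = 0)
    (hF : ∀ n : ℕ, D (F n) = x * F n - F n * x) (n : ℕ) :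
    D (hh F F' n) = x * hh F F' n - hh F F' n * x := by
  set f := ps F with hf
  set f' := ps F' with hf'
  set h := psH F F' with hh0
  have m1 : f * f' = 1 := ps_mul H
  have m2 : f' * f = 1 := ps_mul' H
  have hyp : psMap D f = PowerSeries.C x * f - f * PowerSeries.C x := by
    ext k
    rw [coeff_psMap, map_sub, PowerSeries.coeff_C_mul, PowerSeries.coeff_mul_C]
    simp only [hf, coeff_ps]
    exact hF k
  have hDf' : psMap D f' = PowerSeries.C x * f' - f' * PowerSeries.C x := by
    have e := congrArg (psMap D) m1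
    rw [psMap_mul hD, psMap_one hD] at e
    have e2 : f * psMap D f' = - (psMap D f * f') := eq_neg_of_add_eq_zero_right e
    have e3 := congrArg (fun y => f' * y) e2
    simp only [← mul_assoc, m2, one_mul, mul_neg] at e3
    rw [e3, hyp, mul_sub, sub_mul]
    have a1 : f' * (PowerSeries.C x * f) * f' = f' * PowerSeries.C x := by
      rw [mul_assoc, mul_assoc, m1, mul_one]
    have a2 : f' * (f * PowerSeries.C x) * f' = PowerSeries.C x * f' := by
      rw [← mul_assoc, m2, one_mul]
    rw [a1, a2]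
    abel
  have hθ : psTheta (psMap D f) = PowerSeries.C x * psTheta f - psTheta f * PowerSeries.C x := by
    rw [hyp, psTheta_sub, psTheta_mul, psTheta_mul, psTheta_C, zero_mul, zero_add, mul_zero,
      add_zero]
  have hDh : psMap D h = PowerSeries.C x * h - h * PowerSeries.C x := by
    rw [hh0, psH, psMap_mul hD, psMap_psTheta, ← hf, ← hf', hDf', hθ, sub_mul, mul_sub,
      ← mul_assoc (psTheta f) (PowerSeries.C x) f', ← mul_assoc (psTheta f) f', mul_assoc
      (PowerSeries.C x) (psTheta f) f']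
    abel
  have hcoef := congrArg (PowerSeries.coeff (n + 1)) hDh
  rw [coeff_psMap, hh0, coeff_psH_succ, map_sub, PowerSeries.coeff_C_mul,
    PowerSeries.coeff_mul_C, coeff_psH_succ] at hcoef
  exact hcoef

theorem psMap_anti {τ : M →+ M} (hτ : ∀ a b, τ (a * b) = τ b * τ a) (f g : PowerSeries M) :
    psMap τ (f * g) = psMap τ g * psMap τ f := by
  ext n
  rw [coeff_psMap, PowerSeries.coeff_mul, PowerSeries.coeff_mul, map_sum,
    ← Finset.Nat.sum_antidiagonal_swap]
  refine Finset.sum_congr rfl fun p hp => ?_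
  rw [hτ, coeff_psMap, coeff_psMap]
  rfl

theorem psMap_ps {τ : M →+ M} {F F' : ℕ → M} (hF : ∀ n, τ (F n) = F' n) :
    psMap τ (ps F) = ps F' := by
  ext n
  rw [coeff_psMap, coeff_ps, coeff_ps, hF]

/-- QB-10e. Proof: `τ` acts on power series coefficientwise, `τ(𝓱) = τ(𝓕') * τ(θ 𝓕) = 𝓕 * θ 𝓕' = - 𝓱`
(because `θ(𝓕 * 𝓕') = 0`). -/
theorem tau_hh {F F' : ℕ → M} (H : Grp F F') (τ : M →+ M)
    (hτ : ∀ a b, τ (a * b) = τ b * τ a) (hF : ∀ n, τ (F n) = F' n) (hF' : ∀ n, τ (F' n) = F n)
    (n : ℕ) : τ (hh F F' n) = - hh F F' n := by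
  have h : psMap τ (psH F F') = - psH F F' := by
    rw [psH, psMap_anti hτ, psMap_psTheta, psMap_ps hF, psMap_ps hF', psTheta_inv H, psH]
  have hcoef := congrArg (PowerSeries.coeff (n + 1)) h
  rw [coeff_psMap, map_neg, coeff_psH_succ] at hcoef
  exact hcoef

theorem tau_xx {F F' : ℕ → M} (x : M) (τ : M →+ M)
    (hτ : ∀ a b, τ (a * b) = τ b * τ a) (hx : τ x = - x) (hF : ∀ n, τ (F n) = F' n)
    (hF' : ∀ n, τ (F' n) = F n) (n : ℕ) : τ (xx F F' x n) = - xx F F' x n := by
  rw [xx, map_sum, ← Finset.Nat.sum_antidiagonal_swap, ← Finset.sum_neg_distrib]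
  refine Finset.sum_congr rfl fun p hp => ?_
  rw [hτ, hτ, hx, hF, hF']
  simp [mul_assoc]

end Pool.Agent.helper74.QB
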