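import Pool.Agent.helper74.QB.CT

/-!
# QB-11. Skew-symmetric matrices over `C` and `C ⊗ so_n`
-/

set_option autoImplicit false

namespace Pool.Agent.helper74.QB

open TensorProduct Finset Matrix LieAlgebra.Orthogonal

variable (K : Type*) [Field K] [CharZero K] (n : Type*) [Fintype n] [DecidableEq n]

/-- the projection `a ↦ (a - aᵀ)/2` -/
noncomputable def Y0 : Matrix n n K →ₗ[K] so n K where
  toFun a := ⟨(2⁻¹ : K) • (a - aᵀ), by
    rw [mem_so, transpose_smul, transpose_sub, transpose_transpose, ← smul_neg, neg_sub]⟩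
  map_add' a b := Subtype.ext (by
    show (2⁻¹ : K) • (a + b - (a + b)ᵀ) = (2⁻¹ : K) • (a - aᵀ) + (2⁻¹ : K) • (b - bᵀ)
    rw [transpose_add, ← smul_add]
    congr 1
    abel)
  map_smul' c a := Subtype.ext (by
    show (2⁻¹ : K) • (c • a - (c • a)ᵀ) = c • ((2⁻¹ : K) • (a - aᵀ))
    rw [transpose_smul, ← smul_sub, smul_comm])

theorem Y0_coe (a : Matrix n n K) : (Y0 K n a : Matrix n n K) = (2⁻¹ : K) • (a - aᵀ) := rfl

theorem Y0_transpose (a : Matrix n n K) : Y0 K n aᵀ = - Y0 K n a := by
  apply Subtype.ext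
  show (2⁻¹ : K) • (aᵀ - aᵀᵀ) = -((2⁻¹ : K) • (a - aᵀ))
  rw [transpose_transpose, ← smul_neg, neg_sub]

theorem Skew_tr (x : so n K) : (x : Matrix n n K)ᵀ = -(x : Matrix n n K) :=
  (mem_so _ _ _).1 x.2

theorem Y0_of_mem (x : so n K) : Y0 K n (x : Matrix n n K) = x := by
  apply Subtype.ext
  show (2⁻¹ : K) • ((x : Matrix n n K) - (x : Matrix n n K)ᵀ) = (x : Matrix n n K)
  rw [Skew_tr, sub_neg_eq_add, ← two_smul K, smul_smul, inv_mul_cancel₀ two_ne_zero, one_smul]

/-- the trace form `-(N-2)/2 tr(xy)` on `so_n` -/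
noncomputable def kso : so n K →ₗ[K] so n K →ₗ[K] K :=
  (-(((Fintype.card n : K) - 2) / 2)) •
    (LinearMap.mk₂ K (fun x y : so n K => trace ((x : Matrix n n K) * (y : Matrix n n K)))
      (fun x x' y => by
        show trace (((x : Matrix n n K) + (x' : Matrix n n K)) * (y : Matrix n n K)) = _
        rw [add_mul, trace_add])
      (fun c x y => by
        show trace ((c • (x : Matrix n n K)) * (y : Matrix n n K)) = _
        rw [smul_mul_assoc, trace_smul])
      (fun x y y' => by
        show trace ((x : Matrix n n K) * ((y : Matrix n n K) + (y' : Matrix n n K))) = _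
        rw [mul_add, trace_add])
      (fun c x y => by
        show trace ((x : Matrix n n K) * (c • (y : Matrix n n K))) = _
        rw [mul_smul_comm, trace_smul]))

theorem kso_apply (x y : so n K) : kso K n x y =
    (-(((Fintype.card n : K) - 2) / 2)) * trace ((x : Matrix n n K) * (y : Matrix n n K)) := rfl

theorem kso_isInv : IsInv (kso K n) := by
  refine ⟨fun x y => ?_, fun x y z => ?_⟩
  · rw [kso_apply, kso_apply, trace_mul_comm]
  · rw [kso_apply, kso_apply]
    congr 1
    show trace (((x : Matrix n n K) * (y : Matrix n n K) - (y : Matrix n n K) * (x : Matrix n n K)) *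
      (z : Matrix n n K)) = trace ((x : Matrix n n K) *
      ((y : Matrix n n K) * (z : Matrix n n K) - (z : Matrix n n K) * (y : Matrix n n K)))
    rw [sub_mul, mul_sub, trace_sub, trace_sub, mul_assoc, mul_assoc,
      trace_mul_comm (y : Matrix n n K), mul_assoc]

variable {K n}
variable {C : Type*} [CommRing C] [Algebra K C]

/-- the projection `Mat_n(C) → C ⊗ so_n` -/
noncomputable def pr : Matrix n n C →ₗ[C] C ⊗[K] so n K where
  toFun a := ∑ i, ∑ j, a i j ⊗ₜ[K] Y0 K n (single i j 1)
  map_add' a b := by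
    simp only [Matrix.add_apply, add_tmul, sum_add_distrib]
  map_smul' c a := by
    simp only [Matrix.smul_apply, smul_sum, RingHom.id_apply, smul_tmul']

theorem pr_apply (a : Matrix n n C) :
    pr a = ∑ i, ∑ j, a i j ⊗ₜ[K] Y0 K n (single i j 1) := rfl

theorem pr_transpose (a : Matrix n n C) : pr (K := K) aᵀ = - pr a := by
  rw [pr_apply, pr_apply, sum_comm, ← sum_neg_distrib]
  refine sum_congr rfl fun j _ => ?_
  rw [← sum_neg_distrib]
  refine sum_congr rfl fun i _ => ?_
  rw [transpose_apply, ← tmul_neg, ← Y0_transpose, transpose_single]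

/-- the matrix of `x : so_n` over `C` -/
noncomputable def mC (C : Type*) [CommRing C] [Algebra K C] (x : so n K) : Matrix n n C :=
  (x : Matrix n n K).map (algebraMap K C)

theorem pr_mC (x : so n K) : pr (mC C x) = 1 ⊗ₜ[K] x := by
  rw [pr_apply]
  have h1 : ∀ i j : n, (mC C x) i j ⊗ₜ[K] Y0 K n (single i j 1) =
      (1 : C) ⊗ₜ[K] Y0 K n (single i j ((x : Matrix n n K) i j)) := by
    intro i j
    have h2 : (single i j ((x : Matrix n n K) i j) : Matrix n n K) =
        (x : Matrix n n K) i j • single i j 1 := by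
      rw [smul_single, smul_eq_mul, mul_one]
    rw [h2, map_smul, tmul_smul, smul_tmul']
    congr 1
    show algebraMap K C ((x : Matrix n n K) i j) = _
    rw [Algebra.smul_def, mul_one]
  simp only [h1, ← tmul_sum, ← map_sum]
  rw [← matrix_eq_sum_single, Y0_of_mem]

/-- the embedding of `C ⊗ so_n` into the matrices over `C` -/
noncomputable def Skew_inn (K : Type*) [Field K] [CharZero K] (n : Type*) [Fintype n] [DecidableEq n]
    (C : Type*) [CommRing C] [Algebra K C] : C ⊗[K] so n K →ₗ[C] Matrix n n C :=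
  LinearMap.liftBaseChange C
    { toFun := fun x => mC C x
      map_add' := fun x y => by
        ext i j
        simp [mC]
      map_smul' := fun c x => by
        ext i j
        show algebraMap K C (c * (x : Matrix n n K) i j) =
          c • algebraMap K C ((x : Matrix n n K) i j)
        rw [map_mul, Algebra.smul_def] }

theorem Skew_inn_tmul (c : C) (x : so n K) : Skew_inn K n C (c ⊗ₜ[K] x) = c • mC C x := by
  simp [Skew_inn, LinearMap.liftBaseChange_tmul]

theorem Skew_mC_lie (x y : so n K) :
    mC C ⁅x, y⁆ = mC C x * mC C y - mC C y * mC C x := by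
  show ((x : Matrix n n K) * (y : Matrix n n K) - (y : Matrix n n K) * (x : Matrix n n K)).map
    (algebraMap K C) = _
  unfold mC
  rw [Matrix.map_sub _ (fun a b => map_sub _ a b), Matrix.map_mul, Matrix.map_mul]

theorem Skew_add_lie (a b y : C ⊗[K] so n K) : ⁅a + b, y⁆ = ⁅a, y⁆ + ⁅b, y⁆ := by
  exact add_lie a b y

theorem Skew_lie_add (a b y : C ⊗[K] so n K) : ⁅y, a + b⁆ = ⁅y, a⁆ + ⁅y, b⁆ := by
  exact lie_add y a b

theorem Skew_zero_lie (y : C ⊗[K] so n K) : ⁅(0 : C ⊗[K] so n K), y⁆ = 0 := by
  exact zero_lie y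

theorem Skew_lie_zero (y : C ⊗[K] so n K) : ⁅y, (0 : C ⊗[K] so n K)⁆ = 0 := by
  exact lie_zero y

theorem Skew_inn_lie (y y' : C ⊗[K] so n K) : Skew_inn K n C ⁅y, y'⁆ =
    Skew_inn K n C y * Skew_inn K n C y' - Skew_inn K n C y' * Skew_inn K n C y := by
  induction y using TensorProduct.induction_on with
  | zero => rw [Skew_zero_lie, map_zero, zero_mul, mul_zero, sub_zero]
  | add a b ha hb =>
    rw [Skew_add_lie, map_add, ha, hb, map_add, add_mul, mul_add]
    abel
  | tmul c x =>
    induction y' using TensorProduct.induction_on with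
    | zero => rw [Skew_lie_zero, map_zero, zero_mul, mul_zero, sub_zero]
    | add a b ha hb =>
      rw [Skew_lie_add, map_add, ha, hb, map_add, add_mul, mul_add]
      abel
    | tmul c' x' =>
      rw [LieAlgebra.ExtendScalars.bracket_tmul, Skew_inn_tmul, Skew_inn_tmul, Skew_inn_tmul,
        Skew_mC_lie, smul_mul_assoc, mul_smul_comm, smul_mul_assoc, mul_smul_comm, smul_smul,
        smul_smul, smul_sub, mul_comm c' c]

theorem Skew_pr_inn (y : C ⊗[K] so n K) : pr (Skew_inn K n C y) = y := by
  induction y using TensorProduct.induction_on with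
  | zero => simp
  | add a b ha hb => rw [map_add, map_add, ha, hb]
  | tmul c x =>
    rw [Skew_inn_tmul, map_smul, pr_mC, smul_tmul', smul_eq_mul, mul_one]

theorem Skew_inn_pr {a : Matrix n n C} (ha : aᵀ = -a) : Skew_inn K n C (pr a) = a := by
  have h1 : ∀ i j : n, mC C (Y0 K n (single i j 1)) =
      algebraMap K C 2⁻¹ • (single i j (1 : C) - single j i 1) := by
    intro i j
    unfold mC
    rw [Y0_coe, transpose_single]
    ext k l
    simp only [Matrix.map_apply, Matrix.smul_apply, Matrix.sub_apply, smul_eq_mul, map_mul, map_sub]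
    congr 1
    simp only [single_apply]
    split_ifs <;> simp
  rw [pr_apply]
  simp only [map_sum, Skew_inn_tmul, h1, smul_smul]
  have h2 : ∀ i j : n, (a i j * algebraMap K C 2⁻¹) • (single i j (1 : C) - single j i 1) =
      algebraMap K C 2⁻¹ • single i j (a i j) - algebraMap K C 2⁻¹ • single j i (aᵀ j i) := by
    intro i j
    rw [smul_sub, smul_single, smul_single, smul_single, smul_single, transpose_apply]
    simp only [smul_eq_mul, mul_one]
    rw [mul_comm]
  simp only [h2, sum_sub_distrib, ← smul_sum]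
  rw [← matrix_eq_sum_single]
  have h3 : ∑ i : n, ∑ j : n, single j i (aᵀ j i) = aᵀ := by
    rw [sum_comm, ← matrix_eq_sum_single]
  rw [h3, ha, smul_neg, sub_neg_eq_add, ← add_smul, ← map_add]
  have h4 : (2⁻¹ : K) + 2⁻¹ = 1 := by norm_num
  rw [h4, map_one, one_smul]

/-- QB-11a. Proof.  Let `inn : C ⊗ so_n → Mat_n(C)` be the `C`-linear map `c ⊗ x ↦ c • mC C x`.  It is a
Lie homomorphism (pure tensors), `pr (inn y) = y` (pure tensors, `pr_mC`), `inn (pr a) = (a - aᵀ)/2`.  So for
skew `a`, `b`: `⁅pr a, pr b⁆ = pr (inn ⁅pr a, pr b⁆) = pr (a * b - b * a)`. -/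
theorem pr_lie {a b : Matrix n n C} (ha : aᵀ = -a) (hb : bᵀ = -b) :
    ⁅pr (K := K) a, pr (K := K) b⁆ = pr (a * b - b * a) := by
  rw [← Skew_pr_inn ⁅pr (K := K) a, pr (K := K) b⁆, Skew_inn_lie, Skew_inn_pr ha, Skew_inn_pr hb]

theorem Dg_pr (D : Derivation K C C) (a : Matrix n n C) :
    Dg D (pr a) = pr (K := K) (n := n) (a.map D) := by
  rw [pr_apply, pr_apply, map_sum]
  refine sum_congr rfl fun i _ => ?_
  rw [map_sum]
  refine sum_congr rfl fun j _ => ?_
  rw [Dg_tmul, Matrix.map_apply]

/-- QB-11b. -/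
theorem kap_pr (x : so n K) (a : Matrix n n C) : kap (kso K n) x (pr a) =
    algebraMap K C (-(((Fintype.card n : K) - 2) / 2)) * trace (mC C x * a) := by
  have h1 : ∀ i j : n, kso K n x (Y0 K n (single i j 1)) =
      (-(((Fintype.card n : K) - 2) / 2)) * (x : Matrix n n K) j i := by
    intro i j
    rw [kso_apply, Y0_coe]
    congr 1
    have h2 : (x : Matrix n n K) i j = - (x : Matrix n n K) j i := by
      have := congrFun (congrFun (Skew_tr K n x) j) i
      rw [transpose_apply, Matrix.neg_apply] at this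
      exact this
    rw [transpose_single, mul_smul_comm, trace_smul, mul_sub, trace_sub, trace_mul_single,
      trace_mul_single]
    simp only [smul_eq_mul, MulOpposite.op_one, one_smul]
    rw [h2, sub_neg_eq_add, ← two_mul, ← mul_assoc, inv_mul_cancel₀ two_ne_zero, one_mul]
  rw [pr_apply, map_sum]
  simp only [map_sum, kap_tmul, h1, map_mul]
  rw [trace, mul_sum, sum_comm]
  refine sum_congr rfl fun j _ => ?_
  rw [diag_apply, Matrix.mul_apply, mul_sum]
  refine sum_congr rfl fun i _ => ?_
  show a i j * (algebraMap K C _ * algebraMap K C _) = algebraMap K C _ *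
    (algebraMap K C ((x : Matrix n n K) j i) * a i j)
  ring

variable (K n) in
/-- QB-11c. `so_n` is perfect for `n ≥ 3`.  Proof: it is spanned by the `Y0 (single i j 1)`, `i ≠ j`
(`Y0_of_mem`, `matrix_eq_sum_single`), and for `k ≠ i, j`:
`⁅2 Y0 (single i k 1), 2 Y0 (single k j 1)⁆ = 2 Y0 (single i j 1)`, where
`2 Y0 (single i k 1) = single i k 1 - single k i 1`. -/
theorem so_perfect (h : 3 ≤ Fintype.card n) :
    Submodule.span K {z : so n K | ∃ x y : so n K, ⁅x, y⁆ = z} = ⊤ := by
  rw [eq_top_iff]
  intro z _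
  have h1 : z = ∑ i, ∑ j, (z : Matrix n n K) i j • Y0 K n (single i j 1) := by
    conv_lhs => rw [← Y0_of_mem K n z, matrix_eq_sum_single (z : Matrix n n K)]
    rw [map_sum]
    refine sum_congr rfl fun i _ => ?_
    rw [map_sum]
    refine sum_congr rfl fun j _ => ?_
    rw [← map_smul, smul_single, smul_eq_mul, mul_one]
  rw [h1]
  refine Submodule.sum_mem _ fun i _ => Submodule.sum_mem _ fun j _ => Submodule.smul_mem _ _ ?_
  by_cases hij : i = j
  · subst hij
    have h2 : Y0 K n (single i i 1) = 0 := by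
      apply Subtype.ext
      rw [Y0_coe, transpose_single, sub_self, smul_zero]
      rfl
    rw [h2]
    exact Submodule.zero_mem _
  · obtain ⟨k, hk⟩ : ∃ k : n, k ∉ ({i, j} : Finset n) := by
      by_contra hcon
      push Not at hcon
      have h3 : (univ : Finset n) ⊆ {i, j} := fun k _ => hcon k
      have h4 := (card_le_card h3).trans card_le_two
      rw [card_univ] at h4
      omega
    rw [mem_insert, mem_singleton, not_or] at hk
    obtain ⟨hki, hkj⟩ := hk
    refine Submodule.subset_span ⟨(2 : K) • Y0 K n (single i k 1), Y0 K n (single k j 1), ?_⟩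
    apply Subtype.ext
    show ((2 : K) • (Y0 K n (single i k 1) : Matrix n n K)) * (Y0 K n (single k j 1) : Matrix n n K) -
      (Y0 K n (single k j 1) : Matrix n n K) * ((2 : K) • (Y0 K n (single i k 1) : Matrix n n K)) =
      (Y0 K n (single i j 1) : Matrix n n K)
    rw [Y0_coe, Y0_coe, Y0_coe, transpose_single, transpose_single, transpose_single, smul_smul,
      mul_inv_cancel₀ two_ne_zero, one_smul, mul_smul_comm, smul_mul_assoc, ← smul_sub]
    congr 1
    simp only [sub_mul, mul_sub, single_mul_single_same, mul_one]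
    rw [single_mul_single_of_ne _ _ _ _ hkj, single_mul_single_of_ne _ _ _ _ (Ne.symm hki),
      single_mul_single_of_ne _ _ _ _ hij, single_mul_single_of_ne _ _ _ _ (Ne.symm hij),
      single_mul_single_of_ne _ _ _ _ hki, single_mul_single_of_ne _ _ _ _ (Ne.symm hkj)]
    abel

end Pool.Agent.helper74.QB
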