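import Pool.Agent.helper74.QB.Transfer
import Pool.Agent.helper74.QB.GroupLie
import Pool.Agent.helper74.QB.Skew

/-!
# QB-12. Dressing data from matrices
-/

set_option autoImplicit false

namespace Pool.Agent.helper74.QB

open TensorProduct Finset Matrix LieAlgebra.Orthogonal

variable {K : Type*} [Field K] [CharZero K] {n : Type*} [Fintype n] [DecidableEq n]
variable {C : Type*} [CommRing C] [Algebra K C]

/-- the logarithmic derivative as a sequence in `C ⊗ so_n` -/
noncomputable def hso (F : ℕ → Matrix n n C) (k : ℕ) : C ⊗[K] so n K :=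
  pr (hh F (fun i => (F i)ᵀ) k)

omit [CharZero K] in
theorem DressSo_mC_skew (x : so n K) : (mC C x)ᵀ = -mC C x := by
  have h : (x : Matrix n n K)ᵀ = -(x : Matrix n n K) := (mem_so n K _).1 x.2
  unfold mC
  rw [← Matrix.transpose_map, h]
  ext i j
  simp

/-- the transposition as an additive map -/
def DressSo_tau (n C : Type*) [CommRing C] : Matrix n n C →+ Matrix n n C :=
  (Matrix.transposeAddEquiv n n C).toAddMonoidHom

omit [Field K] [CharZero K] [Fintype n] [DecidableEq n] [Algebra K C] in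
theorem DressSo_tau_apply (a : Matrix n n C) : DressSo_tau n C a = aᵀ := rfl

theorem DressSo_hh_skew {F : ℕ → Matrix n n C} (H : Grp F (fun i => (F i)ᵀ)) (k : ℕ) :
    (hh F (fun i => (F i)ᵀ) k)ᵀ = -hh F (fun i => (F i)ᵀ) k :=
  tau_hh H (DressSo_tau n C) (fun a b => by
    rw [DressSo_tau_apply, DressSo_tau_apply, DressSo_tau_apply, Matrix.transpose_mul])
    (fun _ => rfl) (fun i => by rw [DressSo_tau_apply, Matrix.transpose_transpose]) k

theorem DressSo_xx_skew (F : ℕ → Matrix n n C) (x : so n K) (k : ℕ) :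
    (xx F (fun i => (F i)ᵀ) (mC C x) k)ᵀ = -xx F (fun i => (F i)ᵀ) (mC C x) k :=
  tau_xx (mC C x) (DressSo_tau n C) (fun a b => by
    rw [DressSo_tau_apply, DressSo_tau_apply, DressSo_tau_apply, Matrix.transpose_mul])
    (by rw [DressSo_tau_apply, DressSo_mC_skew])
    (fun _ => rfl) (fun i => Matrix.transpose_transpose (F i)) k

/-- a derivation of `C` acting on matrices -/
def DressSo_D (n : Type*) (D : Derivation K C C) : Matrix n n C →+ Matrix n n C :=
  AddMonoidHom.mapMatrix (D : C →ₗ[K] C).toAddMonoidHom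

theorem DressSo_D_apply (D : Derivation K C C) (a : Matrix n n C) :
    DressSo_D n D a = a.map D := rfl

theorem DressSo_D_mul (D : Derivation K C C) (a b : Matrix n n C) :
    DressSo_D n D (a * b) = DressSo_D n D a * b + a * DressSo_D n D b := by
  ext i j
  simp only [DressSo_D_apply, Matrix.map_apply, Matrix.mul_apply, Matrix.add_apply, map_sum,
    Derivation.leibniz, smul_eq_mul, Finset.sum_add_distrib]
  rw [add_comm]
  congr 1
  exact Finset.sum_congr rfl fun k _ => mul_comm _ _

theorem DressSo_D_mC (D : Derivation K C C) (x : so n K) : DressSo_D n D (mC C x) = 0 := by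
  ext i j
  simp [DressSo_D_apply, mC]

/-- QB-12a. Proof.  `Matrix n n C` is a ring; `τ = transpose` is an anti-automorphism.  By `tau_hh` the
matrices `hh F Fᵀ k` are skew, by `tau_xx` so are `xx F Fᵀ (mC C x) k`.  Let `D` act on matrices by
`a ↦ a.map D` (an additive map with the Leibniz rule, zero on `mC C x`).
* `Dress.zero`: `D0_hh`, `Dg_pr`, `pr_lie` (with `pr_mC`).
* `Dress.one`: `xh k = pr (xx F Fᵀ (mC C x) k)`; `xh 0 = 1 ⊗ x` by `xx_zero`, `pr_mC`; the second condition is
  `xx_succ` and `pr_lie`, the third is `D_hh`, the fourth is the hypothesis with `kap_pr` and `hh_zero`. -/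
theorem dress_so {F : ℕ → Matrix n n C} (H : Grp F (fun i => (F i)ᵀ)) {lam : C →ₗ[K] K}
    (h0 : ∀ x : so n K, ∃ D : Derivation K C C,
      (∀ k, (F k).map D = mC C x * F k - F k * mC C x) ∧ ∀ f, lam (D f) = 0)
    (h1 : ∀ x : so n K, ∃ D : Derivation K C C,
      (∀ k, (F k).map D = mC C x * F (k + 1) - F (k + 1) * mC C x -
        F k * (mC C x * F 1 - F 1 * mC C x)) ∧
      ∀ f, lam (D f + algebraMap K C (-(((Fintype.card n : K) - 2) / 2)) *
        trace (mC C x * F 1) * f) = 0) :
    Dress (kso K n) (hso F) lam := by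
  refine ⟨fun x => ?_, fun x => ?_⟩
  · obtain ⟨D, hDF, hlam⟩ := h0 x
    refine ⟨D, fun k => ?_, hlam⟩
    have h1 := D0_hh H (mC C x) (DressSo_D n D) (DressSo_D_mul D) (DressSo_D_mC D x)
      (fun k => hDF k) k
    unfold hso
    rw [Dg_pr, ← pr_mC, pr_lie (DressSo_mC_skew x) (DressSo_hh_skew H k), ← h1]
    rfl
  · obtain ⟨D, hDF, hlam⟩ := h1 x
    refine ⟨D, fun k => pr (xx F (fun i => (F i)ᵀ) (mC C x) k), ?_, fun k => ?_, fun k => ?_,
      fun f => ?_⟩
    · show pr (xx F (fun i => (F i)ᵀ) (mC C x) 0) = 1 ⊗ₜ[K] x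
      rw [xx_zero H, pr_mC]
    · have h2 := congrArg (pr (K := K)) (xx_succ H (mC C x) k)
      have h3 : pr (K := K) (((k + 1 : ℕ) : Matrix n n C) *
          xx F (fun i => (F i)ᵀ) (mC C x) (k + 1)) =
            (k + 1 : K) • pr (xx F (fun i => (F i)ᵀ) (mC C x) (k + 1)) := by
        rw [← nsmul_eq_mul, map_nsmul, ← Nat.cast_smul_eq_nsmul K]
        push_cast
        rfl
      rw [h3, map_sum] at h2
      rw [h2]
      apply Finset.sum_congr rfl
      intro p _
      unfold hso
      rw [pr_lie (DressSo_hh_skew H p.1) (DressSo_xx_skew F x p.2)]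
    · have h2 := D_hh H (mC C x) (DressSo_D n D) (DressSo_D_mul D) (DressSo_D_mC D x)
        (fun k => hDF k) k
      unfold hso
      rw [Dg_pr, ← pr_mC, pr_lie (DressSo_mC_skew x) (DressSo_hh_skew H (k + 1)), ← map_add,
        ← h2]
      rfl
    · unfold hso
      rw [kap_pr, hh_zero H]
      exact hlam f

/-- QB-12b. -/
theorem isSS_so {F : ℕ → Matrix n n C} (H : Grp F (fun i => (F i)ᵀ)) {lam : C →ₗ[K] K}
    (hn : 3 ≤ Fintype.card n)
    (h0 : ∀ x : so n K, ∃ D : Derivation K C C,
      (∀ k, (F k).map D = mC C x * F k - F k * mC C x) ∧ ∀ f, lam (D f) = 0)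
    (h1 : ∀ x : so n K, ∃ D : Derivation K C C,
      (∀ k, (F k).map D = mC C x * F (k + 1) - F (k + 1) * mC C x -
        F k * (mC C x * F 1 - F 1 * mC C x)) ∧
      ∀ f, lam (D f + algebraMap K C (-(((Fintype.card n : K) - 2) / 2)) *
        trace (mC C x * F 1) * f) = 0) (k : ℕ) :
    IsSS (kso K n) (kso_isInv K n) (lamU lam (Psi (hso F) k)) :=
  (dress_so H h0 h1).isSS (kso K n) (kso_isInv K n) (so_perfect K n hn) k

end Pool.Agent.helper74.QB
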