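import Pool.Agent.helper74.QB.CalcD
import Pool.Agent.helper74.QB.DressSo
import Pool.Agent.helper74.QB.Gr

/-!
# QB-19. The Pfaffian type singular vector

One family of anticommuting variables `a_i`; `E = 1`, `τ = 0`; `F 0 = 1`, `F 1 = a aᵀ`, `F k = 0` for
`k ≥ 2`.
-/

set_option autoImplicit false

namespace Pool.Agent.helper74.QB

open Finset Matrix LieAlgebra.Orthogonal

variable {K : Type*} [Field K] [CharZero K] {n : Type*} [Fintype n] [DecidableEq n]
variable {C : Type*} [CommRing C] [Algebra K C]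

namespace Gr

variable (γ : Gr K (n × Fin 1) C)

/-- the group-like sequence -/
noncomputable def F : ℕ → Matrix n n C := FF γ.m 1 0

omit [CharZero K] in
theorem pf_half {x : C} (h2 : (2 : K) ≠ 0) (h : x = -x) : x = 0 := by
  have h1 : x + x = 0 := by
    nth_rewrite 1 [h]
    exact neg_add_cancel x
  have h3 : ((2 : K)⁻¹) • (x + x) = x := by
    rw [← two_smul K x, smul_smul, inv_mul_cancel₀ h2, one_smul]
  rw [← h3, h1, smul_zero]

omit [CharZero K] in
theorem pf_sum_apply {ι : Type*} (s : Finset ι) (d : ι → Derivation K C C) (f : C) :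
    (∑ i ∈ s, d i) f = ∑ i ∈ s, d i f := by
  classical
  induction s using Finset.induction_on with
  | empty => simp
  | insert a s ha ih => rw [Finset.sum_insert ha, Finset.sum_insert ha, Derivation.add_apply, ih]

theorem pf_Sg : Sg γ.m = 0 := by
  ext p q
  simp only [Sg, of_apply, Matrix.zero_apply]
  refine Finset.sum_eq_zero fun i _ => ?_
  have hpq : p = q := Subsingleton.elim _ _
  subst hpq
  exact pf_half (K := K) two_ne_zero (γ.anti _ _)

/-- QB-19a. Proof: `FF_grp` with `E = 1`, `τ = 0`; `Sg m = 0` because `m v v = 0`. -/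
theorem grp : Grp γ.F (fun k => (γ.F k)ᵀ) :=
  FF_grp (E := 1) (τ := 0) γ.anti γ.cyc Matrix.transpose_one
    (by rw [Matrix.transpose_zero, sub_zero, pf_Sg])

/-- `χ = aᵀ x a` -/
noncomputable def chi (x : so n K) : C := ∑ i, ∑ j, mC C x i j * γ.m (i, 0) (j, 0)

/-- the derivation `D_x = - (χ/2) ∑ a_i ∂_i` -/
noncomputable def D (x : so n K) : Derivation K C C :=
  ∑ i, ((-(2⁻¹ : K)) • γ.chi x) • γ.T (i, 0) (i, 0)

/-- the derivation `D⁰_x` -/
noncomputable def D0 (x : so n K) : Derivation K C C :=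
  ∑ k, ∑ i, mC C x i k • γ.T (k, 0) (i, 0)

omit [CharZero K] in
theorem pf_chi (x : so n K) : Xi γ.m (mC C x) 0 0 = γ.chi x := rfl

/-- the Euler derivation `∑ a_i ∂_i` -/
noncomputable def pfEu : Derivation K C C := ∑ i, γ.T (i, 0) (i, 0)

omit [CharZero K] in
theorem pfEu_apply (f : C) : γ.pfEu f = ∑ i, γ.T (i, 0) (i, 0) f := by
  rw [pfEu, pf_sum_apply]

theorem pfEu_m (v w : n × Fin 1) : γ.pfEu (γ.m v w) = γ.m v w + γ.m v w := by
  obtain ⟨i, p⟩ := v
  obtain ⟨j, q⟩ := w
  obtain rfl : p = 0 := Subsingleton.elim _ _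
  obtain rfl : q = 0 := Subsingleton.elim _ _
  rw [pfEu_apply]
  simp only [γ.T_m, Finset.sum_add_distrib, Prod.mk.injEq, and_true]
  simp

theorem pf_D_apply (x : so n K) (f : C) :
    γ.D x f = ((-(2⁻¹ : K)) • γ.chi x) * γ.pfEu f := by
  rw [pfEu_apply, D, pf_sum_apply]
  simp [Finset.mul_sum]

/-- QB-19b. Proof: `map_FF` with `E = 1`, `τ = 0`. -/
theorem D_F (x : so n K) (k : ℕ) : (γ.F k).map (γ.D x) =
    mC C x * γ.F (k + 1) - γ.F (k + 1) * mC C x -
      γ.F k * (mC C x * γ.F 1 - γ.F 1 * mC C x) := by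
  refine map_FF (K := K) (m := γ.m) (E := 1) (τ := 0) γ.anti γ.cyc Matrix.transpose_one
    (by rw [mul_one]) (by rw [Matrix.transpose_zero, sub_zero, pf_Sg]) (γ.D x)
    (fun a b => map_add _ _ _) (fun a b => ?_) (fun c a => ?_) (mC C x)
    (DressSo_mC_skew x) ?_ ?_ ?_ k
  · rw [Derivation.leibniz, smul_eq_mul, smul_eq_mul]
    ring
  · exact (γ.D x).map_smul c a
  · exact calcD_map_one _ (fun a b => map_add _ _ _) (fun a b => by
      rw [Derivation.leibniz, smul_eq_mul, smul_eq_mul]; ring)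
  · intro i p j q
    obtain rfl : p = 0 := Subsingleton.elim _ _
    obtain rfl : q = 0 := Subsingleton.elim _ _
    rw [pf_D_apply, pfEu_m]
    simp only [mul_zero, Matrix.zero_apply, zero_mul, Finset.sum_const_zero, zero_add, one_mul,
      Finset.univ_unique, Fin.default_eq_zero, Finset.sum_singleton, Matrix.smul_apply, pf_chi]
    ring
  · rw [mul_zero, zero_mul, zero_mul, sub_zero, smul_zero]
    ext i j
    simp

/-- QB-19c. -/
theorem D0_F (x : so n K) (k : ℕ) : (γ.F k).map (γ.D0 x) =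
    mC C x * γ.F k - γ.F k * mC C x := by
  have hl : ∀ a b : C, γ.D0 x (a * b) = γ.D0 x a * b + a * γ.D0 x b := fun a b => by
    rw [Derivation.leibniz, smul_eq_mul, smul_eq_mul]; ring
  refine map_FF_zero (m := γ.m) (E := 1) (τ := 0) (γ.D0 x) (fun a b => map_add _ _ _) hl
    (mC C x) (DressSo_mC_skew x) (calcD_map_one _ (fun a b => map_add _ _ _) hl) ?_ ?_ k
  · ext i j
    simp
  · intro i p j q
    obtain rfl : p = 0 := Subsingleton.elim _ _
    obtain rfl : q = 0 := Subsingleton.elim _ _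
    have h1 : γ.D0 x (γ.m (i, 0) (j, 0)) =
        ∑ k, ∑ l, mC C x l k * γ.T (k, 0) (l, 0) (γ.m (i, 0) (j, 0)) := by
      simp only [D0, pf_sum_apply, Derivation.smul_apply, smul_eq_mul]
    rw [h1, ← Finset.sum_add_distrib]
    refine Finset.sum_congr rfl fun k _ => ?_
    simp only [γ.T_m, mul_add, Finset.sum_add_distrib, Prod.mk.injEq, and_true, mul_ite, mul_zero]
    simp

omit [CharZero K] in
theorem pf_alg_mul (a : K) (g : C) : γ.I (algebraMap K C a * g) = a * γ.I g := by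
  rw [← Algebra.smul_def, map_smul, smul_eq_mul]

/-- QB-19d. -/
theorem I_D0 (x : so n K) (f : C) : γ.I (γ.D0 x f) = 0 := by
  have h1 : γ.D0 x f = ∑ k, ∑ i, algebraMap K C ((x : Matrix n n K) i k) *
      γ.T (k, 0) (i, 0) f := by
    simp only [D0, pf_sum_apply, Derivation.smul_apply, smul_eq_mul, mC, Matrix.map_apply]
  rw [h1, map_sum]
  refine Finset.sum_eq_zero fun k _ => ?_
  rw [map_sum]
  refine Finset.sum_eq_zero fun i _ => ?_
  rw [pf_alg_mul, γ.I_T]
  by_cases h : k = i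
  · subst h
    have h2 : (x : Matrix n n K)ᵀ = -(x : Matrix n n K) := (mem_so n K _).1 x.2
    have h3 : (x : Matrix n n K) k k = -(x : Matrix n n K) k k := by
      have h4 := congrFun (congrFun h2 k) k
      simpa using h4
    have h5 : (x : Matrix n n K) k k = 0 := by
      have h6 : (2 : K) * (x : Matrix n n K) k k = 0 := by
        rw [two_mul]; nth_rewrite 1 [h3]; exact neg_add_cancel _
      exact (mul_eq_zero.1 h6).resolve_left two_ne_zero
    rw [h5, zero_mul]
  · rw [if_neg (fun hh => h (congrArg Prod.fst hh)), mul_zero]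

theorem pfEu_chi (x : so n K) : γ.pfEu (γ.chi x) = γ.chi x + γ.chi x := by
  simp only [chi, map_sum, ← Finset.sum_add_distrib]
  refine Finset.sum_congr rfl fun i _ => Finset.sum_congr rfl fun j _ => ?_
  have h : mC C x i j * γ.m (i, 0) (j, 0) =
      ((x : Matrix n n K) i j) • γ.m (i, 0) (j, 0) := by
    rw [Algebra.smul_def]; rfl
  rw [h, Derivation.map_smul, pfEu_m, smul_add]

theorem pf_I_Eu (g : C) : γ.I (γ.pfEu g) = (Fintype.card n : K) * γ.I g := by
  rw [pfEu_apply, map_sum]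
  simp [γ.I_T]

omit [CharZero K] in
theorem pf_trace (x : so n K) : trace (mC C x * γ.F 1) = - γ.chi x := by
  have hF : ∀ i j, γ.F 1 i j = γ.m (i, 0) (j, 0) := by
    intro i j
    show br γ.m ((1 * 0) ^ 0 * 1) i j = _
    simp [br]
  rw [Matrix.trace, chi, ← Finset.sum_neg_distrib]
  refine Finset.sum_congr rfl fun i _ => ?_
  rw [Matrix.diag_apply, Matrix.mul_apply, ← Finset.sum_neg_distrib]
  refine Finset.sum_congr rfl fun j _ => ?_
  rw [hF, γ.anti (i, 0) (j, 0), mul_neg]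

/-- QB-19e. Proof.  `I (χ T_{ii} f) = I (T_{ii} (χ f)) - I (T_{ii}(χ) f)`; summing over `i`:
`(card n) I (χ f) - 2 I (χ f)`; and `tr (x F₁) = - χ`. -/
theorem I_D (x : so n K) (f : C) :
    γ.I (γ.D x f + algebraMap K C (-(((Fintype.card n : K) - 2) / 2)) *
        trace (mC C x * γ.F 1) * f) = 0 := by
  have h1 : γ.chi x * γ.pfEu f = γ.pfEu (γ.chi x * f) - (γ.chi x * f + γ.chi x * f) := by
    rw [Derivation.leibniz, pfEu_chi, smul_eq_mul, smul_eq_mul]
    ring
  have h2 : γ.D x f = (-(2⁻¹ : K)) • (γ.pfEu (γ.chi x * f) - (γ.chi x * f + γ.chi x * f)) := by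
    rw [pf_D_apply, smul_mul_assoc, h1]
  have h3 : algebraMap K C (-(((Fintype.card n : K) - 2) / 2)) *
      trace (mC C x * γ.F 1) * f = ((((Fintype.card n : K) - 2) / 2)) • (γ.chi x * f) := by
    rw [pf_trace, Algebra.smul_def, map_neg]
    ring
  rw [h2, h3, map_add, map_smul, map_smul, map_sub, map_add, pf_I_Eu]
  simp only [smul_eq_mul]
  field_simp
  ring

/-- the Pfaffian type vector -/
noncomputable def PV (k : ℕ) : UP K (so n K) := lamU γ.I (Psi (hso γ.F) k)

theorem PV_isSS (hn : 3 ≤ Fintype.card n) (k : ℕ) :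
    IsSS (kso K n) (kso_isInv K n) (γ.PV k) :=
  isSS_so γ.grp hn (fun x => ⟨γ.D0 x, γ.D0_F x, γ.I_D0 x⟩)
    (fun x => ⟨γ.D x, γ.D_F x, γ.I_D x⟩) k

end Gr

end Pool.Agent.helper74.QB
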