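import Pool.Agent.helper74.QB.AdLemma
import Pool.Agent.helper74.QB.BD
import Pool.Agent.helper74.QB.PfD

/-!
# QB-26. Parity of the singular vectors
-/

set_option autoImplicit false

namespace Pool.Agent.helper74.QB

open Finset Matrix LieAlgebra.Orthogonal TensorProduct

/-- QB-26a. Proof: in `PowerSeries M`: `𝓕' * (θ 𝓕 * 𝓕') * 𝓕 = 𝓕' * θ 𝓕 = - θ 𝓕' * 𝓕` because
`θ (𝓕' * 𝓕) = 0`; compare the coefficients of `T^(l+1)`. -/
theorem sum_xx_hh {M : Type*} [Ring M] {F F' : ℕ → M} (H : Grp F F') (l : ℕ) :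
    ∑ p ∈ antidiagonal l, xx F' F (hh F F' p.1) p.2 = - hh F' F l := by
  have m2 : ps F' * ps F = 1 := ps_mul' H
  have h1 : ps F' * psH F F' * ps F = - psH F' F := by
    have h2 := congrArg psTheta m2
    rw [psTheta_mul, psTheta_one] at h2
    rw [psH, psH, mul_assoc, mul_assoc, m2, mul_one]
    exact eq_neg_of_add_eq_zero_right h2
  have h3 := congrArg (PowerSeries.coeff (l + 1)) h1
  rw [map_neg, coeff_psH_succ] at h3
  rw [← h3, PowerSeries.coeff_mul]
  have h4 : ∀ a, PowerSeries.coeff a (ps F' * psH F F') =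
      ∑ c ∈ antidiagonal a, F' c.1 * PowerSeries.coeff c.2 (psH F F') := fun a => by
    rw [PowerSeries.coeff_mul]
    simp only [coeff_ps]
  simp only [h4, coeff_ps]
  rw [Finset.Nat.sum_antidiagonal_succ]
  have h5 : ∑ c ∈ antidiagonal 0, F' c.1 * PowerSeries.coeff c.2 (psH F F') = 0 := by
    rw [Finset.Nat.antidiagonal_zero, Finset.sum_singleton, coeff_psH_zero, mul_zero]
  rw [h5, zero_mul, zero_add]
  have h6 : ∀ a, ∑ c ∈ antidiagonal (a + 1), F' c.1 * PowerSeries.coeff c.2 (psH F F') =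
      ∑ c ∈ antidiagonal a, F' c.1 * hh F F' c.2 := fun a => by
    rw [Finset.Nat.sum_antidiagonal_succ']
    simp only [coeff_psH_zero, coeff_psH_succ, mul_zero, zero_add]
  simp only [h6, xx, Finset.sum_mul]
  rw [Finset.sum_sigma', Finset.sum_sigma']
  refine Finset.sum_nbij' (fun x => ⟨(x.2.1 + x.1.1, x.2.2), (x.2.1, x.1.1)⟩)
    (fun x => ⟨(x.2.2, x.2.1 + x.1.2), (x.2.1, x.1.2)⟩) ?_ ?_ ?_ ?_ ?_
  · rintro ⟨⟨p, q⟩, ⟨c, b⟩⟩ hx
    simp only [Finset.mem_sigma, HasAntidiagonal.mem_antidiagonal] at hx ⊢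
    obtain ⟨hx1, hx2⟩ := hx
    exact ⟨by rw [← hx1, ← hx2]; ring, trivial⟩
  · rintro ⟨⟨a, b⟩, ⟨c, p⟩⟩ hx
    simp only [Finset.mem_sigma, HasAntidiagonal.mem_antidiagonal] at hx ⊢
    obtain ⟨hx1, hx2⟩ := hx
    exact ⟨by rw [← hx1, ← hx2]; ring, trivial⟩
  · rintro ⟨⟨p, q⟩, ⟨c, b⟩⟩ hx
    simp only [Finset.mem_sigma, HasAntidiagonal.mem_antidiagonal] at hx
    obtain ⟨hx1, hx2⟩ := hx
    subst hx2
    rfl
  · rintro ⟨⟨a, b⟩, ⟨c, p⟩⟩ hx
    simp only [Finset.mem_sigma, HasAntidiagonal.mem_antidiagonal] at hx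
    obtain ⟨hx1, hx2⟩ := hx
    subst hx2
    rfl
  · rintro ⟨⟨p, q⟩, ⟨c, b⟩⟩ hx
    rfl

variable {K : Type*} [Field K] [CharZero K] {n : Type*} [Fintype n] [DecidableEq n]
variable {C : Type*} [CommRing C] [Algebra K C]

omit [CharZero K] [Algebra K C] [Field K] in
theorem par_symm {F : ℕ → Matrix n n C} (H : Grp F (fun i => (F i)ᵀ)) :
    Grp (fun i => (F i)ᵀ) F := ⟨H.zero', H.zero, H.mul', H.mul⟩

/-- QB-26b. Proof: `sP_Psi` with `h = hso F`, `h' = hso Fᵀ`, `z i a = pr (xx Fᵀ F (hh F Fᵀ i) a)`.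
`z i 0 = h i` (`xx_zero`); the recursion is `xx_succ` for `Grp Fᵀ F` and `pr_lie` (`tau_xx`, `tau_hh`:
all matrices are skew); the last condition is `sum_xx_hh`. -/
theorem sP_Psi_so {F : ℕ → Matrix n n C} (H : Grp F (fun i => (F i)ᵀ)) (k : ℕ) :
    (sP K (so n K)).baseChange C (Psi (hso F) k) = Psi (hso (fun i => (F i)ᵀ)) k := by
  have Hs := par_symm H
  have hh' : ∀ l, hso (K := K) (fun i => (F i)ᵀ) l = pr (hh (fun i => (F i)ᵀ) F l) := by
    intro l
    unfold hso
    simp only [Matrix.transpose_transpose]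
  have hskew' : ∀ l, (hh (fun i => (F i)ᵀ) F l)ᵀ = - hh (fun i => (F i)ᵀ) F l := by
    intro l
    exact tau_hh Hs (DressSo_tau n C) (fun a b => by
      rw [DressSo_tau_apply, DressSo_tau_apply, DressSo_tau_apply, Matrix.transpose_mul])
      (fun i => Matrix.transpose_transpose (F i)) (fun _ => rfl) l
  have hxskew : ∀ i l, (xx (fun i => (F i)ᵀ) F (hh F (fun i => (F i)ᵀ) i) l)ᵀ =
      - xx (fun i => (F i)ᵀ) F (hh F (fun i => (F i)ᵀ) i) l := by
    intro i l
    exact tau_xx _ (DressSo_tau n C) (fun a b => by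
      rw [DressSo_tau_apply, DressSo_tau_apply, DressSo_tau_apply, Matrix.transpose_mul])
      (by rw [DressSo_tau_apply, DressSo_hh_skew H])
      (fun i => Matrix.transpose_transpose (F i)) (fun _ => rfl) l
  refine sP_Psi (fun i a => pr (xx (fun i => (F i)ᵀ) F (hh F (fun i => (F i)ᵀ) i) a)) ?_ ?_ ?_ k
  · intro i
    rw [xx_zero Hs]
    rfl
  · intro i m
    have h2 := congrArg (pr (K := K)) (xx_succ Hs (hh F (fun i => (F i)ᵀ) i) m)
    have h3 : pr (K := K) (((m + 1 : ℕ) : Matrix n n C) *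
        xx (fun i => (F i)ᵀ) F (hh F (fun i => (F i)ᵀ) i) (m + 1)) =
          (m + 1 : K) • pr (xx (fun i => (F i)ᵀ) F (hh F (fun i => (F i)ᵀ) i) (m + 1)) := by
      rw [← nsmul_eq_mul, map_nsmul, ← Nat.cast_smul_eq_nsmul K]
      push_cast
      rfl
    rw [h3, map_sum] at h2
    rw [h2]
    refine Finset.sum_congr rfl fun p _ => ?_
    rw [hh', pr_lie (hskew' p.1) (hxskew i p.2)]
  · intro l
    rw [← map_sum, sum_xx_hh H l, map_neg, hh']

/-- the action of `μ` on `C ⊗ g` -/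
noncomputable def parG {g : Type*} [LieRing g] [LieAlgebra K g] (μ : C →ₐ[K] C) :
    C ⊗[K] g →ₗ[K] C ⊗[K] g := TensorProduct.map μ.toLinearMap LinearMap.id

theorem par_map_XC {g : Type*} [LieRing g] [LieAlgebra K g] (μ : C →ₐ[K] C) (i : ℕ)
    (y : C ⊗[K] g) :
    Algebra.TensorProduct.map μ (AlgHom.id K (UP K g)) (XC i y) = XC i (parG μ y) := by
  induction y using TensorProduct.induction_on with
  | zero => simp only [map_zero]
  | add a b ha hb => simp only [map_add, ha, hb]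
  | tmul c x => rfl

theorem par_pr (μ : C →ₐ[K] C) (a : Matrix n n C) :
    parG μ (pr (K := K) a) = pr (a.map μ) := by
  rw [pr_apply, pr_apply, map_sum]
  refine Finset.sum_congr rfl fun i _ => ?_
  rw [map_sum]
  refine Finset.sum_congr rfl fun j _ => ?_
  rfl

theorem par_hh (μ : C →ₐ[K] C) (F : ℕ → Matrix n n C) (k : ℕ) :
    (hh F (fun i => (F i)ᵀ) k).map μ =
      hh (fun i => (F i).map μ) (fun i => ((F i).map μ)ᵀ) k := by
  have h : ∀ a : Matrix n n C, a.map μ = μ.toRingHom.mapMatrix a := fun a => rfl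
  rw [h, hh, map_sum, hh]
  refine Finset.sum_congr rfl fun p _ => ?_
  rw [map_mul, map_mul, map_natCast]
  rfl

theorem par_hso (μ : C →ₐ[K] C) (F : ℕ → Matrix n n C) (k : ℕ) :
    parG μ (hso (K := K) F k) = hso (fun i => (F i).map μ) k := by
  unfold hso
  rw [par_pr, par_hh]

/-- QB-26c. functoriality: an algebra endomorphism of `C` applied to `Psi`.  Proof: induction on `k`. -/
theorem map_Psi_so (μ : C →ₐ[K] C) (F : ℕ → Matrix n n C) (k : ℕ) :
    Algebra.TensorProduct.map μ (AlgHom.id K (UP K (so n K))) (Psi (hso F) k) =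
      Psi (hso (fun i => (F i).map μ)) k := by
  induction k using Nat.strong_induction_on with
  | _ k ih =>
  cases k with
  | zero => rw [Psi_zero, Psi_zero, map_one]
  | succ k =>
    have hn : (k + 1 : K) ≠ 0 := by exact_mod_cast Nat.succ_ne_zero k
    have e1 : (k + 1 : K) • Algebra.TensorProduct.map μ (AlgHom.id K (UP K (so n K)))
        (Psi (hso F) (k + 1)) = (k + 1 : K) • Psi (hso (fun i => (F i).map μ)) (k + 1) := by
      rw [← map_smul, Psi_succ, Psi_succ, map_sum]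
      refine Finset.sum_congr rfl fun p hp => ?_
      have hp2 : p.2 < k + 1 := by
        have := HasAntidiagonal.mem_antidiagonal.mp hp
        omega
      rw [map_mul, ih p.2 hp2, par_map_XC, par_hso]
    have h2 := congrArg (fun z => (k + 1 : K)⁻¹ • z) e1
    simpa only [smul_smul, inv_mul_cancel₀ hn, one_smul] using h2

theorem par_th {μ : K} (γ : Gr2 K (n × Fin 2) C μ) :
    γ.sc (fun v => if v.2 = 0 then -1 else 1) γ.th = -γ.th := by
  unfold Gr2.th
  rw [map_sum, ← Finset.sum_neg_distrib]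
  refine Finset.sum_congr rfl fun i _ => ?_
  rw [γ.sc_m]
  simp

/-- the matrix `R` -/
def parR (C : Type*) [CommRing C] : Matrix (Fin 2) (Fin 2) C := !![-1, 0; 0, 1]

omit [Field K] [CharZero K] [Algebra K C] in
theorem parR_sq : parR C * parR C = 1 := by
  ext i j
  fin_cases i <;> fin_cases j <;> simp [parR]

omit [Field K] [CharZero K] [Algebra K C] in
theorem parR_E : parR C * Gr2.E C * parR C = - Gr2.E C := by
  ext i j
  fin_cases i <;> fin_cases j <;> simp [parR, Gr2.E]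

theorem parR_tau {μ : K} (γ : Gr2 K (n × Fin 2) C μ) :
    parR C * γ.tau * parR C = γ.tauᵀ := by
  rw [γ.BDder_tau]
  ext i j
  fin_cases i <;> fin_cases j <;> simp [parR]

theorem par_map_tau {μ : K} (γ : Gr2 K (n × Fin 2) C μ) :
    γ.tau.map (γ.sc (fun v => if v.2 = 0 then -1 else 1)) = -γ.tau := by
  rw [γ.BDder_tau]
  ext i j
  fin_cases i <;> fin_cases j <;> simp [par_th, γ.sc_nu]

omit [CharZero K] in
theorem par_map_E (f : C →ₐ[K] C) : (Gr2.E C).map f = Gr2.E C := by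
  ext i j
  fin_cases i <;> fin_cases j <;> simp [Gr2.E]

omit [Field K] [CharZero K] [Algebra K C] in
theorem parR_pow (A : Matrix (Fin 2) (Fin 2) C) (k : ℕ) :
    parR C * A ^ k * parR C = (parR C * A * parR C) ^ k := by
  induction k with
  | zero => rw [pow_zero, pow_zero, mul_one, parR_sq]
  | succ k ih =>
    rw [pow_succ, pow_succ, ← ih]
    calc parR C * (A ^ k * A) * parR C = parR C * A ^ k * 1 * A * parR C := by
          simp only [mul_assoc, mul_one, one_mul]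
      _ = parR C * A ^ k * (parR C * parR C) * A * parR C := by rw [parR_sq]
      _ = _ := by simp only [mul_assoc]

theorem par_br' {μ : K} (γ : Gr2 K (n × Fin 2) C μ) (s : n × Fin 2 → K)
    (h0 : ∀ i, s (i, 0) = -1) (h1 : ∀ i, s (i, 1) = 1) (N : Matrix (Fin 2) (Fin 2) C) :
    (br γ.m N).map (γ.sc s) = br γ.m (parR C * N.map (γ.sc s) * parR C) := by
  ext i j
  simp only [br, Matrix.map_apply, of_apply, map_add, map_mul, γ.sc_m, Fin.sum_univ_two,
    Matrix.mul_apply, h0, h1]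
  simp [parR]

theorem par_br {μ : K} (γ : Gr2 K (n × Fin 2) C μ) (N : Matrix (Fin 2) (Fin 2) C) :
    (br γ.m N).map (γ.sc (fun v => if v.2 = 0 then -1 else 1)) =
      br γ.m (parR C * N.map (γ.sc (fun v => if v.2 = 0 then -1 else 1)) * parR C) :=
  par_br' γ _ (fun _ => if_pos rfl) (fun _ => if_neg one_ne_zero) N

/-- QB-26d. Proof.  `s (i,0) = -1`, `s (i,1) = 1`, `μ = γ.sc s`, `R = diag(-1, 1)`: `μ θ = - θ`,
`μ τ = - τ`, `μ (br N) = br (R μ(N) R)`, `R E R = - E`, `R τ R = τᵀ`, so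
`μ (F (k+1)) = br ((-1)^k R (E τ)^k E R) = - br ((E τᵀ)^k E) = (F (k+1))ᵀ` (`FF_transpose`). -/
theorem Gr2.sc_F {μ : K} (γ : Gr2 K (n × Fin 2) C μ) (k : ℕ) :
    (γ.F k).map (γ.sc (fun v => if v.2 = 0 then -1 else 1)) = (γ.F k)ᵀ := by
  have hm : ∀ a : Matrix (Fin 2) (Fin 2) C,
      a.map (γ.sc (fun v => if v.2 = 0 then -1 else 1)) =
        (γ.sc (fun v => if v.2 = 0 then -1 else 1)).toRingHom.mapMatrix a := fun a => rfl
  have hmn : ∀ a : Matrix n n C,
      a.map (γ.sc (fun v => if v.2 = 0 then -1 else 1)) =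
        (γ.sc (fun v => if v.2 = 0 then -1 else 1)).toRingHom.mapMatrix a := fun a => rfl
  cases k with
  | zero =>
    show (1 : Matrix n n C).map _ = (1 : Matrix n n C)ᵀ
    rw [hmn, map_one, Matrix.transpose_one]
  | succ k =>
    show (FF γ.m (Gr2.E C) γ.tau (k + 1)).map _ = (FF γ.m (Gr2.E C) γ.tau (k + 1))ᵀ
    rw [FF_transpose γ.anti Gr2.BDder_Et]
    show (br γ.m ((Gr2.E C * γ.tau) ^ k * Gr2.E C)).map _ = _
    rw [par_br]
    have h1 : ((Gr2.E C * γ.tau) ^ k * Gr2.E C).map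
        (γ.sc (fun v => if v.2 = 0 then -1 else 1)) =
        ((-1 : C) ^ k) • ((Gr2.E C * γ.tau) ^ k * Gr2.E C) := by
      rw [hm, map_mul, map_pow, map_mul, ← hm, ← hm, par_map_E, par_map_tau, mul_neg, neg_pow,
        mul_assoc]
      rcases Nat.even_or_odd k with he | ho
      · rw [he.neg_one_pow, he.neg_one_pow, one_mul, one_smul]
      · rw [ho.neg_one_pow, ho.neg_one_pow, neg_one_mul, neg_one_smul]
    have h2 : parR C * ((Gr2.E C * γ.tau) ^ k * Gr2.E C) * parR C =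
        ((-1 : C) ^ (k + 1)) • ((Gr2.E C * γ.tauᵀ) ^ k * Gr2.E C) := by
      have h3 : parR C * ((Gr2.E C * γ.tau) ^ k * Gr2.E C) * parR C =
          (parR C * (Gr2.E C * γ.tau) ^ k * parR C) * (parR C * Gr2.E C * parR C) := by
        calc parR C * ((Gr2.E C * γ.tau) ^ k * Gr2.E C) * parR C =
            parR C * (Gr2.E C * γ.tau) ^ k * 1 * Gr2.E C * parR C := by
              simp only [mul_assoc, mul_one, one_mul]
          _ = parR C * (Gr2.E C * γ.tau) ^ k * (parR C * parR C) * Gr2.E C * parR C := by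
              rw [parR_sq]
          _ = _ := by simp only [mul_assoc]
      have h4 : parR C * (Gr2.E C * γ.tau) * parR C = -(Gr2.E C * γ.tauᵀ) := by
        calc parR C * (Gr2.E C * γ.tau) * parR C =
            parR C * Gr2.E C * 1 * γ.tau * parR C := by simp only [mul_assoc, mul_one, one_mul]
          _ = parR C * Gr2.E C * (parR C * parR C) * γ.tau * parR C := by rw [parR_sq]
          _ = (parR C * Gr2.E C * parR C) * (parR C * γ.tau * parR C) := by
              simp only [mul_assoc]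
          _ = _ := by rw [parR_E, parR_tau, neg_mul]
      rw [h3, parR_pow, h4, parR_E, mul_neg, neg_pow]
      rcases Nat.even_or_odd k with he | ho
      · rw [he.neg_one_pow, one_mul, pow_succ, he.neg_one_pow, one_mul, neg_one_smul]
      · rw [ho.neg_one_pow, neg_one_mul, neg_mul, neg_neg, pow_succ, ho.neg_one_pow,
          neg_one_mul, neg_neg, one_smul]
    rw [h1, Matrix.mul_smul, Matrix.smul_mul, h2, smul_smul, br_smul, ← pow_add,
      show k + (k + 1) = 2 * k + 1 by ring, pow_succ, pow_mul, neg_one_sq, one_pow, one_mul,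
      neg_one_smul]

theorem par_sP_lamU (lam : C →ₗ[K] K) {g : Type*} [LieRing g] [LieAlgebra K g]
    (f : UP K g →ₗ[K] UP K g) (w : C ⊗[K] UP K g) :
    f (lamU lam w) = lamU lam (f.baseChange C w) := by
  induction w using TensorProduct.induction_on with
  | zero => simp only [map_zero]
  | add a b ha hb => simp only [map_add, ha, hb]
  | tmul c u => rw [LinearMap.baseChange_tmul, lamU_tmul, lamU_tmul, map_smul]

theorem par_lamU_map (lam : C →ₗ[K] K) {g : Type*} [LieRing g] [LieAlgebra K g]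
    (ν : C →ₐ[K] C) (c : K) (h : ∀ f, lam (ν f) = c * lam f) (w : C ⊗[K] UP K g) :
    lamU lam (Algebra.TensorProduct.map ν (AlgHom.id K (UP K g)) w) = c • lamU lam w := by
  induction w using TensorProduct.induction_on with
  | zero => simp only [map_zero, smul_zero]
  | add a b ha hb => simp only [map_add, ha, hb, smul_add]
  | tmul a u =>
    rw [Algebra.TensorProduct.map_tmul, lamU_tmul, lamU_tmul, h, smul_smul, AlgHom.id_apply]

theorem par_prod {μ : K} (γ : Gr2 K (n × Fin 2) C μ) (N : ℕ) (f : C) :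
    γ.lamth N (γ.sc (fun v => if v.2 = 0 then -1 else 1) f) =
      ((-1 : K) ^ (N + Fintype.card n)) * γ.lamth N f := by
  have h1 : ∀ f, γ.lamth N f = γ.lam (γ.th ^ N * f) := fun f => rfl
  rw [h1, h1]
  have h2 : γ.th ^ N * γ.sc (fun v => if v.2 = 0 then -1 else 1) f =
      ((-1 : K) ^ N) • γ.sc (fun v => if v.2 = 0 then -1 else 1) (γ.th ^ N * f) := by
    have h3 : (-1 : C) ^ N * (-1) ^ N = 1 := by
      rw [← mul_pow, neg_one_mul, neg_neg, one_pow]
    have h4 : (algebraMap K C) ((-1) ^ N) = (-1) ^ N := by rw [map_pow, map_neg, map_one]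
    rw [map_mul, map_pow (γ.sc _), par_th, neg_pow γ.th, Algebra.smul_def, h4]
    linear_combination (-(γ.th ^ N * γ.sc (fun v => if v.2 = 0 then -1 else 1) f)) * h3
  rw [h2, map_smul, γ.lam_sc, smul_eq_mul, ← mul_assoc, pow_add]
  congr 2
  rw [Fintype.prod_prod_type]
  simp [Fin.prod_univ_two]

/-- QB-26e. Proof: `sP_Psi_so`, `sc_F`, `map_Psi_so`; `lamth N (sc s f) = (-1)^(N + card n) lamth N f`
(`sc s θ = - θ`, `lam_sc`). -/
theorem Gr2.sP_SV {μ : K} (γ : Gr2 K (n × Fin 2) C μ) {N k : ℕ} (hNk : N + k = Fintype.card n) :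
    sP K (so n K) (γ.SV N k) = ((-1 : K) ^ k) • γ.SV N k := by
  have h1 : (fun i => (γ.F i)ᵀ) =
      fun i => (γ.F i).map (γ.sc (fun v => if v.2 = 0 then -1 else 1)) :=
    funext fun i => (γ.sc_F i).symm
  rw [Gr2.SV, par_sP_lamU, sP_Psi_so γ.grp, h1, ← map_Psi_so,
    par_lamU_map _ _ _ (par_prod γ N)]
  congr 1
  rw [← hNk, ← add_assoc, ← two_mul, pow_add, pow_mul, neg_one_sq, one_pow, one_mul]

/-- QB-26f. Proof: `tauP_Psi`. -/
theorem tauP_lamU (lam : C →ₗ[K] K) {g : Type*} [LieRing g] [LieAlgebra K g]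
    (h : ℕ → C ⊗[K] g) (k : ℕ) :
    tauP K g (lamU lam (Psi h k)) = ((-1 : K) ^ k) • lamU lam (Psi h k) := by
  have h1 := par_sP_lamU lam (tauP K g).toLinearMap (Psi h k)
  rw [tauP_Psi, map_smul] at h1
  exact h1

theorem par_F_two (γ : Gr K (n × Fin 1) C) (k : ℕ) : γ.F (k + 2) = 0 := by
  show br γ.m ((1 * 0) ^ (k + 1) * 1) = 0
  rw [mul_zero, pow_succ, mul_zero, zero_mul]
  ext i j
  simp [br]

theorem par_F_one (γ : Gr K (n × Fin 1) C) : γ.F 1 = br γ.m 1 := by
  show br γ.m ((1 * 0) ^ 0 * 1) = _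
  rw [pow_zero, one_mul]

theorem par_F_one_sq (γ : Gr K (n × Fin 1) C) : γ.F 1 * γ.F 1 = 0 := by
  rw [par_F_one, br_mul γ.cyc, γ.pf_Sg, mul_zero, zero_mul]
  ext i j
  simp [br]

theorem par_F_one_tr (γ : Gr K (n × Fin 1) C) : (γ.F 1)ᵀ = - γ.F 1 := by
  rw [par_F_one, br_transpose γ.anti, Matrix.transpose_one]

/-- a group-like sequence which ends in degree one -/
theorem par_hh_two {M : Type*} [Ring M] {F F' : ℕ → M} (h0 : F' 0 = 1)
    (h2 : ∀ k, F (k + 2) = 0) (h2' : ∀ k, F' (k + 2) = 0) (h11 : F 1 * F' 1 = 0) (l : ℕ) :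
    hh F F' l = if l = 0 then F 1 else 0 := by
  rw [hh]
  cases l with
  | zero => simp [h0]
  | succ l =>
    rw [Finset.Nat.sum_antidiagonal_succ, if_neg (Nat.succ_ne_zero l)]
    rw [Finset.sum_eq_zero (fun p _ => by rw [h2 p.1]; simp), add_zero]
    cases l with
    | zero => simp [h11]
    | succ l => rw [h2' l, mul_zero]

theorem par_Psi_neg {g : Type*} [LieRing g] [LieAlgebra K g] {h h' : ℕ → C ⊗[K] g}
    (h0 : h' 0 = - h 0) (h1 : ∀ k, h (k + 1) = 0) (h1' : ∀ k, h' (k + 1) = 0) (k : ℕ) :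
    Psi h' k = ((-1 : K) ^ k) • Psi h k := by
  induction k with
  | zero => rw [Psi_zero, Psi_zero, pow_zero, one_smul]
  | succ k ih =>
    have hn : (k + 1 : K) ≠ 0 := by exact_mod_cast Nat.succ_ne_zero k
    have hs : ∀ f : ℕ → C ⊗[K] g, (∀ k, f (k + 1) = 0) → ∀ l,
        ∑ p ∈ antidiagonal l, XC (K := K) p.1 (f p.1) * Psi f p.2 = XC 0 (f 0) * Psi f l := by
      intro f hf l
      cases l with
      | zero => rw [Finset.Nat.antidiagonal_zero, Finset.sum_singleton]
      | succ l =>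
        rw [Finset.Nat.sum_antidiagonal_succ,
          Finset.sum_eq_zero (fun p _ => by rw [hf p.1, map_zero, zero_mul]), add_zero]
    have e1 : (k + 1 : K) • Psi h' (k + 1) = (k + 1 : K) • (((-1 : K) ^ (k + 1)) • Psi h (k + 1)) := by
      rw [smul_comm, Psi_succ, Psi_succ, hs _ h1, hs _ h1', ih, h0, map_neg, neg_mul,
        mul_smul_comm, pow_succ, mul_neg_one, neg_smul]
    have h2 := congrArg (fun z => (k + 1 : K)⁻¹ • z) e1
    simpa only [smul_smul (k + 1 : K)⁻¹ (k + 1 : K), inv_mul_cancel₀ hn, one_smul] using h2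

/-- QB-26g. Proof.  `F 2 = F 3 = .. = 0`, `(F 1)² = br (Sg) = 0`, `(F 1)ᵀ = - F 1`; so
`hh F Fᵀ 0 = F 1`, `hh F Fᵀ (i+1) = 0` and the same for `Fᵀ`: `hso Fᵀ = - hso F`, both concentrated in
degree `0`.  By induction `Psi (hso Fᵀ) k = (-1)^k Psi (hso F) k`; `sP_Psi_so`. -/
theorem Gr.sP_PV (γ : Gr K (n × Fin 1) C) (k : ℕ) :
    sP K (so n K) (γ.PV k) = ((-1 : K) ^ k) • γ.PV k := by
  have hF0 : γ.F 0 = 1 := rfl
  have e1 : ∀ l, hh γ.F (fun i => (γ.F i)ᵀ) l = if l = 0 then γ.F 1 else 0 := fun l =>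
    par_hh_two (by rw [hF0, Matrix.transpose_one]) (par_F_two γ)
      (fun k => by rw [par_F_two, Matrix.transpose_zero])
      (by rw [par_F_one_tr, mul_neg, par_F_one_sq, neg_zero]) l
  have e2 : ∀ l, hh (fun i => (γ.F i)ᵀ) (fun i => ((γ.F i)ᵀ)ᵀ) l =
      if l = 0 then - γ.F 1 else 0 := fun l => by
    rw [par_hh_two (F := fun i => (γ.F i)ᵀ) (F' := fun i => ((γ.F i)ᵀ)ᵀ)
      (by rw [hF0, Matrix.transpose_one, Matrix.transpose_one])
      (fun k => by rw [par_F_two, Matrix.transpose_zero])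
      (fun k => by rw [par_F_two, Matrix.transpose_zero, Matrix.transpose_zero])
      (by rw [Matrix.transpose_transpose, par_F_one_tr, neg_mul, par_F_one_sq, neg_zero]) l,
      par_F_one_tr]
  rw [Gr.PV, par_sP_lamU, sP_Psi_so γ.grp,
    par_Psi_neg (K := K) (h := hso (K := K) γ.F) (h' := hso (K := K) (fun i => (γ.F i)ᵀ))
      ?_ ?_ ?_ k, map_smul]
  · unfold hso
    rw [e1, e2, if_pos rfl, if_pos rfl, map_neg]
  · intro k
    unfold hso
    rw [e1, if_neg (Nat.succ_ne_zero k), map_zero]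
  · intro k
    unfold hso
    rw [e2, if_neg (Nat.succ_ne_zero k), map_zero]

end Pool.Agent.helper74.QB
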