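import Pool.Agent.helper74.QB.Transfer

/-!
# QB-21. Tensor lifts

The recursion of `Psi` in `C ⊗ TP` (tensor algebra instead of `UP`).
-/

set_option autoImplicit false

namespace Pool.Agent.helper74.QB

open TensorProduct Finset

variable {K : Type*} [Field K] {g : Type*} [LieRing g] [LieAlgebra K g]
variable {C : Type*} [CommRing C] [Algebra K C]

/-- the letters with coefficients in `C` -/
noncomputable def XTC (i : ℕ) : C ⊗[K] g →ₗ[C] C ⊗[K] TP K g := (XT K g i).baseChange C

@[simp] theorem XTC_tmul (i : ℕ) (c : C) (x : g) :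
    XTC i (c ⊗ₜ[K] x) = c ⊗ₜ[K] XT K g i x := rfl

/-- the tensor lift of `Psi` -/
noncomputable def PsiT (h : ℕ → C ⊗[K] g) : ℕ → C ⊗[K] TP K g
  | 0 => 1
  | n + 1 => ((n + 1 : K)⁻¹) • ∑ i : Fin (n + 1), XTC (i : ℕ) (h i) * PsiT h (n - i)

theorem PsiT_zero (h : ℕ → C ⊗[K] g) : PsiT h 0 = 1 := by rw [PsiT]

/-- QB-21a. -/
theorem PsiT_succ [CharZero K] (h : ℕ → C ⊗[K] g) (n : ℕ) :
    (n + 1 : K) • PsiT h (n + 1) = ∑ p ∈ antidiagonal n, XTC p.1 (h p.1) * PsiT h p.2 := by
  have hn : (n + 1 : K) ≠ 0 := by exact_mod_cast Nat.succ_ne_zero n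
  rw [PsiT, smul_smul, mul_inv_cancel₀ hn, one_smul,
    Finset.Nat.sum_antidiagonal_eq_sum_range_succ (fun i j => XTC i (h i) * PsiT h j),
    ← Fin.sum_univ_eq_sum_range (fun i => XTC i (h i) * PsiT h (n - i))]

/-- `lam ⊗ id` for any module -/
noncomputable def lamB {B : Type*} [AddCommGroup B] [Module K B] (lam : C →ₗ[K] K) :
    C ⊗[K] B →ₗ[K] B :=
  (TensorProduct.lid K B).toLinearMap ∘ₗ LinearMap.rTensor B lam

@[simp] theorem lamB_tmul {B : Type*} [AddCommGroup B] [Module K B] (lam : C →ₗ[K] K) (c : C)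
    (b : B) : lamB lam (c ⊗ₜ[K] b) = lam c • b := by
  simp [lamB]

theorem lamB_eq_lamU (lam : C →ₗ[K] K) : lamB (B := UP K g) lam = lamU lam := rfl

/-- the base change of a homomorphism -/
noncomputable def EvC {A B : Type*} [Ring A] [Algebra K A] [Ring B] [Algebra K B]
    (Φ : A →ₐ[K] B) : C ⊗[K] A →ₐ[C] C ⊗[K] B :=
  Algebra.TensorProduct.map (AlgHom.id C C) Φ

@[simp] theorem EvC_tmul {A B : Type*} [Ring A] [Algebra K A] [Ring B] [Algebra K B]
    (Φ : A →ₐ[K] B) (c : C) (a : A) : EvC (C := C) Φ (c ⊗ₜ[K] a) = c ⊗ₜ[K] Φ a := by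
  simp [EvC]

/-- QB-21b. -/
theorem EvC_XTC {B : Type*} [Ring B] [Algebra K B] (Φ : TP K g →ₐ[K] B) (i : ℕ)
    (y : C ⊗[K] g) :
    EvC (C := C) Φ (XTC i y) = (Φ.toLinearMap ∘ₗ XT K g i).baseChange C y := by
  induction y using TensorProduct.induction_on with
  | zero => rw [map_zero, map_zero, map_zero]
  | tmul c x => rw [XTC_tmul, EvC_tmul]; rfl
  | add a b ha hb => rw [map_add, map_add, map_add, ha, hb]

/-- `EvC` respects the scalars of `K` -/
theorem PsiT_EvC_smul {A B : Type*} [Ring A] [Algebra K A] [Ring B] [Algebra K B]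
    (Φ : A →ₐ[K] B) (c : K) (w : C ⊗[K] A) :
    EvC (C := C) Φ (c • w) = c • EvC (C := C) Φ w :=
  (EvC (C := C) Φ).toLinearMap.map_smul_of_tower c w

/-- QB-21c. Proof: strong induction on `n` with the definitions (`EvC (toUP K g)` is a ring
homomorphism and sends `XTC i y` to `XC i y`). -/
theorem EvC_toUP_PsiT (h : ℕ → C ⊗[K] g) (n : ℕ) :
    EvC (C := C) (toUP K g) (PsiT h n) = Psi h n := by
  induction n using Nat.strong_induction_on with
  | _ n ih =>
  cases n with
  | zero => rw [PsiT_zero, Psi_zero, map_one]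
  | succ n =>
    rw [PsiT, Psi, PsiT_EvC_smul, map_sum]
    congr 1
    refine sum_congr rfl fun i _ => ?_
    rw [map_mul, ih (n - i) (by omega), EvC_XTC]
    rfl

/-- QB-21d. Proof: pure tensors. -/
theorem lamB_EvC {A B : Type*} [Ring A] [Algebra K A] [Ring B] [Algebra K B]
    (Φ : A →ₐ[K] B) (lam : C →ₗ[K] K) (w : C ⊗[K] A) :
    lamB lam (EvC (C := C) Φ w) = Φ (lamB lam w) := by
  induction w using TensorProduct.induction_on with
  | zero => rw [map_zero, map_zero, map_zero, map_zero]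
  | tmul c x => rw [EvC_tmul, lamB_tmul, lamB_tmul, map_smul]
  | add a b ha hb => rw [map_add, map_add, map_add, map_add, ha, hb]

/-- QB-21e. Proof: induction on `k` with `PsiT_succ`: only the terms with `p.1 = 0` survive,
`(k+1) • EvC Φ (PsiT h (k+1)) = EvC Φ (XTC 0 (h 0)) * EvC Φ (PsiT h k)`. -/
theorem EvC_PsiT_comm [CharZero K] {B : Type*} [CommRing B] [Algebra K B] (Φ : TP K g →ₐ[K] B)
    (hΦ : ∀ (i : ℕ) (x : g), Φ (XT K g (i + 1) x) = 0) (h : ℕ → C ⊗[K] g) (k : ℕ) :
    (k.factorial : K) • EvC (C := C) Φ (PsiT h k) = (EvC (C := C) Φ (XTC 0 (h 0))) ^ k := by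
  induction k with
  | zero => rw [PsiT_zero, map_one, Nat.factorial_zero, Nat.cast_one, one_smul, pow_zero]
  | succ k ih =>
    have h0 : ∀ i : ℕ, EvC (C := C) Φ (XTC (i + 1) (h (i + 1))) = 0 := by
      intro i
      have h1 : Φ.toLinearMap ∘ₗ XT K g (i + 1) = 0 := by
        ext x
        exact hΦ i x
      rw [EvC_XTC, h1, LinearMap.baseChange_zero, LinearMap.zero_apply]
    have h2 : ((k : K) + 1) • EvC (C := C) Φ (PsiT h (k + 1))
        = EvC (C := C) Φ (XTC 0 (h 0)) * EvC (C := C) Φ (PsiT h k) := by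
      rw [← PsiT_EvC_smul, PsiT_succ, map_sum, sum_eq_single (0, k)]
      · rw [map_mul]
      · rintro ⟨i, j⟩ hij hne
        rw [map_mul]
        cases i with
        | zero =>
          exfalso
          apply hne
          have := mem_antidiagonal.mp hij
          simp only [zero_add] at this
          rw [this]
        | succ i => rw [h0 i, zero_mul]
      · intro hk
        exact absurd (mem_antidiagonal.mpr (zero_add k)) hk
    rw [pow_succ', ← ih, mul_smul_comm, ← h2, smul_smul, Nat.factorial_succ]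
    congr 1
    push_cast
    ring

end Pool.Agent.helper74.QB
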