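import Pool.Agent.helper74.QB.PfD
import Pool.Agent.helper74.QB.PsiT

/-!
# QB-23. Commutative evaluation of the Pfaffian type vector
-/

set_option autoImplicit false

namespace Pool.Agent.helper74.QB

open Finset Matrix LieAlgebra.Orthogonal TensorProduct

/-- a multiple of the Pfaffian: `∑_σ sign σ ∏_p y(σ e(p,0), σ e(p,1))` -/
def pfs {R : Type*} [CommRing R] {n : Type*} [Fintype n] [DecidableEq n] {P : Type*} [Fintype P]
    (e : P × Fin 2 ≃ n) (y : Matrix n n R) : R :=
  ∑ σ : Equiv.Perm n, (Equiv.Perm.sign σ : ℤ) • ∏ p : P, y (σ (e (p, 0))) (σ (e (p, 1)))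

variable {K : Type*} [Field K] [CharZero K] {n : Type*} [Fintype n] [DecidableEq n]
variable {C : Type*} [CommRing C] [Algebra K C] {P : Type*} [Fintype P] [DecidableEq P]

/-- interchanging two places changes the sign of a product of anticommuting variables -/
theorem SymPf_swap {R : Type*} [CommRing R] {N : Type*} {P : Type*} [Fintype P] [DecidableEq P]
    (M : N → N → R) (anti : ∀ v w, M w v = - M v w)
    (cyc : ∀ a b c d, M a b * M c d = M b c * M a d) (φ : P × Fin 2 → N) {s t : P × Fin 2}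
    (hst : s ≠ t) :
    ∏ p, M (φ (Equiv.swap s t (p, 0))) (φ (Equiv.swap s t (p, 1))) =
      - ∏ p, M (φ (p, 0)) (φ (p, 1)) := by
  obtain ⟨p, a⟩ := s
  obtain ⟨q, b⟩ := t
  have hoth : ∀ (x : P) (c : Fin 2), x ≠ p → x ≠ q →
      Equiv.swap (p, a) (q, b) (x, c) = (x, c) := by
    intro x c h1 h2
    exact Equiv.swap_apply_of_ne_of_ne (fun h => h1 (congrArg Prod.fst h))
      (fun h => h2 (congrArg Prod.fst h))
  by_cases hpq : p = q
  · subst hpq
    have hab : a ≠ b := fun h => hst (by rw [h])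
    rw [← Finset.mul_prod_erase univ
        (fun x => M (φ (Equiv.swap (p, a) (p, b) (x, 0))) (φ (Equiv.swap (p, a) (p, b) (x, 1))))
        (mem_univ p),
      ← Finset.mul_prod_erase univ (fun x => M (φ (x, 0)) (φ (x, 1))) (mem_univ p), ← neg_mul]
    congr 1
    · have h01 : (a = 0 ∧ b = 1) ∨ (a = 1 ∧ b = 0) := by omega
      rcases h01 with ⟨rfl, rfl⟩ | ⟨rfl, rfl⟩
      · rw [Equiv.swap_apply_left, Equiv.swap_apply_right]
        exact anti _ _
      · rw [Equiv.swap_apply_left, Equiv.swap_apply_right]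
        exact anti _ _
    · refine Finset.prod_congr rfl fun x hx => ?_
      have hxp := Finset.ne_of_mem_erase hx
      rw [hoth x 0 hxp hxp, hoth x 1 hxp hxp]
  · have hq : q ∈ (univ : Finset P).erase p := Finset.mem_erase.2 ⟨Ne.symm hpq, mem_univ q⟩
    rw [← Finset.mul_prod_erase univ
        (fun x => M (φ (Equiv.swap (p, a) (q, b) (x, 0))) (φ (Equiv.swap (p, a) (q, b) (x, 1))))
        (mem_univ p),
      ← Finset.mul_prod_erase (univ.erase p)
        (fun x => M (φ (Equiv.swap (p, a) (q, b) (x, 0))) (φ (Equiv.swap (p, a) (q, b) (x, 1))))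
        hq,
      ← Finset.mul_prod_erase univ (fun x => M (φ (x, 0)) (φ (x, 1))) (mem_univ p),
      ← Finset.mul_prod_erase (univ.erase p) (fun x => M (φ (x, 0)) (φ (x, 1))) hq,
      ← mul_assoc, ← mul_assoc, ← neg_mul]
    congr 1
    · have hp0 : ∀ c : Fin 2, c ≠ a → Equiv.swap (p, a) (q, b) (p, c) = (p, c) := fun c hc =>
        Equiv.swap_apply_of_ne_of_ne (fun h => hc (congrArg Prod.snd h))
          (fun h => hpq (congrArg Prod.fst h))
      have hq0 : ∀ c : Fin 2, c ≠ b → Equiv.swap (p, a) (q, b) (q, c) = (q, c) := fun c hc =>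
        Equiv.swap_apply_of_ne_of_ne (fun h => hpq (congrArg Prod.fst h).symm)
          (fun h => hc (congrArg Prod.snd h))
      have ha : a = 0 ∨ a = 1 := by omega
      have hb : b = 0 ∨ b = 1 := by omega
      generalize hx0 : φ (p, 0) = x0
      generalize hx1 : φ (p, 1) = x1
      generalize hy0 : φ (q, 0) = y0
      generalize hy1 : φ (q, 1) = y1
      rcases ha with rfl | rfl <;> rcases hb with rfl | rfl
      · rw [Equiv.swap_apply_left, Equiv.swap_apply_right, hp0 1 (by decide), hq0 1 (by decide),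
          hx0, hx1, hy0, hy1]
        -- M y0 x1 * M x0 y1 = - M x0 x1 * M y0 y1
        rw [cyc y0 x1 x0 y1, anti x0 x1, neg_mul]
      · rw [Equiv.swap_apply_left, Equiv.swap_apply_right, hp0 1 (by decide), hq0 0 (by decide),
          hx0, hx1, hy0, hy1]
        -- M y1 x1 * M y0 x0 = - M x0 x1 * M y0 y1
        rw [anti x0 y0, mul_neg, cyc y1 x1 x0 y0, anti x0 x1, anti y0 y1]
        ring
      · rw [Equiv.swap_apply_left, Equiv.swap_apply_right, hp0 0 (by decide), hq0 1 (by decide),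
          hx0, hx1, hy0, hy1]
        -- M x0 y0 * M x1 y1 = - M x0 x1 * M y0 y1
        rw [anti y0 x0, neg_mul, cyc y0 x0 x1 y1]
      · rw [Equiv.swap_apply_left, Equiv.swap_apply_right, hp0 0 (by decide), hq0 0 (by decide),
          hx0, hx1, hy0, hy1]
        -- M x0 y1 * M y0 x1 = - M x0 x1 * M y0 y1
        rw [anti y1 x0, anti x1 y0, neg_mul_neg, cyc y1 x0 x1 y0, anti y0 y1]
        ring
    · refine Finset.prod_congr rfl fun x hx => ?_
      have hxq := Finset.ne_of_mem_erase hx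
      have hxp := Finset.ne_of_mem_erase (Finset.mem_of_mem_erase hx)
      rw [hoth x 0 hxp hxq, hoth x 1 hxp hxq]

/-- a product of anticommuting variables under a permutation of the places -/
theorem SymPf_perm {R : Type*} [CommRing R] {N : Type*} {P : Type*} [Fintype P] [DecidableEq P]
    (M : N → N → R) (anti : ∀ v w, M w v = - M v w)
    (cyc : ∀ a b c d, M a b * M c d = M b c * M a d) (τ : Equiv.Perm (P × Fin 2)) :
    ∀ φ : P × Fin 2 → N, ∏ p, M (φ (τ (p, 0))) (φ (τ (p, 1))) =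
      (Equiv.Perm.sign τ : ℤ) • ∏ p, M (φ (p, 0)) (φ (p, 1)) := by
  induction τ using Equiv.Perm.swap_induction_on with
  | one =>
    intro φ
    simp
  | swap_mul f x y hxy ih =>
    intro φ
    have h1 := ih (fun z => φ (Equiv.swap x y z))
    have h2 := SymPf_swap M anti cyc φ hxy
    simp only [Equiv.Perm.mul_apply]
    rw [h1, h2, Equiv.Perm.sign_mul, Equiv.Perm.sign_swap hxy]
    simp

/-- the product of pure tensors -/
theorem SymPf_tmul_prod {A B : Type*} [CommRing A] [Algebra K A] [CommRing B] [Algebra K B]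
    (a : P → A) (b : P → B) :
    ∏ p : P, (a p ⊗ₜ[K] b p : A ⊗[K] B) = (∏ p, a p) ⊗ₜ[K] (∏ p, b p) := by
  have h1 : ∀ s : Finset P,
      ∏ p ∈ s, (a p ⊗ₜ[K] b p : A ⊗[K] B) = (∏ p ∈ s, a p) ⊗ₜ[K] (∏ p ∈ s, b p) := by
    intro s
    induction s using Finset.induction_on with
    | empty => simp [Algebra.TensorProduct.one_def]
    | insert p s hp ih =>
      rw [Finset.prod_insert hp, Finset.prod_insert hp, Finset.prod_insert hp, ih,
        Algebra.TensorProduct.tmul_mul_tmul]
  exact h1 univ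

/-- QB-23a. Proof.  `F 1 = br 1`, `(F 1)_{ij} = m (i,0) (j,0)`; `H = Φ̂(XTC 0 (h_0)) = ∑ m(i,j) ⊗ y i j`,
`r! Φ̂(PsiT r) = H^r` (`EvC_PsiT_comm`), `r = card P`.  `H^r = ∏_{p : P} (∑_{i,j} ..)
= ∑_{f : P → n × n} ∏ m(f p) ⊗ ∏ y (f p)` (`Finset.prod_univ_sum`).  The product `∏_p m(f p)` vanishes unless the
map `P × Fin 2 → n`, `(p,0) ↦ (f p).1`, `(p,1) ↦ (f p).2` is injective (`cyc`, `anti`: `m a b * m a d = 0`,
`m a a = 0`), hence bijective, i.e. of the form `σ ∘ e`; and `∏_p m(σ e(p,0), σ e(p,1)) =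
sign σ ∏_p m(e(p,0), e(p,1))` (for a transposition of two values by `cyc` and `anti`; use
`Equiv.Perm.swap_induction_on`).  Apply `lamB I`. -/
theorem Gr.lamB_PsiT (γ : Gr K (n × Fin 1) C) (e : P × Fin 2 ≃ n)
    (hI : γ.I (∏ p : P, γ.m (e (p, 0), 0) (e (p, 1), 0)) = 1)
    {B : Type*} [CommRing B] [Algebra K B] (Φ : TP K (so n K) →ₐ[K] B)
    (hΦ : ∀ (i : ℕ) (x : so n K), Φ (XT K (so n K) (i + 1) x) = 0) :
    lamB γ.I (EvC (C := C) Φ (PsiT (hso γ.F) (Fintype.card P))) =
      ((Fintype.card P).factorial : K)⁻¹ •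
        pfs e (fun i j => Φ (XT K (so n K) 0 (Y0 K n (single i j 1)))) := by
  set y : n → n → B := fun i j => Φ (XT K (so n K) 0 (Y0 K n (single i j 1))) with hy
  set M : n → n → C := fun i j => γ.m (i, 0) (j, 0) with hM
  have hanti : ∀ v w, M w v = - M v w := fun v w => γ.anti _ _
  have hcyc : ∀ a b c d, M a b * M c d = M b c * M a d := fun a b c d => γ.cyc _ _ _ _
  have hF : ∀ i j, γ.F 1 i j = M i j := by
    intro i j
    show br γ.m ((1 * 0) ^ 0 * 1) i j = _
    simp [br, hM]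
  -- the quadratic form
  have hH : EvC (C := C) Φ (XTC 0 (hso γ.F 0)) = ∑ ij : n × n, M ij.1 ij.2 ⊗ₜ[K] y ij.1 ij.2 := by
    have h1 : hso γ.F 0 = pr (K := K) (γ.F 1) := by
      unfold hso
      rw [hh_zero γ.grp]
    rw [h1, pr_apply, map_sum, map_sum, Fintype.sum_prod_type]
    refine Finset.sum_congr rfl fun i _ => ?_
    rw [map_sum, map_sum]
    refine Finset.sum_congr rfl fun j _ => ?_
    rw [XTC_tmul, EvC_tmul, hF]
  have hfac : ((Fintype.card P).factorial : K) ≠ 0 := by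
    exact_mod_cast (Fintype.card P).factorial_ne_zero
  have hPsi : EvC (C := C) Φ (PsiT (hso γ.F) (Fintype.card P)) =
      ((Fintype.card P).factorial : K)⁻¹ •
        (EvC (C := C) Φ (XTC 0 (hso γ.F 0))) ^ (Fintype.card P) := by
    rw [← EvC_PsiT_comm Φ hΦ, smul_smul, inv_mul_cancel₀ hfac, one_smul]
  rw [hPsi, map_smul]
  congr 1
  have hpow : (EvC (C := C) Φ (XTC 0 (hso γ.F 0))) ^ (Fintype.card P) =
      ∑ f : P → n × n, (∏ p, M (f p).1 (f p).2) ⊗ₜ[K] (∏ p, y (f p).1 (f p).2) := by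
    rw [hH]
    have h1 : (∑ ij : n × n, M ij.1 ij.2 ⊗ₜ[K] y ij.1 ij.2 : C ⊗[K] B) ^ (Fintype.card P) =
        ∏ _p : P, ∑ ij : n × n, (M ij.1 ij.2 ⊗ₜ[K] y ij.1 ij.2 : C ⊗[K] B) := by
      rw [Finset.prod_const, Finset.card_univ]
    rw [h1, Finset.prod_univ_sum, Fintype.piFinset_univ]
    refine Finset.sum_congr rfl fun f _ => ?_
    exact SymPf_tmul_prod (K := K) (fun p => M (f p).1 (f p).2) (fun p => y (f p).1 (f p).2)
  rw [hpow, map_sum]
  unfold pfs
  symm
  refine Fintype.sum_of_injective (fun σ : Equiv.Perm n => fun p : P =>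
    ((σ (e (p, 0)), σ (e (p, 1))) : n × n)) ?_ _ _ ?_ ?_
  · intro σ σ' h
    ext i
    obtain ⟨⟨p, c⟩, rfl⟩ := e.surjective i
    have h1 := congrFun h p
    simp only [Prod.mk.injEq] at h1
    have hc : c = 0 ∨ c = 1 := by omega
    rcases hc with rfl | rfl
    · exact h1.1
    · exact h1.2
  · intro f hf
    -- the map of places is not injective
    let φ : P × Fin 2 → n := fun z => if z.2 = 0 then (f z.1).1 else (f z.1).2
    have hφ0 : ∀ p, φ (p, 0) = (f p).1 := fun p => if_pos rfl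
    have hφ1 : ∀ p, φ (p, 1) = (f p).2 := fun p => by simp [φ]
    have hninj : ¬ Function.Injective φ := by
      intro hinj
      have hbij : Function.Bijective (φ ∘ e.symm) := by
        rw [← Finite.injective_iff_bijective]
        exact hinj.comp e.symm.injective
      apply hf
      refine ⟨Equiv.ofBijective _ hbij, ?_⟩
      funext p
      show (φ (e.symm (e (p, 0))), φ (e.symm (e (p, 1)))) = f p
      rw [e.symm_apply_apply, e.symm_apply_apply, hφ0, hφ1]
    have hex : ∃ s t, φ s = φ t ∧ s ≠ t := by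
      by_contra hno
      push Not at hno
      exact hninj fun s t h => hno s t h
    obtain ⟨s, t, hstφ, hst⟩ := hex
    have h1 := SymPf_swap M hanti hcyc φ hst
    have h2 : ∀ z, φ (Equiv.swap s t z) = φ z := by
      intro z
      by_cases hzs : z = s
      · rw [hzs, Equiv.swap_apply_left, hstφ]
      · by_cases hzt : z = t
        · rw [hzt, Equiv.swap_apply_right, hstφ]
        · rw [Equiv.swap_apply_of_ne_of_ne hzs hzt]
    simp only [h2, hφ0, hφ1] at h1
    have h3 : ∏ p, M (f p).1 (f p).2 = 0 := Gr.pf_half (K := K) two_ne_zero h1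
    rw [h3, TensorProduct.zero_tmul, map_zero]
  · intro σ
    have h1 := SymPf_perm M hanti hcyc (e.trans (σ.trans e.symm)) (fun z => e z)
    simp only [Equiv.trans_apply, Equiv.apply_symm_apply] at h1
    have h2 : Equiv.Perm.sign (e.trans (σ.trans e.symm)) = Equiv.Perm.sign σ := by
      rw [← Equiv.trans_assoc]
      exact Equiv.Perm.sign_trans_trans_symm σ e
    rw [h2] at h1
    show _ = lamB γ.I ((∏ p, M (σ (e (p, 0))) (σ (e (p, 1)))) ⊗ₜ[K]
      (∏ p, y (σ (e (p, 0))) (σ (e (p, 1)))))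
    rw [lamB_tmul, h1, map_zsmul]
    have h3 : γ.I (∏ p, M (e (p, 0)) (e (p, 1))) = 1 := hI
    rw [h3, smul_assoc, one_smul]

/-- QB-23b. Existence, from `exists_gr` with the equivalence
`P × Fin 2 ≃ n ≃ n × Fin 1`. -/
theorem exists_gr_pf.{u, v, w} (K : Type u) [Field K] (n : Type v) [Fintype n] [DecidableEq n]
    (P : Type w) [Fintype P] (e : P × Fin 2 ≃ n) :
    ∃ (G : Type (max u v)) (_ : CommRing G) (_ : Algebra K G) (γ : Gr K (n × Fin 1) G),
      γ.I (∏ p : P, γ.m (e (p, 0), 0) (e (p, 1), 0)) = 1 := by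
  obtain ⟨G, i1, i2, γ, h⟩ := exists_gr K (n × Fin 1) P
    (e.trans ⟨fun x => (x, 0), fun x => x.1, fun _ => rfl, fun x => by
      ext
      · rfl
      · omega⟩)
  exact ⟨G, i1, i2, γ, h⟩

end Pool.Agent.helper74.QB
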