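import Pool.Agent.helper74.QB.SymBD
import Pool.Agent.helper74.QB.SymPf

/-!
# QB-24. Reversal of the coefficients, naturality
-/

set_option autoImplicit false

namespace Pool.Agent.helper74.QB

open Finset Matrix Polynomial

variable {R : Type*} [CommRing R] {n : Type*} [Fintype n] [DecidableEq n]

/-- QB-24a. naturality -/
theorem gd_map {S : Type*} [CommRing S] (f : R →+* S) (M : Matrix n n R) :
    gd (M.map f) = (gd M).map f := by
  unfold gd
  rw [← Polynomial.coe_mapRingHom, RingHom.map_det]
  congr 1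
  ext1 i j
  simp only [Matrix.add_apply, Matrix.smul_apply, Matrix.map_apply, RingHom.mapMatrix_apply,
    Matrix.one_apply, smul_eq_mul, map_add, map_mul, Polynomial.coe_mapRingHom,
    Polynomial.map_X, Polynomial.map_C]
  split_ifs <;> simp

theorem gd_transpose (M : Matrix n n R) : gd Mᵀ = gd M := by
  unfold gd
  rw [← Matrix.det_transpose]
  congr 1
  rw [Matrix.transpose_add, Matrix.transpose_one, Matrix.transpose_smul, Matrix.transpose_map,
    Matrix.transpose_transpose]

/-- QB-24b. scaling.  Proof: `gd (c M)` is obtained from `gd M` by the substitution `X ↦ c X`. -/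
theorem gd_smul_coeff (c : R) (M : Matrix n n R) (k : ℕ) :
    (gd (c • M)).coeff k = c ^ k * (gd M).coeff k := by
  have h : gd (c • M) = (gd M).comp (C c * Polynomial.X) := by
    unfold gd
    rw [← Polynomial.coe_compRingHom_apply, RingHom.map_det]
    congr 1
    ext1 i j
    simp only [Matrix.add_apply, Matrix.smul_apply, Matrix.map_apply, RingHom.mapMatrix_apply,
      Matrix.one_apply, smul_eq_mul, map_add, map_mul, Polynomial.coe_compRingHom_apply,
      Polynomial.X_comp, Polynomial.C_comp]
    split_ifs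
    · rw [Polynomial.one_comp]
      ring
    · rw [Polynomial.zero_comp]
      ring
  rw [h, Polynomial.comp_C_mul_X_coeff, mul_comm]

theorem gd_neg_coeff (M : Matrix n n R) (k : ℕ) :
    (gd (-M)).coeff k = (-1) ^ k * (gd M).coeff k := by
  rw [← gd_smul_coeff, neg_one_smul]

/-- the odd coefficients vanish for a skew matrix -/
theorem gd_skew_odd [Algebra ℚ R] {M : Matrix n n R} (hM : Mᵀ = -M) {k : ℕ} (hk : Odd k) :
    (gd M).coeff k = 0 := by
  have h := gd_neg_coeff M k
  rw [← hM, gd_transpose, hk.neg_one_pow, neg_one_mul] at h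
  have h2 : (gd M).coeff k + (gd M).coeff k = 0 := by
    nth_rewrite 1 [h]
    exact neg_add_cancel _
  have h3 : ((2 : ℚ)⁻¹) • ((gd M).coeff k + (gd M).coeff k) = (gd M).coeff k := by
    rw [← two_smul ℚ ((gd M).coeff k), smul_smul]
    norm_num
  rw [← h3, h2, smul_zero]

/-- the coefficients of large index vanish -/
theorem gd_coeff_eq_zero (M : Matrix n n R) {k : ℕ} (hk : Fintype.card n < k) :
    (gd M).coeff k = 0 := by
  have h := Polynomial.natDegree_det_X_add_C_le M (1 : Matrix n n R)
  rw [Matrix.map_one _ (map_zero _) (map_one _), add_comm] at h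
  exact Polynomial.coeff_eq_zero_of_natDegree_lt (lt_of_le_of_lt h hk)

theorem Rev_coeff (p : R[X]) (m : ℕ) : (toLaurent p).coeff (m : ℤ) = p.coeff m := by
  rw [LaurentPolynomial.coeff_toLaurent]
  exact (Finsupp.mapDomain_apply Nat.castEmbedding.injective _ m).trans
    (Polynomial.toFinsupp_apply p m)

theorem Rev_coeff_neg (p : R[X]) {z : ℤ} (hz : z < 0) : (toLaurent p).coeff z = 0 := by
  rw [LaurentPolynomial.coeff_toLaurent]
  refine Finsupp.mapDomain_of_notMem_range _ _ ?_
  rintro ⟨m, hm⟩
  have : (m : ℤ) = z := hm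
  omega

theorem Rev_coeff_T (f : LaurentPolynomial R) (k z : ℤ) :
    (LaurentPolynomial.T k * f).coeff z = f.coeff (z - k) := by
  unfold LaurentPolynomial.T
  rw [AddMonoidAlgebra.coeff_single_mul_apply, one_mul, neg_add_eq_sub]

theorem Rev_key {p q : R[X]} {k : ℕ}
    (h : toLaurent q = LaurentPolynomial.T k * LaurentPolynomial.invert (toLaurent p)) :
    (∀ m ≤ k, q.coeff (k - m) = p.coeff m) ∧ ∀ m, k < m → p.coeff m = 0 := by
  have h1 : ∀ z : ℤ, (toLaurent q).coeff z = (toLaurent p).coeff (k - z) := by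
    intro z
    rw [h, Rev_coeff_T, LaurentPolynomial.invert_apply, neg_sub]
  constructor
  · intro m hm
    have h2 := h1 ((k - m : ℕ) : ℤ)
    rw [Rev_coeff, Nat.cast_sub hm, sub_sub_cancel, Rev_coeff] at h2
    exact h2
  · intro m hm
    have h2 := h1 ((k : ℤ) - m)
    rw [Rev_coeff_neg _ (by omega), sub_sub_cancel, Rev_coeff] at h2
    exact h2.symm

/-- the inversion as a ring homomorphism -/
noncomputable def Rev_inv (R : Type*) [CommRing R] : LaurentPolynomial R →+* LaurentPolynomial R :=
  (LaurentPolynomial.invert (R := R)).toAlgHom.toRingHom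

theorem Rev_inv_apply (f : LaurentPolynomial R) : Rev_inv R f = LaurentPolynomial.invert f := rfl

theorem Rev_mat (a b : Matrix n n R) :
    ((Polynomial.X : R[X]) • a.map C + b.map C).map (toLaurent : R[X] →+* LaurentPolynomial R) =
      (LaurentPolynomial.T 1 : LaurentPolynomial R) •
        ((a.map C + (Polynomial.X : R[X]) • b.map C).map
          (toLaurent : R[X] →+* LaurentPolynomial R)).map (Rev_inv R) := by
  ext1 i j
  simp only [Matrix.add_apply, Matrix.smul_apply, Matrix.map_apply, smul_eq_mul, map_add,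
    map_mul, Polynomial.toLaurent_X, Polynomial.toLaurent_C, Rev_inv_apply,
    LaurentPolynomial.invert_T, LaurentPolynomial.invert_C]
  rw [mul_add, ← mul_assoc, ← LaurentPolynomial.T_add, show (1 : ℤ) + -1 = 0 by norm_num,
    LaurentPolynomial.T_zero, one_mul]

theorem Rev_gd (a b : Matrix n n R) (k : ℕ) :
    toLaurent ((gd ((Polynomial.X : R[X]) • a.map C + b.map C)).coeff k) =
      LaurentPolynomial.T k * LaurentPolynomial.invert
        (toLaurent ((gd (a.map C + (Polynomial.X : R[X]) • b.map C)).coeff k)) := by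
  rw [← Polynomial.coeff_map, ← gd_map, Rev_mat, gd_smul_coeff, gd_map, Polynomial.coeff_map,
    gd_map, Polynomial.coeff_map, LaurentPolynomial.T_pow, mul_one, Rev_inv_apply]

/-- QB-24c. reversal.  Proof.  In the Laurent polynomials `R[T;T⁻¹]` let `j = Polynomial.toLaurent`,
`ι = LaurentPolynomial.invert`.  Entrywise `j(X a + b) = T • ι(j(a + X b))`, so by `gd_map` and
`gd_smul_coeff`, `j((gd (X a + b)).coeff k) = T^k * ι(j((gd (a + X b)).coeff k))`.  Compare the
coefficients of `T^(k-m)`. -/
theorem gd_rev (a b : Matrix n n R) {k m : ℕ} (hm : m ≤ k) :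
    ((gd ((Polynomial.X : R[X]) • a.map C + b.map C)).coeff k).coeff (k - m) =
      ((gd (a.map C + (Polynomial.X : R[X]) • b.map C)).coeff k).coeff m :=
  (Rev_key (Rev_gd a b k)).1 m hm

/-- QB-24d. the degree in `X` is at most `k` -/
theorem gd_rev_zero (a b : Matrix n n R) {k m : ℕ} (hm : k < m) :
    ((gd (a.map C + (Polynomial.X : R[X]) • b.map C)).coeff k).coeff m = 0 :=
  (Rev_key (Rev_gd a b k)).2 m hm

variable {P : Type*} [Fintype P] (e : P × Fin 2 ≃ n)

/-- QB-24e. naturality of `pfs` -/
theorem pfs_map {S : Type*} [CommRing S] (f : R →+* S) (M : Matrix n n R) :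
    pfs e (M.map f) = f (pfs e M) := by
  simp [pfs, map_sum, map_zsmul, map_prod]

theorem Rev_pfs_smul (c : R) (M : Matrix n n R) :
    pfs e (c • M) = c ^ Fintype.card P * pfs e M := by
  unfold pfs
  rw [Finset.mul_sum]
  refine Finset.sum_congr rfl fun σ _ => ?_
  simp only [Matrix.smul_apply, smul_eq_mul]
  rw [Finset.prod_mul_distrib, Finset.prod_const, Finset.card_univ, mul_smul_comm]

theorem pfs_neg (M : Matrix n n R) :
    pfs e (-M) = (-1) ^ Fintype.card P * pfs e M := by
  rw [← Rev_pfs_smul, neg_one_smul]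

theorem pfs_smul (c : R) (M : Matrix n n R) :
    pfs e (c • M) = c ^ Fintype.card P * pfs e M :=
  Rev_pfs_smul e c M

theorem Rev_pfs (a b : Matrix n n R) :
    toLaurent (pfs e ((Polynomial.X : R[X]) • a.map C + b.map C)) =
      LaurentPolynomial.T (Fintype.card P : ℕ) * LaurentPolynomial.invert
        (toLaurent (pfs e (a.map C + (Polynomial.X : R[X]) • b.map C))) := by
  rw [← pfs_map, Rev_mat, Rev_pfs_smul, pfs_map, pfs_map, LaurentPolynomial.T_pow, mul_one,
    Rev_inv_apply]

/-- QB-24f. Proof: as `gd_rev` (or directly: products of `card P` linear polynomials) -/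
theorem pfs_rev (a b : Matrix n n R) {m : ℕ} (hm : m ≤ Fintype.card P) :
    (pfs e ((Polynomial.X : R[X]) • a.map C + b.map C)).coeff (Fintype.card P - m) =
      (pfs e (a.map C + (Polynomial.X : R[X]) • b.map C)).coeff m :=
  (Rev_key (Rev_pfs e a b)).1 m hm

end Pool.Agent.helper74.QB
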