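import Pool.Agent.helper74.QB.GTpoly
import Pool.Agent.helper5.AS.Filt

/-!
# QB-20. Symbols of the coefficients

`p : g → L` respects brackets.  `EvU : UP K g → U(L)[X]` is the evaluation of `GTpoly.lean`, and
`EvS : UP K g → S(L)[X]` sends `X 0 x` to `p(x) X + ξ(p(x))` and `X i x` to `0` for `i ≥ 1`.
-/

set_option autoImplicit false

namespace Pool.Agent.helper74.QB

open Polynomial Pool.Agent.helper5.AS

variable {K : Type*} [Field K] {g : Type*} [LieRing g] [LieAlgebra K g]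
variable {L : Type*} [LieRing L] [LieAlgebra K L]

/-- `p` respects brackets -/
def IsHom (p : g →ₗ[K] L) : Prop := ∀ x y, ⁅p x, p y⁆ = p ⁅x, y⁆

theorem IsHom.isLieMap {p : g →ₗ[K] L} (hp : IsHom p) : IsLieMap (ιU K L ∘ₗ p) := by
  intro x y
  rw [LinearMap.comp_apply, LinearMap.comp_apply, LinearMap.comp_apply, ιU_comm, hp]

/-- the evaluation with values in `U(L)[X]` -/
noncomputable def EvU {p : g →ₗ[K] L} (hp : IsHom p) (ξ : L →ₗ[K] K) :
    UP K g →ₐ[K] (Ue K L)[X] := Ev hp.isLieMap (ξ ∘ₗ p)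

/-- the family of linear maps defining `EvS` -/
noncomputable def SF (p : g →ₗ[K] L) (ξ : L →ₗ[K] K) (i : ℕ) : g →ₗ[K] (Sy K L)[X] :=
  if i = 0 then ((monomial 1 : Sy K L →ₗ[Sy K L] (Sy K L)[X]).restrictScalars K) ∘ₗ
      (SymmetricAlgebra.ι K L) ∘ₗ p + (Algebra.linearMap K (Sy K L)[X]) ∘ₗ ξ ∘ₗ p
  else 0

theorem SF_zero (p : g →ₗ[K] L) (ξ : L →ₗ[K] K) (x : g) :
    SF p ξ 0 x = monomial 1 (SymmetricAlgebra.ι K L (p x)) + algebraMap K (Sy K L)[X] (ξ (p x)) :=
  rfl

theorem SF_succ (p : g →ₗ[K] L) (ξ : L →ₗ[K] K) (i : ℕ) : SF p ξ (i + 1) = 0 := by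
  rw [SF, if_neg (Nat.succ_ne_zero i)]

theorem SF_isRep (p : g →ₗ[K] L) (ξ : L →ₗ[K] K) : IsRep (SF p ξ) := by
  intro i j x y
  rw [mul_comm, show i + j + 1 = (i + j) + 1 from rfl, SF_succ, LinearMap.zero_apply, add_zero]

/-- the commutative evaluation -/
noncomputable def EvS (p : g →ₗ[K] L) (ξ : L →ₗ[K] K) : UP K g →ₐ[K] (Sy K L)[X] :=
  lift (SF p ξ) (SF_isRep p ξ)

theorem EvS_X (p : g →ₗ[K] L) (ξ : L →ₗ[K] K) (i : ℕ) (x : g) :
    EvS p ξ (X K g i x) = SF p ξ i x := by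
  rw [EvS, lift_X]

private theorem coeff_mono_mul {B : Type*} [Semiring B] (n : ℕ) (r : B) (q : B[X]) (a : ℕ) :
    (monomial n r * q).coeff a = if n ≤ a then r * q.coeff (a - n) else 0 := by
  rw [← C_mul_X_pow_eq_monomial, mul_assoc, coeff_C_mul, coeff_X_pow_mul']
  split_ifs
  · rfl
  · rw [mul_zero]

private theorem coeff_alg_mul {B : Type*} [Ring B] [Algebra K B] (c : K) (q : B[X]) (a : ℕ) :
    (algebraMap K B[X] c * q).coeff a = c • q.coeff a := by
  rw [← Algebra.smul_def, coeff_smul]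

/-- QB-20. Proof: `UP_ind` on `w` (for all `a`).  `w = 1`: `isSymbol_one` for `a = 0`, and `0` for
`a ≥ 1` (`IsSymbol.of_low (zero_mem _)`).  `w = X i x * w'`, with `Q = EvU w'`, `q = EvS w'`:
* `i = 0`: the coefficient of `X^a` of `(monomial 1 (ι p x) + ξ) * Q` is `ι(p x) * Q.coeff (a-1) + ξ • Q.coeff a`
  (for `a = 0` only the second term); `isSymbol_ι`, `IsSymbol.mul`, `IsSymbol.smul`, `IsSymbol.add`;
* `i ≥ 1`: `EvS (X i x * w') = 0`; the coefficient of `X^a` of `monomial (i+1) (ι p x) * Q` is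
  `ι(p x) * Q.coeff (a-i-1)` for `a ≥ i+1` and `0` otherwise; it lies in
  `lowU 2 * lowU (a-i) ⊆ lowU (a-i+1) ⊆ lowU a` (`ιU_mem`, `IsSymbol.mem_low`, `mul_mem_lowU`,
  `lowU_mono`), so its symbol in degree `a` is `0`. -/
theorem isSymbol_Ev {p : g →ₗ[K] L} (hp : IsHom p) (ξ : L →ₗ[K] K) (w : UP K g) (a : ℕ) :
    IsSymbol a ((EvS p ξ w).coeff a) ((EvU hp ξ w).coeff a) := by
  refine UP_ind (p := fun w => ∀ a,
    IsSymbol a ((EvS p ξ w).coeff a) ((EvU hp ξ w).coeff a)) ?_ ?_ ?_ ?_ ?_ w a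
  · intro a
    rw [map_zero, map_zero, coeff_zero, coeff_zero]
    exact IsSymbol.of_low (zero_mem _)
  · intro a
    rw [map_one, map_one]
    rcases a with _ | a
    · rw [coeff_one_zero, coeff_one_zero]
      exact isSymbol_one
    · rw [coeff_one, coeff_one, if_neg (Nat.succ_ne_zero a), if_neg (Nat.succ_ne_zero a)]
      exact IsSymbol.of_low (zero_mem _)
  · intro u v hu hv a
    rw [map_add, map_add, coeff_add, coeff_add]
    exact (hu a).add (hv a)
  · intro c u hu a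
    rw [map_smul, map_smul, coeff_smul, coeff_smul]
    exact (hu a).smul c
  · intro i x u hu a
    rw [map_mul, map_mul, EvS_X]
    have hU : EvU hp ξ (X K g i x) = monomial (i + 1) (ιU K L (p x)) +
        if i = 0 then algebraMap K (Ue K L)[X] (ξ (p x)) else 0 :=
      Ev_X hp.isLieMap (ξ ∘ₗ p) i x
    rw [hU]
    rcases i with _ | i
    · rw [SF_zero, if_pos rfl, add_mul, add_mul, coeff_add, coeff_add, coeff_alg_mul,
        coeff_alg_mul, coeff_mono_mul, coeff_mono_mul]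
      refine IsSymbol.add ?_ ((hu a).smul _)
      rcases a with _ | a
      · rw [if_neg (by omega), if_neg (by omega)]
        exact IsSymbol.of_low (zero_mem _)
      · rw [if_pos (by omega), if_pos (by omega), zero_add, Nat.add_sub_cancel]
        have h := (isSymbol_ι (𝕜 := K) (p x)).mul (hu a)
        rwa [add_comm 1 a] at h
    · rw [SF_succ, LinearMap.zero_apply, zero_mul, coeff_zero, if_neg (Nat.succ_ne_zero i),
        add_zero, coeff_mono_mul]
      split_ifs with hia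
      · apply IsSymbol.of_low
        have h := mul_mem_lowU (m := 1) (ιU_mem (𝕜 := K) (p x)) (hu (a - (i + 1 + 1))).mem_low
        exact lowU_mono (by omega) h
      · exact IsSymbol.of_low (zero_mem _)

end Pool.Agent.helper74.QB
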