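import Pool.Agent.helper74.QB.EvPoly
import Pool.Agent.helper74.QB.Par
import Pool.Agent.helper74.QB.EvPar
import Pool.Agent.helper74.QB.Rev
import Pool.Agent.helper74.QB.Symb
import Pool.Agent.helper74.QB.BDCons
import Pool.Agent.helper49.QA.Qf
import Pool.Agent.helper49.QA.Pf

/-!
# QB-31. Output for `so_n`: quantised families

`Cso ξ` is the subalgebra of `U(so_n)` generated by the coefficients of the evaluations at `ξ` of all
the singular vectors.  It is commutative, and the `ek k XM0`, `pfn e XM0` have quantised families in it.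
-/

set_option autoImplicit false

namespace Pool.Agent.helper74.QB

open Finset Matrix LieAlgebra.Orthogonal Pool.Agent.helper5.AS Pool.Agent.helper49.QA

variable {K : Type*} [Field K] [CharZero K] {n : Type*} [Fintype n] [DecidableEq n]

theorem hid : IsHom (LinearMap.id : so n K →ₗ[K] so n K) := fun _ _ => rfl

/-- the commutative subalgebras -/
noncomputable def Cso (ξ : so n K →ₗ[K] K) : Subalgebra K (Ue K (so n K)) :=
  Algebra.adjoin K {u | ∃ S : UP K (so n K), IsSS (kso K n) (kso_isInv K n) S ∧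
    ∃ a : ℕ, u = (EvU hid ξ S).coeff a}

/-- QB-31a. from `Ev_coeff_comm` (`Algebra.adjoin_induction₂` or `Subalgebra.centralizer`) -/
theorem Cso_comm (ξ : so n K →ₗ[K] K) : ∀ a ∈ Cso ξ, ∀ b ∈ Cso ξ, a * b = b * a := by
  intro a ha b hb
  have h1 : ∀ x ∈ {u | ∃ S : UP K (so n K), IsSS (kso K n) (kso_isInv K n) S ∧
      ∃ a : ℕ, u = (EvU hid ξ S).coeff a}, Commute x b := by
    rintro x ⟨S, hS, i, rfl⟩
    refine Algebra.commute_of_mem_adjoin_of_forall_mem_commute hb ?_
    rintro y ⟨S', hS', j, rfl⟩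
    exact Ev_coeff_comm (kso K n) (kso_isInv K n) hid.isLieMap (ξ ∘ₗ LinearMap.id) hS hS' i j
  have h2 : Commute b a :=
    Algebra.commute_of_mem_adjoin_of_forall_mem_commute ha fun x hx => (h1 x hx).symm
  exact h2.symm

/-- the universal matrix -/
noncomputable def XM0 (K : Type*) [Field K] [CharZero K] (n : Type*) [Fintype n]
    [DecidableEq n] : Matrix n n (Sy K (so n K)) :=
  fun i j => ιS K (so n K) (Y0 K n (single j i 1))

theorem gd_eq {R : Type*} [CommRing R] (M : Matrix n n R) :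
    Pool.Agent.helper49.QA.gd M = gd M := rfl

/-- the matrix of the values of the commutative evaluation is `X a + b` -/
theorem Out_mat (ξ : so n K →ₗ[K] K) :
    (Matrix.of fun i j => ((EvS (LinearMap.id : so n K →ₗ[K] so n K) ξ).comp (toUP K (so n K)))
        (XT K (so n K) 0 (Y0 K n (single i j 1))) : Matrix n n (Polynomial (Sy K (so n K)))) =
      (Polynomial.X : Polynomial (Sy K (so n K))) • (XM0 K n)ᵀ.map Polynomial.C +
        (Matrix.of fun i j => algebraMap K (Sy K (so n K)) (ξ (Y0 K n (single i j 1)))).map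
          Polynomial.C := by
  ext1 i j
  simp only [Matrix.of_apply, Matrix.add_apply, Matrix.smul_apply, Matrix.map_apply,
    Matrix.transpose_apply, AlgHom.comp_apply]
  rw [toUP_XT, EvS_X, SF_zero, smul_eq_mul, ← Polynomial.C_mul_X_eq_monomial, mul_comm]
  rfl

theorem Out_shift_mat (ξ : so n K →ₗ[K] K) :
    (XM0 K n).map (shift ξ : Sy K (so n K) →+* Polynomial (Sy K (so n K))) =
      ((XM0 K n)ᵀ.map Polynomial.C + (Polynomial.X : Polynomial (Sy K (so n K))) •
        (Matrix.of fun i j => algebraMap K (Sy K (so n K)) (ξ (Y0 K n (single i j 1)))).map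
          Polynomial.C)ᵀ := by
  ext1 i j
  simp only [Matrix.of_apply, Matrix.add_apply, Matrix.smul_apply, Matrix.map_apply,
    Matrix.transpose_apply]
  have h := expand_ι (Algebra.linearMap K (Sy K (so n K)) ∘ₗ ξ) (Y0 K n (single j i 1))
  have h2 : (shift ξ) (XM0 K n i j) = Polynomial.C (ιS K (so n K) (Y0 K n (single j i 1))) +
      Polynomial.C (algebraMap K (Sy K (so n K)) (ξ (Y0 K n (single j i 1)))) *
        Polynomial.X := h
  refine h2.trans ?_
  rw [smul_eq_mul, mul_comm (Polynomial.X)]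
  rfl

theorem Out_phi (ξ : so n K →ₗ[K] K) (i : ℕ) (x : so n K) :
    ((EvS (LinearMap.id : so n K →ₗ[K] so n K) ξ).comp (toUP K (so n K)))
      (XT K (so n K) (i + 1) x) = 0 := by
  rw [AlgHom.comp_apply, toUP_XT, EvS_X, SF_succ, LinearMap.zero_apply]

/-- QB-31b. the commutative evaluation of `SV`.  Proof: `SV N k = lamU (lamth N) (Psi ..)
= lamB (lamth N) (EvC (toUP) (PsiT ..))` (`EvC_toUP_PsiT`, `lamB_eq_lamU`), so by `lamB_EvC`
`EvS (SV) = lamB (lamth N) (EvC (EvS.comp toUP) (PsiT ..))`, `lamB_PsiT`.  The matrix is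
`X • a + b`, `a i j = ι (Y0 (single i j 1)) = XM0 j i`, `b i j = ξ (Y0 (single i j 1))`; `gd_rev`; and
`shift ξ (ek k a) = (gd (a + X b)).coeff k` (`gd_map` for `shift ξ`), `gd_transpose`. -/
theorem EvS_SV {C : Type*} [CommRing C] [Algebra K C] {μ : K} (γ : Gr2 K (n × Fin 2) C μ)
    (hlam : γ.lam (∏ i : n, γ.m (i, 0) (i, 1)) = 1) {N k : ℕ} (hNk : N + k = Fintype.card n)
    (ξ : so n K →ₗ[K] K) (m : ℕ) (hm : m ≤ k) :
    (EvS (LinearMap.id : so n K →ₗ[K] so n K) ξ (γ.SV N k)).coeff (k - m) =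
      ((N.factorial : K) * 2 ^ k) • (shift ξ (ek k (XM0 K n))).coeff m := by
  have h1 : EvS (LinearMap.id : so n K →ₗ[K] so n K) ξ (γ.SV N k) =
      lamB (γ.lamth N) (EvC (C := C) ((EvS (LinearMap.id : so n K →ₗ[K] so n K) ξ).comp
        (toUP K (so n K))) (PsiT (hso γ.F) k)) := by
    rw [lamB_EvC, AlgHom.comp_apply, Gr2.SV, ← lamB_eq_lamU, ← EvC_toUP_PsiT, lamB_EvC]
  rw [h1, γ.lamB_PsiT hlam hNk _ (Out_phi ξ)]
  have h2 := Out_mat (K := K) (n := n) ξ
  have h3 : (gd (fun i j => ((EvS (LinearMap.id : so n K →ₗ[K] so n K) ξ).comp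
      (toUP K (so n K))) (XT K (so n K) 0 (Y0 K n (single i j 1))))).coeff k =
      (gd ((Polynomial.X : Polynomial (Sy K (so n K))) • (XM0 K n)ᵀ.map Polynomial.C +
        (Matrix.of fun i j => algebraMap K (Sy K (so n K)) (ξ (Y0 K n (single i j 1)))).map
          Polynomial.C)).coeff k := by
    rw [← h2]
    rfl
  rw [h3, Polynomial.coeff_smul, gd_rev _ _ hm]
  congr 1
  have h4 : shift ξ (ek k (XM0 K n)) = (gd ((XM0 K n).map
      (shift ξ : Sy K (so n K) →+* Polynomial (Sy K (so n K))))).coeff k := by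
    rw [gd_map, Polynomial.coeff_map]
    rfl
  rw [h4, Out_shift_mat, gd_transpose]

/-- QB-31c. the same for the Pfaffian type vector (`pfs e M = pfn e M`; the transposition gives the sign
`(-1)^(card P)`, `pfs_neg`, as `XM0` is skew) -/
theorem EvS_PV {C : Type*} [CommRing C] [Algebra K C] {P : Type} [Fintype P] [DecidableEq P]
    (γ : Gr K (n × Fin 1) C) (e : P × Fin 2 ≃ n)
    (hI : γ.I (∏ p : P, γ.m (e (p, 0), 0) (e (p, 1), 0)) = 1)
    (ξ : so n K →ₗ[K] K) (m : ℕ) (hm : m ≤ Fintype.card P) :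
    (EvS (LinearMap.id : so n K →ₗ[K] so n K) ξ (γ.PV (Fintype.card P))).coeff
        (Fintype.card P - m) =
      (((Fintype.card P).factorial : K)⁻¹ * (-1) ^ Fintype.card P) •
        (shift ξ (pfn e (XM0 K n))).coeff m := by
  have h1 : EvS (LinearMap.id : so n K →ₗ[K] so n K) ξ (γ.PV (Fintype.card P)) =
      lamB γ.I (EvC (C := C) ((EvS (LinearMap.id : so n K →ₗ[K] so n K) ξ).comp
        (toUP K (so n K))) (PsiT (hso γ.F) (Fintype.card P))) := by
    rw [lamB_EvC, AlgHom.comp_apply, Gr.PV, ← lamB_eq_lamU, ← EvC_toUP_PsiT, lamB_EvC]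
  rw [h1, γ.lamB_PsiT e hI _ (Out_phi ξ)]
  have h2 := Out_mat (K := K) (n := n) ξ
  have h3 : pfs e (fun i j => ((EvS (LinearMap.id : so n K →ₗ[K] so n K) ξ).comp
      (toUP K (so n K))) (XT K (so n K) 0 (Y0 K n (single i j 1)))) =
      pfs e ((Polynomial.X : Polynomial (Sy K (so n K))) • (XM0 K n)ᵀ.map Polynomial.C +
        (Matrix.of fun i j => algebraMap K (Sy K (so n K)) (ξ (Y0 K n (single i j 1)))).map
          Polynomial.C) := by
    rw [← h2]
    rfl
  rw [h3, Polynomial.coeff_smul, pfs_rev _ _ _ hm]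
  have h4 : shift ξ (pfn e (XM0 K n)) = pfs e ((XM0 K n).map
      (shift ξ : Sy K (so n K) →+* Polynomial (Sy K (so n K)))) := by
    rw [pfs_map]
    rfl
  have h5 : ((XM0 K n)ᵀ.map Polynomial.C + (Polynomial.X : Polynomial (Sy K (so n K))) •
        (Matrix.of fun i j => algebraMap K (Sy K (so n K)) (ξ (Y0 K n (single i j 1)))).map
          Polynomial.C)ᵀ = -((XM0 K n)ᵀ.map Polynomial.C +
        (Polynomial.X : Polynomial (Sy K (so n K))) •
        (Matrix.of fun i j => algebraMap K (Sy K (so n K)) (ξ (Y0 K n (single i j 1)))).map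
          Polynomial.C) := by
    ext1 i j
    have hY : Y0 K n (single j i (1 : K)) = - Y0 K n (single i j (1 : K)) := by
      rw [← Y0_transpose, Matrix.transpose_single]
    simp only [Matrix.of_apply, Matrix.add_apply, Matrix.smul_apply, Matrix.map_apply,
      Matrix.transpose_apply, Matrix.neg_apply, XM0, hY, map_neg, smul_neg]
    rw [neg_add]
  rw [h4, Out_shift_mat, h5, pfs_neg]
  have h6 : ∀ p : Polynomial (Sy K (so n K)), ((-1) ^ Fintype.card P * p).coeff m =
      ((-1 : K) ^ Fintype.card P) • p.coeff m := by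
    intro p
    have : ((-1 : Polynomial (Sy K (so n K))) ^ Fintype.card P * p) =
        ((-1 : K) ^ Fintype.card P) • p := by
      rw [Algebra.smul_def, map_pow, map_neg, map_one]
    rw [this, Polynomial.coeff_smul]
  rw [h6, smul_smul]
  congr 1
  have h7 : (-1 : K) ^ Fintype.card P * (-1) ^ Fintype.card P = 1 := by
    rw [← mul_pow, neg_one_mul, neg_neg, one_pow]
  rw [mul_assoc, h7, mul_one]

/-- the general construction of quantised families -/
theorem Out_hasQ {S : UP K (so n K)} {k : ℕ} {F : Sy K (so n K)} {c : K} (hc : c ≠ 0)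
    (hSS : IsSS (kso K n) (kso_isInv K n) S) (hle : S ∈ UPle K (so n K) k)
    (hs : sP K (so n K) S = ((-1 : K) ^ k) • S) (ht : tauP K (so n K) S = ((-1 : K) ^ k) • S)
    (hF : ∀ (ξ : so n K →ₗ[K] K) (m : ℕ), m ≤ k →
      (EvS (LinearMap.id : so n K →ₗ[K] so n K) ξ S).coeff (k - m) = c • (shift ξ F).coeff m) :
    HasQ (Cso (K := K) (n := n)) k F := by
  have hsymb : ∀ (ξ : so n K →ₗ[K] K) (m : ℕ), m ≤ k →
      IsSymbol (k - m) ((shift ξ F).coeff m) (c⁻¹ • (EvU hid ξ S).coeff (k - m)) := by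
    intro ξ m hm
    have h1 := (isSymbol_Ev hid ξ S (k - m)).smul c⁻¹
    rwa [hF ξ m hm, smul_smul, inv_mul_cancel₀ hc, one_smul] at h1
  refine ⟨fun ξ m => if m ≤ k then c⁻¹ • (EvU hid ξ S).coeff (k - m) else 0, ?_, ?_, ?_, ?_, ?_,
    ?_⟩
  · have h1 := (hsymb 0 0 (Nat.zero_le k)).mem_sym
    rwa [shift, expand_coeff_zero, Nat.sub_zero] at h1
  · intro ξ m hm
    rw [if_pos hm]
    exact hsymb ξ m hm
  · intro ξ m hm
    rw [if_neg (not_le.2 hm)]
  · intro ξ η m
    by_cases hm : m ≤ k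
    · obtain ⟨w, hw⟩ := Ev_poly hid.isLieMap hle (ξ ∘ₗ LinearMap.id) (η ∘ₗ LinearMap.id) (k - m) m
        (by omega)
      refine ⟨fun j => c⁻¹ • w j, fun s => ?_⟩
      rw [if_pos hm]
      have h1 : (EvU hid (ξ + s • η) S).coeff (k - m) =
          ∑ j ∈ Finset.range (m + 1), s ^ j • w j := hw s
      rw [h1, Finset.smul_sum]
      exact Finset.sum_congr rfl fun j _ => smul_comm _ _ _
    · refine ⟨fun _ => 0, fun s => ?_⟩
      rw [if_neg hm]
      simp
  · intro ξ m
    by_cases hm : m ≤ k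
    · rw [if_pos hm, map_smul]
      have h1 := sigma_coeff hid.isLieMap (ξ ∘ₗ LinearMap.id)
        (antO (K := K) (L := so n K)) (fun x => by
          have h2 := ant_ι (K := K) x
          rw [ant_apply] at h2
          have h3 := congrArg MulOpposite.op h2
          rw [MulOpposite.op_unop] at h3
          exact h3) hs ht (k - m)
      have h4 : ant ((EvU hid ξ S).coeff (k - m)) =
          ((-1 : K) ^ (k - m)) • (EvU hid ξ S).coeff (k - m) := by
        rw [ant_apply]
        exact (congrArg MulOpposite.unop h1).trans rfl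
      rw [h4, smul_comm]
      congr 1
      have h5 : k + m = (k - m) + (m + m) := by omega
      rw [h5, pow_add (-1 : K) (k - m), pow_add (-1 : K) m m, ← mul_pow, neg_one_mul, neg_neg,
        one_pow, mul_one]
    · rw [if_neg hm, map_zero, smul_zero]
  · intro ξ m
    by_cases hm : m ≤ k
    · rw [if_pos hm]
      refine Subalgebra.smul_mem _ (Algebra.subset_adjoin ?_) _
      exact ⟨S, hSS, k - m, rfl⟩
    · rw [if_neg hm]
      exact zero_mem _

/-- QB-31d. Proof.  If `k` is odd, `ek k XM0 = 0` (`gd_skew_odd`) and `V = 0`.  If `k` is even let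
`N = card n - k`, `γ` from `exists_gr2`, `V ξ m = c • (EvU hid ξ (SV N k)).coeff (k - m)` for `m ≤ k` and `0` for
`m > k`, `c = (N! 2^k)⁻¹`.  `symb`: `isSymbol_Ev`, `EvS_SV`; `mem`: `IsSymbol.mem_sym` of `symb` for `m = 0`,
`(shift 0 F).coeff 0 = F`; `poly`: `Ev_poly`, `lamU_Psi_mem`; `par`: `sigma_coeff` with `σ = antO`
(`antO (ιU x) = op (-ιU x)`), `sP_SV`, `tauP_lamU`; `cen`: `SV_isSS`. -/
theorem hasQ_ek (hn : 3 ≤ Fintype.card n) (k : ℕ) (hk : k ≤ Fintype.card n) :
    HasQ (Cso (K := K) (n := n)) k (ek k (XM0 K n)) := by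
  obtain ⟨C, i1, i2, γ, hγ⟩ := exists_gr2 K n (Fintype.card n - k)
  have hNk : Fintype.card n - k + k = Fintype.card n := Nat.sub_add_cancel hk
  refine Out_hasQ (S := γ.SV (Fintype.card n - k) k)
    (c := ((Fintype.card n - k).factorial : K) * 2 ^ k) ?_ ?_ ?_ ?_ ?_ ?_
  · refine mul_ne_zero ?_ (pow_ne_zero _ two_ne_zero)
    exact_mod_cast (Fintype.card n - k).factorial_ne_zero
  · exact γ.SV_isSS _ rfl hn k
  · exact lamU_Psi_mem _ _ _
  · exact γ.sP_SV hNk
  · exact tauP_lamU _ _ _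
  · intro ξ m hm
    exact EvS_SV γ hγ hNk ξ m hm

/-- QB-31e. Proof: the same with `PV`, `exists_gr_pf`, `sP_PV`. -/
theorem hasQ_pfn (hn : 3 ≤ Fintype.card n) {P : Type} [Fintype P] [DecidableEq P]
    (e : P × Fin 2 ≃ n) :
    HasQ (Cso (K := K) (n := n)) (Fintype.card P) (pfn e (XM0 K n)) := by
  obtain ⟨C, i1, i2, γ, hγ⟩ := exists_gr_pf K n P e
  refine Out_hasQ (S := γ.PV (Fintype.card P))
    (c := ((Fintype.card P).factorial : K)⁻¹ * (-1) ^ Fintype.card P) ?_ ?_ ?_ ?_ ?_ ?_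
  · refine mul_ne_zero (inv_ne_zero ?_) (pow_ne_zero _ (neg_ne_zero.2 one_ne_zero))
    exact_mod_cast (Fintype.card P).factorial_ne_zero
  · exact γ.PV_isSS hn _
  · exact lamU_Psi_mem _ _ _
  · exact γ.sP_PV _
  · exact tauP_lamU _ _ _
  · intro ξ m hm
    exact EvS_PV γ e hγ ξ m hm

end Pool.Agent.helper74.QB
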