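import Pool.Agent.helper74.QB.Transfer

/-!
# QB-25. The antipode of the dressing elements
-/

set_option autoImplicit false

namespace Pool.Agent.helper74.QB

open TensorProduct Finset

variable {K : Type*} [Field K] [CharZero K] {g : Type*} [LieRing g] [LieAlgebra K g]
variable {C : Type*} [CommRing C] [Algebra K C]

/-- reassociation of a triple sum -/
private theorem assoc3 {M : Type*} [AddCommMonoid M] (f : ℕ → ℕ → ℕ → M) (n : ℕ) :
    ∑ p ∈ antidiagonal n, ∑ q ∈ antidiagonal p.2, f p.1 q.1 q.2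
      = ∑ p ∈ antidiagonal n, ∑ q ∈ antidiagonal p.1, f q.1 q.2 p.2 := by
  rw [Finset.sum_sigma', Finset.sum_sigma']
  refine Finset.sum_nbij' (fun x => ⟨(x.1.1 + x.2.1, x.2.2), (x.1.1, x.2.1)⟩)
    (fun x => ⟨(x.2.1, x.2.2 + x.1.2), (x.2.2, x.1.2)⟩) ?_ ?_ ?_ ?_ ?_
  · rintro ⟨⟨a, b⟩, ⟨c, d⟩⟩ hx
    simp only [mem_sigma, HasAntidiagonal.mem_antidiagonal] at hx ⊢
    obtain ⟨h1, h2⟩ := hx
    refine ⟨?_, ?_⟩
    · show a + c + d = n
      omega
    · trivial
  · rintro ⟨⟨a, b⟩, ⟨c, d⟩⟩ hx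
    simp only [mem_sigma, HasAntidiagonal.mem_antidiagonal] at hx ⊢
    obtain ⟨h1, h2⟩ := hx
    refine ⟨?_, ?_⟩
    · show c + (d + b) = n
      omega
    · trivial
  · rintro ⟨⟨a, b⟩, ⟨c, d⟩⟩ hx
    simp only [mem_sigma, HasAntidiagonal.mem_antidiagonal] at hx
    obtain ⟨h1, h2⟩ := hx
    subst h2
    rfl
  · rintro ⟨⟨a, b⟩, ⟨c, d⟩⟩ hx
    simp only [mem_sigma, HasAntidiagonal.mem_antidiagonal] at hx
    obtain ⟨h1, h2⟩ := hx
    subst h2
    rfl
  · rintro ⟨⟨a, b⟩, ⟨c, d⟩⟩ _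
    rfl

/-- QB-25a. Proof: strong induction on `n` (for all `i`).  `n = 0` is trivial.
`(n+1) Ψ_{n+1} X_i(z_0) = ∑_{p+q=n} X_p(h_p) Ψ_q X_i(z_0) = ∑_{p+j+k=n} X_p(h_p) X_{i+j}(z_j) Ψ_k`
`= ∑_{p+j+k=n} (X_{i+j}(z_j) X_p(h_p) Ψ_k + X_{i+j+p+1}(⁅h_p, z_j⁆) Ψ_k)` (`XC_mul`).  In the first sum
`∑_{p+k=l} X_p(h_p) Ψ_k = (l+1) Ψ_{l+1}`: it is `∑_{j+k=n+1, k ≥ 1} k X_{i+j}(z_j) Ψ_k`; in the second,
`∑_{p+j=l} ⁅h_p, z_j⁆ = (l+1) z_{l+1}`: it is `∑_{j+k=n+1, j ≥ 1} j X_{i+j}(z_j) Ψ_k`.  The sum is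
`(n+1) ∑_{j+k=n+1} X_{i+j}(z_j) Ψ_k`. -/
theorem Psi_mul_XC {h z : ℕ → C ⊗[K] g}
    (Hz : ∀ n : ℕ, (n + 1 : K) • z (n + 1) = ∑ p ∈ antidiagonal n, ⁅h p.1, z p.2⁆) (i n : ℕ) :
    Psi h n * XC i (z 0) = ∑ p ∈ antidiagonal n, XC (i + p.1) (z p.1) * Psi h p.2 := by
  induction n using Nat.strong_induction_on with
  | _ n ih =>
  cases n with
  | zero => simp [Psi_zero]
  | succ n =>
    have hn : (n + 1 : K) ≠ 0 := by exact_mod_cast Nat.succ_ne_zero n
    have e1 : (n + 1 : K) • (Psi h (n + 1) * XC i (z 0))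
        = (n + 1 : K) • ∑ p ∈ antidiagonal (n + 1), XC (i + p.1) (z p.1) * Psi h p.2 := by
      have h1 : (n + 1 : K) • (Psi h (n + 1) * XC i (z 0))
          = ∑ p ∈ antidiagonal n, ∑ q ∈ antidiagonal p.2,
              XC p.1 (h p.1) * (XC (i + q.1) (z q.1) * Psi h q.2) := by
        rw [← smul_mul_assoc, Psi_succ, sum_mul]
        refine sum_congr rfl fun p hp => ?_
        have hp2 : p.2 < n + 1 := by
          have := mem_antidiagonal.mp hp
          omega
        rw [mul_assoc, ih p.2 hp2, mul_sum]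
      have h2 : ∀ a b c : ℕ, XC a (h a) * (XC (i + b) (z b) * Psi h c)
          = XC (i + b) (z b) * (XC a (h a) * Psi h c)
            + XC (i + (a + b + 1)) ⁅h a, z b⁆ * Psi h c := by
        intro a b c
        rw [← mul_assoc, XC_mul, add_mul, mul_assoc, show a + (i + b) + 1 = i + (a + b + 1) by ring]
      have h3 : ∑ p ∈ antidiagonal n, ∑ q ∈ antidiagonal p.2,
            XC (i + q.1) (z q.1) * (XC p.1 (h p.1) * Psi h q.2)
          = ∑ p ∈ antidiagonal n, ((p.2 : K) + 1) • (XC (i + p.1) (z p.1) * Psi h (p.2 + 1)) := by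
        rw [assoc3 (fun a b c => XC (i + b) (z b) * (XC a (h a) * Psi h c))]
        have h4 : ∑ p ∈ antidiagonal n, ∑ q ∈ antidiagonal p.1,
            XC (i + q.2) (z q.2) * (XC q.1 (h q.1) * Psi h p.2)
            = ∑ p ∈ antidiagonal n, ∑ q ∈ antidiagonal p.1,
            XC (i + q.1) (z q.1) * (XC q.2 (h q.2) * Psi h p.2) := by
          refine sum_congr rfl fun p _ => ?_
          rw [← Finset.Nat.sum_antidiagonal_swap]
          rfl
        rw [h4, ← assoc3 (fun a b c => XC (i + a) (z a) * (XC b (h b) * Psi h c))]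
        refine sum_congr rfl fun p _ => ?_
        rw [← mul_sum, ← Psi_succ, mul_smul_comm]
      have h5 : ∑ p ∈ antidiagonal n, ∑ q ∈ antidiagonal p.2,
            XC (i + (p.1 + q.1 + 1)) ⁅h p.1, z q.1⁆ * Psi h q.2
          = ∑ p ∈ antidiagonal n, ((p.1 : K) + 1) •
              (XC (i + (p.1 + 1)) (z (p.1 + 1)) * Psi h p.2) := by
        rw [assoc3 (fun a b c => XC (i + (a + b + 1)) ⁅h a, z b⁆ * Psi h c)]
        refine sum_congr rfl fun p _ => ?_
        have h6 : XC (i + (p.1 + 1)) (((p.1 : K) + 1) • z (p.1 + 1))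
            = ((p.1 : K) + 1) • XC (K := K) (i + (p.1 + 1)) (z (p.1 + 1)) :=
          LinearMap.map_smul_of_tower _ _ _
        rw [← smul_mul_assoc, ← h6, Hz, map_sum, sum_mul]
        refine sum_congr rfl fun q hq => ?_
        rw [mem_antidiagonal.mp hq]
      have h7 : (n + 1 : K) • ∑ p ∈ antidiagonal (n + 1), XC (i + p.1) (z p.1) * Psi h p.2
          = ∑ p ∈ antidiagonal (n + 1), (p.2 : K) • (XC (i + p.1) (z p.1) * Psi h p.2)
            + ∑ p ∈ antidiagonal (n + 1), (p.1 : K) • (XC (i + p.1) (z p.1) * Psi h p.2) := by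
        rw [smul_sum, ← sum_add_distrib]
        refine sum_congr rfl fun p hp => ?_
        rw [← add_smul]
        congr 1
        have := mem_antidiagonal.mp hp
        rw [add_comm (p.2 : K), ← Nat.cast_add, this]
        push_cast
        rfl
      rw [h1, h7]
      simp only [h2, sum_add_distrib]
      rw [h3, h5, Finset.Nat.sum_antidiagonal_succ' (n := n)
        (f := fun p => (p.2 : K) • (XC (i + p.1) (z p.1) * Psi h p.2)),
        Finset.Nat.sum_antidiagonal_succ (n := n)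
        (f := fun p => (p.1 : K) • (XC (i + p.1) (z p.1) * Psi h p.2))]
      simp
    have h2 := congrArg (fun z => (n + 1 : K)⁻¹ • z) e1
    simpa only [smul_smul, inv_mul_cancel₀ hn, one_smul] using h2

/-- QB-25b. Proof: `Ψ'_j X_i(h_i) = ∑_{a+k=j} X_{i+a}(z i a) Ψ'_k` by `Psi_mul_XC`; sum over `i + j = n`
and use `∑_{i+a=l} z i a = - h' l` and `Psi_succ`. -/
theorem Psi_right {h h' : ℕ → C ⊗[K] g} (z : ℕ → ℕ → C ⊗[K] g) (hz0 : ∀ i, z i 0 = h i)
    (Hz : ∀ i n : ℕ, (n + 1 : K) • z i (n + 1) = ∑ p ∈ antidiagonal n, ⁅h' p.1, z i p.2⁆)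
    (hz : ∀ l, ∑ p ∈ antidiagonal l, z p.1 p.2 = - h' l) (n : ℕ) :
    (n + 1 : K) • Psi h' (n + 1) = - ∑ p ∈ antidiagonal n, Psi h' p.2 * XC p.1 (h p.1) := by
  rw [Psi_succ]
  have h1 : ∑ p ∈ antidiagonal n, Psi h' p.2 * XC p.1 (h p.1)
      = ∑ p ∈ antidiagonal n, ∑ q ∈ antidiagonal p.2,
          XC (p.1 + q.1) (z p.1 q.1) * Psi h' q.2 := by
    refine sum_congr rfl fun p _ => ?_
    rw [← hz0 p.1, Psi_mul_XC (Hz p.1)]
  rw [h1, assoc3 (fun a b c => XC (a + b) (z a b) * Psi h' c), ← sum_neg_distrib]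
  refine sum_congr rfl fun p _ => ?_
  have h2 : ∑ q ∈ antidiagonal p.1, XC (q.1 + q.2) (z q.1 q.2) * Psi h' p.2
      = XC p.1 (∑ q ∈ antidiagonal p.1, z q.1 q.2) * Psi h' p.2 := by
    rw [map_sum, sum_mul]
    refine sum_congr rfl fun q hq => ?_
    rw [mem_antidiagonal.mp hq]
  rw [h2, hz, map_neg, neg_mul, neg_neg]

/-- the family defining the antipode -/
noncomputable def sPF (K : Type*) [CommRing K] (g : Type*) [LieRing g] [LieAlgebra K g] (i : ℕ) :
    g →ₗ[K] (UP K g)ᵐᵒᵖ := -((MulOpposite.opLinearEquiv K).toLinearMap ∘ₗ X K g i)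

theorem sPF_isRep (K : Type*) [CommRing K] (g : Type*) [LieRing g] [LieAlgebra K g] :
    IsRep (sPF K g) := by
  intro i j x y
  show -MulOpposite.op (X K g i x) * -MulOpposite.op (X K g j y) =
    -MulOpposite.op (X K g j y) * -MulOpposite.op (X K g i x) +
      -MulOpposite.op (X K g (i + j + 1) ⁅x, y⁆)
  rw [neg_mul_neg, neg_mul_neg, ← MulOpposite.op_mul, ← MulOpposite.op_mul, X_mul i j x y,
    MulOpposite.op_add, add_neg_cancel_right]

/-- the antipode of `UP`, as a linear map -/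
noncomputable def sP (K : Type*) [CommRing K] (g : Type*) [LieRing g] [LieAlgebra K g] :
    UP K g →ₗ[K] UP K g :=
  (MulOpposite.opLinearEquiv K).symm.toLinearMap ∘ₗ (lift (sPF K g) (sPF_isRep K g)).toLinearMap

theorem sP_one : sP K g 1 = 1 := by
  show MulOpposite.unop (lift (sPF K g) (sPF_isRep K g) 1) = 1
  rw [map_one, MulOpposite.unop_one]

theorem sP_mul (u v : UP K g) : sP K g (u * v) = sP K g v * sP K g u := by
  show MulOpposite.unop (lift (sPF K g) (sPF_isRep K g) (u * v)) =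
    MulOpposite.unop (lift (sPF K g) (sPF_isRep K g) v) *
      MulOpposite.unop (lift (sPF K g) (sPF_isRep K g) u)
  rw [map_mul, MulOpposite.unop_mul]

theorem sP_X (i : ℕ) (x : g) : sP K g (X K g i x) = - X K g i x := by
  show MulOpposite.unop (lift (sPF K g) (sPF_isRep K g) (X K g i x)) = - X K g i x
  rw [lift_X]
  rfl

/-- `sP` reverses a product with a letter -/
private theorem sP_base_mul {C : Type*} [CommRing C] [Algebra K C] (i : ℕ) (y : C ⊗[K] g)
    (w : C ⊗[K] UP K g) :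
    (sP K g).baseChange C (XC i y * w) = - ((sP K g).baseChange C w * XC i y) := by
  induction y using TensorProduct.induction_on with
  | zero => simp
  | add y y' hy hy' =>
    rw [map_add, add_mul, map_add, hy, hy', mul_add, neg_add]
  | tmul c x =>
    induction w using TensorProduct.induction_on with
    | zero => simp
    | add w w' hw hw' =>
      rw [mul_add, map_add, hw, hw', map_add, add_mul, neg_add]
    | tmul c' u =>
      rw [XC_tmul, Algebra.TensorProduct.tmul_mul_tmul, LinearMap.baseChange_tmul,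
        LinearMap.baseChange_tmul, Algebra.TensorProduct.tmul_mul_tmul, sP_mul, sP_X, mul_neg,
        TensorProduct.tmul_neg, mul_comm c c']

/-- QB-25c. Proof: strong induction on `n`; `baseChange C (sP K g)` reverses products (pure tensors,
`C` is commutative) and sends `XC i y` to `- XC i y`;
`(n+1) sP Ψ_{n+1} = ∑ sP (X_i(h_i) Ψ_j) = - ∑ sP(Ψ_j) X_i(h_i) = - ∑ Ψ'_j X_i(h_i)` and `Psi_right`. -/
theorem sP_Psi {h h' : ℕ → C ⊗[K] g} (z : ℕ → ℕ → C ⊗[K] g) (hz0 : ∀ i, z i 0 = h i)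
    (Hz : ∀ i n : ℕ, (n + 1 : K) • z i (n + 1) = ∑ p ∈ antidiagonal n, ⁅h' p.1, z i p.2⁆)
    (hz : ∀ l, ∑ p ∈ antidiagonal l, z p.1 p.2 = - h' l) (n : ℕ) :
    (sP K g).baseChange C (Psi h n) = Psi h' n := by
  induction n using Nat.strong_induction_on with
  | _ n ih =>
  cases n with
  | zero =>
    rw [Psi_zero, Psi_zero]
    show (sP K g).baseChange C ((1 : C) ⊗ₜ[K] (1 : UP K g)) = (1 : C) ⊗ₜ[K] (1 : UP K g)
    rw [LinearMap.baseChange_tmul, sP_one]
  | succ n =>
    have hn : (n + 1 : K) ≠ 0 := by exact_mod_cast Nat.succ_ne_zero n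
    have e1 : (n + 1 : K) • (sP K g).baseChange C (Psi h (n + 1))
        = (n + 1 : K) • Psi h' (n + 1) := by
      have h1 : (n + 1 : K) • (sP K g).baseChange C (Psi h (n + 1))
          = (sP K g).baseChange C ((n + 1 : K) • Psi h (n + 1)) :=
        (LinearMap.map_smul_of_tower _ _ _).symm
      rw [h1, Psi_succ, map_sum, Psi_right z hz0 Hz hz, ← sum_neg_distrib]
      refine sum_congr rfl fun p hp => ?_
      have hp2 : p.2 < n + 1 := by
        have := mem_antidiagonal.mp hp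
        omega
      rw [sP_base_mul, ih p.2 hp2]
    have h2 := congrArg (fun z => (n + 1 : K)⁻¹ • z) e1
    simpa only [smul_smul, inv_mul_cancel₀ hn, one_smul] using h2

/-- QB-25d. the automorphism `X i x ↦ (-1)^(i+1) X i x` -/
noncomputable def tauP (K : Type*) [CommRing K] (g : Type*) [LieRing g] [LieAlgebra K g] :
    UP K g →ₐ[K] UP K g :=
  lift (fun i => ((-1 : K) ^ (i + 1)) • X K g i) (by
    intro i j x y
    simp only [LinearMap.smul_apply]
    rw [smul_mul_smul_comm, smul_mul_smul_comm, X_mul i j x y, smul_add, mul_comm,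
      ← pow_add, show j + 1 + (i + 1) = i + j + 1 + 1 by ring])

omit [CharZero K] in
/-- `tauP` and a product with a letter -/
private theorem tauP_base_mul {C : Type*} [CommRing C] [Algebra K C] (i : ℕ) (y : C ⊗[K] g)
    (w : C ⊗[K] UP K g) :
    (tauP K g).toLinearMap.baseChange C (XC i y * w) =
      ((-1 : K) ^ (i + 1)) • (XC i y * (tauP K g).toLinearMap.baseChange C w) := by
  induction y using TensorProduct.induction_on with
  | zero => simp
  | add y y' hy hy' =>
    rw [map_add, add_mul, map_add, hy, hy', add_mul, smul_add]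
  | tmul c x =>
    induction w using TensorProduct.induction_on with
    | zero => simp
    | add w w' hw hw' =>
      rw [mul_add, map_add, hw, hw', map_add, mul_add, smul_add]
    | tmul c' u =>
      rw [XC_tmul, Algebra.TensorProduct.tmul_mul_tmul, LinearMap.baseChange_tmul,
        LinearMap.baseChange_tmul, Algebra.TensorProduct.tmul_mul_tmul,
        AlgHom.toLinearMap_apply, AlgHom.toLinearMap_apply, map_mul]
      have h1 : tauP K g (X K g i x) = ((-1 : K) ^ (i + 1)) • X K g i x := by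
        unfold tauP
        rw [lift_X]
        rfl
      rw [h1, smul_mul_assoc, TensorProduct.tmul_smul]

/-- QB-25e. Proof: strong induction on `n`. -/
theorem tauP_Psi (h : ℕ → C ⊗[K] g) (n : ℕ) :
    (tauP K g).toLinearMap.baseChange C (Psi h n) = ((-1 : K) ^ n) • Psi h n := by
  induction n using Nat.strong_induction_on with
  | _ n ih =>
  cases n with
  | zero =>
    rw [Psi_zero, pow_zero, one_smul]
    show (tauP K g).toLinearMap.baseChange C ((1 : C) ⊗ₜ[K] (1 : UP K g)) =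
      (1 : C) ⊗ₜ[K] (1 : UP K g)
    rw [LinearMap.baseChange_tmul, AlgHom.toLinearMap_apply, map_one]
  | succ n =>
    have hn : (n + 1 : K) ≠ 0 := by exact_mod_cast Nat.succ_ne_zero n
    have e1 : (n + 1 : K) • (tauP K g).toLinearMap.baseChange C (Psi h (n + 1))
        = (n + 1 : K) • (((-1 : K) ^ (n + 1)) • Psi h (n + 1)) := by
      have h1 : (n + 1 : K) • (tauP K g).toLinearMap.baseChange C (Psi h (n + 1))
          = (tauP K g).toLinearMap.baseChange C ((n + 1 : K) • Psi h (n + 1)) :=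
        (LinearMap.map_smul_of_tower _ _ _).symm
      rw [h1, smul_comm, Psi_succ, map_sum, smul_sum]
      refine sum_congr rfl fun p hp => ?_
      have hp1 := mem_antidiagonal.mp hp
      have hp2 : p.2 < n + 1 := by omega
      rw [tauP_base_mul, ih p.2 hp2, mul_smul_comm, smul_smul, ← pow_add,
        show p.1 + 1 + p.2 = n + 1 by omega]
    have h2 := congrArg (fun z => (n + 1 : K)⁻¹ • z) e1
    simpa only [smul_smul, ← mul_assoc, inv_mul_cancel₀ hn, one_mul, one_smul] using h2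

end Pool.Agent.helper74.QB
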