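import Pool.Agent.helper74.QB.CalcD
import Pool.Agent.helper74.QB.DressSo

/-!
# QB-17. The singular vectors of type B, D: definitions
-/

set_option autoImplicit false

namespace Pool.Agent.helper74.QB

open Finset Matrix LieAlgebra.Orthogonal

/-- even Grassmann algebra with two more variables `nu 0`, `nu 1` and an integral `lam` -/
structure Gr2 (K : Type*) [Field K] (V : Type*) [Fintype V] [DecidableEq V] (C : Type*)
    [CommRing C] [Algebra K C] (μ : K) where
  /-- the products `c_v c_w` -/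
  m : V → V → C
  anti : ∀ v w, m w v = - m v w
  cyc : ∀ a b c d, m a b * m c d = m b c * m a d
  /-- the derivations `c_a ∂_b` -/
  T : V → V → Derivation K C C
  T_m : ∀ a b v w, T a b (m v w) = (if b = v then m a w else 0) + (if b = w then m v a else 0)
  /-- the two additional variables -/
  nu : Fin 2 → C
  T_nu : ∀ a b i, T a b (nu i) = 0
  /-- the partial derivatives with respect to the additional variables -/
  P : Fin 2 → Derivation K C C
  P_nu : ∀ i j, P i (nu j) = if i = j then 1 else 0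
  P_m : ∀ i v w, P i (m v w) = 0
  /-- the integral -/
  lam : C →ₗ[K] K
  lam_T : ∀ a b f, lam (T a b f) = if a = b then lam f else 0
  lam_0 : ∀ f, lam ((2 + nu 0 * nu 1) * P 0 f + nu 1 ^ 2 * P 1 f + (μ + 1) • (nu 1 * f)) = 0
  lam_1 : ∀ f, lam (nu 0 ^ 2 * P 0 f + (2 + nu 0 * nu 1) * P 1 f + (μ + 1) • (nu 0 * f)) = 0
  /-- the substitutions `c_v ↦ s_v c_v` -/
  sc : (V → K) → C →ₐ[K] C
  sc_m : ∀ s v w, sc s (m v w) = (s v * s w) • m v w
  sc_nu : ∀ s i, sc s (nu i) = nu i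
  lam_sc : ∀ s f, lam (sc s f) = (∏ v, s v) * lam f

variable {K : Type*} [Field K] [CharZero K] {n : Type*} [Fintype n] [DecidableEq n]
variable {C : Type*} [CommRing C] [Algebra K C]

namespace Gr2

variable {μ : K} (γ : Gr2 K (n × Fin 2) C μ)

/-- `θ = ∑ a_i b_i` -/
def th : C := ∑ i, γ.m (i, 0) (i, 1)

/-- the matrix `E` -/
def E (C : Type*) [CommRing C] : Matrix (Fin 2) (Fin 2) C := !![0, 1; 1, 0]

/-- the matrix `τ` -/
noncomputable def tau : Matrix (Fin 2) (Fin 2) C :=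
  ((2⁻¹ : K) • γ.th) • !![γ.nu 0, 1; -1, γ.nu 1]

/-- the group-like sequence -/
noncomputable def F : ℕ → Matrix n n C := FF γ.m (E C) γ.tau

/-- the functional `f ↦ lam (θ^N f)` -/
noncomputable def lamth (N : ℕ) : C →ₗ[K] K := γ.lam ∘ₗ LinearMap.mulLeft K (γ.th ^ N)

/-- `ξ₁ = aᵀ x a`, `ξ₀ = aᵀ x b`, `ξ₂ = bᵀ x b` are the entries of `Ξ` -/
noncomputable def xi (x : so n K) : Matrix (Fin 2) (Fin 2) C := Xi γ.m (mC C x)

/-- `ω = ξ₁ ν₂ - ξ₂ ν₁` -/
noncomputable def om (x : so n K) : C := γ.xi x 0 0 * γ.nu 1 - γ.xi x 1 1 * γ.nu 0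

/-- the coefficients of the derivation `D_x` -/
noncomputable def cf (x : so n K) (w v : n × Fin 2) : C :=
  mC C x v.1 w.1 * (E C * γ.tau) w.2 v.2 +
    if w.1 = v.1 then ((-(2⁻¹ : K)) • (E C * γ.xi x)) w.2 v.2 else 0

/-- the derivation `D_x` -/
noncomputable def D (x : so n K) : Derivation K C C :=
  ∑ w, ∑ v, γ.cf x w v • γ.T w v +
    (-(γ.xi x 0 0) - (2⁻¹ : K) • (γ.nu 0 * γ.om x)) • γ.P 0 +
    (γ.xi x 1 1 - (2⁻¹ : K) • (γ.nu 1 * γ.om x)) • γ.P 1

/-- the derivation `D⁰_x` -/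
noncomputable def D0 (x : so n K) : Derivation K C C :=
  ∑ k, ∑ i, ∑ p, mC C x i k • γ.T (k, p) (i, p)

end Gr2

end Pool.Agent.helper74.QB
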