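import Pool.Agent.helper74.QB.BDdefs

/-!
# QB-17, first part. The derivations `D_x`, `D⁰_x` and the group-like sequence
-/

set_option autoImplicit false

namespace Pool.Agent.helper74.QB

open Finset Matrix LieAlgebra.Orthogonal

variable {K : Type*} [Field K] [CharZero K] {n : Type*} [Fintype n] [DecidableEq n]
variable {C : Type*} [CommRing C] [Algebra K C]

namespace Gr2

variable {μ : K} (γ : Gr2 K (n × Fin 2) C μ)

theorem BDder_half (c : C) : (2⁻¹ : K) • c + (2⁻¹ : K) • c = c := by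
  rw [← add_smul, show (2⁻¹ : K) + 2⁻¹ = 1 by norm_num, one_smul]

theorem BDder_mvv (v : n × Fin 2) : γ.m v v = 0 := by
  have h := γ.anti v v
  have h2 : γ.m v v + γ.m v v = 0 := by
    nth_rewrite 1 [h]
    exact neg_add_cancel _
  rw [← BDder_half (K := K) (γ.m v v), ← smul_add, h2, smul_zero]

theorem BDder_Sg : Sg γ.m = !![0, γ.th; -γ.th, 0] := by
  ext p q
  fin_cases p <;> fin_cases q
  · simp [Sg, BDder_mvv]
  · simp [Sg, th]
  · simp only [Sg, th, Fin.mk_one, Fin.zero_eta, Matrix.of_apply, Matrix.cons_val', Matrix.cons_val_zero,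
      Matrix.cons_val_one, Matrix.cons_val_fin_one]
    rw [← Finset.sum_neg_distrib]
    exact Finset.sum_congr rfl fun i _ => γ.anti _ _
  · simp [Sg, BDder_mvv]

omit [Algebra K C] in
theorem BDder_Et : (E C)ᵀ = E C := by
  ext i j
  fin_cases i <;> fin_cases j <;> simp [E]

omit [CharZero K] in
theorem BDder_tau : γ.tau = !![((2⁻¹ : K) • γ.th) * γ.nu 0, (2⁻¹ : K) • γ.th;
    -((2⁻¹ : K) • γ.th), ((2⁻¹ : K) • γ.th) * γ.nu 1] := by
  ext i j
  fin_cases i <;> fin_cases j <;> simp [tau]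

theorem BDder_htau : γ.tau - γ.tauᵀ = Sg γ.m := by
  rw [BDder_Sg, BDder_tau]
  ext i j
  fin_cases i <;> fin_cases j
  · simp
  · simp only [Fin.zero_eta, Fin.mk_one, Matrix.sub_apply, Matrix.transpose_apply, Matrix.of_apply,
      Matrix.cons_val', Matrix.cons_val_zero, Matrix.cons_val_one, Matrix.cons_val_fin_one]
    rw [sub_neg_eq_add, BDder_half]
  · simp only [Fin.zero_eta, Fin.mk_one, Matrix.sub_apply, Matrix.transpose_apply, Matrix.of_apply,
      Matrix.cons_val', Matrix.cons_val_zero, Matrix.cons_val_one, Matrix.cons_val_fin_one]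
    rw [← neg_add', BDder_half]
  · simp

/-- QB-17a. Proof: `FF_grp`; `τ - τᵀ = θ !![0, 1; -1, 0] = Sg m` (`m v v = 0` by `anti`). -/
theorem grp : Grp γ.F (fun k => (γ.F k)ᵀ) :=
  FF_grp γ.anti γ.cyc BDder_Et γ.BDder_htau

omit [CharZero K] in
theorem BDder_D_apply (x : so n K) (f : C) : γ.D x f =
    ∑ w, ∑ v, γ.cf x w v * γ.T w v f +
      (-(γ.xi x 0 0) - (2⁻¹ : K) • (γ.nu 0 * γ.om x)) * γ.P 0 f +
      (γ.xi x 1 1 - (2⁻¹ : K) • (γ.nu 1 * γ.om x)) * γ.P 1 f := by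
  unfold D
  simp only [Derivation.coe_add, Pi.add_apply, Derivation.coe_smul, Pi.smul_apply, smul_eq_mul]
  congr 2
  rw [← Derivation.coeFnAddMonoidHom_apply, map_sum, Finset.sum_apply]
  refine Finset.sum_congr rfl fun w _ => ?_
  rw [map_sum, Finset.sum_apply]
  rfl

theorem BDder_D_nu (x : so n K) : γ.D x (γ.nu 0) = -(γ.xi x 0 0) - (2⁻¹ : K) • (γ.nu 0 * γ.om x) ∧
    γ.D x (γ.nu 1) = γ.xi x 1 1 - (2⁻¹ : K) • (γ.nu 1 * γ.om x) := by
  constructor <;> rw [BDder_D_apply] <;> simp [γ.T_nu, γ.P_nu]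

/-- QB-17b. -/
theorem D_m (x : so n K) (i : n) (p : Fin 2) (j : n) (q : Fin 2) :
    γ.D x (γ.m (i, p) (j, q)) =
      ∑ k, ∑ r, mC C x i k * (E C * γ.tau) r p * γ.m (k, r) (j, q) +
        ∑ r, ((-(2⁻¹ : K)) • (E C * Xi γ.m (mC C x))) r p * γ.m (i, r) (j, q) +
      (∑ k, ∑ r, mC C x j k * (E C * γ.tau) r q * γ.m (i, p) (k, r) +
        ∑ r, ((-(2⁻¹ : K)) • (E C * Xi γ.m (mC C x))) r q * γ.m (i, p) (j, r)) := by
  have hcf : ∀ (a : n) (s : Fin 2) (g : n × Fin 2 → C), ∑ w, γ.cf x w (a, s) * g w =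
      ∑ k, ∑ r, mC C x a k * (E C * γ.tau) r s * g (k, r) +
        ∑ r, ((-(2⁻¹ : K)) • (E C * Xi γ.m (mC C x))) r s * g (a, r) := by
    intro a s g
    rw [Fintype.sum_prod_type]
    simp only [cf, add_mul, Finset.sum_add_distrib, ite_mul, zero_mul]
    congr 1
    rw [Finset.sum_eq_single a]
    · simp only [if_true]
      rfl
    · intro b _ hb
      simp [hb]
    · intro h
      exact (h (Finset.mem_univ a)).elim
  rw [BDder_D_apply, γ.P_m, γ.P_m, mul_zero, mul_zero, add_zero, add_zero,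
    ← hcf i p (fun w => γ.m w (j, q)), ← hcf j q (fun w => γ.m (i, p) w),
    ← Finset.sum_add_distrib]
  refine Finset.sum_congr rfl fun w _ => ?_
  simp only [γ.T_m, mul_add, Finset.sum_add_distrib, mul_ite, mul_zero, Finset.sum_ite_eq',
    Finset.mem_univ, if_true]

/-- QB-17c. Proof: `map_Sg` for the entry `(0, 1)` of `Sg`, which is `θ`: with `t = θ/2`,
`T = E τ = t !![-1, ν₂; ν₁, 1]`, `κ = -E Ξ/2 = -!![ξ₀, ξ₂; ξ₁, ξ₀]/2`:
`(Ξ T)₀₁ - (Tᵀ Ξ)₀₁ + (κᵀ Σ)₀₁ + (Σ κ)₀₁ = t (ν₂ ξ₁ + ξ₀) + t (ξ₀ - ν₁ ξ₂) - θ ξ₀ = t ω`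
(`Ξ` is symmetric). -/
theorem D_th (x : so n K) : γ.D x γ.th = (2⁻¹ : K) • (γ.th * γ.om x) := by
  have h := map_Sg (m := γ.m) (γ.D x) (fun a b => map_add _ a b) (mC C x)
    (DressSo_mC_skew x) (E C * γ.tau) ((-(2⁻¹ : K)) • (E C * Xi γ.m (mC C x))) (γ.D_m x)
  have h01 := congrFun (congrFun h 0) 1
  have hsym : Xi γ.m (mC C x) 1 0 = Xi γ.m (mC C x) 0 1 :=
    congrFun (congrFun (Xi_transpose γ.anti (DressSo_mC_skew x)) 0) 1
  rw [BDder_Sg, BDder_tau] at h01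
  simp only [E, Matrix.map_apply, Matrix.add_apply, Matrix.sub_apply, Matrix.mul_apply,
    Fin.sum_univ_two, Matrix.transpose_apply, Matrix.smul_apply, Matrix.of_apply,
    Matrix.cons_val', Matrix.cons_val_zero, Matrix.cons_val_one, Matrix.cons_val_fin_one,
    hsym] at h01
  rw [h01]
  unfold om xi
  generalize Xi γ.m (mC C x) 0 0 = a
  generalize Xi γ.m (mC C x) 0 1 = b
  generalize Xi γ.m (mC C x) 1 1 = c
  simp only [Algebra.smul_def]
  have h2 : algebraMap K C 2⁻¹ + algebraMap K C 2⁻¹ = 1 := by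
    rw [← map_add, show (2⁻¹ : K) + 2⁻¹ = 1 by norm_num, map_one]
  rw [map_neg]
  ring

/-- QB-17d. Proof: `D τ = t !![-ξ₁, ω/2; -ω/2, ξ₂]`: `D (t ν₁) = t ω ν₁ / 2 + t (- ξ₁ - ν₁ ω / 2)`,
etc.; and `Ξ E τ - τ E Ξ = t !![-2 ξ₁, ω; -ω, 2 ξ₂]`. -/
theorem D_tau (x : so n K) : γ.tau.map (γ.D x) =
    (2⁻¹ : K) • (Xi γ.m (mC C x) * E C * γ.tau - γ.tau * E C * Xi γ.m (mC C x)) := by
  have hsym : Xi γ.m (mC C x) 1 0 = Xi γ.m (mC C x) 0 1 :=
    congrFun (congrFun (Xi_transpose γ.anti (DressSo_mC_skew x)) 0) 1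
  obtain ⟨hn0, hn1⟩ := γ.BDder_D_nu x
  have hth := γ.D_th x
  have h2 : algebraMap K C 2⁻¹ + algebraMap K C 2⁻¹ = 1 := by
    rw [← map_add, show (2⁻¹ : K) + 2⁻¹ = 1 by norm_num, map_one]
  have h22 : algebraMap K C 2⁻¹ * 2 = 1 := by linear_combination h2
  rw [BDder_tau]
  ext i j
  fin_cases i <;> fin_cases j <;>
  simp only [E, Fin.zero_eta, Fin.mk_one, Matrix.map_apply, Matrix.sub_apply,
    Matrix.mul_apply, Fin.sum_univ_two, Matrix.smul_apply,
    Matrix.of_apply, Matrix.cons_val', Matrix.cons_val_zero, Matrix.cons_val_one,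
    Matrix.cons_val_fin_one, hsym, Derivation.leibniz, map_neg, Derivation.map_smul, hth, hn0,
    hn1, smul_eq_mul] <;> unfold om xi <;> simp only [Algebra.smul_def] <;>
  generalize algebraMap K C 2⁻¹ = w at h22 ⊢
  · linear_combination (w * γ.th * Xi γ.m (mC C x) 0 0) * h22
  · ring
  · ring
  · linear_combination (-(w * γ.th * Xi γ.m (mC C x) 1 1)) * h22

omit [CharZero K] in
theorem BDder_DE (D : Derivation K C C) : (E C).map D = 0 := by
  ext i j
  fin_cases i <;> fin_cases j <;> simp [E]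

theorem BDder_EE : E C * E C = 1 := by
  ext i j
  fin_cases i <;> fin_cases j <;> simp [E]

omit [CharZero K] in
theorem BDder_D0_apply (x : so n K) (f : C) : γ.D0 x f =
    ∑ k, ∑ i, ∑ p, mC C x i k * γ.T (k, p) (i, p) f := by
  unfold D0
  rw [← Derivation.coeFnAddMonoidHom_apply, map_sum, Finset.sum_apply]
  refine Finset.sum_congr rfl fun k _ => ?_
  rw [map_sum, Finset.sum_apply]
  refine Finset.sum_congr rfl fun i _ => ?_
  rw [map_sum, Finset.sum_apply]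
  rfl

omit [CharZero K] in
theorem BDder_D0_m (x : so n K) (i : n) (p : Fin 2) (j : n) (q : Fin 2) :
    γ.D0 x (γ.m (i, p) (j, q)) =
      ∑ k, mC C x i k * γ.m (k, p) (j, q) + ∑ k, mC C x j k * γ.m (i, p) (k, q) := by
  rw [BDder_D0_apply, ← Finset.sum_add_distrib]
  refine Finset.sum_congr rfl fun k _ => ?_
  rw [← Fintype.sum_prod_type (fun v : n × Fin 2 => mC C x v.1 k *
    γ.T (k, v.2) v (γ.m (i, p) (j, q)))]
  simp only [γ.T_m, mul_add, Finset.sum_add_distrib, mul_ite, mul_zero, Finset.sum_ite_eq',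
    Finset.mem_univ, if_true]

omit [CharZero K] in
theorem BDder_D0_th (x : so n K) : γ.D0 x γ.th = 0 := by
  have hsk : ∀ i k, mC C x k i = - mC C x i k := fun i k =>
    congrFun (congrFun (DressSo_mC_skew (C := C) x) i) k
  unfold th
  rw [map_sum]
  simp only [BDder_D0_m, Finset.sum_add_distrib]
  rw [Finset.sum_comm, ← Finset.sum_add_distrib]
  refine Finset.sum_eq_zero fun i _ => ?_
  rw [← Finset.sum_add_distrib]
  refine Finset.sum_eq_zero fun k _ => ?_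
  rw [hsk i k]
  ring

omit [CharZero K] in
theorem BDder_D0_tau (x : so n K) : γ.tau.map (γ.D0 x) = 0 := by
  have hnu : ∀ i, γ.D0 x (γ.nu i) = 0 := by
    intro i
    rw [BDder_D0_apply]
    simp [γ.T_nu]
  rw [BDder_tau]
  ext i j
  fin_cases i <;> fin_cases j <;> simp [BDder_D0_th, hnu]

/-- QB-17e. from `map_FF`, `D_m`, `D_tau` -/
theorem D_F (x : so n K) (k : ℕ) : (γ.F k).map (γ.D x) =
    mC C x * γ.F (k + 1) - γ.F (k + 1) * mC C x -
      γ.F k * (mC C x * γ.F 1 - γ.F 1 * mC C x) :=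
  map_FF γ.anti γ.cyc BDder_Et (BDder_EE) γ.BDder_htau (γ.D x) (fun a b => map_add _ a b)
    (fun a b => by rw [Derivation.leibniz, smul_eq_mul, smul_eq_mul]; ring)
    (fun c a => Derivation.map_smul _ c a) (mC C x) (DressSo_mC_skew x) (BDder_DE _)
    (γ.D_m x) (γ.D_tau x) k

/-- QB-17f. from `map_FF_zero`; `D0 θ = 0` because `x` is skew -/
theorem D0_F (x : so n K) (k : ℕ) : (γ.F k).map (γ.D0 x) =
    mC C x * γ.F k - γ.F k * mC C x :=
  map_FF_zero (γ.D0 x) (fun a b => map_add _ a b)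
    (fun a b => by rw [Derivation.leibniz, smul_eq_mul, smul_eq_mul]; ring)
    (mC C x) (DressSo_mC_skew x) (BDder_DE _) (γ.BDder_D0_tau x) (γ.BDder_D0_m x) k

end Gr2

end Pool.Agent.helper74.QB
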