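import Pool.Agent.helper74.QB.BDder

/-!
# QB-17, second part. The functional `lam (θ^N ·)` and the derivations

The facts `D_m`, `D_th`, ... of `BDder.lean` may be used.
-/

set_option autoImplicit false

namespace Pool.Agent.helper74.QB

open Finset Matrix LieAlgebra.Orthogonal

variable {K : Type*} [Field K] [CharZero K] {n : Type*} [Fintype n] [DecidableEq n]
variable {C : Type*} [CommRing C] [Algebra K C]

omit [CharZero K] in
private theorem mC_apply (x : so n K) (i j : n) :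
    mC C x i j = algebraMap K C ((x : Matrix n n K) i j) := rfl

omit [CharZero K] in
private theorem so_skew (x : so n K) (i j : n) :
    (x : Matrix n n K) j i = - (x : Matrix n n K) i j := by
  have h := (LieAlgebra.Orthogonal.mem_so n K (x : Matrix n n K)).1 x.2
  exact congrFun (congrFun h i) j

omit [CharZero K] in
private theorem mC_skew' (x : so n K) (i j : n) : mC C x j i = - mC C x i j := by
  have h := (LieAlgebra.Orthogonal.mem_so n K (x : Matrix n n K)).1 x.2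
  have h1 : (x : Matrix n n K) j i = - (x : Matrix n n K) i j := congrFun (congrFun h i) j
  show algebraMap K C _ = - algebraMap K C _
  rw [h1, map_neg]

private theorem so_diag (x : so n K) (i : n) : (x : Matrix n n K) i i = 0 := by
  have h := so_skew x i i
  have h2 : (2 : K) * (x : Matrix n n K) i i = 0 := by linear_combination h
  exact (mul_eq_zero.1 h2).resolve_left two_ne_zero

private theorem mC_diag (x : so n K) (i : n) : mC C x i i = 0 := by
  rw [mC_apply, so_diag, map_zero]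

omit [CharZero K] in
private theorem sum_der_apply {ι : Type*} (s : Finset ι) (d : ι → Derivation K C C) (f : C) :
    (∑ i ∈ s, d i) f = ∑ i ∈ s, d i f := by
  classical
  induction s using Finset.induction_on with
  | empty => simp
  | insert a s ha ih => rw [sum_insert ha, sum_insert ha, Derivation.add_apply, ih]

namespace Gr2

variable {μ : K} (γ : Gr2 K (n × Fin 2) C μ)

omit [CharZero K] in
private theorem xi_apply (x : so n K) (p q : Fin 2) :
    γ.xi x p q = ∑ i, ∑ j, mC C x i j * γ.m (i, p) (j, q) := rfl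

omit [CharZero K] in
private theorem xi_symm (x : so n K) (p q : Fin 2) : γ.xi x p q = γ.xi x q p := by
  rw [xi_apply, xi_apply, sum_comm]
  refine sum_congr rfl fun i _ => sum_congr rfl fun j _ => ?_
  rw [mC_skew' x i j, γ.anti (i, q) (j, p)]
  ring

omit [CharZero K] in
/-- sum with the transposed matrix -/
private theorem xi_neg (x : so n K) (p q : Fin 2) :
    ∑ k, ∑ i, mC C x i k * γ.m (k, p) (i, q) = - γ.xi x p q := by
  rw [xi_apply, ← sum_neg_distrib]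
  refine sum_congr rfl fun i _ => ?_
  rw [← sum_neg_distrib]
  refine sum_congr rfl fun j _ => ?_
  rw [mC_skew' x i j]
  ring

omit [CharZero K] in
private theorem xi_pos (x : so n K) (p q : Fin 2) :
    ∑ k, ∑ i, mC C x i k * γ.m (i, p) (k, q) = γ.xi x p q := by
  rw [xi_apply, sum_comm]

omit [CharZero K] in
private theorem T_th (k : n) (r : Fin 2) (i : n) (s : Fin 2) : γ.T (k, r) (i, s) γ.th =
    (if s = 0 then γ.m (k, r) (i, 1) else 0) + (if s = 1 then γ.m (i, 0) (k, r) else 0) := by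
  unfold th
  rw [map_sum]
  simp only [γ.T_m, Prod.mk.injEq]
  rw [sum_add_distrib]
  congr 1
  · by_cases hs : s = 0
    · simp [hs]
    · simp [hs]
  · by_cases hs : s = 1
    · simp [hs]
    · simp [hs]

omit [CharZero K] in
private theorem P_th (i : Fin 2) : γ.P i γ.th = 0 := by
  unfold th
  rw [map_sum]
  exact sum_eq_zero fun j _ => γ.P_m i _ _

omit [CharZero K] in
private theorem P_xi (i : Fin 2) (x : so n K) (p q : Fin 2) : γ.P i (γ.xi x p q) = 0 := by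
  rw [xi_apply, map_sum]
  refine sum_eq_zero fun j _ => ?_
  rw [map_sum]
  refine sum_eq_zero fun l _ => ?_
  rw [Derivation.leibniz, γ.P_m]
  simp [mC]

omit [CharZero K] in
private theorem der_pow_zero (d : Derivation K C C) (a : C) (h : d a = 0) (N : ℕ) :
    d (a ^ N) = 0 := by
  rw [Derivation.leibniz_pow, h]
  simp

omit [CharZero K] in
private theorem D0_apply (x : so n K) (f : C) :
    γ.D0 x f = ∑ k, ∑ i, ∑ p, mC C x i k * γ.T (k, p) (i, p) f := by
  unfold D0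
  simp only [sum_der_apply, Derivation.smul_apply, smul_eq_mul]

omit [CharZero K] in
private theorem D0_th (x : so n K) : γ.D0 x γ.th = 0 := by
  rw [D0_apply]
  have h1 : ∀ k i : n, ∑ p, mC C x i k * γ.T (k, p) (i, p) γ.th =
      mC C x i k * γ.m (k, 0) (i, 1) + mC C x i k * γ.m (i, 0) (k, 1) := by
    intro k i
    rw [Fin.sum_univ_two, T_th, T_th]
    simp
  simp only [h1, sum_add_distrib]
  rw [xi_neg, xi_pos]
  ring

/-- QB-17g. Proof: `D0 θ = 0`, so `lam (θ^N D0 f) = lam (D0 (θ^N f)) = ∑ x_{ii} (..) = 0`. -/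
theorem lam_D0 (N : ℕ) (x : so n K) (f : C) : γ.lamth N (γ.D0 x f) = 0 := by
  show γ.lam (γ.th ^ N * γ.D0 x f) = 0
  have h1 : γ.th ^ N * γ.D0 x f = γ.D0 x (γ.th ^ N * f) := by
    rw [Derivation.leibniz, der_pow_zero (γ.D0 x) γ.th (γ.D0_th x) N]
    simp
  rw [h1, D0_apply, map_sum]
  refine sum_eq_zero fun k _ => ?_
  rw [map_sum]
  refine sum_eq_zero fun i _ => ?_
  rw [map_sum]
  refine sum_eq_zero fun p _ => ?_
  rw [mC_apply, ← Algebra.smul_def, map_smul, γ.lam_T]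
  by_cases hik : i = k
  · subst hik
    rw [so_diag, zero_smul]
  · have : ((k, p) : n × Fin 2) ≠ (i, p) := by
      intro h
      exact hik (Prod.mk.inj h).1.symm
    rw [if_neg this, smul_zero]

/-- QB-17h. Proof: `∑_w f_{ww} = - N ξ₀` (`N = card n`), `f = cf x`. -/
theorem sum_cf (x : so n K) : ∑ w, γ.cf x w w = -((Fintype.card n : K) • γ.xi x 0 1) := by
  rw [Fintype.sum_prod_type]
  have h1 : ∀ i : n, ∑ p : Fin 2, γ.cf x (i, p) (i, p) = - γ.xi x 0 1 := by
    intro i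
    rw [Fin.sum_univ_two]
    unfold cf
    simp only [mC_diag, zero_mul, zero_add, if_true]
    simp only [E, Matrix.smul_apply, Matrix.mul_apply, Fin.sum_univ_two, Matrix.of_apply,
      Matrix.cons_val', Matrix.cons_val_zero, Matrix.cons_val_one, Matrix.cons_val_fin_one,
      zero_mul, one_mul, zero_add, add_zero]
    rw [γ.xi_symm x 1 0, ← add_smul]
    rw [show (-(2⁻¹ : K) + -2⁻¹) = -1 by ring]
    simp
  rw [sum_congr rfl fun i _ => h1 i, sum_const, card_univ, smul_neg, Nat.cast_smul_eq_nsmul]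

omit [CharZero K] in
/-- `T` on the entries of `Ξ`, with a repeated index -/
private theorem sum_T_xi (x : so n K) (r s p q : Fin 2) :
    ∑ i : n, γ.T (i, r) (i, s) (γ.xi x p q) =
      (if s = p then γ.xi x r q else 0) + (if s = q then γ.xi x p r else 0) := by
  have h1 : ∀ i : n, γ.T (i, r) (i, s) (γ.xi x p q) =
      (if s = p then ∑ l, mC C x i l * γ.m (i, r) (l, q) else 0) +
      (if s = q then ∑ j, mC C x j i * γ.m (j, p) (i, r) else 0) := by
    intro i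
    rw [xi_apply, map_sum]
    have h2 : ∀ j l : n, γ.T (i, r) (i, s) (mC C x j l * γ.m (j, p) (l, q)) =
        (if i = j then (if s = p then mC C x j l * γ.m (i, r) (l, q) else 0) else 0) +
        (if i = l then (if s = q then mC C x j l * γ.m (j, p) (i, r) else 0) else 0) := by
      intro j l
      rw [mC_apply, ← Algebra.smul_def, Derivation.map_smul, γ.T_m]
      simp only [Prod.mk.injEq, Algebra.smul_def, mul_add, mul_ite, mul_zero, ite_and]
    simp only [map_sum, h2, sum_add_distrib]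
    congr 1
    · rw [sum_comm]
      simp
    · simp
  simp only [h1, sum_add_distrib]
  congr 1
  · by_cases hs : s = p
    · simp only [hs, if_true]
      rw [xi_apply]
    · simp only [hs, if_false, sum_const_zero]
  · by_cases hs : s = q
    · simp only [hs, if_true]
      rw [xi_apply, sum_comm]
    · simp only [hs, if_false, sum_const_zero]

/-- QB-17i. Proof.  First part of `cf`: `E τ = t 𝓝`, `𝓝 = !![-1, ν₂; ν₁, 1]`;
`T_{(k,r),(i,0)} θ = m (k,r) (i,1)`, `T_{(k,r),(i,1)} θ = - m (k,r) (i,0)`,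
`∑_{ik} x_{ik} m (k,r) (i,q) = - Ξ_{rq}`; one gets
`½ ∑_r (-𝓝_{r0} Ξ_{r1} + 𝓝_{r1} Ξ_{r0}) = ξ₀ + ω/2`.  Second part:
`∑_i T_{(i,r),(i,p)} Ξ_{sq} = δ_{ps} Ξ_{rq} + δ_{pq} Ξ_{sr}`; so
`-½ ∑_{r,p,s} E_{rs} (δ_{ps} Ξ_{rp} + Ξ_{sr}) = -½ (2 ξ₀ + 4 ξ₀) = - 3 ξ₀`. -/
theorem sum_T_cf (x : so n K) : ∑ w, ∑ v, γ.T w v (γ.cf x w v) =
    (2⁻¹ : K) • γ.om x - (2 : K) • γ.xi x 0 1 := by
  -- the matrix `𝓝`
  set NN : Matrix (Fin 2) (Fin 2) C := !![-1, γ.nu 1; γ.nu 0, 1] with hNN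
  have hEt : ∀ r s, (E C * γ.tau) r s = (2⁻¹ : K) • (γ.th * NN r s) := by
    intro r s
    fin_cases r <;> fin_cases s <;>
      simp [E, tau, NN, Matrix.mul_apply, Fin.sum_univ_two]
  have hTN : ∀ a b r s, γ.T a b (NN r s) = 0 := by
    intro a b r s
    fin_cases r <;> fin_cases s <;> simp [NN, γ.T_nu]
  have hTE : ∀ a b r s, γ.T a b ((E C * γ.tau) r s) = (2⁻¹ : K) • (NN r s * γ.T a b γ.th) := by
    intro a b r s
    rw [hEt, Derivation.map_smul, Derivation.leibniz, hTN]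
    simp
  have hcf : ∀ k r i s, γ.T (k, r) (i, s) (γ.cf x (k, r) (i, s)) =
      (2⁻¹ : K) • (NN r s * (mC C x i k * γ.T (k, r) (i, s) γ.th)) +
      (if k = i then γ.T (k, r) (i, s) (((-(2⁻¹ : K)) • (E C * γ.xi x)) r s) else 0) := by
    intro k r i s
    show γ.T (k, r) (i, s) (mC C x i k * (E C * γ.tau) r s +
      if k = i then ((-(2⁻¹ : K)) • (E C * γ.xi x)) r s else 0) = _
    rw [map_add]
    congr 1
    · rw [mC_apply, ← Algebra.smul_def, Derivation.map_smul, hTE, Algebra.smul_def,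
        mul_smul_comm]
      congr 1
      ring
    · split_ifs <;> simp
  simp only [Fintype.sum_prod_type, hcf, sum_add_distrib]
  have hA : ∑ k, ∑ r, ∑ i, ∑ s,
      (2⁻¹ : K) • (NN r s * (mC C x i k * γ.T (k, r) (i, s) γ.th)) =
      γ.xi x 0 1 + (2⁻¹ : K) • γ.om x := by
    have h1 : ∀ r, ∑ k, ∑ i, ∑ s,
        (2⁻¹ : K) • (NN r s * (mC C x i k * γ.T (k, r) (i, s) γ.th)) =
        (2⁻¹ : K) • (- (NN r 0 * γ.xi x r 1) + NN r 1 * γ.xi x 0 r) := by
      intro r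
      have h2 : ∀ k i, ∑ s, (2⁻¹ : K) • (NN r s * (mC C x i k * γ.T (k, r) (i, s) γ.th)) =
          (2⁻¹ : K) • (NN r 0 * (mC C x i k * γ.m (k, r) (i, 1))) +
          (2⁻¹ : K) • (NN r 1 * (mC C x i k * γ.m (i, 0) (k, r))) := by
        intro k i
        rw [Fin.sum_univ_two, T_th, T_th]
        simp
      simp only [h2, sum_add_distrib, ← smul_sum, ← mul_sum]
      rw [xi_neg, xi_pos, smul_add]
      simp
    calc ∑ k, ∑ r, ∑ i, ∑ s,
        (2⁻¹ : K) • (NN r s * (mC C x i k * γ.T (k, r) (i, s) γ.th))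
        = ∑ r, ∑ k, ∑ i, ∑ s,
          (2⁻¹ : K) • (NN r s * (mC C x i k * γ.T (k, r) (i, s) γ.th)) := sum_comm
      _ = γ.xi x 0 1 + (2⁻¹ : K) • γ.om x := by
        rw [Fin.sum_univ_two, h1, h1, ← smul_add]
        have h3 : (-(NN 0 0 * γ.xi x 0 1) + NN 0 1 * γ.xi x 0 0 +
            (-(NN 1 0 * γ.xi x 1 1) + NN 1 1 * γ.xi x 0 1)) =
            (2 : K) • γ.xi x 0 1 + γ.om x := by
          rw [ofNat_smul_eq_nsmul, nsmul_eq_mul]
          simp [NN, om]
          ring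
        rw [h3, smul_add, smul_smul]
        simp
  have hB : ∑ k : n, ∑ r, ∑ i, ∑ s,
      (if k = i then γ.T (k, r) (i, s) (((-(2⁻¹ : K)) • (E C * γ.xi x)) r s) else 0) =
      -((3 : K) • γ.xi x 0 1) := by
    have h1 : ∀ (k : n) (r : Fin 2), ∑ i, ∑ s,
        (if k = i then γ.T (k, r) (i, s) (((-(2⁻¹ : K)) • (E C * γ.xi x)) r s) else 0) =
        ∑ s, γ.T (k, r) (k, s) (((-(2⁻¹ : K)) • (E C * γ.xi x)) r s) := by
      intro k r
      rw [sum_comm]
      simp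
    simp only [h1]
    rw [sum_comm]
    have h2 : ∀ r : Fin 2, ∑ k : n, ∑ s, γ.T (k, r) (k, s)
        (((-(2⁻¹ : K)) • (E C * γ.xi x)) r s) =
        ∑ s, (-(2⁻¹ : K)) • ∑ k : n, γ.T (k, r) (k, s) ((E C * γ.xi x) r s) := by
      intro r
      rw [sum_comm]
      refine sum_congr rfl fun s _ => ?_
      rw [smul_sum]
      refine sum_congr rfl fun k _ => ?_
      rw [Matrix.smul_apply, Derivation.map_smul]
    have hE0 : ∀ s, (E C * γ.xi x) 0 s = γ.xi x 1 s := by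
      intro s
      simp [E, Matrix.mul_apply, Fin.sum_univ_two]
    have hE1 : ∀ s, (E C * γ.xi x) 1 s = γ.xi x 0 s := by
      intro s
      simp [E, Matrix.mul_apply, Fin.sum_univ_two]
    rw [Fin.sum_univ_two, h2, h2]
    simp only [Fin.sum_univ_two, hE0, hE1, sum_T_xi]
    rw [γ.xi_symm x 1 0]
    simp
    rw [← sub_eq_zero]
    module
  rw [hA, hB]
  module

omit [CharZero K] in
private theorem D_apply (x : so n K) (f : C) :
    γ.D x f = ∑ w, ∑ v, γ.cf x w v * γ.T w v f +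
      (-(γ.xi x 0 0) - (2⁻¹ : K) • (γ.nu 0 * γ.om x)) * γ.P 0 f +
      (γ.xi x 1 1 - (2⁻¹ : K) • (γ.nu 1 * γ.om x)) * γ.P 1 f := by
  unfold D
  simp only [sum_der_apply, Derivation.smul_apply, smul_eq_mul, Derivation.add_apply]

omit [CharZero K] in
private theorem trace_F1 (x : so n K) : trace (mC C x * γ.F 1) = -(2 * γ.xi x 0 1) := by
  have hF : γ.F 1 = br γ.m (E C) := by
    show br γ.m ((E C * γ.tau) ^ 0 * E C) = _
    rw [pow_zero, one_mul]
  have h1 : ∀ i j, (mC C x) i j * (br γ.m (E C)) j i =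
      mC C x i j * γ.m (j, 0) (i, 1) + mC C x i j * γ.m (j, 1) (i, 0) := by
    intro i j
    simp [br, E, Fin.sum_univ_two]
    ring
  rw [hF, trace]
  simp only [Matrix.diag_apply, Matrix.mul_apply, h1, sum_add_distrib]
  rw [sum_comm, γ.xi_neg x 0 1, sum_comm, γ.xi_neg x 1 0, γ.xi_symm x 1 0]
  ring

private theorem D_pow (N : ℕ) (x : so n K) :
    γ.D x (γ.th ^ N) = (N : C) * algebraMap K C 2⁻¹ * (γ.th ^ N * γ.om x) := by
  rcases N with _ | M
  · simp
  · rw [Derivation.leibniz_pow, D_th, Nat.add_sub_cancel, nsmul_eq_mul, smul_eq_mul,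
      Algebra.smul_def]
    push_cast
    ring

/-- QB-17j. Proof.  `lam (θ^N f_{wv} T_{wv} f) = δ_{wv} lam (θ^N f_{wv} f) - lam (T_{wv}(θ^N f_{wv}) f)`
(`lam_T`, Leibniz).  Sum over `w`, `v`: with `sum_cf`, `sum_T_cf` and
`∑_{wv} f_{wv} T_{wv} (θ^N) = D (θ^N) = (N/2) θ^N ω` (`D_th`; `P i θ = 0`),
`lam (θ^N D f) = lam (θ^N (-n ξ₀ + 2 ξ₀ - (N+1)/2 ω) f) + lam (θ^N (η₀ P₀ f + η₁ P₁ f))`, `n = card n`,
`η₀ = -½ ((2 + ν₁ν₂) ξ₁ - ν₁² ξ₂)`, `η₁ = ½ ((2 + ν₁ν₂) ξ₂ - ν₂² ξ₁)`.  And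
`-(n-2)/2 tr(x F₁) = (n-2) ξ₀` (`F₁ = br E`, `tr (x F₁) = - 2 ξ₀`).  What remains is
`-½ lam ((N+1) ν₂ g + (2 + ν₁ν₂) P₀ g + ν₂² P₁ g) + ½ lam ((N+1) ν₁ g' + ν₁² P₀ g' + (2 + ν₁ν₂) P₁ g')` with
`g = θ^N ξ₁ f`, `g' = θ^N ξ₂ f` (`P i` kills `θ`, `ξ₁`, `ξ₂`): zero by `lam_0`, `lam_1` (`μ = N`). -/
theorem lam_D (N : ℕ) (hμ : μ = N) (x : so n K) (f : C) :
    γ.lamth N (γ.D x f + algebraMap K C (-(((Fintype.card n : K) - 2) / 2)) *
        trace (mC C x * γ.F 1) * f) = 0 := by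
  show γ.lam (γ.th ^ N * (γ.D x f + algebraMap K C (-(((Fintype.card n : K) - 2) / 2)) *
        trace (mC C x * γ.F 1) * f)) = 0
  set t : C := γ.th ^ N with ht
  set h : C := algebraMap K C 2⁻¹ with hh
  have h2 : 2 * h = 1 := by
    have : (2 : C) = algebraMap K C 2 := (map_ofNat (algebraMap K C) 2).symm
    rw [this, hh, ← map_mul, mul_inv_cancel₀ (two_ne_zero), map_one]
  have hsm : ∀ c : C, (2⁻¹ : K) • c = h * c := fun c => Algebra.smul_def _ _
  have hα : algebraMap K C (-(((Fintype.card n : K) - 2) / 2)) =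
      -(((Fintype.card n : C) - 2) * h) := by
    rw [map_neg, div_eq_mul_inv, map_mul, map_sub, map_natCast, map_ofNat]
  have hPt : ∀ i, γ.P i t = 0 := fun i => der_pow_zero (γ.P i) γ.th (γ.P_th i) N
  -- the sum over `w, v`
  have hS : ∀ w v, t * (γ.cf x w v * γ.T w v f) = γ.T w v (t * γ.cf x w v * f) -
      t * γ.T w v (γ.cf x w v) * f - γ.cf x w v * γ.T w v t * f := by
    intro w v
    rw [Derivation.leibniz, Derivation.leibniz]
    simp only [smul_eq_mul]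
    ring
  have hlamS : γ.lam (∑ w, ∑ v, γ.T w v (t * γ.cf x w v * f)) =
      γ.lam (t * (∑ w, γ.cf x w w) * f) := by
    rw [map_sum]
    simp only [map_sum, γ.lam_T, sum_ite_eq, mem_univ, if_true]
    rw [← map_sum, mul_sum, sum_mul]
  have hDt : ∑ w, ∑ v, γ.cf x w v * γ.T w v t = (N : C) * h * (t * γ.om x) := by
    have h3 := γ.D_pow N x
    rw [D_apply, ← ht, hPt, hPt, mul_zero, mul_zero, add_zero, add_zero] at h3
    exact h3
  have hsum : t * ∑ w, ∑ v, γ.cf x w v * γ.T w v f =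
      ∑ w, ∑ v, γ.T w v (t * γ.cf x w v * f) -
        t * (∑ w, ∑ v, γ.T w v (γ.cf x w v)) * f - (∑ w, ∑ v, γ.cf x w v * γ.T w v t) * f := by
    simp only [mul_sum, sum_mul, hS, sum_sub_distrib]
  -- the two identities for `lam`
  have hA0 := γ.lam_0 (t * γ.xi x 0 0 * f)
  have hA1 := γ.lam_1 (t * γ.xi x 1 1 * f)
  have hPg : ∀ i p q, γ.P i (t * γ.xi x p q * f) = t * γ.xi x p q * γ.P i f := by
    intro i p q
    rw [Derivation.leibniz, Derivation.leibniz, hPt, P_xi]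
    simp
  have hμ1 : ∀ c : C, (μ + 1) • c = ((N : C) + 1) * c := by
    intro c
    rw [Algebra.smul_def, map_add, map_one, hμ, map_natCast]
  rw [hPg, hPg, hμ1] at hA0 hA1
  have hcf := γ.sum_cf x
  have hTcf := γ.sum_T_cf x
  have hom : γ.om x = γ.xi x 0 0 * γ.nu 1 - γ.xi x 1 1 * γ.nu 0 := rfl
  have hns : (Fintype.card n : K) • γ.xi x 0 1 = (Fintype.card n : C) * γ.xi x 0 1 := by
    rw [Algebra.smul_def, map_natCast]
  have h2s : (2 : K) • γ.xi x 0 1 = 2 * γ.xi x 0 1 := by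
    rw [Algebra.smul_def, map_ofNat]
  have hfin : t * (∑ w, γ.cf x w w) * f - t * (∑ w, ∑ v, γ.T w v (γ.cf x w v)) * f -
      (∑ w, ∑ v, γ.cf x w v * γ.T w v t) * f +
      t * ((-(γ.xi x 0 0) - (2⁻¹ : K) • (γ.nu 0 * γ.om x)) * γ.P 0 f +
        (γ.xi x 1 1 - (2⁻¹ : K) • (γ.nu 1 * γ.om x)) * γ.P 1 f) +
      t * (algebraMap K C (-(((Fintype.card n : K) - 2) / 2)) *
        trace (mC C x * γ.F 1) * f) =
      (-(2⁻¹ : K)) • ((2 + γ.nu 0 * γ.nu 1) * (t * γ.xi x 0 0 * γ.P 0 f) +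
        γ.nu 1 ^ 2 * (t * γ.xi x 0 0 * γ.P 1 f) +
        ((N : C) + 1) * (γ.nu 1 * (t * γ.xi x 0 0 * f))) +
      (2⁻¹ : K) • (γ.nu 0 ^ 2 * (t * γ.xi x 1 1 * γ.P 0 f) +
        (2 + γ.nu 0 * γ.nu 1) * (t * γ.xi x 1 1 * γ.P 1 f) +
        ((N : C) + 1) * (γ.nu 0 * (t * γ.xi x 1 1 * f))) := by
    rw [hcf, hTcf, hDt, hα, γ.trace_F1 x, hns, h2s, neg_smul]
    simp only [hsm]
    rw [hom]
    linear_combination (t * (Fintype.card n : C) * γ.xi x 0 1 * f - 2 * t * γ.xi x 0 1 * f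
      + t * γ.xi x 0 0 * γ.P 0 f - t * γ.xi x 1 1 * γ.P 1 f) * h2
  have htot : t * (γ.D x f + algebraMap K C (-(((Fintype.card n : K) - 2) / 2)) *
        trace (mC C x * γ.F 1) * f) =
      ∑ w, ∑ v, γ.T w v (t * γ.cf x w v * f) +
      (- (t * (∑ w, ∑ v, γ.T w v (γ.cf x w v)) * f) -
        (∑ w, ∑ v, γ.cf x w v * γ.T w v t) * f +
      t * ((-(γ.xi x 0 0) - (2⁻¹ : K) • (γ.nu 0 * γ.om x)) * γ.P 0 f +
        (γ.xi x 1 1 - (2⁻¹ : K) • (γ.nu 1 * γ.om x)) * γ.P 1 f) +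
      t * (algebraMap K C (-(((Fintype.card n : K) - 2) / 2)) *
        trace (mC C x * γ.F 1) * f)) := by
    rw [D_apply]
    linear_combination hsum
  rw [htot, map_add, hlamS, ← map_add]
  have hre : t * (∑ w, γ.cf x w w) * f +
      (- (t * (∑ w, ∑ v, γ.T w v (γ.cf x w v)) * f) -
        (∑ w, ∑ v, γ.cf x w v * γ.T w v t) * f +
      t * ((-(γ.xi x 0 0) - (2⁻¹ : K) • (γ.nu 0 * γ.om x)) * γ.P 0 f +
        (γ.xi x 1 1 - (2⁻¹ : K) • (γ.nu 1 * γ.om x)) * γ.P 1 f) +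
      t * (algebraMap K C (-(((Fintype.card n : K) - 2) / 2)) *
        trace (mC C x * γ.F 1) * f)) =
      t * (∑ w, γ.cf x w w) * f - t * (∑ w, ∑ v, γ.T w v (γ.cf x w v)) * f -
      (∑ w, ∑ v, γ.cf x w v * γ.T w v t) * f +
      t * ((-(γ.xi x 0 0) - (2⁻¹ : K) • (γ.nu 0 * γ.om x)) * γ.P 0 f +
        (γ.xi x 1 1 - (2⁻¹ : K) • (γ.nu 1 * γ.om x)) * γ.P 1 f) +
      t * (algebraMap K C (-(((Fintype.card n : K) - 2) / 2)) *
        trace (mC C x * γ.F 1) * f) := by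
    ring
  rw [hre, hfin, map_add, map_smul, map_smul, hA0, hA1]
  simp

end Gr2

end Pool.Agent.helper74.QB
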