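import Pool.Agent.helper74.QB.VacComm

/-!
# QB-08. Coefficients in a commutative algebra

`C` is a commutative `K`-algebra; `C ⊗ UP`, the letters `XC i : C ⊗ g → C ⊗ UP`, the operators
`phiC r y` (`y ∈ C ⊗ g`), the derivations `DU D = D ⊗ id` and the functionals `lamU`.
-/

set_option autoImplicit false

namespace Pool.Agent.helper74.QB

open TensorProduct

variable {K : Type*} [CommRing K] {g : Type*} [LieRing g] [LieAlgebra K g]
variable {C : Type*} [CommRing C] [Algebra K C]

/-- the letters with coefficients in `C` -/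
noncomputable def XC (i : ℕ) : C ⊗[K] g →ₗ[C] C ⊗[K] UP K g := (X K g i).baseChange C

@[simp] theorem XC_tmul (i : ℕ) (c : C) (x : g) :
    XC i (c ⊗ₜ[K] x) = c ⊗ₜ[K] X K g i x := rfl

/-- the operators `φ_r` with coefficients in `C` -/
noncomputable def phiC (κ : g →ₗ[K] g →ₗ[K] K) (hκ : IsInv κ) (r : ℕ) :
    C ⊗[K] g →ₗ[C] Module.End C (C ⊗[K] UP K g) :=
  LinearMap.liftBaseChange C
    ((LinearMap.baseChangeHom K C (UP K g) (UP K g)) ∘ₗ phi κ hκ r)

theorem phiC_tmul (κ : g →ₗ[K] g →ₗ[K] K) (hκ : IsInv κ) (r : ℕ) (c c' : C) (x : g)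
    (u : UP K g) :
    phiC κ hκ r (c ⊗ₜ[K] x) (c' ⊗ₜ[K] u) = (c * c') ⊗ₜ[K] phi κ hκ r x u := by
  simp [phiC, LinearMap.liftBaseChange_tmul, TensorProduct.smul_tmul']

/-- the linear map `C ⊗ g → C`, `c ⊗ y ↦ κ(x, y) c` -/
noncomputable def kap (κ : g →ₗ[K] g →ₗ[K] K) (x : g) : C ⊗[K] g →ₗ[C] C :=
  LinearMap.liftBaseChange C ((Algebra.linearMap K C) ∘ₗ κ x)

theorem kap_tmul (κ : g →ₗ[K] g →ₗ[K] K) (x : g) (c : C) (y : g) :
    kap κ x (c ⊗ₜ[K] y) = c * algebraMap K C (κ x y) := by
  simp [kap, LinearMap.liftBaseChange_tmul]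

/-- QB-08a. Proof: bilinear in `y`, `y'`; on pure tensors `X_mul`. -/
theorem XC_mul (i j : ℕ) (y y' : C ⊗[K] g) :
    XC i y * XC j y' = XC j y' * XC i y + XC (i + j + 1) ⁅y, y'⁆ := by
  induction y using TensorProduct.induction_on with
  | zero => simp
  | add a b ha hb =>
    simp only [map_add, add_mul, mul_add, ha, hb, add_lie]
    abel
  | tmul c x =>
    induction y' using TensorProduct.induction_on with
    | zero => simp
    | add a b ha hb =>
      simp only [map_add, add_mul, mul_add, ha, hb, lie_add]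
      abel
    | tmul c' x' =>
      rw [LieAlgebra.ExtendScalars.bracket_tmul]
      simp only [XC_tmul, Algebra.TensorProduct.tmul_mul_tmul]
      rw [mul_comm c' c, ← TensorProduct.tmul_add, X_mul]

theorem phiC_one (κ : g →ₗ[K] g →ₗ[K] K) (hκ : IsInv κ) (r : ℕ) (y : C ⊗[K] g) :
    phiC κ hκ r y (1 : C ⊗[K] UP K g) = 0 := by
  have h1 : (1 : C ⊗[K] UP K g) = (1 : C) ⊗ₜ[K] (1 : UP K g) := rfl
  induction y using TensorProduct.induction_on with
  | zero => simp
  | add a b ha hb => rw [map_add, LinearMap.add_apply, ha, hb, add_zero]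
  | tmul c x => rw [h1, phiC_tmul, phi_one, TensorProduct.tmul_zero]

/-- QB-08b. the operator `φ_0`.  Proof: trilinear; on pure tensors `phi_X_mul` with `r = 0`. -/
theorem phiC_zero_mul (κ : g →ₗ[K] g →ₗ[K] K) (hκ : IsInv κ) (i : ℕ) (y y' : C ⊗[K] g)
    (w : C ⊗[K] UP K g) :
    phiC κ hκ 0 y (XC i y' * w) = XC i y' * phiC κ hκ 0 y w + XC i ⁅y, y'⁆ * w := by
  induction y using TensorProduct.induction_on with
  | zero => simp
  | add a b ha hb =>
    simp only [map_add, LinearMap.add_apply, ha, hb, add_lie, mul_add, add_mul]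
    abel
  | tmul c x =>
    induction y' using TensorProduct.induction_on with
    | zero => simp
    | add a b ha hb =>
      simp only [map_add, add_mul, ha, hb, lie_add]
      abel
    | tmul c' x' =>
      induction w using TensorProduct.induction_on with
      | zero => simp
      | add a b ha hb =>
        simp only [map_add, mul_add, ha, hb]
        abel
      | tmul d u =>
        rw [LieAlgebra.ExtendScalars.bracket_tmul]
        simp only [XC_tmul, Algebra.TensorProduct.tmul_mul_tmul, phiC_tmul]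
        rw [phi_X_mul, show c' * (c * d) = c * (c' * d) by ring, mul_assoc c c' d,
          ← TensorProduct.tmul_add]
        congr 1
        simp

/-- QB-08c. the operator `φ_1 (1 ⊗ x)`.  Proof: bilinear; on pure tensors `phi_X_mul` with
`r = 1`. -/
theorem phiC_one_mul_zero (κ : g →ₗ[K] g →ₗ[K] K) (hκ : IsInv κ) (x : g) (y' : C ⊗[K] g)
    (w : C ⊗[K] UP K g) :
    phiC κ hκ 1 (1 ⊗ₜ[K] x) (XC 0 y' * w) = XC 0 y' * phiC κ hκ 1 (1 ⊗ₜ[K] x) w +
      phiC κ hκ 0 ⁅(1 : C) ⊗ₜ[K] x, y'⁆ w + kap κ x y' • w := by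
  induction y' using TensorProduct.induction_on with
  | zero => simp
  | add a b ha hb =>
    simp only [map_add, add_mul, ha, hb, lie_add, LinearMap.add_apply, add_smul]
    abel
  | tmul c' x' =>
    induction w using TensorProduct.induction_on with
    | zero => simp
    | add a b ha hb =>
      simp only [map_add, mul_add, ha, hb, smul_add]
      abel
    | tmul d u =>
      rw [LieAlgebra.ExtendScalars.bracket_tmul, kap_tmul]
      simp only [XC_tmul, Algebra.TensorProduct.tmul_mul_tmul, phiC_tmul, one_mul]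
      rw [phi_X_mul, TensorProduct.smul_tmul', smul_eq_mul]
      have h : (c' * algebraMap K C (κ x x') * d) ⊗ₜ[K] u =
          (c' * d) ⊗ₜ[K] (κ x x' • u) := by
        rw [← TensorProduct.smul_tmul, Algebra.smul_def]
        congr 1
        ring
      rw [h, ← TensorProduct.tmul_add, ← TensorProduct.tmul_add]
      congr 1
      simp

theorem phiC_one_mul_succ (κ : g →ₗ[K] g →ₗ[K] K) (hκ : IsInv κ) (i : ℕ) (x : g)
    (y' : C ⊗[K] g) (w : C ⊗[K] UP K g) :
    phiC κ hκ 1 (1 ⊗ₜ[K] x) (XC (i + 1) y' * w) =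
      XC (i + 1) y' * phiC κ hκ 1 (1 ⊗ₜ[K] x) w + XC i ⁅(1 : C) ⊗ₜ[K] x, y'⁆ * w := by
  induction y' using TensorProduct.induction_on with
  | zero => simp
  | add a b ha hb =>
    simp only [map_add, add_mul, ha, hb, lie_add]
    abel
  | tmul c' x' =>
    induction w using TensorProduct.induction_on with
    | zero => simp
    | add a b ha hb =>
      simp only [map_add, mul_add, ha, hb]
      abel
    | tmul d u =>
      rw [LieAlgebra.ExtendScalars.bracket_tmul]
      simp only [XC_tmul, Algebra.TensorProduct.tmul_mul_tmul, phiC_tmul, one_mul]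
      rw [phi_X_mul, ← TensorProduct.tmul_add]
      congr 1
      simp

/-! ### derivations of `C` -/

/-- `D ⊗ id` on `C ⊗ UP` -/
noncomputable def DU (D : Derivation K C C) : C ⊗[K] UP K g →ₗ[K] C ⊗[K] UP K g :=
  LinearMap.rTensor (UP K g) (D : C →ₗ[K] C)

/-- `D ⊗ id` on `C ⊗ g` -/
noncomputable def Dg (D : Derivation K C C) : C ⊗[K] g →ₗ[K] C ⊗[K] g :=
  LinearMap.rTensor g (D : C →ₗ[K] C)

@[simp] theorem DU_tmul (D : Derivation K C C) (c : C) (u : UP K g) :
    DU D (c ⊗ₜ[K] u) = D c ⊗ₜ[K] u := rfl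

@[simp] theorem Dg_tmul (D : Derivation K C C) (c : C) (x : g) :
    Dg D (c ⊗ₜ[K] x) = D c ⊗ₜ[K] x := rfl

theorem DU_one (D : Derivation K C C) : DU D (1 : C ⊗[K] UP K g) = 0 := by
  show DU D ((1 : C) ⊗ₜ[K] (1 : UP K g)) = 0
  rw [DU_tmul, Derivation.map_one_eq_zero, TensorProduct.zero_tmul]

/-- QB-08d. -/
theorem DU_mul (D : Derivation K C C) (i : ℕ) (y : C ⊗[K] g) (w : C ⊗[K] UP K g) :
    DU D (XC i y * w) = XC i (Dg D y) * w + XC i y * DU D w := by
  induction y using TensorProduct.induction_on with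
  | zero => simp
  | add a b ha hb =>
    simp only [map_add, add_mul, ha, hb]
    abel
  | tmul c x =>
    induction w using TensorProduct.induction_on with
    | zero => simp
    | add a b ha hb =>
      simp only [map_add, mul_add, ha, hb]
      abel
    | tmul d u =>
      simp only [XC_tmul, Algebra.TensorProduct.tmul_mul_tmul, DU_tmul, Dg_tmul,
        Derivation.leibniz, smul_eq_mul, TensorProduct.add_tmul]
      rw [mul_comm d (D c)]
      abel

/-! ### functionals -/

/-- `lam ⊗ id` -/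
noncomputable def lamU (lam : C →ₗ[K] K) : C ⊗[K] UP K g →ₗ[K] UP K g :=
  (TensorProduct.lid K (UP K g)).toLinearMap ∘ₗ LinearMap.rTensor (UP K g) lam

@[simp] theorem lamU_tmul (lam : C →ₗ[K] K) (c : C) (u : UP K g) :
    lamU lam (c ⊗ₜ[K] u) = lam c • u := by
  simp [lamU]

/-- QB-08e. -/
theorem lamU_phiC (κ : g →ₗ[K] g →ₗ[K] K) (hκ : IsInv κ) (lam : C →ₗ[K] K) (r : ℕ) (x : g)
    (w : C ⊗[K] UP K g) :
    lamU lam (phiC κ hκ r (1 ⊗ₜ[K] x) w) = phi κ hκ r x (lamU lam w) := by
  induction w using TensorProduct.induction_on with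
  | zero => simp
  | add a b ha hb => simp only [map_add, ha, hb]
  | tmul c u => rw [phiC_tmul, one_mul, lamU_tmul, lamU_tmul, map_smul]

/-- QB-08f. -/
theorem lamU_eq_zero (lam : C →ₗ[K] K) (D : Derivation K C C) (c : C)
    (h : ∀ f, lam (D f + c * f) = 0) (w : C ⊗[K] UP K g) :
    lamU lam (DU D w + c • w) = 0 := by
  induction w using TensorProduct.induction_on with
  | zero => simp
  | add a b ha hb =>
    have h2 : DU D (a + b) + c • (a + b) = (DU D a + c • a) + (DU D b + c • b) := by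
      rw [map_add, smul_add]
      abel
    rw [h2, map_add, ha, hb, add_zero]
  | tmul f u =>
    rw [DU_tmul, TensorProduct.smul_tmul', smul_eq_mul, ← TensorProduct.add_tmul, lamU_tmul, h,
      zero_smul]

end Pool.Agent.helper74.QB
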