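import Mathlib

/-!
# QB-15. The calculus of the matrices `A N Aᵀ`

`m : n × J → n × J → C` are the products of anticommuting variables `A_{ip}`; for `N ∈ Mat_J(C)`,
`br m N = A N Aᵀ ∈ Mat_n(C)`; `Sg m = Aᵀ A`, `Xi m x = Aᵀ x A`.
-/

set_option autoImplicit false

namespace Pool.Agent.helper74.QB

open Finset Matrix

variable {n J : Type*} [Fintype n] [DecidableEq n] [Fintype J] [DecidableEq J]
variable {C : Type*} [CommRing C]

/-- `A N Aᵀ` -/
def br (m : n × J → n × J → C) (N : Matrix J J C) : Matrix n n C :=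
  of fun i j => ∑ p, ∑ q, N p q * m (i, p) (j, q)

/-- `Aᵀ A` -/
def Sg (m : n × J → n × J → C) : Matrix J J C := of fun p q => ∑ i, m (i, p) (i, q)

/-- `Aᵀ x A` -/
def Xi (m : n × J → n × J → C) (x : Matrix n n C) : Matrix J J C :=
  of fun p q => ∑ i, ∑ j, x i j * m (i, p) (j, q)

theorem br_add (m : n × J → n × J → C) (N N' : Matrix J J C) :
    br m (N + N') = br m N + br m N' := by
  ext i j
  simp [br, add_mul, sum_add_distrib]

theorem br_neg (m : n × J → n × J → C) (N : Matrix J J C) : br m (-N) = - br m N := by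
  ext i j
  simp [br]

theorem br_sub (m : n × J → n × J → C) (N N' : Matrix J J C) :
    br m (N - N') = br m N - br m N' := by
  rw [sub_eq_add_neg, br_add, br_neg, sub_eq_add_neg]

theorem br_smul (m : n × J → n × J → C) (c : C) (N : Matrix J J C) :
    br m (c • N) = c • br m N := by
  ext i j
  simp [br, mul_assoc, mul_sum]

section sums

variable {M α β γ δ : Type*} [AddCommMonoid M] [Fintype α] [Fintype β] [Fintype γ] [Fintype δ]

private theorem re3 (f : α → β → γ → M) :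
    ∑ a, ∑ b, ∑ c, f a b c = ∑ c, ∑ b, ∑ a, f a b c := by
  rw [sum_comm]
  simp_rw [sum_comm (s := (univ : Finset α)) (t := (univ : Finset γ))]
  rw [sum_comm]

private theorem re3' (f : α → β → γ → M) :
    ∑ a, ∑ b, ∑ c, f a b c = ∑ c, ∑ a, ∑ b, f a b c := by
  simp_rw [sum_comm (s := (univ : Finset β)) (t := (univ : Finset γ))]
  rw [sum_comm]

private theorem re4 (f : α → β → γ → δ → M) :
    ∑ a, ∑ b, ∑ c, ∑ d, f a b c d = ∑ c, ∑ d, ∑ b, ∑ a, f a b c d := by
  rw [sum_comm]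
  calc ∑ b, ∑ a, ∑ c, ∑ d, f a b c d = ∑ b, ∑ c, ∑ d, ∑ a, f a b c d := by
        refine sum_congr rfl fun b _ => ?_
        rw [sum_comm]
        exact sum_congr rfl fun c _ => sum_comm
    _ = ∑ c, ∑ b, ∑ d, ∑ a, f a b c d := sum_comm
    _ = ∑ c, ∑ d, ∑ b, ∑ a, f a b c d := sum_congr rfl fun c _ => sum_comm

private theorem re4' (f : α → β → γ → δ → M) :
    ∑ a, ∑ b, ∑ c, ∑ d, f a b c d = ∑ c, ∑ a, ∑ d, ∑ b, f a b c d := by
  calc ∑ a, ∑ b, ∑ c, ∑ d, f a b c d = ∑ a, ∑ c, ∑ d, ∑ b, f a b c d := by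
        refine sum_congr rfl fun a _ => ?_
        rw [sum_comm]
        exact sum_congr rfl fun c _ => sum_comm
    _ = ∑ c, ∑ a, ∑ d, ∑ b, f a b c d := sum_comm

end sums

private theorem sum_D {ι : Type*} (D : C → C) (hadd : ∀ a b, D (a + b) = D a + D b)
    (s : Finset ι) (f : ι → C) : D (∑ a ∈ s, f a) = ∑ a ∈ s, D (f a) :=
  map_sum (AddMonoidHom.mk' D hadd) f s

section

variable {m : n × J → n × J → C} (hanti : ∀ v w, m w v = - m v w)
  (hcyc : ∀ a b c d, m a b * m c d = m b c * m a d)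

include hanti in
/-- QB-15a. -/
theorem br_transpose (N : Matrix J J C) : (br m N)ᵀ = - br m Nᵀ := by
  ext i j
  simp only [br, transpose_apply, of_apply, Matrix.neg_apply]
  rw [sum_comm, ← sum_neg_distrib]
  refine sum_congr rfl fun p _ => ?_
  rw [← sum_neg_distrib]
  refine sum_congr rfl fun q _ => ?_
  rw [hanti (i, p) (j, q), mul_neg]

include hcyc in
/-- QB-15b. Proof: `∑_k ∑_l N p q x_{kl} N' r s m(ip,kq) m(lr,js)` and
`m(ip,kq) m(lr,js) = m(kq,lr) m(ip,js)`. -/
theorem br_mul_mul (N N' : Matrix J J C) (x : Matrix n n C) :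
    br m N * x * br m N' = br m (N * Xi m x * N') := by
  ext i j
  simp only [Matrix.mul_apply, br, Xi, of_apply, Finset.sum_mul, Finset.mul_sum]
  let e : (n × J × J × n × J × J) ≃ (J × J × J × J × n × n) :=
    { toFun := fun z => (z.2.2.2.2.1, z.2.2.1, z.2.1, z.2.2.2.2.2, z.2.2.2.1, z.1)
      invFun := fun y => (y.2.2.2.2.2, y.2.2.1, y.2.1, y.2.2.2.2.1, y.1, y.2.2.2.1)
      left_inv := fun _ => rfl
      right_inv := fun _ => rfl }
  calc _ = ∑ z : n × J × J × n × J × J, N z.2.2.2.2.1 z.2.2.2.2.2 *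
        m (i, z.2.2.2.2.1) (z.2.2.2.1, z.2.2.2.2.2) * x z.2.2.2.1 z.1 *
        (N' z.2.1 z.2.2.1 * m (z.1, z.2.1) (j, z.2.2.1)) := by
        simp only [Fintype.sum_prod_type]
    _ = ∑ y : J × J × J × J × n × n, N y.1 y.2.2.2.1 *
        (x y.2.2.2.2.1 y.2.2.2.2.2 * m (y.2.2.2.2.1, y.2.2.2.1) (y.2.2.2.2.2, y.2.2.1)) *
        N' y.2.2.1 y.2.1 * m (i, y.1) (j, y.2.1) := by
        refine Fintype.sum_equiv e _ _ ?_
        rintro ⟨l, r, s, k, p, q⟩
        simp only [e, Equiv.coe_fn_mk]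
        linear_combination (N p q * x k l * N' r s) * hcyc (i, p) (k, q) (l, r) (j, s)
    _ = _ := by
        simp only [Fintype.sum_prod_type]

include hcyc in
theorem br_mul (N N' : Matrix J J C) : br m N * br m N' = br m (N * Sg m * N') := by
  have h := br_mul_mul hcyc N N' (1 : Matrix n n C)
  have h1 : Xi m (1 : Matrix n n C) = Sg m := by
    ext p q
    simp [Xi, Sg, Matrix.one_apply]
  rw [h1, mul_one] at h
  exact h

include hanti in
theorem Sg_transpose : (Sg m)ᵀ = - Sg m := by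
  ext p q
  simp only [Sg, transpose_apply, of_apply, Matrix.neg_apply]
  rw [← sum_neg_distrib]
  refine sum_congr rfl fun i _ => ?_
  exact hanti (i, p) (i, q)

include hanti in
theorem Xi_transpose {x : Matrix n n C} (hx : xᵀ = -x) : (Xi m x)ᵀ = Xi m x := by
  have hx' : ∀ i j, x j i = - x i j := fun i j => by
    have := congrFun (congrFun hx i) j
    simpa using this
  ext p q
  simp only [Xi, transpose_apply, of_apply]
  rw [sum_comm]
  refine sum_congr rfl fun i _ => sum_congr rfl fun j _ => ?_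
  rw [hx' i j, hanti (i, p) (j, q)]
  ring

/-- QB-15c. `D A = x A T + A κ` -/
theorem map_br (D : C → C) (hadd : ∀ a b, D (a + b) = D a + D b)
    (hmul : ∀ a b, D (a * b) = D a * b + a * D b) (x : Matrix n n C)
    (hx : xᵀ = -x) (T κ : Matrix J J C)
    (hD : ∀ i p j q, D (m (i, p) (j, q)) =
      ∑ k, ∑ r, x i k * T r p * m (k, r) (j, q) + ∑ r, κ r p * m (i, r) (j, q) +
      (∑ k, ∑ r, x j k * T r q * m (i, p) (k, r) + ∑ r, κ r q * m (i, p) (j, r)))
    (N : Matrix J J C) :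
    (br m N).map D = x * br m (T * N) + br m (κ * N) + br m (N.map D) -
      br m (N * Tᵀ) * x + br m (N * κᵀ) := by
  have hx' : ∀ i j, x j i = - x i j := fun i j => by
    have := congrFun (congrFun hx i) j
    simpa using this
  ext i j
  simp only [Matrix.mul_apply, br, of_apply, Finset.sum_mul, Finset.mul_sum, Matrix.add_apply,
    Matrix.sub_apply, Matrix.map_apply, Matrix.transpose_apply]
  have h0 : D (∑ p, ∑ q, N p q * m (i, p) (j, q)) =
      ∑ p, ∑ q, (D (N p q) * m (i, p) (j, q) +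
        (∑ k, ∑ r, N p q * (x i k * T r p * m (k, r) (j, q)) +
        ∑ r, N p q * (κ r p * m (i, r) (j, q)) +
        (∑ k, ∑ r, N p q * (x j k * T r q * m (i, p) (k, r)) +
        ∑ r, N p q * (κ r q * m (i, p) (j, r))))) := by
    rw [sum_D D hadd]
    refine sum_congr rfl fun p _ => ?_
    rw [sum_D D hadd]
    refine sum_congr rfl fun q _ => ?_
    rw [hmul, hD]
    simp only [mul_add, Finset.mul_sum]
  have t1 : ∑ p, ∑ q, ∑ k, ∑ r, N p q * (x i k * T r p * m (k, r) (j, q)) =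
      ∑ k, ∑ r, ∑ q, ∑ p, x i k * (T r p * N p q * m (k, r) (j, q)) := by
    rw [re4]
    refine sum_congr rfl fun k _ => sum_congr rfl fun r _ => sum_congr rfl fun q _ =>
      sum_congr rfl fun p _ => ?_
    ring
  have t2 : ∑ p, ∑ q, ∑ r, N p q * (κ r p * m (i, r) (j, q)) =
      ∑ r, ∑ q, ∑ p, κ r p * N p q * m (i, r) (j, q) := by
    rw [re3]
    refine sum_congr rfl fun r _ => sum_congr rfl fun q _ => sum_congr rfl fun p _ => ?_
    ring
  have t4 : ∑ p, ∑ q, ∑ k, ∑ r, N p q * (x j k * T r q * m (i, p) (k, r)) =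
      - ∑ k, ∑ p, ∑ r, ∑ q, N p q * T r q * m (i, p) (k, r) * x k j := by
    rw [re4', ← sum_neg_distrib]
    refine sum_congr rfl fun k _ => ?_
    rw [← sum_neg_distrib]
    refine sum_congr rfl fun p _ => ?_
    rw [← sum_neg_distrib]
    refine sum_congr rfl fun r _ => ?_
    rw [← sum_neg_distrib]
    refine sum_congr rfl fun q _ => ?_
    rw [hx' k j]
    ring
  have t5 : ∑ p, ∑ q, ∑ r, N p q * (κ r q * m (i, p) (j, r)) =
      ∑ p, ∑ r, ∑ q, N p q * κ r q * m (i, p) (j, r) := by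
    refine sum_congr rfl fun p _ => ?_
    rw [sum_comm]
    refine sum_congr rfl fun r _ => sum_congr rfl fun q _ => ?_
    ring
  rw [h0]
  simp only [sum_add_distrib]
  rw [t1, t2, t4, t5]
  ring

/-- QB-15d. the same derivation on `Aᵀ A`: `D Σ = Ξ T - Tᵀ Ξ + κᵀ Σ + Σ κ` -/
theorem map_Sg (D : C → C) (hadd : ∀ a b, D (a + b) = D a + D b) (x : Matrix n n C)
    (hx : xᵀ = -x) (T κ : Matrix J J C)
    (hD : ∀ i p j q, D (m (i, p) (j, q)) =
      ∑ k, ∑ r, x i k * T r p * m (k, r) (j, q) + ∑ r, κ r p * m (i, r) (j, q) +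
      (∑ k, ∑ r, x j k * T r q * m (i, p) (k, r) + ∑ r, κ r q * m (i, p) (j, r))) :
    (Sg m).map D = Xi m x * T - Tᵀ * Xi m x + κᵀ * Sg m + Sg m * κ := by
  have hx' : ∀ i j, x j i = - x i j := fun i j => by
    have := congrFun (congrFun hx i) j
    simpa using this
  ext p q
  simp only [Matrix.mul_apply, Sg, Xi, of_apply, Finset.sum_mul, Finset.mul_sum, Matrix.add_apply,
    Matrix.sub_apply, Matrix.map_apply, Matrix.transpose_apply]
  have h0 : D (∑ i, m (i, p) (i, q)) =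
      ∑ i, (∑ k, ∑ r, x i k * T r p * m (k, r) (i, q) + ∑ r, κ r p * m (i, r) (i, q) +
      (∑ k, ∑ r, x i k * T r q * m (i, p) (k, r) + ∑ r, κ r q * m (i, p) (i, r))) := by
    rw [sum_D D hadd]
    exact sum_congr rfl fun i _ => hD i p i q
  have t1 : ∑ i, ∑ k, ∑ r, x i k * T r p * m (k, r) (i, q) =
      - ∑ r, ∑ k, ∑ i, T r p * (x k i * m (k, r) (i, q)) := by
    rw [re3, ← sum_neg_distrib]
    refine sum_congr rfl fun r _ => ?_
    rw [← sum_neg_distrib]
    refine sum_congr rfl fun k _ => ?_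
    rw [← sum_neg_distrib]
    refine sum_congr rfl fun i _ => ?_
    rw [hx' k i]
    ring
  have t2 : ∑ i, ∑ r, κ r p * m (i, r) (i, q) = ∑ r, ∑ i, κ r p * m (i, r) (i, q) := sum_comm
  have t3 : ∑ i, ∑ k, ∑ r, x i k * T r q * m (i, p) (k, r) =
      ∑ r, ∑ i, ∑ k, x i k * m (i, p) (k, r) * T r q := by
    rw [re3']
    refine sum_congr rfl fun r _ => sum_congr rfl fun i _ => sum_congr rfl fun k _ => ?_
    ring
  have t4 : ∑ i, ∑ r, κ r q * m (i, p) (i, r) = ∑ r, ∑ i, m (i, p) (i, r) * κ r q := by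
    rw [sum_comm]
    refine sum_congr rfl fun r _ => sum_congr rfl fun i _ => ?_
    ring
  rw [h0]
  simp only [sum_add_distrib]
  rw [t1, t2, t3, t4]
  ring

end

end Pool.Agent.helper74.QB
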