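import Pool.Agent.helper74.QB.Calc
import Pool.Agent.helper74.QB.GroupLie

/-!
# QB-16. The group-like matrices `1 + A (z - T)⁻¹ E Aᵀ`

`E` is a constant symmetric involution, `τ` a `J × J` matrix with `τ - τᵀ = Aᵀ A`, `T = E τ`.
`FF 0 = 1`, `FF (k+1) = A T^k E Aᵀ`.
-/

set_option autoImplicit false

namespace Pool.Agent.helper74.QB

open Finset Matrix

variable {K : Type*} [Field K] [CharZero K]
variable {n J : Type*} [Fintype n] [DecidableEq n] [Fintype J] [DecidableEq J]
variable {C : Type*} [CommRing C] [Algebra K C]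

/-- the coefficients of `1 + ∑_k T^(k+1) A T^k E Aᵀ` -/
def FF (m : n × J → n × J → C) (E τ : Matrix J J C) : ℕ → Matrix n n C
  | 0 => 1
  | k + 1 => br m ((E * τ) ^ k * E)


theorem calcD_pow_semi (A B : Matrix J J C) (k : ℕ) : A * (B * A) ^ k = (A * B) ^ k * A := by
  induction k with
  | zero => simp
  | succ k ih =>
    calc A * (B * A) ^ (k + 1) = (A * (B * A) ^ k) * (B * A) := by rw [pow_succ, mul_assoc]
      _ = (A * B) ^ k * A * (B * A) := by rw [ih]
      _ = (A * B) ^ (k + 1) * A := by rw [pow_succ]; simp only [mul_assoc]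

theorem calcD_tele (A B : Matrix J J C) (n : ℕ) :
    ∑ p ∈ antidiagonal n, A ^ p.1 * (A - B) * B ^ p.2 = A ^ (n + 1) - B ^ (n + 1) := by
  induction n with
  | zero => simp
  | succ n ih =>
    rw [Finset.Nat.sum_antidiagonal_succ']
    have h : ∑ p ∈ antidiagonal n, A ^ p.1 * (A - B) * B ^ (p.2 + 1) =
        (∑ p ∈ antidiagonal n, A ^ p.1 * (A - B) * B ^ p.2) * B := by
      rw [Finset.sum_mul]
      refine Finset.sum_congr rfl fun p _ => ?_
      rw [pow_succ, ← mul_assoc]
    simp only [h, ih]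
    simp only [pow_zero, mul_one, mul_sub, sub_mul, ← pow_succ]
    abel

theorem calcD_br_sum (m : n × J → n × J → C) {ι : Type*} (s : Finset ι)
    (f : ι → Matrix J J C) : br m (∑ a ∈ s, f a) = ∑ a ∈ s, br m (f a) := by
  classical
  induction s using Finset.induction_on with
  | empty => ext i j; simp [br]
  | insert a s ha ih => rw [Finset.sum_insert ha, Finset.sum_insert ha, br_add, ih]

theorem calcD_D_zero (D : C → C) (hadd : ∀ a b, D (a + b) = D a + D b) : D 0 = 0 := by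
  have h := hadd 0 0
  rw [add_zero] at h
  exact left_eq_add.mp h

theorem calcD_map_mul {ι : Type*} [Fintype ι] (D : C → C) (hadd : ∀ a b, D (a + b) = D a + D b)
    (hmul : ∀ a b, D (a * b) = D a * b + a * D b) (A B : Matrix ι ι C) :
    (A * B).map D = A.map D * B + A * B.map D := by
  ext i j
  have hs : ∀ (s : Finset ι) (f : ι → C), D (∑ k ∈ s, f k) = ∑ k ∈ s, D (f k) := fun s f =>
    map_sum (AddMonoidHom.mk' D hadd) f s
  simp only [Matrix.map_apply, Matrix.mul_apply, Matrix.add_apply, hs, hmul,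
    Finset.sum_add_distrib]

theorem calcD_map_one {ι : Type*} [DecidableEq ι] (D : C → C)
    (hadd : ∀ a b, D (a + b) = D a + D b)
    (hmul : ∀ a b, D (a * b) = D a * b + a * D b) : (1 : Matrix ι ι C).map D = 0 := by
  have h0 := calcD_D_zero D hadd
  have h1 : D 1 = 0 := by
    have h := hmul 1 1
    simp only [mul_one, one_mul] at h
    exact left_eq_add.mp h
  ext i j
  by_cases hij : i = j
  · subst hij; simp [h1]
  · simp [Matrix.one_apply_ne hij, h0]

variable {m : n × J → n × J → C} (hanti : ∀ v w, m w v = - m v w)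
  (hcyc : ∀ a b c d, m a b * m c d = m b c * m a d)
  {E τ : Matrix J J C} (hE : Eᵀ = E) (hE2 : E * E = 1) (hτ : τ - τᵀ = Sg m)

include hanti hE in
/-- QB-16a. Proof: `br_transpose`; `((E τ)^k E)ᵀ = E (τᵀ E)^k = (E τᵀ)^k E`. -/
theorem FF_transpose (k : ℕ) :
    (FF m E τ (k + 1))ᵀ = - br m ((E * τᵀ) ^ k * E) := by
  show (br m ((E * τ) ^ k * E))ᵀ = _
  rw [br_transpose hanti, Matrix.transpose_mul, Matrix.transpose_pow, Matrix.transpose_mul, hE,
    calcD_pow_semi]

include hanti hcyc hE hτ in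
/-- QB-16b. Proof.  With `T = E τ`, `T' = E τᵀ`, `T - T' = E Σ`: by `br_mul` and `FF_transpose`,
`∑_{p+q=n+1} F_p F_qᵀ = br (T^n E) - br (T'^n E) - ∑_{p+q=n-1} br (T^p E Σ T'^q E)` and
`∑_{p+q=n-1} T^p (T - T') T'^q = T^n - T'^n` (induction on `n`).  The second product is symmetric. -/
theorem FF_grp : Grp (FF m E τ) (fun k => (FF m E τ k)ᵀ) := by
  have hES : E * Sg m = E * τ - E * τᵀ := by rw [← hτ, mul_sub]
  refine ⟨rfl, ?_, fun n => ?_, fun n => ?_⟩
  · show (1 : Matrix _ _ C)ᵀ = 1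
    exact Matrix.transpose_one
  · rw [Finset.Nat.sum_antidiagonal_succ]
    show (1 : Matrix _ _ C) * (FF m E τ (n + 1))ᵀ + _ = 0
    rw [one_mul, FF_transpose hanti hE]
    cases n with
    | zero =>
      simp only [Finset.Nat.antidiagonal_zero, Finset.sum_singleton]
      show - br m ((E * τᵀ) ^ 0 * E) + br m ((E * τ) ^ 0 * E) * (1 : Matrix _ _ C)ᵀ = 0
      rw [Matrix.transpose_one, mul_one, pow_zero, pow_zero, neg_add_cancel]
    | succ n =>
      rw [Finset.Nat.sum_antidiagonal_succ']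
      have h1 : ∑ p ∈ antidiagonal n, FF m E τ (p.1 + 1) * (FF m E τ (p.2 + 1))ᵀ =
          - br m (((E * τ) ^ (n + 1) - (E * τᵀ) ^ (n + 1)) * E) := by
        rw [← calcD_tele, Finset.sum_mul, calcD_br_sum, ← Finset.sum_neg_distrib]
        refine Finset.sum_congr rfl fun p _ => ?_
        rw [FF_transpose hanti hE, mul_neg]
        show - (br m ((E * τ) ^ p.1 * E) * br m ((E * τᵀ) ^ p.2 * E)) = _
        rw [br_mul hcyc, ← hES]
        simp only [mul_assoc]
      rw [h1]
      show - br m ((E * τᵀ) ^ (n + 1) * E) + (br m ((E * τ) ^ (n + 1) * E) *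
        (1 : Matrix _ _ C)ᵀ + _) = 0
      rw [Matrix.transpose_one, mul_one, sub_mul, br_sub]
      abel
  · rw [Finset.Nat.sum_antidiagonal_succ]
    show (1 : Matrix _ _ C)ᵀ * (FF m E τ (n + 1)) + _ = 0
    rw [Matrix.transpose_one, one_mul]
    cases n with
    | zero =>
      simp only [Finset.Nat.antidiagonal_zero, Finset.sum_singleton]
      rw [FF_transpose hanti hE]
      show br m ((E * τ) ^ 0 * E) + - br m ((E * τᵀ) ^ 0 * E) * (1 : Matrix _ _ C) = 0
      rw [mul_one, pow_zero, pow_zero, add_neg_cancel]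
    | succ n =>
      rw [Finset.Nat.sum_antidiagonal_succ']
      have h1 : ∑ p ∈ antidiagonal n, (FF m E τ (p.1 + 1))ᵀ * (FF m E τ (p.2 + 1)) =
          br m (((E * τᵀ) ^ (n + 1) - (E * τ) ^ (n + 1)) * E) := by
        rw [← calcD_tele, Finset.sum_mul, calcD_br_sum]
        refine Finset.sum_congr rfl fun p _ => ?_
        rw [FF_transpose hanti hE, neg_mul]
        show - (br m ((E * τᵀ) ^ p.1 * E) * br m ((E * τ) ^ p.2 * E)) = _
        rw [br_mul hcyc, ← br_neg]
        congr 1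
        rw [show E * τᵀ - E * τ = - (E * Sg m) by rw [hES, neg_sub]]
        simp only [mul_assoc, neg_mul, mul_neg]
      rw [h1, FF_transpose hanti hE]
      show br m ((E * τ) ^ (n + 1) * E) + (- br m ((E * τᵀ) ^ (n + 1) * E) *
        (1 : Matrix _ _ C) + _) = 0
      rw [mul_one, sub_mul, br_sub]
      abel

include hanti hcyc hE hE2 hτ in
/-- QB-16c. Proof.  `n = 0` is trivial (`D 1 = 0`).  For `n = k + 1` let `T = E τ`, `N = T^k E`,
`κ = - E Ξ / 2`, `Ξ = Xi m x`.  The hypothesis on `τ` says `D T = T κ - κ T`, hence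
`D (T^k) = T^k κ - κ T^k`.  By `map_br`:
`D F_{k+1} = x br(T N) + br(κ N + D N + N κᵀ) - br(N Tᵀ) x`.
`κ N + D N + N κᵀ = T^k (κ E + E κᵀ) = - T^k E Ξ E` (`Ξᵀ = Ξ`), so its `br` is `- F_{k+1} x F_1` by
`br_mul_mul`.  `N Tᵀ = T^k E τᵀ E = T^k (T - E Σ) E`, so `br(N Tᵀ) = F_{k+2} - F_{k+1} F_1` by `br_mul`. -/
theorem map_FF (D : C → C) (hadd : ∀ a b, D (a + b) = D a + D b)
    (hmul : ∀ a b, D (a * b) = D a * b + a * D b) (hsmul : ∀ (c : K) a, D (c • a) = c • D a)
    (x : Matrix n n C) (hx : xᵀ = -x)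
    (hDE : E.map D = 0)
    (hD : ∀ i p j q, D (m (i, p) (j, q)) =
      ∑ k, ∑ r, x i k * (E * τ) r p * m (k, r) (j, q) +
        ∑ r, ((-(2⁻¹ : K)) • (E * Xi m x)) r p * m (i, r) (j, q) +
      (∑ k, ∑ r, x j k * (E * τ) r q * m (i, p) (k, r) +
        ∑ r, ((-(2⁻¹ : K)) • (E * Xi m x)) r q * m (i, p) (j, r)))
    (hDτ : τ.map D = (2⁻¹ : K) • (Xi m x * E * τ - τ * E * Xi m x)) (k : ℕ) :
    (FF m E τ k).map D = x * FF m E τ (k + 1) - FF m E τ (k + 1) * x -
      FF m E τ k * (x * FF m E τ 1 - FF m E τ 1 * x) := by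
  cases k with
  | zero =>
    show (1 : Matrix _ _ C).map D = x * FF m E τ 1 - FF m E τ 1 * x -
      1 * (x * FF m E τ 1 - FF m E τ 1 * x)
    rw [calcD_map_one D hadd hmul, one_mul, sub_self]
  | succ k =>
    have hΞ : (Xi m x)ᵀ = Xi m x := Xi_transpose hanti hx
    have hT : (E * τ).map D = (E * τ) * ((-(2⁻¹ : K)) • (E * Xi m x)) -
        ((-(2⁻¹ : K)) • (E * Xi m x)) * (E * τ) := by
      rw [calcD_map_mul D hadd hmul, hDE, zero_mul, zero_add, hDτ]
      simp only [mul_smul_comm, smul_mul_assoc, mul_sub, neg_smul, mul_neg, neg_mul, smul_sub,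
        mul_assoc]
      abel
    have hpow : ∀ j : ℕ, ((E * τ) ^ j).map D = (E * τ) ^ j * ((-(2⁻¹ : K)) • (E * Xi m x)) -
        ((-(2⁻¹ : K)) • (E * Xi m x)) * (E * τ) ^ j := by
      intro j
      induction j with
      | zero => rw [pow_zero, calcD_map_one D hadd hmul, one_mul, mul_one, sub_self]
      | succ j ih =>
        rw [pow_succ, calcD_map_mul D hadd hmul, ih, hT]
        generalize (-(2⁻¹ : K)) • (E * Xi m x) = κ
        noncomm_ring
    have hN : ((E * τ) ^ k * E).map D =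
        ((E * τ) ^ k * ((-(2⁻¹ : K)) • (E * Xi m x)) -
        ((-(2⁻¹ : K)) • (E * Xi m x)) * (E * τ) ^ k) * E := by
      rw [calcD_map_mul D hadd hmul, hDE, mul_zero, add_zero, hpow]
    have key := map_br (m := m) D hadd hmul x hx (E * τ) ((-(2⁻¹ : K)) • (E * Xi m x)) hD
      ((E * τ) ^ k * E)
    have hF1 : FF m E τ 1 = br m E := by
      show br m ((E * τ) ^ 0 * E) = _
      rw [pow_zero, one_mul]
    have hA : (E * τ) * ((E * τ) ^ k * E) = (E * τ) ^ (k + 1) * E := by
      rw [← mul_assoc, ← pow_succ']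
    have hB : br m (((-(2⁻¹ : K)) • (E * Xi m x)) * ((E * τ) ^ k * E)) +
        br m (((E * τ) ^ k * E).map D) +
        br m (((E * τ) ^ k * E) * ((-(2⁻¹ : K)) • (E * Xi m x))ᵀ) =
        - (br m ((E * τ) ^ k * E) * x * br m E) := by
      rw [br_mul_mul hcyc, hN, ← br_add, ← br_add, ← br_neg]
      congr 1
      rw [Matrix.transpose_smul, Matrix.transpose_mul, hE, hΞ]
      have h2 : (E * τ) ^ k * E * ((-(2⁻¹ : K)) • (Xi m x * E)) =
          (-(2⁻¹ : K)) • ((E * τ) ^ k * E * Xi m x * E) := by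
        rw [mul_smul_comm]; simp only [mul_assoc]
      have h3 : (E * τ) ^ k * ((-(2⁻¹ : K)) • (E * Xi m x)) * E =
          (-(2⁻¹ : K)) • ((E * τ) ^ k * E * Xi m x * E) := by
        rw [mul_smul_comm, smul_mul_assoc]; simp only [mul_assoc]
      have h4 : (-(2⁻¹ : K)) • ((E * τ) ^ k * E * Xi m x * E) +
          (-(2⁻¹ : K)) • ((E * τ) ^ k * E * Xi m x * E) = - ((E * τ) ^ k * E * Xi m x * E) := by
        rw [← add_smul, show (-(2⁻¹ : K)) + (-(2⁻¹ : K)) = -1 by norm_num, neg_smul, one_smul]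
      rw [sub_mul, h2, h3, ← h4]
      simp only [mul_assoc]
      abel
    have hC : br m (((E * τ) ^ k * E) * (E * τ)ᵀ) = br m ((E * τ) ^ (k + 1) * E) -
        br m ((E * τ) ^ k * E) * br m E := by
      rw [br_mul hcyc, ← br_sub]
      congr 1
      rw [Matrix.transpose_mul, hE, show τᵀ = τ - Sg m by rw [← hτ, sub_sub_cancel], pow_succ]
      noncomm_ring
    show (br m ((E * τ) ^ k * E)).map D = x * br m ((E * τ) ^ (k + 1) * E) -
      br m ((E * τ) ^ (k + 1) * E) * x -
      br m ((E * τ) ^ k * E) * (x * FF m E τ 1 - FF m E τ 1 * x)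
    rw [key, hA, hC, hF1]
    have h5 : ∀ a b c d e f : Matrix n n C, b + c + e = f → a + b + c - d + e = a + f - d := by
      intro a b c d e f h
      rw [← h]; abel
    rw [h5 _ _ _ _ _ _ hB]
    noncomm_ring

/-- QB-16d. -/
theorem map_FF_zero (D : C → C) (hadd : ∀ a b, D (a + b) = D a + D b)
    (hmul : ∀ a b, D (a * b) = D a * b + a * D b)
    (x : Matrix n n C) (hx : xᵀ = -x)
    (hDE : E.map D = 0) (hDτ : τ.map D = 0)
    (hD : ∀ i p j q, D (m (i, p) (j, q)) =
      ∑ k, x i k * m (k, p) (j, q) + ∑ k, x j k * m (i, p) (k, q)) (k : ℕ) :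
    (FF m E τ k).map D = x * FF m E τ k - FF m E τ k * x := by
  cases k with
  | zero =>
    show (1 : Matrix _ _ C).map D = x * 1 - 1 * x
    rw [calcD_map_one D hadd hmul, one_mul, mul_one, sub_self]
  | succ k =>
    have hT : (E * τ).map D = 0 := by
      rw [calcD_map_mul D hadd hmul, hDE, hDτ, zero_mul, mul_zero, add_zero]
    have hpow : ∀ j : ℕ, ((E * τ) ^ j).map D = 0 := by
      intro j
      induction j with
      | zero => rw [pow_zero, calcD_map_one D hadd hmul]
      | succ j ih => rw [pow_succ, calcD_map_mul D hadd hmul, ih, hT, zero_mul, mul_zero, add_zero]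
    have hN : ((E * τ) ^ k * E).map D = 0 := by
      rw [calcD_map_mul D hadd hmul, hDE, hpow, zero_mul, mul_zero, add_zero]
    have key := map_br (m := m) D hadd hmul x hx 1 0 (by
      intro i p j q
      rw [hD]
      simp [Matrix.one_apply]) ((E * τ) ^ k * E)
    show (br m ((E * τ) ^ k * E)).map D = x * br m ((E * τ) ^ k * E) -
      br m ((E * τ) ^ k * E) * x
    rw [key, hN, one_mul, Matrix.transpose_one, mul_one, zero_mul, Matrix.transpose_zero, mul_zero]
    have h0 : br m (0 : Matrix J J C) = 0 := by ext i j; simp [br]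
    rw [h0]
    abel

end Pool.Agent.helper74.QB
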