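import Pool.Agent.helper74.QB.PsiT
import Pool.Agent.helper74.QB.Skew
import Pool.Agent.helper74.QB.DressSo

/-!
# QB-29. Degree bound

`Φ : TP → B[X]` sends the letters `XT i (Y0 (single a b 1))` to constants if `par a = par b` and to
multiples of `X` otherwise.  If the corresponding entries of the matrices `H i` lie in an ideal `𝔮` with
`𝔮^(Q+1) = 0`, the polynomial `lam (Φ (PsiT (pr H) k))` has degree at most `min k Q`.
-/

set_option autoImplicit false

namespace Pool.Agent.helper74.QB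

open Finset Matrix LieAlgebra.Orthogonal TensorProduct

variable {K : Type*} [Field K] [CharZero K]
variable {C : Type*} [CommRing C] [Algebra K C]

/-- the `j`-th coefficient on `C ⊗ B[X]` -/
noncomputable def cf1 {B : Type*} [Ring B] [Algebra K B] (j : ℕ) :
    C ⊗[K] Polynomial B →ₗ[C] C ⊗[K] B :=
  (((Polynomial.lcoeff B j).restrictScalars K : Polynomial B →ₗ[K] B)).baseChange C

theorem cf1_tmul {B : Type*} [Ring B] [Algebra K B] (j : ℕ) (c : C) (q : Polynomial B) :
    cf1 (K := K) j (c ⊗ₜ[K] q) = c ⊗ₜ[K] q.coeff j := rfl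

/-- QB-29a. Proof: pure tensors, `Polynomial.coeff_mul`. -/
theorem cf1_mul {B : Type*} [Ring B] [Algebra K B] (j : ℕ) (w w' : C ⊗[K] Polynomial B) :
    cf1 (K := K) j (w * w') = ∑ p ∈ antidiagonal j, cf1 (K := K) p.1 w * cf1 (K := K) p.2 w' := by
  induction w using TensorProduct.induction_on with
  | zero => simp
  | add a b ha hb =>
    rw [add_mul, map_add, ha, hb, ← sum_add_distrib]
    refine sum_congr rfl fun p _ => ?_
    rw [map_add, add_mul]
  | tmul c q =>
    induction w' using TensorProduct.induction_on with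
    | zero => simp
    | add a b ha hb =>
      rw [mul_add, map_add, ha, hb, ← sum_add_distrib]
      refine sum_congr rfl fun p _ => ?_
      rw [map_add, mul_add]
    | tmul c' q' =>
      rw [Algebra.TensorProduct.tmul_mul_tmul, cf1_tmul, Polynomial.coeff_mul, tmul_sum]
      refine sum_congr rfl fun p _ => ?_
      rw [cf1_tmul, cf1_tmul, Algebra.TensorProduct.tmul_mul_tmul]

/-- QB-29b. -/
theorem lamB_cf1 {B : Type*} [Ring B] [Algebra K B] (lam : C →ₗ[K] K) (j : ℕ)
    (w : C ⊗[K] Polynomial B) :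
    lamB lam (cf1 (K := K) j w) = (lamB lam w).coeff j := by
  induction w using TensorProduct.induction_on with
  | zero => simp
  | add a b ha hb => rw [map_add, map_add, ha, hb, map_add, Polynomial.coeff_add]
  | tmul c q => rw [cf1_tmul, lamB_tmul, lamB_tmul, Polynomial.coeff_smul]

omit [CharZero K] [Algebra K C] in
theorem Deg_mul_mem {A : Type*} [Ring A] [Algebra C A] (I J : Ideal C) {u v : A}
    (hu : u ∈ I • (⊤ : Submodule C A)) (hv : v ∈ J • (⊤ : Submodule C A)) :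
    u * v ∈ (I * J) • (⊤ : Submodule C A) := by
  refine Submodule.smul_induction_on hu (fun r hr m _ => ?_) (fun x y hx hy => ?_)
  · refine Submodule.smul_induction_on hv (fun s hs n _ => ?_) (fun x y hx hy => ?_)
    · rw [smul_mul_smul_comm]
      exact Submodule.smul_mem_smul (Ideal.mul_mem_mul hr hs) trivial
    · rw [mul_add]
      exact Submodule.add_mem _ hx hy
  · rw [add_mul]
    exact Submodule.add_mem _ hx hy

theorem Deg_smul {A B : Type*} [Ring A] [Algebra K A] [Ring B] [Algebra K B]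
    (Φ : A →ₐ[K] Polynomial B) (c : K) (j : ℕ) (z : C ⊗[K] A) :
    cf1 (K := K) j (EvC (C := C) Φ (c • z)) = c • cf1 (K := K) j (EvC (C := C) Φ z) := by
  rw [← algebraMap_smul C c z, map_smul, map_smul, algebraMap_smul]

/-- QB-29c. Proof: strong induction on `k` (for all `j`):
`(k+1) cf1 j (Φ̂ Ψ_{k+1}) = ∑_{i+l=k} (cf1 0 (Φ̂ X_i(h_i)) * cf1 j (Φ̂ Ψ_l) + cf1 1 (Φ̂ X_i(h_i)) * cf1 (j-1) (Φ̂ Ψ_l))`
(`cf1_mul`), and `(𝔮 • ⊤) * (𝔮^a • ⊤) ⊆ 𝔮^(a+1) • ⊤`; `l ≤ k`. -/
theorem cf1_PsiT_mem {g : Type*} [LieRing g] [LieAlgebra K g] {B : Type*} [Ring B] [Algebra K B]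
    (Φ : TP K g →ₐ[K] Polynomial B) (h : ℕ → C ⊗[K] g) (𝔮 : Ideal C)
    (h1 : ∀ i, cf1 (K := K) 1 (EvC (C := C) Φ (XTC i (h i))) ∈ 𝔮 • (⊤ : Submodule C (C ⊗[K] B)))
    (h2 : ∀ i j, 2 ≤ j → cf1 (K := K) j (EvC (C := C) Φ (XTC i (h i))) = 0) (k j : ℕ) :
    cf1 (K := K) j (EvC (C := C) Φ (PsiT h k)) ∈ 𝔮 ^ j • (⊤ : Submodule C (C ⊗[K] B)) ∧
      (k < j → cf1 (K := K) j (EvC (C := C) Φ (PsiT h k)) = 0) := by
  have hX : ∀ i m, cf1 (K := K) m (EvC (C := C) Φ (XTC i (h i))) ∈
      𝔮 ^ m • (⊤ : Submodule C (C ⊗[K] B)) := by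
    intro i m
    rcases m with _ | _ | m
    · rw [pow_zero, Ideal.one_eq_top, Submodule.top_smul]
      exact Submodule.mem_top
    · rw [zero_add, pow_one]
      exact h1 i
    · rw [h2 i (m + 1 + 1) (by omega)]
      exact Submodule.zero_mem _
  induction k using Nat.strong_induction_on generalizing j with
  | _ k ih =>
    rcases k with _ | k
    · have h3 : cf1 (K := K) j (EvC (C := C) Φ (PsiT h 0)) =
          (1 : C) ⊗ₜ[K] (1 : Polynomial B).coeff j := by
        rw [PsiT_zero, map_one, Algebra.TensorProduct.one_def, cf1_tmul]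
      rw [h3]
      rcases j with _ | j
      · refine ⟨?_, fun hj => absurd hj (lt_irrefl _)⟩
        rw [pow_zero, Ideal.one_eq_top, Submodule.top_smul]
        exact Submodule.mem_top
      · have h4 : (1 : Polynomial B).coeff (j + 1) = 0 := by
          rw [Polynomial.coeff_one, if_neg (Nat.succ_ne_zero j)]
        rw [h4, tmul_zero]
        exact ⟨Submodule.zero_mem _, fun _ => rfl⟩
    · have hk : ((k : K) + 1) ≠ 0 := Nat.cast_add_one_ne_zero k
      have h3 : ((k : K) + 1) • cf1 (K := K) j (EvC (C := C) Φ (PsiT h (k + 1))) =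
          ∑ p ∈ antidiagonal k, ∑ q ∈ antidiagonal j,
            cf1 (K := K) q.1 (EvC (C := C) Φ (XTC p.1 (h p.1))) *
              cf1 (K := K) q.2 (EvC (C := C) Φ (PsiT h p.2)) := by
        rw [← Deg_smul, PsiT_succ, map_sum, map_sum]
        refine sum_congr rfl fun p _ => ?_
        rw [map_mul, cf1_mul]
      have h5 : cf1 (K := K) j (EvC (C := C) Φ (PsiT h (k + 1))) =
          ((k : K) + 1)⁻¹ • ∑ p ∈ antidiagonal k, ∑ q ∈ antidiagonal j,
            cf1 (K := K) q.1 (EvC (C := C) Φ (XTC p.1 (h p.1))) *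
              cf1 (K := K) q.2 (EvC (C := C) Φ (PsiT h p.2)) := by
        rw [← h3, smul_smul, inv_mul_cancel₀ hk, one_smul]
      rw [h5]
      constructor
      · refine Submodule.smul_of_tower_mem _ _ ?_
        refine Submodule.sum_mem _ fun p hp => Submodule.sum_mem _ fun q hq => ?_
        rw [HasAntidiagonal.mem_antidiagonal] at hp hq
        rw [← hq, pow_add]
        exact Deg_mul_mem _ _ (hX p.1 q.1) (ih p.2 (by omega) q.2).1
      · intro hj
        rw [sum_eq_zero fun p hp => ?_, smul_zero]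
        refine sum_eq_zero fun q hq => ?_
        rw [HasAntidiagonal.mem_antidiagonal] at hp hq
        by_cases hq2 : 2 ≤ q.1
        · rw [h2 p.1 q.1 hq2, zero_mul]
        · rw [(ih p.2 (by omega) q.2).2 (by omega), mul_zero]

variable {n : Type*} [Fintype n] [DecidableEq n]

/-- QB-29d. Proof: the hypotheses of `cf1_PsiT_mem` for `h i = pr (H i)`:
`EvC Φ (XTC i (pr (H i))) = ∑_{a b} H i a b ⊗ Φ (XT i (Y0 (single a b 1)))` (`EvC_XTC`, `pr_apply`).  For
`j > Q`, `𝔮^j = ⊥`. -/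
theorem coeff_lamB_eq_zero {B : Type*} [Ring B] [Algebra K B] (par : n → Bool)
    (Φ : TP K (so n K) →ₐ[K] Polynomial B)
    (hΦ0 : ∀ i a b, par a = par b → ∀ j, j ≠ 0 →
      (Φ (XT K (so n K) i (Y0 K n (single a b 1)))).coeff j = 0)
    (hΦ1 : ∀ i a b, par a ≠ par b → ∀ j, j ≠ 1 →
      (Φ (XT K (so n K) i (Y0 K n (single a b 1)))).coeff j = 0)
    (H : ℕ → Matrix n n C) (𝔮 : Ideal C) (hH : ∀ i a b, par a ≠ par b → H i a b ∈ 𝔮)
    (Q : ℕ) (hQ : 𝔮 ^ (Q + 1) = ⊥) (lam : C →ₗ[K] K) (k j : ℕ) (hj : min k Q < j) :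
    (lamB lam (EvC (C := C) Φ (PsiT (fun i => pr (H i)) k))).coeff j = 0 := by
  have hc : ∀ i m, cf1 (K := K) m (EvC (C := C) Φ (XTC i (pr (H i)))) =
      ∑ a, ∑ b, H i a b ⊗ₜ[K] (Φ (XT K (so n K) i (Y0 K n (single a b 1)))).coeff m := by
    intro i m
    rw [EvC_XTC, pr_apply]
    simp only [map_sum, LinearMap.baseChange_tmul, cf1_tmul]
    rfl
  have h1 : ∀ i, cf1 (K := K) 1 (EvC (C := C) Φ (XTC i (pr (H i)))) ∈
      𝔮 • (⊤ : Submodule C (C ⊗[K] B)) := by
    intro i
    rw [hc]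
    refine Submodule.sum_mem _ fun a _ => Submodule.sum_mem _ fun b _ => ?_
    by_cases hab : par a = par b
    · rw [hΦ0 i a b hab 1 one_ne_zero, tmul_zero]
      exact Submodule.zero_mem _
    · have h3 : H i a b ⊗ₜ[K] (Φ (XT K (so n K) i (Y0 K n (single a b 1)))).coeff 1 =
          H i a b • ((1 : C) ⊗ₜ[K] (Φ (XT K (so n K) i (Y0 K n (single a b 1)))).coeff 1) := by
        rw [smul_tmul', smul_eq_mul, mul_one]
      rw [h3]
      exact Submodule.smul_mem_smul (hH i a b hab) trivial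
  have h2 : ∀ i m, 2 ≤ m → cf1 (K := K) m (EvC (C := C) Φ (XTC i (pr (H i)))) = 0 := by
    intro i m hm
    rw [hc]
    refine sum_eq_zero fun a _ => sum_eq_zero fun b _ => ?_
    by_cases hab : par a = par b
    · rw [hΦ0 i a b hab m (by omega), tmul_zero]
    · rw [hΦ1 i a b hab m (by omega), tmul_zero]
  have h3 := cf1_PsiT_mem Φ (fun i => pr (H i)) 𝔮 h1 h2 k j
  rw [← lamB_cf1]
  rcases min_lt_iff.1 hj with hk | hQj
  · rw [h3.2 hk, map_zero]
  · have h4 : 𝔮 ^ j = ⊥ := by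
      rw [eq_bot_iff, ← hQ]
      exact Ideal.pow_le_pow_right hQj
    have h5 := h3.1
    rw [h4, Submodule.bot_smul, Submodule.mem_bot] at h5
    rw [h5, map_zero]

end Pool.Agent.helper74.QB
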