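import Pool.Agent.helper74.QB.CT

/-!
# QB-09. The transfer theorem

`h : ℕ → C ⊗ g`.  `Psi h n` is defined by `Psi h 0 = 1`,
`(n+1) Psi h (n+1) = ∑_{i+j=n} XC i (h i) * Psi h j`.  The operators `φ_0 x`, `φ_1 x` act on the
`Psi h n` as derivations of `C` (plus a multiplication operator).
-/

set_option autoImplicit false

namespace Pool.Agent.helper74.QB

open TensorProduct Finset

variable {K : Type*} [Field K] [CharZero K] {g : Type*} [LieRing g] [LieAlgebra K g]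
variable {C : Type*} [CommRing C] [Algebra K C]

/-- the homogeneous components of the dressing element -/
noncomputable def Psi (h : ℕ → C ⊗[K] g) : ℕ → C ⊗[K] UP K g
  | 0 => 1
  | n + 1 => ((n + 1 : K)⁻¹) • ∑ i : Fin (n + 1), XC (i : ℕ) (h i) * Psi h (n - i)

omit [CharZero K] in
theorem Psi_zero (h : ℕ → C ⊗[K] g) : Psi h 0 = 1 := by rw [Psi]

/-- QB-09a. Proof: unfold, `Fin.sum_univ_eq_sum_range`, `Finset.Nat.sum_antidiagonal_eq_sum_range_succ`. -/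
theorem Psi_succ (h : ℕ → C ⊗[K] g) (n : ℕ) :
    (n + 1 : K) • Psi h (n + 1) = ∑ p ∈ antidiagonal n, XC p.1 (h p.1) * Psi h p.2 := by
  have hn : (n + 1 : K) ≠ 0 := by exact_mod_cast Nat.succ_ne_zero n
  rw [Psi, smul_smul, mul_inv_cancel₀ hn, one_smul,
    Finset.Nat.sum_antidiagonal_eq_sum_range_succ (fun i j => XC i (h i) * Psi h j),
    ← Fin.sum_univ_eq_sum_range (fun i => XC i (h i) * Psi h (n - i))]

/-! ### power series with coefficients in `C ⊗ UP` -/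

/-- the series of the letters `XC i (y i)` -/
private noncomputable def Xs (y : ℕ → C ⊗[K] g) : PowerSeries (C ⊗[K] UP K g) :=
  PowerSeries.mk fun i => XC i (y i)

/-- the series of a sequence -/
private noncomputable def Ms (w : ℕ → C ⊗[K] UP K g) : PowerSeries (C ⊗[K] UP K g) :=
  PowerSeries.mk w

/-- the shift of a sequence -/
private noncomputable def sh (y : ℕ → C ⊗[K] g) : ℕ → C ⊗[K] g
  | 0 => 0
  | n + 1 => y n

/-- the convolution of the bracket -/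
private noncomputable def cv (y y' : ℕ → C ⊗[K] g) (n : ℕ) : C ⊗[K] g :=
  ∑ p ∈ antidiagonal n, ⁅y p.1, y' p.2⁆

omit [CharZero K] in
private theorem coeff_Xs (y : ℕ → C ⊗[K] g) (n : ℕ) :
    PowerSeries.coeff n (Xs y) = XC (K := K) n (y n) := by
  unfold Xs
  exact PowerSeries.coeff_mk n _

omit [CharZero K] in
private theorem coeff_Ms (w : ℕ → C ⊗[K] UP K g) (n : ℕ) :
    PowerSeries.coeff n (Ms w) = w n := by
  unfold Ms
  exact PowerSeries.coeff_mk n _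

omit [CharZero K] in
private theorem coeff_Xs_mul (y : ℕ → C ⊗[K] g) (w : ℕ → C ⊗[K] UP K g) (n : ℕ) :
    PowerSeries.coeff n (Xs y * Ms w) = ∑ p ∈ antidiagonal n, XC p.1 (y p.1) * w p.2 := by
  rw [PowerSeries.coeff_mul]
  exact sum_congr rfl fun p _ => by rw [coeff_Xs, coeff_Ms]

omit [CharZero K] in
private theorem Xs_mul (y y' : ℕ → C ⊗[K] g) :
    Xs y * Xs y' = Xs y' * Xs y + PowerSeries.mk (fun m => XC (m + 1) (cv y y' m)) := by
  ext n
  rw [map_add, PowerSeries.coeff_mul, PowerSeries.coeff_mul, PowerSeries.coeff_mk]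
  have h1 : ∑ p ∈ antidiagonal n, PowerSeries.coeff p.1 (Xs y') * PowerSeries.coeff p.2 (Xs y)
      = ∑ p ∈ antidiagonal n, XC p.2 (y' p.2) * XC p.1 (y p.1) := by
    rw [← Finset.Nat.sum_antidiagonal_swap]
    exact sum_congr rfl fun p _ => by rw [coeff_Xs, coeff_Xs]; rfl
  rw [h1]
  unfold cv
  rw [map_sum, ← sum_add_distrib]
  refine sum_congr rfl fun p hp => ?_
  rw [← mem_antidiagonal.mp hp, coeff_Xs, coeff_Xs]
  exact XC_mul p.1 p.2 (y p.1) (y' p.2)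

omit [CharZero K] in
private theorem X_mul_mk (c : ℕ → C ⊗[K] g) :
    PowerSeries.X * PowerSeries.mk (fun m => XC (m + 1) (c m)) = Xs (sh c) := by
  ext n
  cases n with
  | zero =>
    rw [PowerSeries.coeff_zero_X_mul]
    simp [Xs, sh]
  | succ n =>
    rw [PowerSeries.coeff_succ_X_mul]
    simp [Xs, sh]

private theorem Psi_num (h : ℕ → C ⊗[K] g) (n : ℕ) :
    (n : K) • Psi h n = PowerSeries.coeff n (PowerSeries.X * (Xs h * Ms (Psi h))) := by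
  cases n with
  | zero =>
    rw [PowerSeries.coeff_zero_X_mul]
    simp
  | succ n =>
    rw [PowerSeries.coeff_succ_X_mul, coeff_Xs_mul, ← Psi_succ]
    push_cast
    rfl

/-- the key reordering -/
private theorem num_Xs (h y : ℕ → C ⊗[K] g) (n : ℕ) (a : K) :
    ((n : K) + a) • PowerSeries.coeff n (Xs y * Ms (Psi h))
      = PowerSeries.coeff n (Xs (fun k => ((k : K) + a) • y k) * Ms (Psi h))
        + PowerSeries.coeff n (Xs h * (PowerSeries.X * (Xs y * Ms (Psi h))))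
        + PowerSeries.coeff n (Xs (sh (cv y h)) * Ms (Psi h)) := by
  have h1 : ((n : K) + a) • PowerSeries.coeff n (Xs y * Ms (Psi h))
      = PowerSeries.coeff n (Xs (fun k => ((k : K) + a) • y k) * Ms (Psi h))
        + PowerSeries.coeff n (Xs y * (PowerSeries.X * (Xs h * Ms (Psi h)))) := by
    rw [coeff_Xs_mul, coeff_Xs_mul, PowerSeries.coeff_mul, smul_sum, ← sum_add_distrib]
    refine sum_congr rfl fun p hp => ?_
    rw [← Psi_num, ← mem_antidiagonal.mp hp]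
    have h2 : XC p.1 (((p.1 : K) + a) • y p.1) = ((p.1 : K) + a) • XC (K := K) p.1 (y p.1) :=
      LinearMap.map_smul_of_tower _ _ _
    have h3 : PowerSeries.coeff p.1 (Xs y) = XC (K := K) p.1 (y p.1) := coeff_Xs y p.1
    rw [h2, h3, smul_mul_assoc, mul_smul_comm, ← add_smul]
    congr 1
    push_cast
    ring
  have h4 : Xs y * (PowerSeries.X * (Xs h * Ms (Psi h)))
      = Xs h * (PowerSeries.X * (Xs y * Ms (Psi h))) + Xs (sh (cv y h)) * Ms (Psi h) := by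
    have e1 : ∀ f u : PowerSeries (C ⊗[K] UP K g),
        f * (PowerSeries.X * u) = PowerSeries.X * (f * u) := by
      intro f u
      rw [← mul_assoc, ← PowerSeries.X_mul, mul_assoc]
    rw [e1, e1, ← mul_assoc (Xs y), Xs_mul, add_mul, mul_add, mul_assoc, ← X_mul_mk, mul_assoc]
  rw [h1, h4, map_add, add_assoc]

omit [CharZero K] in
private theorem phi0_coeff (κ : g →ₗ[K] g →ₗ[K] K) (hκ : IsInv κ) (y0 : C ⊗[K] g)
    (z : ℕ → C ⊗[K] g) (w : ℕ → C ⊗[K] UP K g) (n : ℕ) :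
    phiC κ hκ 0 y0 (PowerSeries.coeff n (Xs z * Ms w))
      = PowerSeries.coeff n (Xs z * Ms (fun j => phiC κ hκ 0 y0 (w j)))
        + PowerSeries.coeff n (Xs (fun i => ⁅y0, z i⁆) * Ms w) := by
  rw [coeff_Xs_mul, coeff_Xs_mul, coeff_Xs_mul, map_sum, ← sum_add_distrib]
  exact sum_congr rfl fun p _ => phiC_zero_mul κ hκ p.1 y0 (z p.1) (w p.2)

omit [CharZero K] in
private theorem DU_coeff (D : Derivation K C C) (z : ℕ → C ⊗[K] g) (w : ℕ → C ⊗[K] UP K g)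
    (n : ℕ) :
    DU D (PowerSeries.coeff n (Xs z * Ms w))
      = PowerSeries.coeff n (Xs (fun i => Dg D (z i)) * Ms w)
        + PowerSeries.coeff n (Xs z * Ms (fun j => DU D (w j))) := by
  rw [coeff_Xs_mul, coeff_Xs_mul, coeff_Xs_mul, map_sum, ← sum_add_distrib]
  exact sum_congr rfl fun p _ => DU_mul D p.1 (z p.1) (w p.2)

omit [CharZero K] in
private theorem coeff_Xs_add (y y' : ℕ → C ⊗[K] g) (w : ℕ → C ⊗[K] UP K g) (n : ℕ) :
    PowerSeries.coeff n (Xs (fun i => y i + y' i) * Ms w)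
      = PowerSeries.coeff n (Xs y * Ms w) + PowerSeries.coeff n (Xs y' * Ms w) := by
  rw [coeff_Xs_mul, coeff_Xs_mul, coeff_Xs_mul, ← sum_add_distrib]
  refine sum_congr rfl fun p _ => ?_
  rw [map_add, add_mul]

omit [CharZero K] in
private theorem coeff_Ms_add (y : ℕ → C ⊗[K] g) (w w' : ℕ → C ⊗[K] UP K g) (n : ℕ) :
    PowerSeries.coeff n (Xs y * Ms (fun j => w j + w' j))
      = PowerSeries.coeff n (Xs y * Ms w) + PowerSeries.coeff n (Xs y * Ms w') := by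
  rw [coeff_Xs_mul, coeff_Xs_mul, coeff_Xs_mul, ← sum_add_distrib]
  refine sum_congr rfl fun p _ => ?_
  rw [mul_add]

omit [CharZero K] in
private theorem coeff_Xs_zero {y : ℕ → C ⊗[K] g} (hy : ∀ i, y i = 0)
    (w : ℕ → C ⊗[K] UP K g) (n : ℕ) : PowerSeries.coeff n (Xs y * Ms w) = 0 := by
  rw [coeff_Xs_mul]
  refine sum_eq_zero fun p _ => ?_
  rw [hy, map_zero, zero_mul]

/-- QB-09b. the operator `φ_0 x`.  Proof: strong induction on `n`.  `n = 0`: `phiC_one`, `DU_one`.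
`n + 1`: `(n+1) φ_0 Ψ_{n+1} = ∑ φ_0 (XC i (h i) * Ψ_j) = ∑ (XC i (h i) * φ_0 Ψ_j + XC i ⁅1 ⊗ x, h i⁆ * Ψ_j)`
(`phiC_zero_mul`) `= ∑ (XC i (h i) * DU D Ψ_j + XC i (Dg D (h i)) * Ψ_j) = DU D (∑ XC i (h i) * Ψ_j)`
(`DU_mul`). -/
theorem phi_zero_Psi (κ : g →ₗ[K] g →ₗ[K] K) (hκ : IsInv κ) {h : ℕ → C ⊗[K] g}
    {D : Derivation K C C} {x : g} (hD : ∀ n, Dg D (h n) = ⁅(1 : C) ⊗ₜ[K] x, h n⁆) (n : ℕ) :
    phiC κ hκ 0 (1 ⊗ₜ[K] x) (Psi h n) = DU D (Psi h n) := by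
  induction n using Nat.strong_induction_on with
  | _ n ih =>
  cases n with
  | zero => rw [Psi_zero, phiC_one, DU_one]
  | succ n =>
    have hn : (n + 1 : K) ≠ 0 := by exact_mod_cast Nat.succ_ne_zero n
    have e1 : (n + 1 : K) • phiC κ hκ 0 (1 ⊗ₜ[K] x) (Psi h (n + 1))
        = (n + 1 : K) • DU D (Psi h (n + 1)) := by
      have h1 : (n + 1 : K) • phiC κ hκ 0 (1 ⊗ₜ[K] x) (Psi h (n + 1))
          = phiC κ hκ 0 (1 ⊗ₜ[K] x) ((n + 1 : K) • Psi h (n + 1)) :=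
        (LinearMap.map_smul_of_tower _ _ _).symm
      rw [h1, ← map_smul, Psi_succ, map_sum, map_sum]
      refine sum_congr rfl fun p hp => ?_
      have hp2 : p.2 < n + 1 := by
        have := mem_antidiagonal.mp hp
        omega
      rw [phiC_zero_mul, DU_mul, ih p.2 hp2, hD p.1, add_comm]
    have h2 := congrArg (fun z => (n + 1 : K)⁻¹ • z) e1
    simpa only [smul_smul, inv_mul_cancel₀ hn, one_smul] using h2

/-- the sum `∑_{i+j=n-1} XC i (xh (i+2)) * Psi h j` (empty for `n = 0`) -/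
noncomputable def Tl (h xh : ℕ → C ⊗[K] g) : ℕ → C ⊗[K] UP K g
  | 0 => 0
  | n + 1 => ∑ p ∈ antidiagonal n, XC p.1 (xh (p.1 + 2)) * Psi h p.2

/-- QB-09c. Let `K_n = DU D Ψ_n + φ_0(xh 1) Ψ_n + Tl n`.  Then `K_n = 0`.  Proof: strong induction on `n`.
`K_0 = 0` (`DU_one`, `phiC_one`).  We show `(n+1) K_{n+1} = ∑_{i+j=n} XC i (h i) * K_j`.  Write `Ψ_n`, `h_i`,
`x_i` for `Psi h n`, `h i`, `xh i`, `X_i(y)` for `XC i y`.
* `(n+1) DU D Ψ_{n+1} = ∑_{i+j=n} (X_i(D h_i) Ψ_j + X_i(h_i) DU D Ψ_j)`;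
* `(n+1) φ_0(x_1) Ψ_{n+1} = ∑_{i+j=n} (X_i(h_i) φ_0(x_1) Ψ_j + X_i(⁅x_1, h_i⁆) Ψ_j)`;
* `(n+1) Tl (n+1) = ∑_{k+l=n} (n+1) X_k(x_{k+2}) Ψ_l`, `n+1 = l + (k+1)`; for `l = j'+1`:
  `l X_k(x_{k+2}) Ψ_l = ∑_{i+j=l-1} X_k(x_{k+2}) X_i(h_i) Ψ_j
   = ∑ (X_i(h_i) X_k(x_{k+2}) Ψ_j + X_{k+i+1}(⁅x_{k+2}, h_i⁆) Ψ_j)` (`XC_mul`); the first parts give
  `∑_{i+j=n} X_i(h_i) Tl j`; and by `H1` with `n = k+1`:
  `(k+1) x_{k+2} = (k+2) x_{k+2} - x_{k+2} = ∑_{p+q=k+1} ⁅h_p, x_q⁆ - x_{k+2}`.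
The commutator terms: the coefficient of `X_k(..) Ψ_l`, `k + l = n`, is
`D h_k + ⁅x_1, h_k⁆ + ∑_{k'+i+1=k} ⁅x_{k'+2}, h_i⁆ + ∑_{p+q=k+1} ⁅h_p, x_q⁆ - x_{k+2}`
`= D h_k + ⁅h_{k+1}, x_0⁆ - x_{k+2} = D h_k - ⁅x_0, h_{k+1}⁆ - x_{k+2} = 0` by `H2`. -/
theorem K_eq_zero (κ : g →ₗ[K] g →ₗ[K] K) (hκ : IsInv κ) {h xh : ℕ → C ⊗[K] g}
    {D : Derivation K C C}
    (H1 : ∀ n : ℕ, (n + 1 : K) • xh (n + 1) = ∑ p ∈ antidiagonal n, ⁅h p.1, xh p.2⁆)
    (H2 : ∀ n : ℕ, Dg D (h n) = ⁅xh 0, h (n + 1)⁆ + xh (n + 2)) (n : ℕ) :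
    DU D (Psi h n) + phiC κ hκ 0 (xh 1) (Psi h n) + Tl h xh n = 0 := by
  induction n using Nat.strong_induction_on with
  | _ n ih =>
  cases n with
  | zero => rw [Psi_zero, phiC_one, DU_one, Tl, add_zero, add_zero]
  | succ n =>
    have hn : (n + 1 : K) ≠ 0 := by exact_mod_cast Nat.succ_ne_zero n
    have hb : (n + 1 : K) • phiC κ hκ 0 (xh 1) (Psi h (n + 1))
        = phiC κ hκ 0 (xh 1) ((n + 1 : K) • Psi h (n + 1)) :=
      (LinearMap.map_smul_of_tower _ _ _).symm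
    have hP : (n + 1 : K) • Psi h (n + 1) = PowerSeries.coeff n (Xs h * Ms (Psi h)) := by
      rw [coeff_Xs_mul, Psi_succ]
    have hT : Tl h xh (n + 1)
        = PowerSeries.coeff n (Xs (fun k => xh (k + 2)) * Ms (Psi h)) := by
      rw [coeff_Xs_mul]
      rfl
    have hTs : PowerSeries.X * (Xs (fun k => xh (k + 2)) * Ms (Psi h)) = Ms (Tl h xh) := by
      ext m
      cases m with
      | zero => rw [PowerSeries.coeff_zero_X_mul, coeff_Ms, Tl]
      | succ m => rw [PowerSeries.coeff_succ_X_mul, coeff_Xs_mul, coeff_Ms, Tl]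
    have e1 : (n + 1 : K) • (DU D (Psi h (n + 1)) + phiC κ hκ 0 (xh 1) (Psi h (n + 1))
        + Tl h xh (n + 1)) = 0 := by
      rw [smul_add, smul_add, ← map_smul, hb, hP, hT, num_Xs, hTs, phi0_coeff, DU_coeff]
      have hK : PowerSeries.coeff n (Xs h * Ms (fun j => DU D (Psi h j)))
          + PowerSeries.coeff n (Xs h * Ms (fun j => phiC κ hκ 0 (xh 1) (Psi h j)))
          + PowerSeries.coeff n (Xs h * Ms (Tl h xh)) = 0 := by
        rw [← coeff_Ms_add, ← coeff_Ms_add, coeff_Xs_mul]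
        refine sum_eq_zero fun p hp => ?_
        have hp2 : p.2 < n + 1 := by
          have := mem_antidiagonal.mp hp
          omega
        rw [ih p.2 hp2, mul_zero]
      have hR : PowerSeries.coeff n (Xs (fun i => Dg D (h i)) * Ms (Psi h))
          + PowerSeries.coeff n (Xs (fun i => ⁅xh 1, h i⁆) * Ms (Psi h))
          + PowerSeries.coeff n (Xs (fun k => ((k : K) + 1) • xh (k + 2)) * Ms (Psi h))
          + PowerSeries.coeff n (Xs (sh (cv (fun k => xh (k + 2)) h)) * Ms (Psi h)) = 0 := by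
        rw [← coeff_Xs_add, ← coeff_Xs_add, ← coeff_Xs_add]
        refine coeff_Xs_zero (fun k => ?_) _ _
        have h1 : ((k : K) + 1) • xh (k + 2)
            = ∑ p ∈ antidiagonal (k + 1), ⁅h p.1, xh p.2⁆ - xh (k + 2) := by
          rw [← H1 (k + 1)]
          push_cast
          rw [add_smul ((k : K) + 1) 1 (xh (k + 1 + 1)), one_smul, add_sub_cancel_right]
        rw [h1, H2 k]
        cases k with
        | zero =>
          rw [Finset.Nat.sum_antidiagonal_succ]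
          simp only [Finset.Nat.antidiagonal_zero, sum_singleton, sh]
          rw [← lie_skew (h 0) (xh 1), ← lie_skew (h (0 + 1)) (xh 0)]
          abel
        | succ k =>
          rw [Finset.Nat.sum_antidiagonal_succ', Finset.Nat.sum_antidiagonal_succ']
          simp only [sh]
          have h2 : cv (fun k => xh (k + 2)) h k
              = - ∑ p ∈ antidiagonal k, ⁅h p.1, xh (p.2 + 1 + 1)⁆ := by
            unfold cv
            rw [← Finset.Nat.sum_antidiagonal_swap, ← sum_neg_distrib]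
            refine sum_congr rfl fun p _ => ?_
            rw [lie_skew]
            rfl
          rw [h2, ← lie_skew (h (k + 1)) (xh (0 + 1)), ← lie_skew (h (k + 1 + 1)) (xh 0)]
          simp only [zero_add]
          abel
      have hfin : ∀ a b c d e f u : C ⊗[K] UP K g, b + c + e = 0 → a + d + f + u = 0 →
          a + b + (c + d) + (f + e + u) = 0 := by
        intro a b c d e f u h1 h2
        have : a + b + (c + d) + (f + e + u) = (b + c + e) + (a + d + f + u) := by abel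
        rw [this, h1, h2, add_zero]
      exact hfin _ _ _ _ _ _ _ hK hR
    have h2 := congrArg (fun z => (n + 1 : K)⁻¹ • z) e1
    simpa only [smul_smul, inv_mul_cancel₀ hn, one_smul, smul_zero] using h2

/-- QB-09d. Let `J_n = φ_1(x) Ψ_{n+1} + φ_0(xh 1) Ψ_n + Tl n`.  Then `J_n = c Ψ_n`, `c = κ(x, h_0)`.
Proof: strong induction on `n`; we show
`(n+1) J_n = ∑_{i+j=n-1} X_i(h_i) J_j + c Ψ_n` (empty sum for `n = 0`), which by the induction hypothesis is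
`n c Ψ_n + c Ψ_n`.
* `(n+1) φ_1(x) Ψ_{n+1} = ∑_{i+j=n} φ_1(x) X_i(h_i) Ψ_j`; the term `i = 0` gives
  `X_0(h_0) φ_1(x) Ψ_n + φ_0(⁅x, h_0⁆) Ψ_n + c Ψ_n`, the terms `i = i'+1` give
  `X_i(h_i) φ_1(x) Ψ_j + X_{i'}(⁅x, h_{i'+1}⁆) Ψ_j`; note that `φ_1(x) Ψ_0 = 0`, so that
  `∑_{i+j=n} X_i(h_i) φ_1(x) Ψ_j = ∑_{i+j=n-1} X_i(h_i) φ_1(x) Ψ_{j+1}`;
* `(n+1) φ_0(x_1) Ψ_n = ∑_{i+j=n-1} (X_i(h_i) φ_0(x_1) Ψ_j + X_i(⁅x_1, h_i⁆) Ψ_j) + φ_0(x_1) Ψ_n`;
* `(n+1) Tl n`: `n + 1 = l + (k+2)` for `k + l = n - 1`; as in `K_eq_zero`, the part with `l` gives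
  `∑_{i+j=n-1} X_i(h_i) Tl j` and `X_{k+i+1}(⁅x_{k+2}, h_i⁆) Ψ_j`; by `H1`,
  `(k+2) x_{k+2} = ∑_{p+q=k+1} ⁅h_p, x_q⁆`.
`φ_0`-terms: `⁅x_0, h_0⁆ + x_1 = 0` (`H1` with `n = 0`).  The coefficient of `X_k(..) Ψ_l`, `k+l = n-1`:
`⁅x_0, h_{k+1}⁆ + ⁅x_1, h_k⁆ + ∑_{k'+i+1=k} ⁅x_{k'+2}, h_i⁆ + ∑_{p+q=k+1} ⁅h_p, x_q⁆ = 0`. -/
theorem J_eq (κ : g →ₗ[K] g →ₗ[K] K) (hκ : IsInv κ) {h xh : ℕ → C ⊗[K] g} {x : g}
    (H0 : xh 0 = 1 ⊗ₜ[K] x)
    (H1 : ∀ n : ℕ, (n + 1 : K) • xh (n + 1) = ∑ p ∈ antidiagonal n, ⁅h p.1, xh p.2⁆) (n : ℕ) :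
    phiC κ hκ 1 (1 ⊗ₜ[K] x) (Psi h (n + 1)) + phiC κ hκ 0 (xh 1) (Psi h n) + Tl h xh n =
      kap κ x (h 0) • Psi h n := by
  have hT : ∀ n, Tl h xh (n + 1)
      = PowerSeries.coeff n (Xs (fun k => xh (k + 2)) * Ms (Psi h)) := by
    intro n
    rw [coeff_Xs_mul, Tl]
  have hTs : PowerSeries.X * (Xs (fun k => xh (k + 2)) * Ms (Psi h)) = Ms (Tl h xh) := by
    ext m
    cases m with
    | zero => rw [PowerSeries.coeff_zero_X_mul, coeff_Ms, Tl]
    | succ m => rw [PowerSeries.coeff_succ_X_mul, coeff_Xs_mul, coeff_Ms, Tl]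
  have hx1 : xh 1 = ⁅h 0, (1 : C) ⊗ₜ[K] x⁆ := by
    have h1 := H1 0
    rw [Nat.cast_zero, zero_add, one_smul, Finset.Nat.antidiagonal_zero, sum_singleton, H0] at h1
    exact h1
  -- the action of `φ_1 x` on `(n + 1) Ψ_{n + 1}`
  have hphi1 : ∀ n : ℕ, (n + 1 : K) • phiC κ hκ 1 (1 ⊗ₜ[K] x) (Psi h (n + 1))
      = ∑ p ∈ antidiagonal n, phiC κ hκ 1 (1 ⊗ₜ[K] x) (XC p.1 (h p.1) * Psi h p.2) := by
    intro n
    have h1 : (n + 1 : K) • phiC κ hκ 1 (1 ⊗ₜ[K] x) (Psi h (n + 1))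
        = phiC κ hκ 1 (1 ⊗ₜ[K] x) ((n + 1 : K) • Psi h (n + 1)) :=
      (LinearMap.map_smul_of_tower _ _ _).symm
    rw [h1, Psi_succ, map_sum]
  have hphi0 : ∀ n : ℕ, (n : K) • phiC κ hκ 0 (xh 1) (Psi h n)
      = phiC κ hκ 0 (xh 1) ((n : K) • Psi h n) := fun n =>
    (LinearMap.map_smul_of_tower _ _ _).symm
  have hcan : ∀ w : C ⊗[K] UP K g, phiC κ hκ 0 (xh 1) w
      + phiC κ hκ 0 ⁅(1 : C) ⊗ₜ[K] x, h 0⁆ w = 0 := by
    intro w
    rw [hx1, ← lie_skew (h 0), map_neg, LinearMap.neg_apply]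
    abel
  induction n using Nat.strong_induction_on with
  | _ n ih =>
  cases n with
  | zero =>
    have h1 := hphi1 0
    rw [Nat.cast_zero, zero_add, one_smul, Finset.Nat.antidiagonal_zero, sum_singleton,
      phiC_one_mul_zero, Psi_zero, phiC_one, mul_zero, phiC_one, zero_add, zero_add] at h1
    rw [zero_add, h1, Psi_zero, phiC_one, Tl, add_zero, add_zero]
    exact zero_add _
  | succ n =>
    have hn : (((n + 1 : ℕ) : K) + 1) ≠ 0 := by exact_mod_cast Nat.succ_ne_zero (n + 1)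
    -- the three parts
    have ha : (((n + 1 : ℕ) : K) + 1) • phiC κ hκ 1 (1 ⊗ₜ[K] x) (Psi h (n + 1 + 1))
        = PowerSeries.coeff n (Xs h * Ms (fun j => phiC κ hκ 1 (1 ⊗ₜ[K] x) (Psi h (j + 1))))
          + PowerSeries.coeff n (Xs (fun i => ⁅(1 : C) ⊗ₜ[K] x, h (i + 1)⁆) * Ms (Psi h))
          + phiC κ hκ 0 ⁅(1 : C) ⊗ₜ[K] x, h 0⁆ (Psi h (n + 1))
          + kap κ x (h 0) • Psi h (n + 1) := by
      rw [hphi1 (n + 1), Finset.Nat.sum_antidiagonal_succ, phiC_one_mul_zero]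
      have h1 : ∑ p ∈ antidiagonal n,
          phiC κ hκ 1 (1 ⊗ₜ[K] x) (XC (p.1 + 1) (h (p.1 + 1)) * Psi h p.2)
          = ∑ p ∈ antidiagonal n, XC (p.1 + 1) (h (p.1 + 1)) *
              phiC κ hκ 1 (1 ⊗ₜ[K] x) (Psi h p.2)
            + PowerSeries.coeff n (Xs (fun i => ⁅(1 : C) ⊗ₜ[K] x, h (i + 1)⁆) * Ms (Psi h)) := by
        rw [coeff_Xs_mul, ← sum_add_distrib]
        exact sum_congr rfl fun p _ => phiC_one_mul_succ κ hκ p.1 x (h (p.1 + 1)) (Psi h p.2)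
      have h2 : XC 0 (h 0) * phiC κ hκ 1 (1 ⊗ₜ[K] x) (Psi h (n + 1))
          + ∑ p ∈ antidiagonal n, XC (p.1 + 1) (h (p.1 + 1)) *
              phiC κ hκ 1 (1 ⊗ₜ[K] x) (Psi h p.2)
          = PowerSeries.coeff n (Xs h * Ms (fun j => phiC κ hκ 1 (1 ⊗ₜ[K] x) (Psi h (j + 1)))) := by
        have h3 := Finset.Nat.sum_antidiagonal_succ (n := n)
          (f := fun p : ℕ × ℕ => XC p.1 (h p.1) * phiC κ hκ 1 (1 ⊗ₜ[K] x) (Psi h p.2))
        have h4 := Finset.Nat.sum_antidiagonal_succ' (n := n)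
          (f := fun p : ℕ × ℕ => XC p.1 (h p.1) * phiC κ hκ 1 (1 ⊗ₜ[K] x) (Psi h p.2))
        rw [coeff_Xs_mul, ← h3, h4]
        simp only
        rw [Psi_zero, phiC_one, mul_zero, zero_add]
      rw [h1, ← h2]
      abel
    have hb : (((n + 1 : ℕ) : K) + 1) • phiC κ hκ 0 (xh 1) (Psi h (n + 1))
        = PowerSeries.coeff n (Xs h * Ms (fun j => phiC κ hκ 0 (xh 1) (Psi h j)))
          + PowerSeries.coeff n (Xs (fun i => ⁅xh 1, h i⁆) * Ms (Psi h))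
          + phiC κ hκ 0 (xh 1) (Psi h (n + 1)) := by
      rw [add_smul, one_smul, hphi0, Psi_num, PowerSeries.coeff_succ_X_mul, phi0_coeff]
    have hc : (((n + 1 : ℕ) : K) + 1) • Tl h xh (n + 1)
        = PowerSeries.coeff n (Xs (fun k => ((k : K) + 2) • xh (k + 2)) * Ms (Psi h))
          + PowerSeries.coeff n (Xs h * Ms (Tl h xh))
          + PowerSeries.coeff n (Xs (sh (cv (fun k => xh (k + 2)) h)) * Ms (Psi h)) := by
      rw [hT, ← hTs, ← num_Xs]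
      congr 1
      push_cast
      ring
    have hJ : PowerSeries.coeff n (Xs h * Ms (fun j => phiC κ hκ 1 (1 ⊗ₜ[K] x) (Psi h (j + 1))))
        + PowerSeries.coeff n (Xs h * Ms (fun j => phiC κ hκ 0 (xh 1) (Psi h j)))
        + PowerSeries.coeff n (Xs h * Ms (Tl h xh))
        = ((n : K) + 1) • (kap κ x (h 0) • Psi h (n + 1)) := by
      rw [← coeff_Ms_add, ← coeff_Ms_add, coeff_Xs_mul]
      have h1 : ((n : K) + 1) • (kap κ x (h 0) • Psi h (n + 1))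
          = kap κ x (h 0) • (((n : K) + 1) • Psi h (n + 1)) := smul_comm _ _ _
      rw [h1, Psi_succ, smul_sum]
      refine sum_congr rfl fun p hp => ?_
      have hp2 : p.2 < n + 1 := by
        have := mem_antidiagonal.mp hp
        omega
      rw [ih p.2 hp2, mul_smul_comm]
    have hR : PowerSeries.coeff n (Xs (fun i => ⁅(1 : C) ⊗ₜ[K] x, h (i + 1)⁆) * Ms (Psi h))
        + PowerSeries.coeff n (Xs (fun i => ⁅xh 1, h i⁆) * Ms (Psi h))
        + PowerSeries.coeff n (Xs (fun k => ((k : K) + 2) • xh (k + 2)) * Ms (Psi h))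
        + PowerSeries.coeff n (Xs (sh (cv (fun k => xh (k + 2)) h)) * Ms (Psi h)) = 0 := by
      rw [← coeff_Xs_add, ← coeff_Xs_add, ← coeff_Xs_add]
      refine coeff_Xs_zero (fun k => ?_) _ _
      have h1 : ((k : K) + 2) • xh (k + 2)
          = ∑ p ∈ antidiagonal (k + 1), ⁅h p.1, xh p.2⁆ := by
        rw [← H1 (k + 1)]
        congr 1
        push_cast
        ring
      rw [h1, ← H0]
      cases k with
      | zero =>
        rw [Finset.Nat.sum_antidiagonal_succ]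
        simp only [Finset.Nat.antidiagonal_zero, sum_singleton, sh]
        rw [← lie_skew (h 0) (xh 1), ← lie_skew (h (0 + 1)) (xh 0)]
        simp only [zero_add]
        abel
      | succ k =>
        rw [Finset.Nat.sum_antidiagonal_succ', Finset.Nat.sum_antidiagonal_succ']
        simp only [sh]
        have h2 : cv (fun k => xh (k + 2)) h k
            = - ∑ p ∈ antidiagonal k, ⁅h p.1, xh (p.2 + 1 + 1)⁆ := by
          unfold cv
          rw [← Finset.Nat.sum_antidiagonal_swap, ← sum_neg_distrib]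
          refine sum_congr rfl fun p _ => ?_
          rw [lie_skew]
          rfl
        rw [h2, ← lie_skew (h (k + 1)) (xh (0 + 1)), ← lie_skew (h (k + 1 + 1)) (xh 0)]
        simp only [zero_add]
        abel
    have e1 : (((n + 1 : ℕ) : K) + 1) • (phiC κ hκ 1 (1 ⊗ₜ[K] x) (Psi h (n + 1 + 1))
        + phiC κ hκ 0 (xh 1) (Psi h (n + 1)) + Tl h xh (n + 1))
        = (((n + 1 : ℕ) : K) + 1) • (kap κ x (h 0) • Psi h (n + 1)) := by
      rw [smul_add, smul_add, ha, hb, hc]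
      have h5 : (((n + 1 : ℕ) : K) + 1) • (kap κ x (h 0) • Psi h (n + 1))
          = ((n : K) + 1) • (kap κ x (h 0) • Psi h (n + 1)) + kap κ x (h 0) • Psi h (n + 1) := by
        rw [add_smul, one_smul]
        push_cast
        rfl
      rw [h5, ← hJ]
      have h6 := hcan (Psi h (n + 1))
      have hfin : ∀ a b c d e f g' u v w : C ⊗[K] UP K g, b + f + u + w = 0 → g' + c = 0 →
          a + b + c + d + (e + f + g') + (u + v + w) = a + e + v + d := by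
        intro a b c d e f g' u v w h1 h2
        have : a + b + c + d + (e + f + g') + (u + v + w)
            = (a + e + v + d) + (b + f + u + w) + (g' + c) := by abel
        rw [this, h1, h2, add_zero, add_zero]
      exact hfin _ _ _ _ _ _ _ _ _ _ hR h6
    have h2 := congrArg (fun z => (((n + 1 : ℕ) : K) + 1)⁻¹ • z) e1
    simpa only [smul_smul, inv_mul_cancel₀ hn, one_smul] using h2

/-- QB-09e. the operator `φ_1 x`: from `K_eq_zero` and `J_eq` -/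
theorem phi_one_Psi (κ : g →ₗ[K] g →ₗ[K] K) (hκ : IsInv κ) {h xh : ℕ → C ⊗[K] g} {x : g}
    {D : Derivation K C C} (H0 : xh 0 = 1 ⊗ₜ[K] x)
    (H1 : ∀ n : ℕ, (n + 1 : K) • xh (n + 1) = ∑ p ∈ antidiagonal n, ⁅h p.1, xh p.2⁆)
    (H2 : ∀ n : ℕ, Dg D (h n) = ⁅(1 : C) ⊗ₜ[K] x, h (n + 1)⁆ + xh (n + 2)) (n : ℕ) :
    phiC κ hκ 1 (1 ⊗ₜ[K] x) (Psi h (n + 1)) = DU D (Psi h n) + kap κ x (h 0) • Psi h n := by
  have h2 : ∀ n : ℕ, Dg D (h n) = ⁅xh 0, h (n + 1)⁆ + xh (n + 2) := by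
    intro n
    rw [H0]
    exact H2 n
  have hK := K_eq_zero κ hκ (D := D) H1 h2 n
  have hJ := J_eq κ hκ H0 H1 n
  rw [← hJ]
  calc phiC κ hκ 1 (1 ⊗ₜ[K] x) (Psi h (n + 1))
      = phiC κ hκ 1 (1 ⊗ₜ[K] x) (Psi h (n + 1)) +
          (DU D (Psi h n) + phiC κ hκ 0 (xh 1) (Psi h n) + Tl h xh n) := by rw [hK, add_zero]
    _ = _ := by abel

/-- the dressing data: for every `x : g` the two derivations -/
structure Dress (κ : g →ₗ[K] g →ₗ[K] K) (h : ℕ → C ⊗[K] g) (lam : C →ₗ[K] K) : Prop where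
  zero : ∀ x : g, ∃ D : Derivation K C C, (∀ n, Dg D (h n) = ⁅(1 : C) ⊗ₜ[K] x, h n⁆) ∧
    ∀ f, lam (D f) = 0
  one : ∀ x : g, ∃ (D : Derivation K C C) (xh : ℕ → C ⊗[K] g), xh 0 = 1 ⊗ₜ[K] x ∧
    (∀ n : ℕ, (n + 1 : K) • xh (n + 1) = ∑ p ∈ antidiagonal n, ⁅h p.1, xh p.2⁆) ∧
    (∀ n : ℕ, Dg D (h n) = ⁅(1 : C) ⊗ₜ[K] x, h (n + 1)⁆ + xh (n + 2)) ∧
    ∀ f, lam (D f + kap κ x (h 0) * f) = 0

/-- QB-09f. `lam (Psi h k)` is a singular vector.  Proof: `isSS_of_zero_one`; `phi_zero_Psi`,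
`phi_one_Psi` (for `k = 0` use `phi_one`), `lamU_phiC`, `lamU_eq_zero`. -/
theorem Dress.isSS (κ : g →ₗ[K] g →ₗ[K] K) (hκ : IsInv κ) {h : ℕ → C ⊗[K] g}
    {lam : C →ₗ[K] K} (H : Dress κ h lam)
    (hperf : Submodule.span K {z : g | ∃ x y : g, ⁅x, y⁆ = z} = ⊤) (k : ℕ) :
    IsSS κ hκ (lamU lam (Psi h k)) := by
  refine isSS_of_zero_one κ hκ hperf ?_ ?_
  · intro x
    obtain ⟨D, hD, hl⟩ := H.zero x
    rw [← lamU_phiC, phi_zero_Psi κ hκ hD]
    have h1 := lamU_eq_zero lam D 0 (fun f => by rw [zero_mul, add_zero]; exact hl f) (Psi h k)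
    rwa [zero_smul, add_zero] at h1
  · intro x
    obtain ⟨D, xh, H0, H1, H2, hl⟩ := H.one x
    rw [← lamU_phiC]
    cases k with
    | zero => rw [Psi_zero, phiC_one, map_zero]
    | succ k =>
      rw [phi_one_Psi κ hκ H0 H1 H2 k]
      exact lamU_eq_zero lam D _ hl (Psi h k)

end Pool.Agent.helper74.QB
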