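import Pool.Agent.helper74.QB.GTpoly
import Pool.Agent.helper74.QB.Transfer

/-!
# QB-30. Dependence of the evaluation on `ξ`
-/

set_option autoImplicit false

namespace Pool.Agent.helper74.QB

open Polynomial TensorProduct

/-- the span of the products `X i₁ x₁ * ... * X i_r x_r` with `(i₁+1) + ... + (i_r+1) ≤ k` -/
noncomputable def UPle (K : Type*) [CommRing K] (g : Type*) [LieRing g] [LieAlgebra K g] (k : ℕ) :
    Submodule K (UP K g) :=
  Submodule.span K {w | ∃ l : List (ℕ × g), (l.map fun p => p.1 + 1).sum ≤ k ∧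
    w = (l.map fun p => X K g p.1 p.2).prod}

section

variable {K : Type*} [Field K] [CharZero K] {g : Type*} [LieRing g] [LieAlgebra K g]
variable {C : Type*} [CommRing C] [Algebra K C]

omit [CharZero K] in
theorem EvPoly_mono {k k' : ℕ} (h : k ≤ k') : UPle K g k ≤ UPle K g k' := by
  refine Submodule.span_mono ?_
  rintro w ⟨l, hl, rfl⟩
  exact ⟨l, hl.trans h, rfl⟩

omit [CharZero K] in
theorem EvPoly_one : (1 : UP K g) ∈ UPle K g 0 :=
  Submodule.subset_span ⟨[], by simp, by simp⟩

omit [CharZero K] in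
theorem EvPoly_X_mul (i : ℕ) (x : g) {k : ℕ} {w : UP K g} (hw : w ∈ UPle K g k) :
    X K g i x * w ∈ UPle K g (k + i + 1) := by
  induction hw using Submodule.span_induction with
  | mem w h =>
    obtain ⟨l, hl, rfl⟩ := h
    refine Submodule.subset_span ⟨(i, x) :: l, ?_, by simp⟩
    rw [List.map_cons, List.sum_cons]
    show i + 1 + _ ≤ _
    omega
  | zero => rw [mul_zero]; exact Submodule.zero_mem _
  | add u v _ _ hu hv => rw [mul_add]; exact Submodule.add_mem _ hu hv
  | smul c u _ hu => rw [mul_smul_comm]; exact Submodule.smul_mem _ c hu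

/-- the span of the pure tensors with second factor in `UPle k` -/
noncomputable def EvPoly_T (K : Type*) [Field K] (g : Type*) [LieRing g] [LieAlgebra K g]
    (C : Type*) [CommRing C] [Algebra K C] (k : ℕ) : Submodule K (C ⊗[K] UP K g) :=
  Submodule.span K {w | ∃ (c : C) (u : UP K g), u ∈ UPle K g k ∧ w = c ⊗ₜ[K] u}

omit [CharZero K] in
theorem EvPoly_XC_mul (i : ℕ) (y : C ⊗[K] g) {k : ℕ} {w : C ⊗[K] UP K g}
    (hw : w ∈ EvPoly_T K g C k) : XC i y * w ∈ EvPoly_T K g C (k + i + 1) := by
  induction y using TensorProduct.induction_on with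
  | zero => rw [map_zero, zero_mul]; exact Submodule.zero_mem _
  | add y z hy hz => rw [map_add, add_mul]; exact Submodule.add_mem _ hy hz
  | tmul c x =>
    induction hw using Submodule.span_induction with
    | mem w h =>
      obtain ⟨c', u, hu, rfl⟩ := h
      refine Submodule.subset_span ⟨c * c', X K g i x * u, EvPoly_X_mul i x hu, ?_⟩
      rw [XC_tmul, Algebra.TensorProduct.tmul_mul_tmul]
    | zero => rw [mul_zero]; exact Submodule.zero_mem _
    | add u v _ _ hu hv => rw [mul_add]; exact Submodule.add_mem _ hu hv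
    | smul c u _ hu => rw [mul_smul_comm]; exact Submodule.smul_mem _ c hu

omit [CharZero K] in
theorem EvPoly_Psi_mem (h : ℕ → C ⊗[K] g) (k : ℕ) : Psi h k ∈ EvPoly_T K g C k := by
  induction k using Nat.strong_induction_on with
  | _ k ih =>
    cases k with
    | zero =>
      rw [Psi_zero]
      exact Submodule.subset_span ⟨1, 1, EvPoly_one, rfl⟩
    | succ n =>
      rw [Psi]
      refine Submodule.smul_mem _ _ (Submodule.sum_mem _ fun i _ => ?_)
      have hi : (i : ℕ) ≤ n := Nat.le_of_lt_succ i.isLt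
      have h1 := EvPoly_XC_mul (i : ℕ) (h i) (ih (n - i) (by omega))
      have h2 : n - (i : ℕ) + i + 1 = n + 1 := by omega
      rwa [h2] at h1

/-- QB-30a. Proof: `X i x * UPle k ⊆ UPle (k + i + 1)`; by strong induction `Psi h k` lies in the span of the
pure tensors `c ⊗ u`, `u ∈ UPle k` (`Submodule.baseChange`). -/
theorem lamU_Psi_mem (h : ℕ → C ⊗[K] g) (lam : C →ₗ[K] K) (k : ℕ) :
    lamU lam (Psi h k) ∈ UPle K g k := by
  have h1 : ∀ w ∈ EvPoly_T K g C k, lamU lam w ∈ UPle K g k := by
    intro w hw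
    induction hw using Submodule.span_induction with
    | mem w h =>
      obtain ⟨c, u, hu, rfl⟩ := h
      rw [lamU_tmul]
      exact Submodule.smul_mem _ _ hu
    | zero => rw [map_zero]; exact Submodule.zero_mem _
    | add u v _ _ hu hv => rw [map_add]; exact Submodule.add_mem _ hu hv
    | smul c u _ hu => rw [map_smul]; exact Submodule.smul_mem _ c hu
  exact h1 _ (EvPoly_Psi_mem h k)

end

variable {K : Type*} [Field K] {g : Type*} [LieRing g] [LieAlgebra K g]
variable {B : Type*} [Ring B] [Algebra K B]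

theorem EvPoly_coeff {π : g →ₗ[K] B} (hπ : IsLieMap π) (ξ : g →ₗ[K] K) (i : ℕ) (x : g)
    (w : UP K g) (a : ℕ) : (Ev hπ ξ (X K g i x * w)).coeff a =
      (if i + 1 ≤ a then π x * (Ev hπ ξ w).coeff (a - (i + 1)) else 0) +
        (if i = 0 then ξ x • (Ev hπ ξ w).coeff a else 0) := by
  rw [map_mul, Ev_X, add_mul, coeff_add]
  congr 1
  · split_ifs with h
    · obtain ⟨b, rfl⟩ := Nat.exists_eq_add_of_le' h
      rw [coeff_monomial_mul, Nat.add_sub_cancel]
    · rw [← C_mul_X_pow_eq_monomial, mul_assoc, X_pow_mul, ← mul_assoc, coeff_mul_X_pow', if_neg h]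
  · split_ifs with h
    · rw [← Algebra.smul_def, coeff_smul]
    · simp

theorem EvPoly_word_zero {π : g →ₗ[K] B} (hπ : IsLieMap π) (ξ : g →ₗ[K] K) (l : List (ℕ × g)) :
    ∀ a, (l.map fun p => p.1 + 1).sum < a →
      (Ev hπ ξ (l.map fun p => X K g p.1 p.2).prod).coeff a = 0 := by
  induction l with
  | nil =>
    intro a ha
    rw [List.map_nil, List.prod_nil, map_one, coeff_one, if_neg (by simp at ha; omega)]
  | cons p l ih =>
    intro a ha
    rw [List.map_cons, List.sum_cons] at ha
    rw [List.map_cons, List.prod_cons, EvPoly_coeff]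
    have h1 : (l.map fun p => p.1 + 1).sum < a - (p.1 + 1) := by omega
    have h2 : (l.map fun p => p.1 + 1).sum < a := by omega
    rw [ih _ h1, ih _ h2]
    simp

/-- QB-30b. Proof: induction on the length of the word: `Ev (X i x * w)` is
`(monomial (i+1) (π x) + δ_{i0} ξ x) * Ev w`. -/
theorem Ev_coeff_zero {π : g →ₗ[K] B} (hπ : IsLieMap π) {k : ℕ} {S : UP K g}
    (hS : S ∈ UPle K g k) (ξ : g →ₗ[K] K) (a : ℕ) (ha : k < a) : (Ev hπ ξ S).coeff a = 0 := by
  induction hS using Submodule.span_induction with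
  | mem w h =>
    obtain ⟨l, hl, rfl⟩ := h
    exact EvPoly_word_zero hπ ξ l a (lt_of_le_of_lt hl ha)
  | zero => rw [map_zero, coeff_zero]
  | add u v _ _ hu hv => rw [map_add, coeff_add, hu, hv, add_zero]
  | smul c u _ hu => rw [map_smul, coeff_smul, hu, smul_zero]

/-- polynomial dependence of degree at most `m` -/
def EvPoly_Pol (K : Type*) [Field K] {B : Type*} [Ring B] [Algebra K B] (m : ℕ) (f : K → B) :
    Prop := ∃ w : ℕ → B, ∀ s : K, f s = ∑ j ∈ Finset.range (m + 1), s ^ j • w j

theorem EvPoly_Pol.congr' {m : ℕ} {f f' : K → B} (h : EvPoly_Pol K m f) (e : ∀ s, f' s = f s) :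
    EvPoly_Pol K m f' := by
  obtain ⟨w, hw⟩ := h
  exact ⟨w, fun s => by rw [e, hw]⟩

theorem EvPoly_Pol_const (m : ℕ) (b : B) : EvPoly_Pol K m (fun _ => b) := by
  refine ⟨fun j => if j = 0 then b else 0, fun s => ?_⟩
  rw [Finset.sum_range_succ']
  simp

theorem EvPoly_Pol.add {m : ℕ} {f f' : K → B} (h : EvPoly_Pol K m f) (h' : EvPoly_Pol K m f') :
    EvPoly_Pol K m (fun s => f s + f' s) := by
  obtain ⟨w, hw⟩ := h
  obtain ⟨w', hw'⟩ := h'
  refine ⟨fun j => w j + w' j, fun s => ?_⟩
  simp only [hw, hw', smul_add, Finset.sum_add_distrib]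

theorem EvPoly_Pol.mul_left {m : ℕ} {f : K → B} (h : EvPoly_Pol K m f) (b : B) :
    EvPoly_Pol K m (fun s => b * f s) := by
  obtain ⟨w, hw⟩ := h
  refine ⟨fun j => b * w j, fun s => ?_⟩
  simp only [hw, Finset.mul_sum, mul_smul_comm]

theorem EvPoly_Pol.smul {m : ℕ} {f : K → B} (h : EvPoly_Pol K m f) (c : K) :
    EvPoly_Pol K m (fun s => c • f s) := by
  obtain ⟨w, hw⟩ := h
  refine ⟨fun j => c • w j, fun s => ?_⟩
  simp only [hw, Finset.smul_sum]
  exact Finset.sum_congr rfl fun j _ => smul_comm _ _ _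

theorem EvPoly_Pol.mul_s {m : ℕ} {f : K → B} (h : EvPoly_Pol K m f) :
    EvPoly_Pol K (m + 1) (fun s => s • f s) := by
  obtain ⟨w, hw⟩ := h
  refine ⟨fun j => if j = 0 then 0 else w (j - 1), fun s => ?_⟩
  rw [Finset.sum_range_succ']
  simp only [if_true, smul_zero, add_zero, Nat.add_sub_cancel, Nat.add_one_ne_zero, if_false, hw,
    Finset.smul_sum]
  refine Finset.sum_congr rfl fun j _ => ?_
  rw [smul_smul, ← pow_succ']

theorem EvPoly_Pol.succ {m : ℕ} {f : K → B} (h : EvPoly_Pol K m f) :
    EvPoly_Pol K (m + 1) f := by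
  obtain ⟨w, hw⟩ := h
  refine ⟨fun j => if j < m + 1 then w j else 0, fun s => ?_⟩
  rw [Finset.sum_range_succ, hw]
  simp only [lt_irrefl, if_false, smul_zero, add_zero]
  exact Finset.sum_congr rfl fun j hj => by rw [if_pos (Finset.mem_range.1 hj)]

theorem EvPoly_word_poly {π : g →ₗ[K] B} (hπ : IsLieMap π) (ξ η : g →ₗ[K] K)
    (l : List (ℕ × g)) : ∀ a m, (l.map fun p => p.1 + 1).sum ≤ a + m →
      EvPoly_Pol K m (fun s =>
        (Ev hπ (ξ + s • η) (l.map fun p => X K g p.1 p.2).prod).coeff a) := by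
  induction l with
  | nil =>
    intro a m _
    simp only [List.map_nil, List.prod_nil, map_one]
    exact EvPoly_Pol_const m _
  | cons p l ih =>
    intro a m ha
    rw [List.map_cons, List.sum_cons] at ha
    have e : ∀ s : K, (Ev hπ (ξ + s • η) ((p :: l).map fun p => X K g p.1 p.2).prod).coeff a =
        (if p.1 + 1 ≤ a then π p.2 * (Ev hπ (ξ + s • η)
          (l.map fun p => X K g p.1 p.2).prod).coeff (a - (p.1 + 1)) else 0) +
        (if p.1 = 0 then (ξ + s • η) p.2 • (Ev hπ (ξ + s • η)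
          (l.map fun p => X K g p.1 p.2).prod).coeff a else 0) := by
      intro s
      rw [List.map_cons, List.prod_cons, EvPoly_coeff]
    refine EvPoly_Pol.congr' (EvPoly_Pol.add ?_ ?_) e
    · by_cases h : p.1 + 1 ≤ a
      · simp only [if_pos h]
        exact (ih (a - (p.1 + 1)) m (by omega)).mul_left _
      · simp only [if_neg h]
        exact EvPoly_Pol_const m 0
    · by_cases h : p.1 = 0
      · simp only [if_pos h]
        cases m with
        | zero =>
          have h0 : ∀ s : K, (Ev hπ (ξ + s • η)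
              (l.map fun p => X K g p.1 p.2).prod).coeff a = 0 := fun s =>
            EvPoly_word_zero hπ _ l a (by omega)
          exact (EvPoly_Pol_const 0 (0 : B)).congr' fun s => by rw [h0, smul_zero]
        | succ m =>
          have h1 := ih a m (by omega)
          refine ((h1.smul (ξ p.2)).succ.add (h1.smul (η p.2)).mul_s).congr' fun s => ?_
          rw [LinearMap.add_apply, LinearMap.smul_apply, smul_eq_mul, add_smul, mul_smul]
      · simp only [if_neg h]
        exact EvPoly_Pol_const m 0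

/-- QB-30c. Proof.  The set of `S` with this property is a subspace, so let `S` be a word `X i x * w` of
total weight at most `k`; induction on the length, for all `k a m`.  The coefficient of `X^a` is
`π x * coeff (a-i-1) (Ev w)` (if `a ≥ i+1`; here `w` has weight at most `k - i - 1 ≤ (a-i-1) + m`) plus, for
`i = 0`, `(ξ x + s η x) • coeff a (Ev w)`: `w` has weight at most `k - 1 ≤ a + (m-1)` if `m ≥ 1`, and if
`m = 0` then `k - 1 < a` and the coefficient vanishes by `Ev_coeff_zero`. -/
theorem Ev_poly {π : g →ₗ[K] B} (hπ : IsLieMap π) {k : ℕ} {S : UP K g}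
    (hS : S ∈ UPle K g k) (ξ η : g →ₗ[K] K) (a m : ℕ) (h : k ≤ a + m) :
    ∃ w : ℕ → B, ∀ s : K, (Ev hπ (ξ + s • η) S).coeff a =
      ∑ j ∈ Finset.range (m + 1), s ^ j • w j := by
  change EvPoly_Pol K m (fun s => (Ev hπ (ξ + s • η) S).coeff a)
  induction hS using Submodule.span_induction with
  | mem w hw =>
    obtain ⟨l, hl, rfl⟩ := hw
    exact EvPoly_word_poly hπ ξ η l a m (hl.trans h)
  | zero =>
    exact (EvPoly_Pol_const m (0 : B)).congr' fun s => by rw [map_zero, coeff_zero]
  | add u v _ _ hu hv =>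
    exact (hu.add hv).congr' fun s => by rw [map_add, coeff_add]
  | smul c u _ hu =>
    exact (hu.smul c).congr' fun s => by rw [map_smul, coeff_smul]

end Pool.Agent.helper74.QB
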