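import Pool.Agent.helper74.QB.GTmap

/-!
# QB-06. The two-point theorem

Singular vectors, evaluated at two different points, commute.
-/

set_option autoImplicit false

namespace Pool.Agent.helper74.QB

variable {K : Type*} [CommRing K] {g : Type*} [LieRing g] [LieAlgebra K g]
variable (κ : g →ₗ[K] g →ₗ[K] K) (hκ : IsInv κ)
variable {R : Type*} [CommRing R] [Algebra K R]
variable {A : Type*} [Ring A] [Algebra K A] [Algebra R A] [IsScalarTower K R A]
variable {π : g →ₗ[K] A} (hπ : IsLieMap π) (ξ : g →ₗ[K] K)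

theorem GT_split {M : ℕ} (T : ℕ → R) (hT : ∀ r, M ≤ r → T r = 0) (i : ℕ) (F G : ℕ → A) :
    ∑ r ∈ Finset.range M, T r • (if r ≤ i then F r else G (r - i - 1)) =
      ∑ k ∈ Finset.range (i + 1), T k • F k + ∑ s ∈ Finset.range M, T (s + i + 1) • G s := by
  have h1 : ∑ r ∈ Finset.range M, T r • (if r ≤ i then F r else G (r - i - 1)) =
      ∑ r ∈ Finset.range (i + 1 + M), T r • (if r ≤ i then F r else G (r - i - 1)) := by
    refine Finset.sum_subset (Finset.range_mono (by omega)) fun r _ hr => ?_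
    rw [hT r (by simpa using hr), zero_smul]
  rw [h1, Finset.sum_range_add]
  congr 1
  · refine Finset.sum_congr rfl fun k hk => ?_
    rw [if_pos (by have := Finset.mem_range.1 hk; omega)]
  · refine Finset.sum_congr rfl fun s _ => ?_
    rw [if_neg (by omega), show i + 1 + s - i - 1 = s by omega, show i + 1 + s = s + i + 1 by omega]

theorem GT_single {M : ℕ} (T : ℕ → R) (hT : ∀ r, M ≤ r → T r = 0) (i : ℕ) (c : ℕ → A) :
    ∑ r ∈ Finset.range M, T r • (if r = i then c r else 0) = T i • c i := by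
  by_cases h : i < M
  · rw [Finset.sum_eq_single_of_mem i (Finset.mem_range.2 h)]
    · rw [if_pos rfl]
    · intro r _ hr
      rw [if_neg hr, smul_zero]
  · rw [hT i (by omega), zero_smul]
    refine Finset.sum_eq_zero fun r hr => ?_
    rw [if_neg (by have := Finset.mem_range.1 hr; omega), smul_zero]

theorem GT_cast (t : R) (n : ℕ) (c : K) (e : A) :
    t • (((n : K) * c) • e) = ((n : R) * t) • (c • e) := by
  rw [mul_smul, mul_smul, Nat.cast_smul_eq_nsmul, Nat.cast_smul_eq_nsmul, smul_comm t n]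

theorem GT_EE_zero (u v : R) {η : R} {M : ℕ} (hη : η ^ M = 0) (w : UP K g) :
    EE κ hκ hπ ξ u v hη 0 w = 0 := by
  rw [EE, map_zero]
  rfl

theorem GT_rho {u v η : R} (huv : u * v = η * (u - v)) (i j : ℕ) (x y : g) :
    ∑ k ∈ Finset.range (i + 1), tc η j k • ev hπ ξ u (X K g (i - k) ⁅y, x⁆) +
      ∑ k ∈ Finset.range (j + 1), tc' η i k • ev hπ ξ v (X K g (j - k) ⁅y, x⁆) =
    ev hπ ξ v (X K g j y) * ev hπ ξ u (X K g i x) -
      ev hπ ξ u (X K g i x) * ev hπ ξ v (X K g j y) := by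
  have hsum : ∀ (T : ℕ → R) (c : R) (n : ℕ) (a : A),
      ∑ k ∈ Finset.range (n + 1), T k • (c ^ (n - k + 1) • π ⁅y, x⁆ +
        if n - k = 0 then a else 0) =
      (∑ k ∈ Finset.range (n + 1), T k * c ^ (n - k + 1)) • π ⁅y, x⁆ + T n • a := by
    intro T c n a
    simp only [smul_add, Finset.sum_add_distrib]
    congr 1
    · rw [Finset.sum_smul]
      exact Finset.sum_congr rfl fun k _ => (mul_smul _ _ _).symm
    · rw [Finset.sum_eq_single_of_mem n (Finset.mem_range.2 (Nat.lt_succ_self n))]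
      · rw [if_pos (Nat.sub_self n)]
      · intro k hk hkn
        rw [if_neg, smul_zero]
        have := Finset.mem_range.1 hk
        omega
  simp only [ev_X]
  rw [hsum (tc η j) u i, hsum (tc' η i) v j]
  have h2 : ∀ (p : ℕ) (a : K) (z : A), (if p = 0 then algebraMap K A a else 0) * z =
      z * (if p = 0 then algebraMap K A a else 0) := by
    intro p a z
    split_ifs
    · exact Algebra.commutes a z
    · simp
  have h3 : (v ^ (j + 1) • π y + if j = 0 then algebraMap K A (ξ y) else 0) *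
      (u ^ (i + 1) • π x + if i = 0 then algebraMap K A (ξ x) else 0) -
      (u ^ (i + 1) • π x + if i = 0 then algebraMap K A (ξ x) else 0) *
      (v ^ (j + 1) • π y + if j = 0 then algebraMap K A (ξ y) else 0) =
      (u ^ (i + 1) * v ^ (j + 1)) • π ⁅y, x⁆ := by
    rw [← hπ y x, smul_sub]
    simp only [add_mul, mul_add]
    rw [h2 j (ξ y), h2 j (ξ y), h2 i (ξ x) (v ^ (j + 1) • π y), smul_mul_smul_comm,
      smul_mul_smul_comm, mul_comm (v ^ (j + 1))]
    abel
  rw [h3, tc_eval huv i j, add_smul]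
  have h4 : tc η j i • algebraMap K A (ξ ⁅y, x⁆) + tc' η i j • algebraMap K A (ξ ⁅y, x⁆) = 0 := by
    rw [← add_smul, tc_add, zero_smul]
  have h5 : ∀ P Q S T : A, S + T = 0 → P + S + (Q + T) = P + Q := by
    intro P Q S T h
    calc P + S + (Q + T) = P + Q + (S + T) := by abel
      _ = P + Q := by rw [h, add_zero]
  exact h5 _ _ _ _ h4

/-- QB-06a. Value at `1`.  Proof: `UP_ind` on `a`; `EE_one`, `EE_X`, `phi_one`. -/
theorem EE_at_one (u v : R) {η : R} {M : ℕ} (hη : η ^ M = 0) (a : UP K g) :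
    EE κ hκ hπ ξ u v hη a 1 = ev hπ ξ u a := by
  refine UP_ind (p := fun a => EE κ hκ hπ ξ u v hη a 1 = ev hπ ξ u a) ?_ ?_ ?_ ?_ ?_ a
  · rw [GT_EE_zero, map_zero]
  · rw [EE_one, map_one, map_one]
  · intro a b ha hb
    rw [EE_add, map_add, ha, hb]
  · intro c a ha
    rw [EE_smul, map_smul, ha]
  · intro i x a ha
    rw [EE_X, map_mul, ha]
    have : ∑ r ∈ Finset.range M, tc' η i r • EE κ hκ hπ ξ u v hη a (phi κ hκ r x 1) = 0 :=
      Finset.sum_eq_zero fun r _ => by rw [phi_one, map_zero, smul_zero]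
    rw [this, sub_zero]

/-- QB-06b. Value at a singular vector.  Proof: `UP_ind` on `a`; all the terms
`phi κ hκ r x S'` are zero. -/
theorem EE_at_SS (u v : R) {η : R} {M : ℕ} (hη : η ^ M = 0) (a : UP K g) {S' : UP K g}
    (hS : IsSS κ hκ S') :
    EE κ hκ hπ ξ u v hη a S' = ev hπ ξ u a * ev hπ ξ v S' := by
  refine UP_ind (p := fun a => EE κ hκ hπ ξ u v hη a S' = ev hπ ξ u a * ev hπ ξ v S')
    ?_ ?_ ?_ ?_ ?_ a
  · rw [GT_EE_zero, map_zero, zero_mul]
  · rw [EE_one, map_one, one_mul]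
  · intro a b ha hb
    rw [EE_add, map_add, ha, hb, add_mul]
  · intro c a ha
    rw [EE_smul, map_smul, ha, smul_mul_assoc]
  · intro i x a ha
    rw [EE_X, map_mul, ha, mul_assoc]
    have : ∑ r ∈ Finset.range M, tc' η i r • EE κ hκ hπ ξ u v hη a (phi κ hκ r x S') = 0 :=
      Finset.sum_eq_zero fun r _ => by rw [hS r x, map_zero, smul_zero]
    rw [this, sub_zero]

/-- QB-06c (the main point). Equivariance under the functions with a pole at the second point.
Proof: `UP_ind` on `a`, for all `w`.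
`a = 1`: `phi_one`, `EE_one`.
`a = X i x * b` (write `E` for `EE`, `ρ_i = ev u (X i x)`, `ρ'_j = ev v (X j y)`, `z = ⁅y, x⁆`):
* `∑_r tc j r • E (phi r y (X i x * b)) w`, by `phi_X_mul` and `EE_X`, is
  `∑_r tc j r • (ρ_i E (phi r y b) w - ∑_s tc' i s • E (phi r y b) (phi s x w))`
  `+ ∑_{k ≤ i} tc j k • (ev u (X (i-k) z) E b w - ∑_s tc' (i-k) s • E b (phi s z w))`
  `+ ∑_r tc j (r+i+1) • E (phi r z b) w + ((i+1) tc j (i+1) κ y x) • E b w`
  (terms with index `≥ M` vanish by `tc_nil`, so that the ranges can be changed freely);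
* `E (X i x * b) (X j y * w) = ρ_i E b (X j y * w) - ∑_s tc' i s • E b (phi s x (X j y * w))` with
  `phi s x (X j y * w) = X j y * phi s x w + (s ≤ j: - X (j-s) z * w; s > j: - phi (s-j-1) z w)
   + (s = j+1: s κ x y w)`;
* by `tc_split`, `∑_r tc j (r+i+1) • E (phi r z b) w = ∑_{k ≤ j} tc' i k • ∑_r tc (j-k) r • E (phi r z b) w
   = ∑_{k ≤ j} tc' i k • (ev v (X (j-k) z) E b w - E b (X (j-k) z * w))` (induction hypothesis for `b`);
* the terms `E b (X (j-s) z * w)` cancel; the terms `E b (phi s z w)` cancel by `tc'_split`; the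
  `κ`-terms cancel by `tc_res` and the symmetry of `κ`;
* by the induction hypothesis for `b` (with `w` and with `phi s x w`) the first lines give
  `ρ_i ρ'_j E b w - ∑_s tc' i s • ρ'_j E b (phi s x w)`;
* what remains is `(∑_{k ≤ i} tc j k • ev u (X (i-k) z) + ∑_{k ≤ j} tc' i k • ev v (X (j-k) z)) E b w
   = (u^(i+1) v^(j+1)) • π z * E b w = (ρ'_j ρ_i - ρ_i ρ'_j) E b w`, by `tc_eval` and `tc_add` (the
  `ξ`-terms) . -/
theorem EE_equiv {u v η : R} {M : ℕ} (hη : η ^ M = 0) (huv : u * v = η * (u - v)) (j : ℕ) (y : g)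
    (a w : UP K g) :
    ∑ r ∈ Finset.range M, tc η j r • EE κ hκ hπ ξ u v hη (phi κ hκ r y a) w +
      EE κ hκ hπ ξ u v hη a (X K g j y * w) =
    ev hπ ξ v (X K g j y) * EE κ hκ hπ ξ u v hη a w := by
  revert j y w
  refine UP_ind (p := fun a => ∀ (j : ℕ) (y : g) (w : UP K g),
    ∑ r ∈ Finset.range M, tc η j r • EE κ hκ hπ ξ u v hη (phi κ hκ r y a) w +
      EE κ hκ hπ ξ u v hη a (X K g j y * w) =
    ev hπ ξ v (X K g j y) * EE κ hκ hπ ξ u v hη a w) ?_ ?_ ?_ ?_ ?_ a
  · intro j y w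
    rw [GT_EE_zero, GT_EE_zero, mul_zero, add_zero]
    exact Finset.sum_eq_zero fun r _ => by rw [map_zero, GT_EE_zero, smul_zero]
  · intro j y w
    rw [EE_one, EE_one, map_mul, add_eq_right]
    exact Finset.sum_eq_zero fun r _ => by rw [phi_one, GT_EE_zero, smul_zero]
  · intro a b ha hb j y w
    rw [EE_add, EE_add, mul_add, ← ha, ← hb]
    simp only [map_add, EE_add, smul_add, Finset.sum_add_distrib]
    abel
  · intro c a ha j y w
    rw [EE_smul, EE_smul, mul_smul_comm, ← ha, smul_add, Finset.smul_sum]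
    congr 1
    refine Finset.sum_congr rfl fun r _ => ?_
    rw [map_smul, EE_smul, smul_comm]
  · intro i x b hb j y w
    have hT : ∀ r, M ≤ r → tc η j r = 0 := tc_nil hη j
    have hT' : ∀ r, M ≤ r → tc' η i r = 0 := tc'_nil hη i
    have hb' : ∀ (j : ℕ) (y : g) (w : UP K g),
        ∑ r ∈ Finset.range M, tc η j r • EE κ hκ hπ ξ u v hη (phi κ hκ r y b) w =
        ev hπ ξ v (X K g j y) * EE κ hκ hπ ξ u v hη b w -
          EE κ hκ hπ ξ u v hη b (X K g j y * w) := fun j y w => eq_sub_of_add_eq (hb j y w)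
    set e : A := EE κ hκ hπ ξ u v hη b w with he
    set ρi : A := ev hπ ξ u (X K g i x) with hρi
    set ρj : A := ev hπ ξ v (X K g j y) with hρj
    -- the first sum
    have h1 : ∀ r, EE κ hκ hπ ξ u v hη (phi κ hκ r y (X K g i x * b)) w =
        (ρi * EE κ hκ hπ ξ u v hη (phi κ hκ r y b) w -
          ∑ s ∈ Finset.range M, tc' η i s • EE κ hκ hπ ξ u v hη (phi κ hκ r y b) (phi κ hκ s x w)) +
        (if r ≤ i then EE κ hκ hπ ξ u v hη (X K g (i - r) ⁅y, x⁆ * b) w
          else EE κ hκ hπ ξ u v hη (phi κ hκ (r - i - 1) ⁅y, x⁆ b) w) +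
        (if r = i + 1 then ((r : K) * κ y x) • e else 0) := by
      intro r
      rw [phi_X_mul, EE_add, EE_add, EE_X]
      congr 1
      · congr 1
        split_ifs <;> rfl
      · split_ifs
        · rw [EE_smul]
        · rw [GT_EE_zero]
    have h2 : ∑ r ∈ Finset.range M, tc η j r •
        EE κ hκ hπ ξ u v hη (phi κ hκ r y (X K g i x * b)) w =
        (ρi * (ρj * e - EE κ hκ hπ ξ u v hη b (X K g j y * w)) -
          ∑ s ∈ Finset.range M, tc' η i s • (ρj * EE κ hκ hπ ξ u v hη b (phi κ hκ s x w) -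
            EE κ hκ hπ ξ u v hη b (X K g j y * phi κ hκ s x w))) +
        (∑ k ∈ Finset.range (i + 1), tc η j k • (ev hπ ξ u (X K g (i - k) ⁅y, x⁆) * e -
            ∑ s ∈ Finset.range M, tc' η (i - k) s • EE κ hκ hπ ξ u v hη b (phi κ hκ s ⁅y, x⁆ w)) +
          ∑ k ∈ Finset.range (j + 1), tc' η i k • (ev hπ ξ v (X K g (j - k) ⁅y, x⁆) * e -
            EE κ hκ hπ ξ u v hη b (X K g (j - k) ⁅y, x⁆ * w))) +
        tc η j (i + 1) • ((((i + 1 : ℕ) : K) * κ y x) • e) := by
      simp only [h1, smul_add, Finset.sum_add_distrib]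
      congr 1
      · congr 1
        · -- the `P` part
          simp only [smul_sub, Finset.sum_sub_distrib]
          congr 1
          · rw [← hb' j y w, Finset.mul_sum]
            exact Finset.sum_congr rfl fun r _ => (mul_smul_comm _ _ _).symm
          · simp only [Finset.smul_sum]
            rw [Finset.sum_comm]
            rw [← Finset.sum_sub_distrib]
            refine Finset.sum_congr rfl fun s _ => ?_
            rw [← smul_sub, ← hb' j y (phi κ hκ s x w), Finset.smul_sum]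
            exact Finset.sum_congr rfl fun r _ => smul_comm _ _ _
        · rw [GT_split (tc η j) hT i
            (fun k => EE κ hκ hπ ξ u v hη (X K g (i - k) ⁅y, x⁆ * b) w)
            (fun r => EE κ hκ hπ ξ u v hη (phi κ hκ r ⁅y, x⁆ b) w)]
          congr 1
          · refine Finset.sum_congr rfl fun k _ => ?_
            rw [EE_X]
          · have h3 : ∀ s ∈ Finset.range M,
                tc η j (s + i + 1) • EE κ hκ hπ ξ u v hη (phi κ hκ s ⁅y, x⁆ b) w =
                ∑ k ∈ Finset.range (j + 1), tc' η i k • tc η (j - k) s •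
                  EE κ hκ hπ ξ u v hη (phi κ hκ s ⁅y, x⁆ b) w := by
              intro s _
              rw [tc_split, Finset.sum_smul]
              exact Finset.sum_congr rfl fun k _ => mul_smul _ _ _
            rw [Finset.sum_congr rfl h3, Finset.sum_comm]
            refine Finset.sum_congr rfl fun k _ => ?_
            rw [← Finset.smul_sum, hb' (j - k) ⁅y, x⁆ w]
      · rw [GT_single (tc η j) hT (i + 1) (fun r => ((r : K) * κ y x) • e)]
    -- the second term
    have h4 : ∀ s, EE κ hκ hπ ξ u v hη b (phi κ hκ s x (X K g j y * w)) =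
        EE κ hκ hπ ξ u v hη b (X K g j y * phi κ hκ s x w) +
        (if s ≤ j then -EE κ hκ hπ ξ u v hη b (X K g (j - s) ⁅y, x⁆ * w)
          else -EE κ hκ hπ ξ u v hη b (phi κ hκ (s - j - 1) ⁅y, x⁆ w)) +
        (if s = j + 1 then ((s : K) * κ x y) • e else 0) := by
      intro s
      rw [phi_X_mul, map_add, map_add]
      congr 1
      · congr 1
        rw [← lie_skew x y]
        split_ifs
        · rw [map_neg, neg_mul, map_neg]
        · rw [map_neg, LinearMap.neg_apply, map_neg]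
      · split_ifs
        · rw [map_smul]
        · rw [map_zero]
    have h5 : EE κ hκ hπ ξ u v hη (X K g i x * b) (X K g j y * w) =
        ρi * EE κ hκ hπ ξ u v hη b (X K g j y * w) -
        ((∑ s ∈ Finset.range M, tc' η i s • EE κ hκ hπ ξ u v hη b (X K g j y * phi κ hκ s x w)) +
          (∑ k ∈ Finset.range (j + 1), tc' η i k •
              (-EE κ hκ hπ ξ u v hη b (X K g (j - k) ⁅y, x⁆ * w)) +
            ∑ s ∈ Finset.range M, tc' η i (s + j + 1) •
              (-EE κ hκ hπ ξ u v hη b (phi κ hκ s ⁅y, x⁆ w))) +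
          tc' η i (j + 1) • ((((j + 1 : ℕ) : K) * κ x y) • e)) := by
      rw [EE_X]
      congr 1
      simp only [h4, smul_add, Finset.sum_add_distrib]
      congr 1
      · congr 1
        rw [GT_split (tc' η i) hT' j
            (fun k => -EE κ hκ hπ ξ u v hη b (X K g (j - k) ⁅y, x⁆ * w))
            (fun r => -EE κ hκ hπ ξ u v hη b (phi κ hκ r ⁅y, x⁆ w))]
      · rw [GT_single (tc' η i) hT' (j + 1) (fun s => ((s : K) * κ x y) • e)]
    -- the identities
    have I1 : ∑ k ∈ Finset.range (i + 1), tc η j k •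
        ∑ s ∈ Finset.range M, tc' η (i - k) s • EE κ hκ hπ ξ u v hη b (phi κ hκ s ⁅y, x⁆ w) =
        ∑ s ∈ Finset.range M, tc' η i (s + j + 1) •
          EE κ hκ hπ ξ u v hη b (phi κ hκ s ⁅y, x⁆ w) := by
      simp only [Finset.smul_sum]
      rw [Finset.sum_comm]
      refine Finset.sum_congr rfl fun s _ => ?_
      rw [tc'_split, Finset.sum_smul]
      exact Finset.sum_congr rfl fun k _ => (mul_smul _ _ _).symm
    have I2 : tc η j (i + 1) • ((((i + 1 : ℕ) : K) * κ y x) • e) =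
        tc' η i (j + 1) • ((((j + 1 : ℕ) : K) * κ x y) • e) := by
      rw [GT_cast, GT_cast, tc_res, hκ.symm y x]
    have I3 : ∑ k ∈ Finset.range (i + 1), tc η j k • (ev hπ ξ u (X K g (i - k) ⁅y, x⁆) * e) +
        ∑ k ∈ Finset.range (j + 1), tc' η i k • (ev hπ ξ v (X K g (j - k) ⁅y, x⁆) * e) =
        ρj * (ρi * e) - ρi * (ρj * e) := by
      rw [← mul_assoc, ← mul_assoc, ← sub_mul, ← GT_rho hπ ξ huv i j x y, add_mul,
        Finset.sum_mul, Finset.sum_mul]
      simp only [smul_mul_assoc]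
    rw [h2, h5, EE_X]
    simp only [smul_sub, smul_neg, Finset.sum_sub_distrib, Finset.sum_neg_distrib]
    rw [I1, I2, mul_sub, mul_sub, Finset.mul_sum]
    have I4 : ∑ s ∈ Finset.range M, tc' η i s • (ρj * EE κ hκ hπ ξ u v hη b (phi κ hκ s x w)) =
        ∑ s ∈ Finset.range M, ρj * (tc' η i s • EE κ hκ hπ ξ u v hη b (phi κ hκ s x w)) :=
      Finset.sum_congr rfl fun s _ => (mul_smul_comm _ _ _).symm
    rw [I4]
    have fin : ∀ (a1 a2 a3 a4 p1 p2 n m k r1 : A), p1 + p2 = r1 - a1 →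
        a1 - a2 - (a3 - a4) + (p1 - n + (p2 - m)) + k + (a2 - (a4 + (-m + -n) + k)) = r1 - a3 := by
      intro a1 a2 a3 a4 p1 p2 n m k r1 h
      calc a1 - a2 - (a3 - a4) + (p1 - n + (p2 - m)) + k + (a2 - (a4 + (-m + -n) + k))
          = a1 - a3 + (p1 + p2) := by abel
        _ = r1 - a3 := by rw [h]; abel
    exact fin _ _ _ _ _ _ _ _ _ _ I3

/-- QB-06d. Proof: `UP_ind` on `w` (`EE_at_one`, `EE_equiv` with `phi r y S = 0`). -/
theorem EE_of_SS {u v η : R} {M : ℕ} (hη : η ^ M = 0) (huv : u * v = η * (u - v)) {S : UP K g}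
    (hS : IsSS κ hκ S) (w : UP K g) :
    EE κ hκ hπ ξ u v hη S w = ev hπ ξ v w * ev hπ ξ u S := by
  refine UP_ind (p := fun w => EE κ hκ hπ ξ u v hη S w = ev hπ ξ v w * ev hπ ξ u S)
    ?_ ?_ ?_ ?_ ?_ w
  · rw [map_zero, map_zero, zero_mul]
  · rw [EE_at_one, map_one, one_mul]
  · intro a b ha hb
    rw [map_add, map_add, ha, hb, add_mul]
  · intro c a ha
    rw [map_smul, map_smul, ha, smul_mul_assoc]
  · intro i x a ha
    have h := EE_equiv κ hκ hπ ξ hη huv i x S a
    have h0 : ∑ r ∈ Finset.range M, tc η i r • EE κ hκ hπ ξ u v hη (phi κ hκ r x S) a = 0 :=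
      Finset.sum_eq_zero fun r _ => by rw [hS r x, GT_EE_zero, smul_zero]
    rw [h0, zero_add, ha, ← mul_assoc, ← map_mul] at h
    exact h

/-- QB-06e. the two-point theorem: from `EE_at_SS` and `EE_of_SS` -/
theorem two_point {u v η : R} {M : ℕ} (hη : η ^ M = 0) (huv : u * v = η * (u - v)) {S S' : UP K g}
    (hS : IsSS κ hκ S) (hS' : IsSS κ hκ S') :
    ev hπ ξ u S * ev hπ ξ v S' = ev hπ ξ v S' * ev hπ ξ u S := by
  rw [← EE_at_SS κ hκ hπ ξ u v hη S hS', EE_of_SS κ hκ hπ ξ hη huv hS]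

end Pool.Agent.helper74.QB
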