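import Mathlib

/-!
# QB-04. Coefficients of the partial fractions

`x = 1/(t-z)`, `y = 1/(t-w)`, `z - w = 1/η`, `x y = η (x - y)`.  `tc η j r` is the coefficient of `s^r`
in `y^(j+1) = (η/(1+η s))^(j+1)`, `tc' η i r` is the coefficient of `s^r` in
`x^(i+1) = (-η/(1-η s))^(i+1)`.
-/

set_option autoImplicit false

namespace Pool.Agent.helper74.QB

variable {R : Type*} [CommRing R]

/-- coefficient of `s^r` in `(η/(1+η s))^(j+1)` -/
def tc (η : R) (j r : ℕ) : R := (-1) ^ r * ((j + r).choose r : R) * η ^ (j + 1 + r)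

/-- coefficient of `s^r` in `(-η/(1-η s))^(i+1)` -/
def tc' (η : R) (i r : ℕ) : R := (-1) ^ (i + 1) * ((i + r).choose r : R) * η ^ (i + 1 + r)

/-- the Vandermonde identity for negative exponents: coefficient of `X^n` in
`(1-X)^(-a-1) (1-X)^(-b-1) = (1-X)^(-a-b-2)` -/
theorem vand (a b n : ℕ) :
    ∑ p ∈ Finset.HasAntidiagonal.antidiagonal n, (a + p.1).choose p.1 * (b + p.2).choose p.2 =
      (a + b + 1 + n).choose n := by
  have h : (PowerSeries.mk 1 : PowerSeries ℤ) ^ (a + 1) * (PowerSeries.mk 1) ^ (b + 1) =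
      (PowerSeries.mk 1) ^ (a + b + 1 + 1) := by
    rw [← pow_add]
    congr 1
    ring
  rw [PowerSeries.mk_one_pow_eq_mk_choose_add, PowerSeries.mk_one_pow_eq_mk_choose_add,
    PowerSeries.mk_one_pow_eq_mk_choose_add] at h
  have h1 := congrArg (PowerSeries.coeff n) h
  rw [PowerSeries.coeff_mul, PowerSeries.coeff_mk] at h1
  simp only [PowerSeries.coeff_mk] at h1
  have h2 : ∑ p ∈ Finset.HasAntidiagonal.antidiagonal n, (a + p.1).choose a * (b + p.2).choose b =
      (a + b + 1 + n).choose (a + b + 1) := by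
    exact_mod_cast h1
  rw [← Nat.choose_symm_add, ← h2]
  refine Finset.sum_congr rfl fun p _ => ?_
  rw [Nat.choose_symm_add (a := a), Nat.choose_symm_add (a := b)]

theorem tc_nil {η : R} {M : ℕ} (h : η ^ M = 0) (j r : ℕ) (hr : M ≤ r) : tc η j r = 0 := by
  unfold tc
  have : η ^ (j + 1 + r) = 0 := by
    rw [show j + 1 + r = M + (j + 1 + r - M) by omega, pow_add, h, zero_mul]
  rw [this, mul_zero]

theorem tc'_nil {η : R} {M : ℕ} (h : η ^ M = 0) (i r : ℕ) (hr : M ≤ r) : tc' η i r = 0 := by
  unfold tc'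
  have : η ^ (i + 1 + r) = 0 := by
    rw [show i + 1 + r = M + (i + 1 + r - M) by omega, pow_add, h, zero_mul]
  rw [this, mul_zero]

/-- product of the expansions of `x^(i+1)` and `x^(j+1)` -/
theorem tc'_mul (η : R) (i j n : ℕ) :
    ∑ p ∈ Finset.HasAntidiagonal.antidiagonal n, tc' η i p.1 * tc' η j p.2 = tc' η (i + j + 1) n := by
  have h : ∀ p ∈ Finset.HasAntidiagonal.antidiagonal n, tc' η i p.1 * tc' η j p.2 =
      (-1) ^ (i + j + 1 + 1) * (((i + p.1).choose p.1 * (j + p.2).choose p.2 : ℕ) : R) *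
        η ^ (i + j + 1 + 1 + n) := by
    intro p hp
    have hp' : p.1 + p.2 = n :=
      Finset.HasAntidiagonal.mem_antidiagonal.1 hp
    unfold tc'
    rw [← hp']
    push_cast
    ring
  rw [Finset.sum_congr rfl h, ← Finset.sum_mul, ← Finset.mul_sum, ← Nat.cast_sum, vand]
  rfl

/-- `x^(i+1) y^(j+1)`: regular part at `z` of the expansion = expansion of the principal part
at `w` -/
theorem tc_split (η : R) (i j r : ℕ) :
    tc η j (r + i + 1) = ∑ k ∈ Finset.range (j + 1), tc' η i k * tc η (j - k) r := by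
  have h : ∀ p ∈ Finset.HasAntidiagonal.antidiagonal j, tc' η i p.1 * tc η p.2 r =
      (-1) ^ (r + i + 1) * (((i + p.1).choose p.1 * (r + p.2).choose p.2 : ℕ) : R) *
        η ^ (j + 1 + (r + i + 1)) := by
    intro p hp
    have hp' : p.1 + p.2 = j :=
      Finset.HasAntidiagonal.mem_antidiagonal.1 hp
    unfold tc tc'
    rw [← hp', add_comm p.2 r, Nat.choose_symm_add (a := r)]
    push_cast
    ring
  rw [← Finset.Nat.sum_antidiagonal_eq_sum_range_succ (fun a b => tc' η i a * tc η b r)]
  rw [Finset.sum_congr rfl h, ← Finset.sum_mul, ← Finset.mul_sum, ← Nat.cast_sum, vand]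
  unfold tc
  rw [show (j + (r + i + 1)).choose (r + i + 1) = (i + r + 1 + j).choose j by
    rw [← Nat.choose_symm_add (a := i + r + 1)]
    congr 1 <;> ring]

/-- the same with the roles of `z` and `w` exchanged -/
theorem tc'_split (η : R) (i j r : ℕ) :
    tc' η i (r + j + 1) = ∑ k ∈ Finset.range (i + 1), tc η j k * tc' η (i - k) r := by
  have h : ∀ p ∈ Finset.HasAntidiagonal.antidiagonal i, tc η j p.1 * tc' η p.2 r =
      (-1) ^ (i + 1) * (((j + p.1).choose p.1 * (r + p.2).choose p.2 : ℕ) : R) *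
        η ^ (i + 1 + (r + j + 1)) := by
    intro p hp
    have hp' : p.1 + p.2 = i :=
      Finset.HasAntidiagonal.mem_antidiagonal.1 hp
    unfold tc tc'
    rw [← hp', add_comm p.2 r, Nat.choose_symm_add (a := r)]
    push_cast
    ring
  rw [← Finset.Nat.sum_antidiagonal_eq_sum_range_succ (fun a b => tc η j a * tc' η b r)]
  rw [Finset.sum_congr rfl h, ← Finset.sum_mul, ← Finset.mul_sum, ← Nat.cast_sum, vand]
  unfold tc'
  rw [show (i + (r + j + 1)).choose (r + j + 1) = (j + r + 1 + i).choose i by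
    rw [← Nat.choose_symm_add (a := j + r + 1)]
    congr 1 <;> ring]

/-- equality of the two residues -/
theorem tc_res (η : R) (i j : ℕ) :
    ((i + 1 : ℕ) : R) * tc η j (i + 1) = ((j + 1 : ℕ) : R) * tc' η i (j + 1) := by
  unfold tc tc'
  have h : (i + 1) * (j + (i + 1)).choose (i + 1) = (j + 1) * (i + (j + 1)).choose (j + 1) := by
    have h1 := Nat.add_one_mul_choose_eq (i + j) i
    have h2 := Nat.add_one_mul_choose_eq (i + j) j
    have h3 : (i + j).choose i = (i + j).choose j := Nat.choose_symm_add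
    rw [h3] at h1
    have e1 : j + (i + 1) = i + j + 1 := by ring
    have e2 : i + (j + 1) = i + j + 1 := by ring
    rw [e1, e2, mul_comm (i + 1), mul_comm (j + 1), ← h1, ← h2]
  have h' : (((i + 1) * (j + (i + 1)).choose (i + 1) : ℕ) : R) =
      (((j + 1) * (i + (j + 1)).choose (j + 1) : ℕ) : R) := by rw [h]
  rw [Nat.cast_mul, Nat.cast_mul] at h'
  have e3 : j + 1 + (i + 1) = i + 1 + (j + 1) := by ring
  rw [e3]
  linear_combination (-1) ^ (i + 1) * η ^ (i + 1 + (j + 1)) * h'

/-- the sum of the residues of `x^(i+1) y^(j+1)` is zero -/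
theorem tc_add (η : R) (i j : ℕ) : tc η j i + tc' η i j = 0 := by
  unfold tc tc'
  rw [show (j + i).choose i = (i + j).choose j by rw [add_comm j i, Nat.choose_symm_add],
    show j + 1 + i = i + 1 + j by ring]
  ring

theorem GTcoef_tc_zero (η : R) (j : ℕ) : tc η (j + 1) 0 = η * tc η j 0 := by
  unfold tc
  simp only [add_zero, Nat.choose_zero_right]
  ring

theorem GTcoef_tc'_zero (η : R) (i : ℕ) : tc' η (i + 1) 0 = - (η * tc' η i 0) := by
  unfold tc'
  simp only [add_zero, Nat.choose_zero_right]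
  ring

theorem GTcoef_tc_succ (η : R) (j k : ℕ) :
    tc η (j + 1) (k + 1) = η * (tc η j (k + 1) - tc η (j + 1) k) := by
  unfold tc
  have h : (j + 1 + (k + 1)).choose (k + 1) = (j + 1 + k).choose k + (j + (k + 1)).choose (k + 1) := by
    rw [show j + 1 + (k + 1) = (j + 1 + k) + 1 by ring, Nat.choose_succ_succ,
      show j + 1 + k = j + (k + 1) by ring]
  rw [h]
  push_cast
  ring

theorem GTcoef_tc'_succ (η : R) (i k : ℕ) :
    tc' η (i + 1) (k + 1) = η * (tc' η (i + 1) k - tc' η i (k + 1)) := by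
  unfold tc'
  have h : (i + 1 + (k + 1)).choose (k + 1) = (i + 1 + k).choose k + (i + (k + 1)).choose (k + 1) := by
    rw [show i + 1 + (k + 1) = (i + 1 + k) + 1 by ring, Nat.choose_succ_succ,
      show i + 1 + k = i + (k + 1) by ring]
  rw [h]
  push_cast
  ring

/-- partial fractions, evaluated.  Proof: induction on `i + j`, from
`u^(i+2) v^(j+2) = η (u^(i+2) v^(j+1) - u^(i+1) v^(j+2))` and Pascal's rule
`tc (j+1) (k+1) = η (tc j (k+1) - tc (j+1) k)`, `tc (j+1) 0 = η tc j 0`,
`tc' (i+1) (k+1) = η (tc' (i+1) k - tc' i (k+1))`, `tc' (i+1) 0 = - η tc' i 0`. -/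
theorem tc_eval {η u v : R} (h : u * v = η * (u - v)) (i j : ℕ) :
    u ^ (i + 1) * v ^ (j + 1) =
      ∑ k ∈ Finset.range (i + 1), tc η j k * u ^ (i - k + 1) +
        ∑ k ∈ Finset.range (j + 1), tc' η i k * v ^ (j - k + 1) := by
  induction i generalizing j with
  | zero =>
    induction j with
    | zero =>
      simp only [zero_add, Finset.sum_range_one, pow_one, Nat.sub_zero]
      rw [h]
      simp [tc, tc']
      ring
    | succ j ih =>
      rw [Finset.sum_range_succ _ (j + 1)]
      have h1 : ∑ k ∈ Finset.range (j + 1), tc' η 0 k * v ^ (j + 1 - k + 1) =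
          v * ∑ k ∈ Finset.range (j + 1), tc' η 0 k * v ^ (j - k + 1) := by
        rw [Finset.mul_sum]
        refine Finset.sum_congr rfl fun k hk => ?_
        have : k ≤ j := Nat.lt_succ_iff.1 (Finset.mem_range.1 hk)
        rw [show j + 1 - k + 1 = (j - k + 1) + 1 by omega]
        ring
      rw [h1]
      simp only [zero_add, Finset.sum_range_one, pow_one, Nat.sub_self] at ih ⊢
      have h2 : tc' η 0 (j + 1) = - (η * tc η j 0) := by
        unfold tc tc'
        simp only [zero_add, Nat.choose_self, add_zero, Nat.choose_zero_right]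
        push_cast
        ring
      rw [h2, GTcoef_tc_zero]
      linear_combination v * ih + tc η j 0 * h
  | succ i ihi =>
    induction j with
    | zero =>
      rw [Finset.sum_range_succ _ (i + 1)]
      have h1 : ∑ k ∈ Finset.range (i + 1), tc η 0 k * u ^ (i + 1 - k + 1) =
          u * ∑ k ∈ Finset.range (i + 1), tc η 0 k * u ^ (i - k + 1) := by
        rw [Finset.mul_sum]
        refine Finset.sum_congr rfl fun k hk => ?_
        have : k ≤ i := Nat.lt_succ_iff.1 (Finset.mem_range.1 hk)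
        rw [show i + 1 - k + 1 = (i - k + 1) + 1 by omega]
        ring
      rw [h1]
      have ih := ihi 0
      simp only [zero_add, Finset.sum_range_one, pow_one, Nat.sub_self] at ih ⊢
      have h2 : tc η 0 (i + 1) = η * tc' η i 0 := by
        unfold tc tc'
        simp only [zero_add, Nat.choose_self, add_zero, Nat.choose_zero_right]
        push_cast
        ring
      rw [h2, GTcoef_tc'_zero]
      linear_combination u * ih + tc' η i 0 * h
    | succ j ihj =>
      have e1 := ihj
      have e2 := ihi (j + 1)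
      have e3 : u ^ (i + 1 + 1) * v ^ (j + 1 + 1) =
          η * (u ^ (i + 1 + 1) * v ^ (j + 1) - u ^ (i + 1) * v ^ (j + 1 + 1)) := by
        linear_combination u ^ (i + 1) * v ^ (j + 1) * h
      rw [e3, e1, e2]
      rw [Finset.sum_range_succ' _ (i + 1), Finset.sum_range_succ' _ (i + 1)]
      rw [Finset.sum_range_succ' _ (j + 1), Finset.sum_range_succ' _ (j + 1)]
      have f1 : ∑ k ∈ Finset.range (i + 1), tc η (j + 1) (k + 1) * u ^ (i + 1 - (k + 1) + 1) =
          η * (∑ k ∈ Finset.range (i + 1), tc η j (k + 1) * u ^ (i + 1 - (k + 1) + 1) -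
            ∑ k ∈ Finset.range (i + 1), tc η (j + 1) k * u ^ (i - k + 1)) := by
        rw [← Finset.sum_sub_distrib, Finset.mul_sum]
        refine Finset.sum_congr rfl fun k _ => ?_
        rw [GTcoef_tc_succ, show i + 1 - (k + 1) + 1 = i - k + 1 by omega]
        ring
      have f2 : ∑ k ∈ Finset.range (j + 1), tc' η (i + 1) (k + 1) * v ^ (j + 1 - (k + 1) + 1) =
          η * (∑ k ∈ Finset.range (j + 1), tc' η (i + 1) k * v ^ (j - k + 1) -
            ∑ k ∈ Finset.range (j + 1), tc' η i (k + 1) * v ^ (j + 1 - (k + 1) + 1)) := by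
        rw [← Finset.sum_sub_distrib, Finset.mul_sum]
        refine Finset.sum_congr rfl fun k _ => ?_
        rw [GTcoef_tc'_succ, show j + 1 - (k + 1) + 1 = j - k + 1 by omega]
        ring
      rw [f1, f2, GTcoef_tc_zero, GTcoef_tc'_zero]
      ring

end Pool.Agent.helper74.QB
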