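import Pool.Agent.helper74.QB.VacComm
import Pool.Agent.helper74.QB.GTcoef

/-!
# QB-05. The two-point map

`A` is an algebra over the commutative ring `R`, `π : g → A` respects brackets, `ξ : g → K`.
For `c : R` the evaluation `ev c` sends `X i x` to `c^(i+1) π x + δ_{i0} ξ x`.  For `u v = η (u - v)`,
`η ^ M = 0`, the space `Hom_K(UP, A)` is a representation of `UP`: `X i x` acts by
`f ↦ (w ↦ ev u (X i x) * f w - ∑_{r < M} tc' η i r • f (phi r x w))`.
-/

set_option autoImplicit false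

namespace Pool.Agent.helper74.QB

variable {K : Type*} [CommRing K] {g : Type*} [LieRing g] [LieAlgebra K g]
variable (κ : g →ₗ[K] g →ₗ[K] K) (hκ : IsInv κ)
variable {R : Type*} [CommRing R] [Algebra K R]
variable {A : Type*} [Ring A] [Algebra K A] [Algebra R A] [IsScalarTower K R A]

/-- multiplication by a scalar, as a `K`-linear map -/
def sm (K : Type*) [CommRing K] {R : Type*} [CommRing R] [Algebra K R]
    {A : Type*} [Ring A] [Algebra K A] [Algebra R A] [IsScalarTower K R A] (c : R) : A →ₗ[K] A where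
  toFun a := c • a
  map_add' := smul_add c
  map_smul' k a := smul_comm c k a

@[simp] theorem sm_apply (c : R) (a : A) : sm K c a = c • a := rfl

/-- the family defining the evaluation -/
noncomputable def evF (π : g →ₗ[K] A) (ξ : g →ₗ[K] K) (c : R) (i : ℕ) : g →ₗ[K] A :=
  (sm K (c ^ (i + 1))) ∘ₗ π + if i = 0 then (Algebra.linearMap K A) ∘ₗ ξ else 0

theorem evF_apply (π : g →ₗ[K] A) (ξ : g →ₗ[K] K) (c : R) (i : ℕ) (x : g) :
    evF π ξ c i x = c ^ (i + 1) • π x + if i = 0 then algebraMap K A (ξ x) else 0 := by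
  unfold evF
  split_ifs <;> simp

/-- a linear map to an associative algebra which respects brackets -/
def IsLieMap (π : g →ₗ[K] A) : Prop := ∀ x y, π x * π y - π y * π x = π ⁅x, y⁆

theorem evF_isRep {π : g →ₗ[K] A} (hπ : IsLieMap π) (ξ : g →ₗ[K] K) (c : R) :
    IsRep (evF π ξ c) := by
  intro i j x y
  have h1 : (c ^ (i + 1) • π x) * (c ^ (j + 1) • π y) =
      (c ^ (j + 1) • π y) * (c ^ (i + 1) • π x) + c ^ (i + j + 1 + 1) • π ⁅x, y⁆ := by
    have h : c ^ (i + j + 1 + 1) = c ^ (i + 1) * c ^ (j + 1) := by ring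
    rw [← hπ x y, h, smul_mul_smul_comm, smul_mul_smul_comm, smul_sub,
      mul_comm (c ^ (j + 1)), add_sub_cancel]
  have h2 : ∀ (p : ℕ) (a : K) (z : A), (if p = 0 then algebraMap K A a else 0) * z =
      z * (if p = 0 then algebraMap K A a else 0) := by
    intro p a z
    split_ifs
    · exact Algebra.commutes a z
    · simp
  have h3 : (if i + j + 1 = 0 then algebraMap K A (ξ ⁅x, y⁆) else 0) = 0 := if_neg (by omega)
  have key : ∀ P Q Z s t : A, P * Q = Q * P + Z → (∀ z, s * z = z * s) → (∀ z, t * z = z * t) →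
      (P + s) * (Q + t) = (Q + t) * (P + s) + Z := by
    intro P Q Z s t hPQ hs ht
    rw [add_mul, mul_add, mul_add, hPQ, hs Q, hs t, add_mul, mul_add, mul_add, ht P]
    abel
  rw [evF_apply, evF_apply, evF_apply, h3, add_zero]
  exact key _ _ _ _ _ h1 (h2 i (ξ x)) (h2 j (ξ y))

/-- the evaluation homomorphism -/
noncomputable def ev {π : g →ₗ[K] A} (hπ : IsLieMap π) (ξ : g →ₗ[K] K) (c : R) :
    UP K g →ₐ[K] A := lift (evF π ξ c) (evF_isRep hπ ξ c)

theorem ev_X {π : g →ₗ[K] A} (hπ : IsLieMap π) (ξ : g →ₗ[K] K) (c : R) (i : ℕ) (x : g) :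
    ev hπ ξ c (X K g i x) =
      c ^ (i + 1) • π x + if i = 0 then algebraMap K A (ξ x) else 0 := by
  rw [ev, lift_X, evF_apply]

/-- the action of `X i x` on `Hom_K(UP, A)` -/
noncomputable def gt {π : g →ₗ[K] A} (hπ : IsLieMap π) (ξ : g →ₗ[K] K) (u η : R) (M : ℕ)
    (i : ℕ) : g →ₗ[K] Module.End K (UP K g →ₗ[K] A) where
  toFun x :=
    { toFun := fun f => LinearMap.mulLeft K (ev hπ ξ u (X K g i x)) ∘ₗ f -
        ∑ r ∈ Finset.range M, (sm K (tc' η i r)) ∘ₗ f ∘ₗ phi κ hκ r x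
      map_add' := fun f f' => by
        ext w
        simp only [LinearMap.sub_apply, LinearMap.add_apply, LinearMap.comp_apply,
          LinearMap.sum_apply, map_add, Finset.sum_add_distrib]
        abel
      map_smul' := fun c f => by
        ext w
        simp only [LinearMap.sub_apply, LinearMap.smul_apply, LinearMap.comp_apply,
          LinearMap.sum_apply, map_smul, RingHom.id_apply, smul_sub, Finset.smul_sum] }
  map_add' x y := by
    ext f w
    simp only [LinearMap.coe_mk, AddHom.coe_mk, LinearMap.sub_apply, LinearMap.add_apply,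
      LinearMap.comp_apply, LinearMap.sum_apply, map_add, LinearMap.mulLeft_apply, add_mul,
      Finset.sum_add_distrib]
    abel
  map_smul' c x := by
    ext f w
    simp only [LinearMap.coe_mk, AddHom.coe_mk, LinearMap.sub_apply, LinearMap.smul_apply,
      LinearMap.comp_apply, LinearMap.sum_apply, map_smul, LinearMap.mulLeft_apply,
      RingHom.id_apply, smul_mul_assoc, smul_sub, Finset.smul_sum]

theorem gt_apply {π : g →ₗ[K] A} (hπ : IsLieMap π) (ξ : g →ₗ[K] K) (u η : R) (M : ℕ)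
    (i : ℕ) (x : g) (f : UP K g →ₗ[K] A) (w : UP K g) :
    gt κ hκ hπ ξ u η M i x f w = ev hπ ξ u (X K g i x) * f w -
      ∑ r ∈ Finset.range M, tc' η i r • f (phi κ hκ r x w) := by
  simp [gt]

private theorem GTmap_sum {B : Type*} [AddCommMonoid B] (M : ℕ) (G : ℕ → ℕ → B)
    (h : ∀ r s, M ≤ r + s → G r s = 0) :
    ∑ r ∈ Finset.range M, ∑ s ∈ Finset.range M, G r s =
      ∑ n ∈ Finset.range M, ∑ p ∈ Finset.HasAntidiagonal.antidiagonal n, G p.1 p.2 := by
  rw [← Finset.sum_product']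
  have h1 : ∑ p ∈ Finset.range M ×ˢ Finset.range M, G p.1 p.2 =
      ∑ p ∈ (Finset.range M ×ˢ Finset.range M).filter (fun p => p.1 + p.2 < M), G p.1 p.2 := by
    rw [Finset.sum_filter]
    refine Finset.sum_congr rfl fun p _ => ?_
    split_ifs with hp
    · rfl
    · exact h _ _ (not_lt.mp hp)
  rw [h1, ← Finset.sum_fiberwise_of_maps_to (t := Finset.range M) (g := fun p => p.1 + p.2)]
  · refine Finset.sum_congr rfl fun n hn => ?_
    refine Finset.sum_congr ?_ fun _ _ => rfl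
    ext p
    simp only [Finset.mem_filter, Finset.mem_product, Finset.mem_range,
      Finset.HasAntidiagonal.mem_antidiagonal]
    rw [Finset.mem_range] at hn
    omega
  · intro p hp
    exact Finset.mem_range.mpr (Finset.mem_filter.mp hp).2

private theorem GTmap_nil {η : R} {M : ℕ} (h : η ^ M = 0) (i j r s : ℕ) (hrs : M ≤ r + s) :
    tc' η i r * tc' η j s = 0 := by
  have h0 : η ^ (r + s) = 0 := pow_eq_zero_of_le hrs h
  unfold tc'
  calc (-1) ^ (i + 1) * ((i + r).choose r : R) * η ^ (i + 1 + r) *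
        ((-1) ^ (j + 1) * ((j + s).choose s : R) * η ^ (j + 1 + s))
      = (-1) ^ (i + 1) * ((i + r).choose r : R) * ((-1) ^ (j + 1) * ((j + s).choose s : R)) *
        η ^ (i + 1 + (j + 1)) * η ^ (r + s) := by ring
    _ = 0 := by rw [h0, mul_zero]

/-- QB-05. `Hom_K(UP, A)` is a representation.  Proof: expand
`gt i x (gt j y f) w - gt j y (gt i x f) w` by `gt_apply`; the terms with one `ev` and one sum cancel
(scalars of `R` commute with everything); `ev (X i x) ev (X j y) - ..` gives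
`ev (X (i+j+1) ⁅x,y⁆) f w` by `X_mul`; the double sum is
`∑_{r,s<M} tc' i r * tc' j s • (f (phi s y (phi r x w)) - f (phi r x (phi s y w))) =
 - ∑ tc' i r * tc' j s • f (phi (r+s) ⁅x,y⁆ w)` (`phi_comm`), and this is
`- ∑_{n<M} tc' (i+j+1) n • f (phi n ⁅x,y⁆ w)` by `tc'_mul`, since the products
`tc' i r * tc' j s` with `r + s ≥ M` vanish (`η ^ M = 0`). -/
theorem gt_isRep {π : g →ₗ[K] A} (hπ : IsLieMap π) (ξ : g →ₗ[K] K) (u : R) {η : R} {M : ℕ}
    (hη : η ^ M = 0) :
    IsRep (K := K) (g := g) (A := Module.End K (UP K g →ₗ[K] A)) (gt κ hκ hπ ξ u η M) := by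
  intro i j x y
  refine LinearMap.ext fun f => LinearMap.ext fun w => ?_
  rw [Module.End.mul_apply, LinearMap.add_apply, LinearMap.add_apply, Module.End.mul_apply,
    gt_apply, gt_apply, gt_apply, gt_apply, gt_apply]
  set EX := ev hπ ξ u (X K g i x) with hEX
  set EY := ev hπ ξ u (X K g j y) with hEY
  have hE : EX * EY = EY * EX + ev hπ ξ u (X K g (i + j + 1) ⁅x, y⁆) := by
    rw [hEX, hEY, ← map_mul, ← map_mul, ← map_add, X_mul]
  have hL : ∀ r, tc' η i r • gt κ hκ hπ ξ u η M j y f (phi κ hκ r x w) =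
      EY * (tc' η i r • f (phi κ hκ r x w)) -
        ∑ s ∈ Finset.range M, (tc' η i r * tc' η j s) • f (phi κ hκ s y (phi κ hκ r x w)) := by
    intro r
    rw [gt_apply, smul_sub, Finset.smul_sum, ← hEY, mul_smul_comm]
    simp only [smul_smul]
  have hR : ∀ s, tc' η j s • gt κ hκ hπ ξ u η M i x f (phi κ hκ s y w) =
      EX * (tc' η j s • f (phi κ hκ s y w)) -
        ∑ r ∈ Finset.range M, (tc' η i r * tc' η j s) • f (phi κ hκ r x (phi κ hκ s y w)) := by
    intro s
    rw [gt_apply, smul_sub, Finset.smul_sum, ← hEX, mul_smul_comm]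
    simp only [smul_smul, mul_comm (tc' η j s)]
  simp only [hL, hR, Finset.sum_sub_distrib, ← Finset.mul_sum]
  have hD : ∑ r ∈ Finset.range M, ∑ s ∈ Finset.range M,
        (tc' η i r * tc' η j s) • f (phi κ hκ s y (phi κ hκ r x w)) =
      ∑ s ∈ Finset.range M, ∑ r ∈ Finset.range M,
        (tc' η i r * tc' η j s) • f (phi κ hκ r x (phi κ hκ s y w)) -
      ∑ n ∈ Finset.range M, tc' η (i + j + 1) n • f (phi κ hκ n ⁅x, y⁆ w) := by
    have h1 : ∑ n ∈ Finset.range M, tc' η (i + j + 1) n • f (phi κ hκ n ⁅x, y⁆ w) =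
        ∑ r ∈ Finset.range M, ∑ s ∈ Finset.range M,
          (tc' η i r * tc' η j s) • f (phi κ hκ (r + s) ⁅x, y⁆ w) := by
      rw [GTmap_sum M (fun r s => (tc' η i r * tc' η j s) • f (phi κ hκ (r + s) ⁅x, y⁆ w))
        (fun r s hrs => by rw [GTmap_nil hη i j r s hrs, zero_smul])]
      refine Finset.sum_congr rfl fun n _ => ?_
      rw [← tc'_mul, Finset.sum_smul]
      refine Finset.sum_congr rfl fun p hp => ?_
      rw [Finset.HasAntidiagonal.mem_antidiagonal.mp hp]
    rw [h1, Finset.sum_comm (s := Finset.range M) (t := Finset.range M)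
      (f := fun s r => (tc' η i r * tc' η j s) • f (phi κ hκ r x (phi κ hκ s y w))),
      ← Finset.sum_sub_distrib]
    refine Finset.sum_congr rfl fun r _ => ?_
    rw [← Finset.sum_sub_distrib]
    refine Finset.sum_congr rfl fun s _ => ?_
    rw [phi_comm κ hκ r s x y w, map_add, smul_add, add_sub_cancel_right]
  rw [hD, mul_sub, mul_sub, ← mul_assoc, ← mul_assoc, hE, add_mul]
  abel

/-- the two-point map -/
noncomputable def EE {π : g →ₗ[K] A} (hπ : IsLieMap π) (ξ : g →ₗ[K] K) (u v : R) {η : R} {M : ℕ}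
    (hη : η ^ M = 0) (a : UP K g) : UP K g →ₗ[K] A :=
  (lift (gt κ hκ hπ ξ u η M) (gt_isRep κ hκ hπ ξ u hη) a : Module.End K (UP K g →ₗ[K] A))
    (ev hπ ξ v).toLinearMap

theorem EE_one {π : g →ₗ[K] A} (hπ : IsLieMap π) (ξ : g →ₗ[K] K) (u v : R) {η : R} {M : ℕ}
    (hη : η ^ M = 0) (w : UP K g) : EE κ hκ hπ ξ u v hη 1 w = ev hπ ξ v w := by
  rw [EE, map_one]
  rfl

theorem EE_X {π : g →ₗ[K] A} (hπ : IsLieMap π) (ξ : g →ₗ[K] K) (u v : R) {η : R} {M : ℕ}
    (hη : η ^ M = 0) (i : ℕ) (x : g) (a w : UP K g) :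
    EE κ hκ hπ ξ u v hη (X K g i x * a) w = ev hπ ξ u (X K g i x) * EE κ hκ hπ ξ u v hη a w -
      ∑ r ∈ Finset.range M, tc' η i r • EE κ hκ hπ ξ u v hη a (phi κ hκ r x w) := by
  rw [EE, map_mul, lift_X, Module.End.mul_apply, gt_apply]
  rfl

theorem EE_add {π : g →ₗ[K] A} (hπ : IsLieMap π) (ξ : g →ₗ[K] K) (u v : R) {η : R} {M : ℕ}
    (hη : η ^ M = 0) (a b w : UP K g) :
    EE κ hκ hπ ξ u v hη (a + b) w = EE κ hκ hπ ξ u v hη a w + EE κ hκ hπ ξ u v hη b w := by
  rw [EE, map_add]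
  rfl

theorem EE_smul {π : g →ₗ[K] A} (hπ : IsLieMap π) (ξ : g →ₗ[K] K) (u v : R) {η : R} {M : ℕ}
    (hη : η ^ M = 0) (c : K) (a w : UP K g) :
    EE κ hκ hπ ξ u v hη (c • a) w = c • EE κ hκ hπ ξ u v hη a w := by
  rw [EE, map_smul]
  rfl

end Pool.Agent.helper74.QB
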