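import Mathlib

/-!
# QB-14. Powers of bilinear expressions in anticommuting variables and determinants
-/

set_option autoImplicit false

namespace Pool.Agent.helper74.QB

open Finset

private theorem half_zero {Q : Type*} [CommRing Q] [Algebra ℚ Q] {x : Q} (h : x = -x) : x = 0 := by
  have h2 : x + x = 0 := by
    nth_rewrite 1 [h]
    exact neg_add_cancel x
  have h3 : ((2 : ℚ)⁻¹) • (x + x) = x := by
    rw [← two_smul ℚ x, smul_smul]
    norm_num
  rw [← h3, h2, smul_zero]

private theorem add_pow_sq_zero {Q : Type*} [CommRing Q] {x y : Q} (hx : x * x = 0) (k : ℕ) :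
    (x + y) ^ (k + 1) = y ^ (k + 1) + ((k : Q) + 1) * (x * y ^ k) := by
  induction k with
  | zero => simp; ring
  | succ k ih =>
    rw [pow_succ, ih]
    have : (y ^ (k + 1) + ((k : Q) + 1) * (x * y ^ k)) * (x + y) =
      y ^ (k + 1 + 1) + (((k : Q) + 1) + 1) * (x * y ^ (k + 1)) +
        ((k : Q) + 1) * ((x * x) * y ^ k) := by ring
    rw [this, hx]
    push_cast
    ring

private theorem sum_pow_card {Q : Type*} [CommRing Q] {n : Type*} [DecidableEq n]
    (r : n → Q) (hr : ∀ i, r i * r i = 0) (s : Finset n) :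
    (∑ i ∈ s, r i) ^ s.card = (s.card.factorial : Q) * ∏ i ∈ s, r i ∧
      (∑ i ∈ s, r i) ^ (s.card + 1) = 0 := by
  induction s using Finset.induction_on with
  | empty => simp
  | insert a s ha ih =>
    obtain ⟨h1, h2⟩ := ih
    rw [Finset.sum_insert ha, Finset.card_insert_of_notMem ha, Finset.prod_insert ha]
    constructor
    · rw [add_pow_sq_zero (hr a), h2, h1, Nat.factorial_succ]
      push_cast
      ring
    · rw [add_pow_sq_zero (hr a), pow_succ (∑ i ∈ s, r i), h2]
      simp

private theorem prod_perm {Q : Type*} [CommRing Q] {n : Type*} [Fintype n] [DecidableEq n]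
    (μ : n → n → Q) (hμ : ∀ i j k l, μ i j * μ k l = - (μ i l * μ k j)) (σ : Equiv.Perm n) :
    ∏ i, μ i (σ i) = ((Equiv.Perm.sign σ : ℤ) : Q) * ∏ i, μ i i := by
  induction σ using Equiv.Perm.swap_induction_on' with
  | one => simp
  | mul_swap f x y hxy ih =>
    have hs : ((Equiv.Perm.sign (f * Equiv.swap x y) : ℤ) : Q) =
        -((Equiv.Perm.sign f : ℤ) : Q) := by
      rw [Equiv.Perm.sign_mul, Equiv.Perm.sign_swap hxy]
      push_cast
      ring
    rw [hs, neg_mul, ← ih]
    have hy : y ∈ (Finset.univ : Finset n).erase x := Finset.mem_erase.2 ⟨hxy.symm, Finset.mem_univ _⟩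
    rw [← Finset.mul_prod_erase Finset.univ (fun i => μ i ((f * Equiv.swap x y) i)) (Finset.mem_univ x),
      ← Finset.mul_prod_erase Finset.univ (fun i => μ i (f i)) (Finset.mem_univ x),
      ← Finset.mul_prod_erase _ (fun i => μ i ((f * Equiv.swap x y) i)) hy,
      ← Finset.mul_prod_erase _ (fun i => μ i (f i)) hy]
    have h3 : ∏ i ∈ (Finset.univ.erase x).erase y, μ i ((f * Equiv.swap x y) i) =
        ∏ i ∈ (Finset.univ.erase x).erase y, μ i (f i) := by
      refine Finset.prod_congr rfl fun i hi => ?_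
      have hiy : i ≠ y := (Finset.mem_erase.1 hi).1
      have hix : i ≠ x := (Finset.mem_erase.1 (Finset.mem_erase.1 hi).2).1
      rw [Equiv.Perm.mul_apply, Equiv.swap_apply_of_ne_of_ne hix hiy]
    rw [h3]
    simp only [Equiv.Perm.mul_apply, Equiv.swap_apply_left, Equiv.swap_apply_right]
    rw [← mul_assoc, ← mul_assoc, hμ x (f y) y (f x)]
    ring

/-- QB-14. `μ i j` stands for `a_i b_j` with anticommuting variables `a_i`, `b_j`.  Proof.
`μ i j * μ i l = 0`: by `hμ` with `k = i` it is `- μ i l * μ i j`, so twice it is zero.  Likewise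
`μ i j * μ k j = 0`.  Let `r i = ∑ j, M i j • μ i j`; `r i ^ 2 = 0`, the `r i` commute, hence
`(∑ i, r i) ^ N = N! ∏ i, r i`, `N = card n` (`Finset.sum_pow_of_commute` / the multinomial theorem
`Finset.sum_pow`, or induction: for a finset `s`, `(∑_{i ∈ s} r i) ^ (card s + 1) = 0` and
`(∑_{i ∈ s} r i) ^ card s = (card s)! ∏_{i ∈ s} r i`, by the binomial theorem).
`∏ i, r i = ∑_{f : n → n} (∏ M i (f i)) • ∏ μ i (f i)` (`Finset.prod_univ_sum`); if `f` is not injective
the product of the `μ i (f i)` vanishes; for a permutation `σ`, `∏ μ i (σ i) = sign σ • ∏ μ i i` (by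
`Equiv.Perm.swap_induction_on` and `hμ`).  Compare with `Matrix.det_apply`. -/
theorem gauss {Q : Type*} [CommRing Q] [Algebra ℚ Q] {n : Type*} [Fintype n] [DecidableEq n]
    (μ : n → n → Q) (hμ : ∀ i j k l, μ i j * μ k l = - (μ i l * μ k j)) (M : Matrix n n Q) :
    (∑ i, ∑ j, M i j * μ i j) ^ Fintype.card n =
      ((Fintype.card n).factorial : Q) * M.det * ∏ i, μ i i := by
  have h1 : ∀ i j l, μ i j * μ i l = 0 := by
    intro i j l
    apply half_zero
    have h := hμ i j i l
    rw [mul_comm (μ i l) (μ i j)] at h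
    exact h
  have h2 : ∀ i k j, μ i j * μ k j = 0 := fun i k j => half_zero (hμ i j k j)
  have hr : ∀ i, (∑ j, M i j * μ i j) * (∑ j, M i j * μ i j) = 0 := by
    intro i
    rw [Finset.sum_mul_sum]
    refine Finset.sum_eq_zero fun j _ => Finset.sum_eq_zero fun l _ => ?_
    have : M i j * μ i j * (M i l * μ i l) = M i j * M i l * (μ i j * μ i l) := by ring
    rw [this, h1, mul_zero]
  have h3 := (sum_pow_card (fun i => ∑ j, M i j * μ i j) hr Finset.univ).1
  rw [Finset.card_univ] at h3
  rw [h3, mul_assoc]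
  congr 1
  rw [Finset.prod_univ_sum, Fintype.piFinset_univ, ← Matrix.det_transpose, Matrix.det_apply',
    Finset.sum_mul]
  calc ∑ f : n → n, ∏ i, M i (f i) * μ i (f i)
      = ∑ f ∈ (Finset.univ : Finset (n → n)).filter Function.Bijective,
          ∏ i, M i (f i) * μ i (f i) := by
        refine (Finset.sum_subset (Finset.filter_subset _ _) fun f _ hf => ?_).symm
        have hf' : ¬ Function.Injective f := by
          intro h
          exact hf (Finset.mem_filter.2 ⟨Finset.mem_univ _, Finite.injective_iff_bijective.1 h⟩)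
        simp only [Function.Injective, not_forall] at hf'
        obtain ⟨i, k, hik, hne⟩ := hf'
        have hk : k ∈ (Finset.univ : Finset n).erase i :=
          Finset.mem_erase.2 ⟨fun h => hne h.symm, Finset.mem_univ _⟩
        rw [← Finset.mul_prod_erase Finset.univ _ (Finset.mem_univ i),
          ← Finset.mul_prod_erase _ _ hk]
        have : ∀ P : Q, M i (f i) * μ i (f i) * (M k (f k) * μ k (f k) * P) =
            M i (f i) * M k (f k) * P * (μ i (f i) * μ k (f k)) := fun P => by ring
        rw [this, hik, h2, mul_zero]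
    _ = ∑ σ : Equiv.Perm n, ∏ i, M i (σ i) * μ i (σ i) :=
        Finset.sum_bij (fun p h => Equiv.ofBijective p (Finset.mem_filter.1 h).2)
          (fun _ _ => Finset.mem_univ _)
          (fun _ _ _ _ h => by injection h)
          (fun b _ => ⟨b, Finset.mem_filter.2 ⟨Finset.mem_univ _, b.bijective⟩,
            Equiv.coe_fn_injective rfl⟩) fun _ _ => rfl
    _ = _ := by
        refine Finset.sum_congr rfl fun σ _ => ?_
        rw [Finset.prod_mul_distrib, prod_perm μ hμ σ]
        simp only [Matrix.transpose_apply]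
        ring

end Pool.Agent.helper74.QB
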