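import Pool.Agent.helper74.QB.CalcD

/-!
# QB-28. The ideal generated by the variables of a block

`par : n → Bool`; `qI m S` is the ideal of `C` generated by the `m v w` with `w ∈ S`.
-/

set_option autoImplicit false

namespace Pool.Agent.helper74.QB

open Finset Matrix

variable {K : Type*} [Field K] [CharZero K] {C : Type*} [CommRing C] [Algebra K C]

/-- the ideal generated by the `m v w` with `w ∈ S` -/
def qI {V : Type*} (m : V → V → C) (S : Finset V) : Ideal C :=
  Ideal.span {c | ∃ v, ∃ w ∈ S, c = m v w}

/-- the ideal generated by products of `k` variables with different second indices in `S` -/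
private def QIdeal_J {V : Type*} [DecidableEq V] (m : V → V → C) (S : Finset V) (k : ℕ) :
    Ideal C :=
  Ideal.span {c | ∃ T : Finset V, T ⊆ S ∧ T.card = k ∧ ∃ f : V → V, c = ∏ w ∈ T, m (f w) w}

variable (K) in
include K in
private theorem QIdeal_sq {V : Type*} {m : V → V → C} (hanti : ∀ v w, m w v = - m v w)
    (hcyc : ∀ a b c d, m a b * m c d = m b c * m a d) (v v' w : V) : m v w * m v' w = 0 := by
  have h1 : m v w * m v' w = - (m v w * m v' w) := by
    conv_lhs => rw [hcyc v w v' w, hanti v' w]
    ring
  have h2 : (2 : K) • (m v w * m v' w) = 0 := by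
    rw [two_smul]
    nth_rewrite 1 [h1]
    exact neg_add_cancel _
  have h3 := congrArg (fun z => (2 : K)⁻¹ • z) h2
  simpa only [smul_smul, inv_mul_cancel₀ (two_ne_zero' K), one_smul, smul_zero] using h3

variable (K) in
include K in
private theorem QIdeal_pow_le {V : Type*} [DecidableEq V] {m : V → V → C}
    (hanti : ∀ v w, m w v = - m v w) (hcyc : ∀ a b c d, m a b * m c d = m b c * m a d)
    (S : Finset V) (k : ℕ) : qI m S ^ k ≤ QIdeal_J m S k := by
  induction k with
  | zero =>
    rw [pow_zero, Ideal.one_eq_top, top_le_iff, Ideal.eq_top_iff_one]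
    refine Ideal.subset_span ⟨∅, empty_subset _, card_empty, fun v => v, ?_⟩
    rw [prod_empty]
  | succ k ih =>
    rw [pow_succ]
    refine (Ideal.mul_mono_left ih).trans ?_
    unfold QIdeal_J qI
    rw [Ideal.span_mul_span', Ideal.span_le]
    rintro _ ⟨_, ⟨T, hTS, hTc, f, rfl⟩, _, ⟨v, w, hw, rfl⟩, rfl⟩
    by_cases hwT : w ∈ T
    · have h0 : (∏ w ∈ T, m (f w) w) * m v w = 0 := by
        rw [← mul_prod_erase T (fun w => m (f w) w) hwT]
        have h1 := QIdeal_sq K hanti hcyc (f w) v w
        rw [mul_right_comm, h1, zero_mul]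
      show (∏ w ∈ T, m (f w) w) * m v w ∈ _
      rw [h0]
      exact Ideal.zero_mem _
    · refine Ideal.subset_span ⟨insert w T, insert_subset hw hTS, ?_, Function.update f w v, ?_⟩
      · rw [card_insert_of_notMem hwT, hTc]
      · show (∏ w ∈ T, m (f w) w) * m v w = _
        rw [prod_insert hwT, Function.update_self, mul_comm]
        congr 1
        refine prod_congr rfl fun x hx => ?_
        rw [Function.update_of_ne]
        rintro rfl
        exact hwT hx

variable (K) in
include K in
/-- QB-28a. Proof: `m v w * m v' w = 0` for all `v v' w` (by `cyc` and `anti` it is its own negative, and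
`2` is invertible).  The power of the ideal is spanned by the products of `card S + 1` generators
(`Ideal.span_pow_eq_..`/`Submodule.pow_..`, or induction); by the pigeonhole principle two of the second
indices agree. -/
theorem qI_pow {V : Type*} [DecidableEq V] {m : V → V → C} (hanti : ∀ v w, m w v = - m v w)
    (hcyc : ∀ a b c d, m a b * m c d = m b c * m a d) (S : Finset V) :
    qI m S ^ (S.card + 1) = ⊥ := by
  rw [← le_bot_iff]
  refine (QIdeal_pow_le K hanti hcyc S (S.card + 1)).trans ?_
  unfold QIdeal_J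
  rw [Ideal.span_le]
  rintro _ ⟨T, hTS, hTc, -⟩
  have := card_le_card hTS
  omega

variable {n J : Type*} [Fintype n] [DecidableEq n] [Fintype J] [DecidableEq J]

/-- the variables of the block `par i = true` -/
def blk (J : Type*) [Fintype J] (par : n → Bool) : Finset (n × J) :=
  univ.filter fun v => par v.1 = true

variable {m : n × J → n × J → C} (hanti : ∀ v w, m w v = - m v w) (par : n → Bool)
  {E τ : Matrix J J C}

include hanti in
/-- QB-28b. -/
theorem FF_mem (k : ℕ) {i j : n} (h : par i = true ∨ par j = true) :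
    FF m E τ (k + 1) i j ∈ qI m (blk J par) := by
  show (∑ p, ∑ q, ((E * τ) ^ k * E) p q * m (i, p) (j, q)) ∈ _
  refine Ideal.sum_mem _ fun p _ => Ideal.sum_mem _ fun q _ => Ideal.mul_mem_left _ _ ?_
  rcases h with h | h
  · rw [hanti (j, q) (i, p)]
    refine neg_mem (Ideal.subset_span ⟨(j, q), (i, p), ?_, rfl⟩)
    exact mem_filter.mpr ⟨mem_univ _, h⟩
  · refine Ideal.subset_span ⟨(i, p), (j, q), ?_, rfl⟩
    exact mem_filter.mpr ⟨mem_univ _, h⟩

include hanti in
/-- QB-28c. Proof: `hh` is a sum of the `(p+1) F_{p+1} F_qᵀ`; for `q = 0` use `FF_mem`; for `q ≥ 1` the entry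
`(i, j)` of `F_{p+1} F_qᵀ` is `∑_l (F_{p+1})_{il} (F_q)_{jl}`. -/
theorem hh_mem (k : ℕ) {i j : n} (h : par i = true ∨ par j = true) :
    hh (FF m E τ) (fun l => (FF m E τ l)ᵀ) k i j ∈ qI m (blk J par) := by
  unfold hh
  rw [Matrix.sum_apply]
  refine Ideal.sum_mem _ fun p _ => ?_
  have hcast : ∀ (c : ℕ) (M N : Matrix n n C), (((c : ℕ) : Matrix n n C) * M * N) i j
      = (c : C) * (M * N) i j := by
    intro c M N
    rw [mul_assoc, ← nsmul_eq_mul, Matrix.smul_apply, nsmul_eq_mul]
  rw [hcast]
  refine Ideal.mul_mem_left _ _ ?_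
  rw [Matrix.mul_apply]
  refine Ideal.sum_mem _ fun l _ => ?_
  rcases h with h | h
  · exact Ideal.mul_mem_right _ _ (FF_mem hanti par p.1 (Or.inl h))
  · cases hq : p.2 with
    | zero =>
      show FF m E τ (p.1 + 1) i l * ((1 : Matrix n n C)ᵀ) l j ∈ _
      rw [Matrix.transpose_one]
      by_cases hl : l = j
      · subst hl
        exact Ideal.mul_mem_right _ _ (FF_mem hanti par p.1 (Or.inr h))
      · rw [Matrix.one_apply_ne hl, mul_zero]
        exact Ideal.zero_mem _
    | succ q =>
      refine Ideal.mul_mem_left _ _ ?_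
      exact FF_mem hanti par q (Or.inl h)

end Pool.Agent.helper74.QB
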