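import Pool.Agent.helper74.QB.Rev2
import Pool.Agent.helper74.QB.QIdeal
import Pool.Agent.helper74.QB.Deg

/-!
# QB-34. The limits for the pairs `(so_{p+q}, so_p × so_q)`
-/

set_option autoImplicit false

namespace Pool.Agent.helper74.QB

open Finset Matrix LieAlgebra.Orthogonal Pool.Agent.helper5.AS Pool.Agent.helper49.QA
open Pool.Agent.helper5.ASQ (Invol even oddc brk IsContraction)

variable {K : Type*} [Field K] [CharZero K] {n : Type*} [Fintype n] [DecidableEq n]
variable {θ : Invol K (so n K)} {par : n → Bool}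
variable {k : Type*} [LieRing k] [LieAlgebra K k]
variable {C : Type*} [CommRing C] [Algebra K C]

/-- the size of the block `par i = true` -/
def blkCard (par : n → Bool) : ℕ := (univ.filter fun i => par i = true).card

omit [CharZero K] in
theorem LimBD_RS_succ {g : Type*} [LieRing g] [LieAlgebra K g] (θ : Invol K g) {B : Type*}
    [Ring B] [Algebra K B] (p : g →ₗ[K] B) (f : g →ₗ[K] K) (i : ℕ) (x : g) :
    RS θ p f (XT K g (i + 1) x) = 0 := by
  rw [RS, liftT_XT, rS, if_neg (Nat.succ_ne_zero i), LinearMap.zero_apply]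

theorem LimBD_negA {S : Type*} [CommRing S] (w : S) (d : ℕ) :
    (Polynomial.X : Polynomial S) ^ d * Polynomial.C (-w) =
      -((Polynomial.X : Polynomial S) ^ d * Polynomial.C w) := by
  rw [Polynomial.C_neg, mul_neg]

theorem LimBD_negB {R : Type*} [CommRing R] (u v : R) :
    Polynomial.C (-u) + Polynomial.X * Polynomial.C (-v) =
      -(Polynomial.C u + Polynomial.X * Polynomial.C v) := by
  rw [Polynomial.C_neg, Polynomial.C_neg, mul_neg, neg_add]

theorem LimBD_neg3 {R : Type*} [CommRing R] (u v : R) (d : ℕ) :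
    (Polynomial.X : Polynomial (Polynomial R)) ^ d *
      Polynomial.C (Polynomial.C (-u) + Polynomial.X * Polynomial.C (-v)) =
      -((Polynomial.X : Polynomial (Polynomial R)) ^ d *
        Polynomial.C (Polynomial.C u + Polynomial.X * Polynomial.C v)) := by
  rw [LimBD_negB]
  exact LimBD_negA (S := Polynomial R) _ d

theorem LimBD_evp {S : Type*} [CommRing S] {d : ℕ} (hd : Even d) (p : Polynomial S) :
    (-1) ^ d * p = p := by
  rw [hd.neg_one_pow, one_mul]

theorem LimBD_odp {S : Type*} [CommRing S] {d : ℕ} (hd : Odd d) (p : Polynomial S) (b : ℕ) :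
    ((-1) ^ d * p).coeff b = - p.coeff b := by
  rw [hd.neg_one_pow, neg_one_mul, Polynomial.coeff_neg]

theorem LimBD_dI {n : Type*} (par : n → Bool) (i j : n) : dI par i j = dI par j i := by
  unfold dI
  by_cases h : par i = par j
  · rw [if_pos h, if_pos h.symm]
  · rw [if_neg h, if_neg (Ne.symm h)]

omit [CharZero K] in
theorem LimBD_fix (hθ : IsPar θ par) {a b : n} (hab : par a = par b) :
    θ.hom (Y0 K n (single a b 1)) = Y0 K n (single a b 1) := by
  rw [hθ, if_pos hab, one_smul]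

omit [CharZero K] in
theorem LimBD_neg (hθ : IsPar θ par) {a b : n} (hab : par a ≠ par b) :
    θ.hom (Y0 K n (single a b 1)) = - Y0 K n (single a b 1) := by
  rw [hθ, if_neg hab, neg_one_smul]

omit [CharZero K] in
theorem LimBD_Phi0 (hθ : IsPar θ par) {B : Type*} [Ring B] [Algebra K B]
    (p : so n K →ₗ[K] B) (f : so n K →ₗ[K] K) (i : ℕ) (a b : n) (hab : par a = par b) (j : ℕ)
    (hj : j ≠ 0) : (RT θ p f (XT K (so n K) i (Y0 K n (single a b 1)))).coeff j = 0 := by
  have h1 := Pool.Agent.helper5.ASQ.oddc_of_fix θ (LimBD_fix hθ hab)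
  rw [RT, liftT_XT, rT]
  have h2 : (odL θ) (Y0 K n (single a b 1)) = 0 := h1
  split_ifs with hi
  · simp only [LinearMap.add_apply, LinearMap.comp_apply, h2, map_zero, add_zero, mon2_apply,
      Polynomial.coeff_add, Polynomial.coeff_monomial, if_neg (Ne.symm hj)]
  · simp only [LinearMap.add_apply, LinearMap.comp_apply, h2, map_zero, add_zero, mon2_apply,
      Polynomial.coeff_monomial, if_neg (Ne.symm hj)]

omit [CharZero K] in
theorem LimBD_Phi1 (hθ : IsPar θ par) {B : Type*} [Ring B] [Algebra K B]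
    (p : so n K →ₗ[K] B) (f : so n K →ₗ[K] K) (i : ℕ) (a b : n) (hab : par a ≠ par b) (j : ℕ)
    (hj : j ≠ 1) : (RT θ p f (XT K (so n K) i (Y0 K n (single a b 1)))).coeff j = 0 := by
  have h1 := Pool.Agent.helper5.ASQ.even_of_neg θ (LimBD_neg hθ hab)
  rw [RT, liftT_XT, rT]
  have h2 : (evL θ) (Y0 K n (single a b 1)) = 0 := h1
  split_ifs with hi
  · simp only [LinearMap.add_apply, LinearMap.comp_apply, h2, map_zero, zero_add, mon2_apply,
      Polynomial.coeff_add, Polynomial.coeff_monomial, if_neg (Ne.symm hj), add_zero]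
  · simp only [LinearMap.add_apply, LinearMap.comp_apply, h2, map_zero, zero_add, mon2_apply,
      Polynomial.coeff_monomial, if_neg (Ne.symm hj), add_zero]

theorem LimBD_or {a b : Bool} (h : a ≠ b) : a = true ∨ b = true := by
  cases a <;> cases b <;> simp_all

theorem LimBD_SV {μ : K} (γ : Gr2 K (n × Fin 2) C μ)
    (hlam : γ.lam (∏ i : n, γ.m (i, 0) (i, 1)) = 1) {N c : ℕ} (hNc : N + c = Fintype.card n)
    {B : Type*} [CommRing B] [Algebra K B] (Φ : TP K (so n K) →ₐ[K] B)
    (hΦ : ∀ (i : ℕ) (x : so n K), Φ (XT K (so n K) (i + 1) x) = 0) :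
    Φ (lamB (γ.lamth N) (PsiT (hso γ.F) c)) = ((N.factorial : K) * 2 ^ c) •
      (gd (fun i j => Φ (XT K (so n K) 0 (Y0 K n (single i j 1))))).coeff c := by
  rw [← lamB_EvC]
  exact γ.lamB_PsiT hlam hNc Φ hΦ

theorem LimBD_PV {P : Type} [Fintype P] [DecidableEq P]
    (γ : Gr K (n × Fin 1) C) (e' : P × Fin 2 ≃ n)
    (hI : γ.I (∏ p : P, γ.m (e' (p, 0), 0) (e' (p, 1), 0)) = 1)
    {B : Type*} [CommRing B] [Algebra K B] (Φ : TP K (so n K) →ₐ[K] B)
    (hΦ : ∀ (i : ℕ) (x : so n K), Φ (XT K (so n K) (i + 1) x) = 0) :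
    Φ (lamB γ.I (PsiT (hso γ.F) (Fintype.card P))) = (((Fintype.card P).factorial : K)⁻¹) •
      pfs e' (fun i j => Φ (XT K (so n K) 0 (Y0 K n (single i j 1)))) := by
  rw [← lamB_EvC]
  exact γ.lamB_PsiT e' hI Φ hΦ

/-- the degree bound for both types -/
theorem LimBD_deg {J : Type*} [Fintype J] [DecidableEq J] {m : n × J → n × J → C}
    (hanti : ∀ v w, m w v = - m v w) (hcyc : ∀ a b c d, m a b * m c d = m b c * m a d)
    (E τ : Matrix J J C) (lam : C →ₗ[K] K) (hθ : IsPar θ par)
    (f : so n K →ₗ[K] K) (c a : ℕ) :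
    (swc a (RT θ (TensorAlgebra.ι K) f
      (lamB lam (PsiT (hso (FF m E τ)) c)))).natDegree ≤ min c (blk J par).card := by
  rw [Polynomial.natDegree_le_iff_coeff_eq_zero]
  intro j hj
  rw [swc_coeff, ← lamB_EvC]
  have h1 := coeff_lamB_eq_zero (C := C) par (RT θ (TensorAlgebra.ι K) f)
    (LimBD_Phi0 hθ _ f) (LimBD_Phi1 hθ _ f)
    (fun i => hh (FF m E τ) (fun l => (FF m E τ l)ᵀ) i) (qI m (blk J par))
    (fun i a b hab => hh_mem hanti par i (LimBD_or hab)) (blk J par).card
    (qI_pow K hanti hcyc _) lam c j hj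
  have h2 : (fun i => pr (K := K) (hh (FF m E τ) (fun l => (FF m E τ l)ᵀ) i)) =
      hso (FF m E τ) := rfl
  rw [h2] at h1
  rw [h1, Polynomial.coeff_zero]

omit [DecidableEq n] in
theorem LimBD_card (J : Type*) [Fintype J] [DecidableEq J] (par : n → Bool) :
    (blk J par).card = blkCard par * Fintype.card J := by
  have h : blk J par = (univ.filter fun i => par i = true) ×ˢ (univ : Finset J) := by
    ext ⟨i, j⟩
    simp [blk]
  rw [h, card_product, card_univ]
  rfl

/-- QB-34a. Proof: `lamB_EvC`, `lamB_PsiT` (with `Φ = RS θ (ιS ∘ e) f`; `RS` kills `XT (i+1) x`),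
`RS_letter`, `gd_rev2`, `shift_scS_ek`; the transposition of the matrix: `gd_transpose`, `dI` is
symmetric. -/
theorem RS_SV {μ : K} (γ : Gr2 K (n × Fin 2) C μ)
    (hlam : γ.lam (∏ i : n, γ.m (i, 0) (i, 1)) = 1) {N c : ℕ} (hNc : N + c = Fintype.card n)
    (hθ : IsPar θ par) (e : so n K →ₗ[K] k) (ξ : k →ₗ[K] K) (b m : ℕ) (hm : m ≤ c) :
    ((RS θ (ιS K k ∘ₗ e) (ξ ∘ₗ e)
      (lamB (γ.lamth N) (PsiT (hso γ.F) c))).coeff b).coeff (c - m) =
      ((N.factorial : K) * 2 ^ c) •
        (shift ξ (smap e ((scS θ (ek c (XM0 K n))).coeff b))).coeff m := by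
  have hM : (fun i j => RS θ (ιS K k ∘ₗ e) (ξ ∘ₗ e)
      (XT K (so n K) 0 (Y0 K n (single i j 1)))) =
      (of fun i i' => (Polynomial.X : Polynomial (Polynomial (Sy K k))) ^ dI par i i' *
        Polynomial.C (Polynomial.X * Polynomial.C (ιS K k (e (Y0 K n (single i i' 1)))) +
          Polynomial.C (algebraMap K (Sy K k) (ξ (e (Y0 K n (single i i' 1))))))) := by
    funext i j
    exact RS_letter hθ e (ξ ∘ₗ e) i j
  have h2 := gd_rev2 (R := Sy K k) (of fun i i' => ιS K k (e (Y0 K n (single i i' 1))))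
    (of fun i i' => algebraMap K (Sy K k) (ξ (e (Y0 K n (single i i' 1))))) (dI par) hm b
  simp only [of_apply] at h2
  have h3 : (of fun i i' => (Polynomial.X : Polynomial (Polynomial (Sy K k))) ^ dI par i i' *
        Polynomial.C (Polynomial.C (ιS K k (e (Y0 K n (single i' i 1)))) +
          Polynomial.X * Polynomial.C (algebraMap K (Sy K k)
            (ξ (e (Y0 K n (single i' i 1))))))) =
      (of fun i i' => (Polynomial.X : Polynomial (Polynomial (Sy K k))) ^ dI par i i' *
        Polynomial.C (Polynomial.C (ιS K k (e (Y0 K n (single i i' 1)))) +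
          Polynomial.X * Polynomial.C (algebraMap K (Sy K k)
            (ξ (e (Y0 K n (single i i' 1)))))))ᵀ := by
    ext1 i j
    rw [transpose_apply, of_apply, of_apply, LimBD_dI par i j]
  have h5 : RS θ (ιS K k ∘ₗ e) (ξ ∘ₗ e) (lamB (γ.lamth N) (PsiT (hso γ.F) c)) =
      ((N.factorial : K) * 2 ^ c) • (gd (of fun i i' =>
        (Polynomial.X : Polynomial (Polynomial (Sy K k))) ^ dI par i i' *
        Polynomial.C (Polynomial.X * Polynomial.C (ιS K k (e (Y0 K n (single i i' 1)))) +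
          Polynomial.C (algebraMap K (Sy K k) (ξ (e (Y0 K n (single i i' 1)))))))).coeff c := by
    rw [← hM]
    exact LimBD_SV (B := Polynomial (Polynomial (Sy K k))) γ hlam hNc
      (RS θ (ιS K k ∘ₗ e) (ξ ∘ₗ e)) (fun i x => LimBD_RS_succ θ _ _ i x)
  rw [shift_scS_ek hθ, h3, gd_transpose, ← h2, h5, Polynomial.coeff_smul,
    Polynomial.coeff_smul]

/-- QB-34b. the same for the Pfaffian type vector -/
theorem RS_PV {P : Type} [Fintype P] [DecidableEq P]
    (γ : Gr K (n × Fin 1) C) (e' : P × Fin 2 ≃ n)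
    (hI : γ.I (∏ p : P, γ.m (e' (p, 0), 0) (e' (p, 1), 0)) = 1)
    (hθ : IsPar θ par) (e : so n K →ₗ[K] k) (ξ : k →ₗ[K] K) (b m : ℕ)
    (hm : m ≤ Fintype.card P) :
    ((RS θ (ιS K k ∘ₗ e) (ξ ∘ₗ e)
      (lamB γ.I (PsiT (hso γ.F) (Fintype.card P)))).coeff b).coeff (Fintype.card P - m) =
      (((Fintype.card P).factorial : K)⁻¹ * (-1) ^ Fintype.card P) •
        (shift ξ (smap e ((scS θ (pfn e' (XM0 K n))).coeff b))).coeff m := by
  have hM : (fun i j => RS θ (ιS K k ∘ₗ e) (ξ ∘ₗ e)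
      (XT K (so n K) 0 (Y0 K n (single i j 1)))) =
      (of fun i i' => (Polynomial.X : Polynomial (Polynomial (Sy K k))) ^ dI par i i' *
        Polynomial.C (Polynomial.X * Polynomial.C (ιS K k (e (Y0 K n (single i i' 1)))) +
          Polynomial.C (algebraMap K (Sy K k) (ξ (e (Y0 K n (single i i' 1))))))) := by
    funext i j
    exact RS_letter hθ e (ξ ∘ₗ e) i j
  have h2 := pfs_rev2 (R := Sy K k) e' (of fun i i' => ιS K k (e (Y0 K n (single i i' 1))))
    (of fun i i' => algebraMap K (Sy K k) (ξ (e (Y0 K n (single i i' 1))))) (dI par) hm b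
  simp only [of_apply] at h2
  have hY : ∀ i j : n, Y0 K n (single j i 1) = - Y0 K n (single i j 1) := by
    intro i j
    rw [← Y0_transpose, transpose_single]
  have h3 : (of fun i i' => (Polynomial.X : Polynomial (Polynomial (Sy K k))) ^ dI par i i' *
        Polynomial.C (Polynomial.C (ιS K k (e (Y0 K n (single i' i 1)))) +
          Polynomial.X * Polynomial.C (algebraMap K (Sy K k)
            (ξ (e (Y0 K n (single i' i 1))))))) =
      - (of fun i i' => (Polynomial.X : Polynomial (Polynomial (Sy K k))) ^ dI par i i' *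
        Polynomial.C (Polynomial.C (ιS K k (e (Y0 K n (single i i' 1)))) +
          Polynomial.X * Polynomial.C (algebraMap K (Sy K k)
            (ξ (e (Y0 K n (single i i' 1))))))) := by
    ext1 i j
    rw [Matrix.neg_apply, of_apply, of_apply, hY i j]
    rw [map_neg e, map_neg (ιS K k), map_neg ξ, map_neg (algebraMap K (Sy K k))]
    exact LimBD_neg3 _ _ _
  have h5 : RS θ (ιS K k ∘ₗ e) (ξ ∘ₗ e)
      (lamB γ.I (PsiT (hso γ.F) (Fintype.card P))) =
      (((Fintype.card P).factorial : K)⁻¹) • (pfs e' (of fun i i' =>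
        (Polynomial.X : Polynomial (Polynomial (Sy K k))) ^ dI par i i' *
        Polynomial.C (Polynomial.X * Polynomial.C (ιS K k (e (Y0 K n (single i i' 1)))) +
          Polynomial.C (algebraMap K (Sy K k) (ξ (e (Y0 K n (single i i' 1)))))))) := by
    rw [← hM]
    exact LimBD_PV (B := Polynomial (Polynomial (Sy K k))) γ e' hI
      (RS θ (ιS K k ∘ₗ e) (ξ ∘ₗ e)) (fun i x => LimBD_RS_succ θ _ _ i x)
  rw [shift_scS_pfn hθ, h3, pfs_neg, h5, Polynomial.coeff_smul, Polynomial.coeff_smul, h2]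
  rcases Nat.even_or_odd (Fintype.card P) with hev | hod
  · have a1 : ((-1 : K)) ^ Fintype.card P = 1 := hev.neg_one_pow
    rw [a1, mul_one]
    exact congrArg (fun t : Polynomial (Polynomial (Sy K k)) =>
      (((Fintype.card P).factorial : K)⁻¹) • (t.coeff b).coeff m)
      (LimBD_evp (S := Polynomial (Sy K k)) hev _).symm
  · have a1 : ((-1 : K)) ^ Fintype.card P = -1 := hod.neg_one_pow
    rw [a1, mul_neg_one]
    refine Eq.trans ?_ (congrArg (fun t : Polynomial (Sy K k) =>
      (-((Fintype.card P).factorial : K)⁻¹) • t.coeff m)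
      (LimBD_odp (S := Polynomial (Sy K k)) hod _ b).symm)
    rw [Polynomial.coeff_neg, smul_neg, neg_smul, neg_neg]

/-- QB-34c. the degree in `e`.  Proof: `coeff_lamB_eq_zero` with `H i = hh F Fᵀ i`, `𝔮 = qI m (blk ..)`
(`hh_mem`, `qI_pow`; the number of variables of the block is `2 * blkCard par`), `Φ = RT θ ι f`;
the conditions on `Φ` follow from `IsPar`; `lamB_EvC`, `swc_coeff`. -/
theorem deg_SV {μ : K} (γ : Gr2 K (n × Fin 2) C μ) (hθ : IsPar θ par)
    (f : so n K →ₗ[K] K) (N c a : ℕ) :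
    (swc a (RT θ (TensorAlgebra.ι K) f
      (lamB (γ.lamth N) (PsiT (hso γ.F) c)))).natDegree ≤ min c (2 * blkCard par) := by
  have h := LimBD_deg γ.anti γ.cyc (Gr2.E C) γ.tau (γ.lamth N) hθ f c a
  rw [LimBD_card, Fintype.card_fin, mul_comm (blkCard par)] at h
  exact h

/-- QB-34d. -/
theorem deg_PV (γ : Gr K (n × Fin 1) C) (hθ : IsPar θ par)
    (f : so n K →ₗ[K] K) (c a : ℕ) :
    (swc a (RT θ (TensorAlgebra.ι K) f
      (lamB γ.I (PsiT (hso γ.F) c)))).natDegree ≤ min c (blkCard par) := by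
  have h := LimBD_deg γ.anti γ.cyc 1 0 γ.I hθ f c a
  rw [LimBD_card, Fintype.card_fin, mul_one] at h
  exact h

end Pool.Agent.helper74.QB
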