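import Pool.Agent.helper74.QB.PsiT
import Pool.Agent.helper74.QB.Symb
import Pool.Agent.helper49.QA.Lim

/-!
# QB-32. Evaluation with a contraction parameter

`θ` is an involution of `g`, `x = x_0 + x_1`.  `RT θ p f : TP → B[X][X]` (outer variable `e`, inner
variable `u`) sends `X i x` to `u^(i+1) (p x_0 + e p x_1) + δ_{i0} (f x_0 + e f x_1)`.
-/

set_option autoImplicit false

namespace Pool.Agent.helper74.QB

open Polynomial Pool.Agent.helper5.AS Pool.Agent.helper49.QA
open Pool.Agent.helper5.ASQ (Invol even oddc brk IsContraction)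

variable {K : Type*} [Field K] {g : Type*} [LieRing g] [LieAlgebra K g] (θ : Invol K g)
variable {B : Type*} [Ring B] [Algebra K B]

/-- the even part, as a linear map -/
noncomputable def evL : g →ₗ[K] g where
  toFun := even θ
  map_add' := Pool.Agent.helper5.ASQ.even_add θ
  map_smul' := Pool.Agent.helper5.ASQ.even_smul θ

/-- the odd part, as a linear map -/
noncomputable def odL : g →ₗ[K] g where
  toFun := oddc θ
  map_add' := Pool.Agent.helper5.ASQ.oddc_add θ
  map_smul' := Pool.Agent.helper5.ASQ.oddc_smul θ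

@[simp] theorem evL_apply (x : g) : evL θ x = even θ x := rfl
@[simp] theorem odL_apply (x : g) : odL θ x = oddc θ x := rfl

/-- the monomial `a ↦ a u^i e^j` as a linear map -/
noncomputable def mon2 (i j : ℕ) : B →ₗ[K] B[X][X] :=
  ((Polynomial.monomial j : B[X] →ₗ[B[X]] B[X][X]).restrictScalars K) ∘ₗ
    ((Polynomial.monomial i : B →ₗ[B] B[X]).restrictScalars K)

theorem mon2_apply (i j : ℕ) (b : B) :
    mon2 (K := K) i j b = monomial j (monomial i b) := rfl

/-- the letters -/
noncomputable def rT (p : g →ₗ[K] B) (f : g →ₗ[K] K) (i : ℕ) : g →ₗ[K] B[X][X] :=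
  mon2 (i + 1) 0 ∘ₗ p ∘ₗ evL θ + mon2 (i + 1) 1 ∘ₗ p ∘ₗ odL θ +
    (if i = 0 then mon2 0 0 ∘ₗ (Algebra.linearMap K B) ∘ₗ f ∘ₗ evL θ +
      mon2 0 1 ∘ₗ (Algebra.linearMap K B) ∘ₗ f ∘ₗ odL θ else 0)

/-- the evaluation -/
noncomputable def RT (p : g →ₗ[K] B) (f : g →ₗ[K] K) : TP K g →ₐ[K] B[X][X] :=
  liftT (rT θ p f)

/-- the letters of the commutative evaluation -/
noncomputable def rS (p : g →ₗ[K] B) (f : g →ₗ[K] K) (i : ℕ) : g →ₗ[K] B[X][X] :=
  if i = 0 then rT θ p f 0 else 0

/-- the commutative evaluation -/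
noncomputable def RS (p : g →ₗ[K] B) (f : g →ₗ[K] K) : TP K g →ₐ[K] B[X][X] :=
  liftT (rS θ p f)

/-- the coefficient of `u^a`, as a polynomial in `e` -/
noncomputable def swc (a : ℕ) (q : B[X][X]) : B[X] := q.sum fun j c => monomial j (c.coeff a)

private theorem RT_coeff_mono_mul {A : Type*} [Semiring A] (n : ℕ) (r : A) (q : A[X]) (a : ℕ) :
    (monomial n r * q).coeff a = if n ≤ a then r * q.coeff (a - n) else 0 := by
  rw [← C_mul_X_pow_eq_monomial, mul_assoc, coeff_C_mul, coeff_X_pow_mul']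
  split_ifs
  · rfl
  · rw [mul_zero]

/-- two homomorphisms on `TP` which agree on the letters are equal -/
private theorem RT_hom_ext {A : Type*} [Ring A] [Algebra K A] {F G : TP K g →ₐ[K] A}
    (h : ∀ (i : ℕ) (x : g), F (XT K g i x) = G (XT K g i x)) : F = G := by
  refine TensorAlgebra.hom_ext (Finsupp.lhom_ext' fun i => LinearMap.ext fun x => ?_)
  exact h i x

private theorem RT_evc_mono (s : K) (j : ℕ) (b : B) : evc s (monomial j b) = s ^ j • b := by
  rw [evc_of_le s _ (natDegree_monomial_le b), Finset.sum_eq_single j]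
  · rw [coeff_monomial_same]
  · intro n _ hn
    rw [coeff_monomial_of_ne _ hn, smul_zero]
  · intro h
    exact absurd (Finset.mem_range.2 (Nat.lt_succ_self j)) h

theorem swc_coeff (a : ℕ) (q : B[X][X]) (j : ℕ) : (swc a q).coeff j = (q.coeff j).coeff a := by
  rw [swc, Polynomial.sum_def, finsetSum_coeff]
  simp only [coeff_monomial]
  rw [Finset.sum_ite_eq']
  split_ifs with h
  · rfl
  · rw [notMem_support_iff.1 h, coeff_zero]

private theorem RT_evc_swc (s : K) (a : ℕ) (q : B[X][X]) :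
    (evc s q).coeff a = evc s (swc a q) := by
  have h : (swc a q).natDegree ≤ q.natDegree := by
    rw [natDegree_le_iff_coeff_eq_zero]
    intro n hn
    rw [swc_coeff, coeff_eq_zero_of_natDegree_lt hn, coeff_zero]
  rw [evc_of_le s _ h, evc_of_le s q le_rfl, finsetSum_coeff]
  refine Finset.sum_congr rfl fun n _ => ?_
  rw [coeff_smul, swc_coeff]

private theorem RT_rT_apply (p : g →ₗ[K] B) (f : g →ₗ[K] K) (i : ℕ) (x : g) :
    rT θ p f i x = monomial 0 (monomial (i + 1) (p (even θ x))) +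
      monomial 1 (monomial (i + 1) (p (oddc θ x))) +
      (if i = 0 then monomial 0 (monomial 0 (algebraMap K B (f (even θ x)))) +
        monomial 1 (monomial 0 (algebraMap K B (f (oddc θ x)))) else 0) := by
  rw [rT]
  split_ifs with h
  · rfl
  · rfl

/-- QB-32a. naturality in `B`.  Proof: `TP_induction` on `w`. -/
theorem RT_map {B' : Type*} [Ring B'] [Algebra K B'] (φ : B →ₐ[K] B') (p : g →ₗ[K] B)
    (f : g →ₗ[K] K) (w : TP K g) :
    RT θ (φ.toLinearMap ∘ₗ p) f w =
      (RT θ p f w).map (Polynomial.mapRingHom (φ : B →+* B')) := by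
  have h : RT θ (φ.toLinearMap ∘ₗ p) f = (mapAlgHom (mapAlgHom φ)).comp (RT θ p f) := by
    apply RT_hom_ext
    intro i x
    rw [AlgHom.comp_apply, RT, RT, liftT_XT, liftT_XT, RT_rT_apply, RT_rT_apply, map_add, map_add]
    have hm : ∀ (j n : ℕ) (b : B), mapAlgHom (mapAlgHom φ) (monomial j (monomial n b)) =
        monomial j (monomial n (φ b)) := by
      intro j n b
      rw [coe_mapAlgHom, map_monomial]
      congr 1
      exact map_monomial _
    rw [hm, hm]
    split_ifs
    · rw [map_add, hm, hm, AlgHom.commutes, AlgHom.commutes]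
      rfl
    · rw [map_zero]
      rfl
  rw [h, AlgHom.comp_apply]
  rfl

/-- QB-32b (main point).  Proof.  Let `p = ι` be the inclusion of `g` in the tensor algebra, `s ≠ 0`.  The
composition of `RT θ ι f`, of the evaluation `e = s` (`evc s`), and of the homomorphism
`tmap (scl θ s⁻¹)` followed by `pU` on the coefficients (in `u`) is an algebra homomorphism
`TP → (Ue K g)[X]` sending `X i x` to `u^(i+1) ιU (scl θ s⁻¹ (scl θ s x)) + δ_{i0} f (scl θ s x)
= u^(i+1) ιU x + δ_{i0} (f ∘ scl θ s) x`, i.e. it is `EvU hid (f ∘ scl θ s) ∘ toUP`.  Compare the coefficients of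
`u^a`. -/
theorem RT_evc [CharZero K] (hid' : IsHom (LinearMap.id : g →ₗ[K] g)) (f : g →ₗ[K] K) (w : TP K g)
    (a : ℕ) {s : K} (hs : s ≠ 0) :
    (pU (tmap (scl θ s⁻¹) (evc s (swc a (RT θ (TensorAlgebra.ι K) f w)))) : Ue K g) =
      (EvU hid' (f ∘ₗ scl θ s) (toUP K g w)).coeff a := by
  let ψ : TensorAlgebra K g →ₐ[K] Ue K g := (pU : TensorAlgebra K g →ₐ[K] Ue K g).comp
    (tmap (scl θ s⁻¹))
  have hψ : ∀ x : g, ψ (TensorAlgebra.ι K x) = ιU K g (scl θ s⁻¹ x) := by
    intro x
    show pU (tmap (scl θ s⁻¹) (TensorAlgebra.ι K x)) = _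
    rw [tmap_ι, pU_ι]
  have hss : ∀ x : g, scl θ s⁻¹ (even θ x) + s • scl θ s⁻¹ (oddc θ x) = x := by
    intro x
    have h1 : scl θ s⁻¹ (scl θ s x) = x := by
      rw [scl_apply θ s⁻¹, even_scl, oddc_scl, smul_smul, inv_mul_cancel₀ hs, one_smul,
        Pool.Agent.helper5.ASQ.even_add_oddc]
    rw [scl_apply θ s x, map_add, map_smul] at h1
    exact h1
  have h : ((mapAlgHom ψ).comp ((evc s : (TensorAlgebra K g)[X][X] →ₐ[K] _).comp
      (RT θ (TensorAlgebra.ι K) f))) = (EvU hid' (f ∘ₗ scl θ s)).comp (toUP K g) := by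
    apply RT_hom_ext
    intro i x
    rw [AlgHom.comp_apply, AlgHom.comp_apply, AlgHom.comp_apply, RT, liftT_XT, RT_rT_apply,
      toUP_XT]
    have hU : EvU hid' (f ∘ₗ scl θ s) (X K g i x) = monomial (i + 1) (ιU K g x) +
        if i = 0 then algebraMap K (Ue K g)[X] (f (scl θ s x)) else 0 :=
      Ev_X hid'.isLieMap ((f ∘ₗ scl θ s) ∘ₗ LinearMap.id) i x
    have hm : ∀ (n : ℕ) (b : TensorAlgebra K g), mapAlgHom ψ (monomial n b) =
        monomial n (ψ b) := by
      intro n b
      rw [coe_mapAlgHom, map_monomial]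
      rfl
    rw [hU, map_add, map_add, map_add, map_add, RT_evc_mono, RT_evc_mono, pow_zero, one_smul,
      pow_one, map_smul, hm, hm, hψ, hψ, smul_monomial, ← map_add (monomial (i + 1)),
      ← map_smul (ιU K g), ← map_add (ιU K g), hss]
    congr 1
    split_ifs
    · have hm0 : ∀ c : K, monomial 0 (algebraMap K (Ue K g) c) = algebraMap K (Ue K g)[X] c := by
        intro c
        rw [monomial_zero_left, Polynomial.algebraMap_apply]
      rw [map_add, map_add, RT_evc_mono, RT_evc_mono, pow_zero, one_smul, pow_one, map_smul, hm, hm,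
        AlgHom.commutes, AlgHom.commutes, hm0, hm0, Algebra.smul_def, ← map_mul, ← map_add,
        scl_apply, map_add f, map_smul f, smul_eq_mul]
    · rw [map_zero, map_zero]
  have h1 := congrArg (fun q : (Ue K g)[X] => q.coeff a) (DFunLike.congr_fun h w)
  simp only [AlgHom.comp_apply] at h1
  rw [← h1, coe_mapAlgHom, coeff_map, RT_evc_swc]
  rfl

private theorem RT_dcoeff (m n : ℕ) (c : B) (q : B[X][X]) (j a : ℕ) :
    ((monomial m (monomial n c) * q).coeff j).coeff a =
      if m ≤ j ∧ n ≤ a then c * (q.coeff (j - m)).coeff (a - n) else 0 := by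
  rw [RT_coeff_mono_mul]
  by_cases h : m ≤ j
  · rw [if_pos h, RT_coeff_mono_mul]
    by_cases h2 : n ≤ a
    · rw [if_pos h2, if_pos ⟨h, h2⟩]
    · rw [if_neg h2, if_neg (fun h3 => h2 h3.2)]
  · rw [if_neg h, if_neg (fun h3 => h h3.1), coeff_zero]

section symb

variable {k : Type*} [LieRing k] [LieAlgebra K k]

/-- all coefficients of `q` are the symbols of the coefficients of `Q` -/
private def RTS (q : (Sy K k)[X][X]) (Q : (Ue K k)[X][X]) : Prop :=
  ∀ j a : ℕ, IsSymbol a ((q.coeff j).coeff a) ((Q.coeff j).coeff a)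

private theorem RTS_add {q q' : (Sy K k)[X][X]} {Q Q' : (Ue K k)[X][X]} (h : RTS q Q)
    (h' : RTS q' Q') : RTS (q + q') (Q + Q') := by
  intro j a
  rw [coeff_add, coeff_add, coeff_add, coeff_add]
  exact (h j a).add (h' j a)

private theorem RTS_smul (c : K) {q : (Sy K k)[X][X]} {Q : (Ue K k)[X][X]} (h : RTS q Q) :
    RTS (c • q) (c • Q) := by
  intro j a
  rw [coeff_smul, coeff_smul, coeff_smul, coeff_smul]
  exact (h j a).smul c

private theorem RTS_zero : RTS (0 : (Sy K k)[X][X]) (0 : (Ue K k)[X][X]) := by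
  intro j a
  rw [coeff_zero, coeff_zero, coeff_zero, coeff_zero]
  exact IsSymbol.of_low (zero_mem _)

private theorem RTS_one : RTS (1 : (Sy K k)[X][X]) (1 : (Ue K k)[X][X]) := by
  intro j a
  rw [coeff_one, coeff_one]
  by_cases hj : j = 0
  · rw [if_pos hj, if_pos hj, coeff_one, coeff_one]
    by_cases ha : a = 0
    · rw [if_pos ha, if_pos ha, ha]
      exact isSymbol_one
    · rw [if_neg ha, if_neg ha]
      exact IsSymbol.of_low (zero_mem _)
  · rw [if_neg hj, if_neg hj, coeff_zero, coeff_zero]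
    exact IsSymbol.of_low (zero_mem _)

private theorem RTS_letter (m : ℕ) (y : k) {q : (Sy K k)[X][X]} {Q : (Ue K k)[X][X]}
    (h : RTS q Q) : RTS (monomial m (monomial 1 (SymmetricAlgebra.ι K k y)) * q)
      (monomial m (monomial 1 (ιU K k y)) * Q) := by
  intro j a
  rw [RT_dcoeff, RT_dcoeff]
  split_ifs with hc
  · have h1 := (isSymbol_ι (𝕜 := K) y).mul (h (j - m) (a - 1))
    rwa [Nat.add_sub_cancel' hc.2] at h1
  · exact IsSymbol.of_low (zero_mem _)

private theorem RTS_high (i m : ℕ) (y : k) {q : (Sy K k)[X][X]} {Q : (Ue K k)[X][X]}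
    (h : RTS q Q) : RTS (0 : (Sy K k)[X][X])
      (monomial m (monomial (i + 1 + 1) (ιU K k y)) * Q) := by
  intro j a
  rw [RT_dcoeff, coeff_zero, coeff_zero]
  split_ifs with hc
  · apply IsSymbol.of_low
    have h1 := mul_mem_lowU (m := 1) (ιU_mem (𝕜 := K) y) (h (j - m) (a - (i + 1 + 1))).mem_low
    have := hc.2
    exact lowU_mono (by omega) h1
  · exact IsSymbol.of_low (zero_mem _)

private theorem RTS_scal (m : ℕ) (c : K) {q : (Sy K k)[X][X]} {Q : (Ue K k)[X][X]}
    (h : RTS q Q) : RTS (monomial m (monomial 0 (algebraMap K (Sy K k) c)) * q)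
      (monomial m (monomial 0 (algebraMap K (Ue K k) c)) * Q) := by
  intro j a
  rw [RT_dcoeff, RT_dcoeff]
  split_ifs with hc
  · rw [← Algebra.smul_def, ← Algebra.smul_def, Nat.sub_zero]
    exact (h (j - m) a).smul c
  · exact IsSymbol.of_low (zero_mem _)

end symb

/-- QB-32c.  The coefficients of `RT` have the coefficients of `RS` as symbols.  Here `p : g → k` is any
linear map to a Lie algebra.  Proof: `TP_induction` on `w`, for all `j`, `a` (as in `isSymbol_Ev`). -/
theorem RT_symbol {k : Type*} [LieRing k] [LieAlgebra K k] (p : g →ₗ[K] k) (f : g →ₗ[K] K)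
    (w : TP K g) (j a : ℕ) :
    IsSymbol a (((RS θ (ιS K k ∘ₗ p) f w).coeff j).coeff a)
      (((RT θ (ιU K k ∘ₗ p) f w).coeff j).coeff a) := by
  let M : Submodule K (TP K g) :=
    { carrier := {w | RTS (RS θ (ιS K k ∘ₗ p) f w) (RT θ (ιU K k ∘ₗ p) f w)}
      add_mem' := fun {u v} hu hv => by
        show RTS _ _
        rw [map_add, map_add]
        exact RTS_add hu hv
      zero_mem' := by
        show RTS _ _
        rw [map_zero, map_zero]
        exact RTS_zero
      smul_mem' := fun c u hu => by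
        show RTS _ _
        rw [map_smul, map_smul]
        exact RTS_smul c hu }
  have hM : w ∈ M := by
    refine TP_induction ?_ ?_ w
    · show RTS _ _
      rw [map_one, map_one]
      exact RTS_one
    · intro i x u hu
      show RTS _ _
      have hu' : RTS (RS θ (ιS K k ∘ₗ p) f u) (RT θ (ιU K k ∘ₗ p) f u) := hu
      rw [map_mul, map_mul, RS, RT, liftT_XT, liftT_XT, ← RS, ← RT, rS]
      rcases i with _ | i
      · rw [if_pos rfl, RT_rT_apply, RT_rT_apply, if_pos rfl, if_pos rfl, add_mul, add_mul, add_mul,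
          add_mul, add_mul, add_mul]
        exact RTS_add (RTS_add (RTS_letter 0 _ hu') (RTS_letter 1 _ hu'))
          (RTS_add (RTS_scal 0 _ hu') (RTS_scal 1 _ hu'))
      · rw [if_neg (Nat.succ_ne_zero i), RT_rT_apply, if_neg (Nat.succ_ne_zero i), add_zero,
          add_mul, LinearMap.zero_apply, zero_mul, ← add_zero (0 : (Sy K k)[X][X])]
        exact RTS_add (RTS_high i 0 _ hu') (RTS_high i 1 _ hu')
  exact hM j a

/-- QB-32d. the image in `U(k)` of the top coefficient.  Proof: `RT_map` for `pU ∘ tmap e`. -/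
theorem RT_top {k : Type*} [LieRing k] [LieAlgebra K k] (e : g →ₗ[K] k) (f : g →ₗ[K] K)
    (w : TP K g) (j a : ℕ) :
    (pU (tmap e (((RT θ (TensorAlgebra.ι K) f w).coeff j).coeff a)) : Ue K k) =
      ((RT θ (ιU K k ∘ₗ e) f w).coeff j).coeff a := by
  let ψ : TensorAlgebra K g →ₐ[K] Ue K k := (pU : TensorAlgebra K k →ₐ[K] Ue K k).comp (tmap e)
  have hψ : ψ.toLinearMap ∘ₗ TensorAlgebra.ι K = ιU K k ∘ₗ e := by
    ext x
    show pU (tmap e (TensorAlgebra.ι K x)) = _
    rw [tmap_ι, pU_ι]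
    rfl
  rw [← hψ, RT_map, coeff_map]
  show _ = (Polynomial.map _ _).coeff a
  rw [coeff_map]
  rfl

end Pool.Agent.helper74.QB
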