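import Pool.Agent.helper74.QB.Rev
import Pool.Agent.helper74.QB.Out
import Pool.Agent.helper74.QB.RT

/-!
# QB-33. Reversal with a contraction parameter, the commutative side of the limit
-/

set_option autoImplicit false

namespace Pool.Agent.helper74.QB

open Finset Matrix LieAlgebra.Orthogonal Pool.Agent.helper5.AS Pool.Agent.helper49.QA
open Pool.Agent.helper5.ASQ (Invol even oddc brk IsContraction)

/-- the degree of the entry `(i, j)` in `g_1` -/
def dI {n : Type*} (par : n → Bool) (i j : n) : ℕ := if par i = par j then 0 else 1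

section

variable {R : Type*} [CommRing R] {n : Type*} [Fintype n] [DecidableEq n]

theorem Rev2_mat (a b : Matrix n n R) (d : n → n → ℕ) :
    (of fun i i' => (Polynomial.X : Polynomial (Polynomial R)) ^ d i i' *
      Polynomial.C (Polynomial.X * Polynomial.C (a i i') + Polynomial.C (b i i'))).map
        (Polynomial.mapRingHom
          (Polynomial.toLaurent : Polynomial R →+* LaurentPolynomial R)) =
      (Polynomial.C (LaurentPolynomial.T 1 : LaurentPolynomial R)) •
        ((of fun i i' => (Polynomial.X : Polynomial (Polynomial R)) ^ d i i' *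
          Polynomial.C (Polynomial.C (a i i') + Polynomial.X * Polynomial.C (b i i'))).map
          (Polynomial.mapRingHom
            (Polynomial.toLaurent : Polynomial R →+* LaurentPolynomial R))).map
          (Polynomial.mapRingHom (Rev_inv R)) := by
  ext1 i j
  simp only [Matrix.smul_apply, Matrix.map_apply, Matrix.of_apply, smul_eq_mul, map_add,
    map_mul, Polynomial.coe_mapRingHom, Polynomial.map_mul, Polynomial.map_pow,
    Polynomial.map_X, Polynomial.map_C, Polynomial.map_add, Polynomial.toLaurent_X,
    Polynomial.toLaurent_C, Rev_inv_apply, LaurentPolynomial.invert_T, LaurentPolynomial.invert_C]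
  have h : (Polynomial.C (LaurentPolynomial.T 1 : LaurentPolynomial R)) *
      Polynomial.C (LaurentPolynomial.T (-1)) = 1 := by
    rw [← map_mul, ← LaurentPolynomial.T_add, show (1 : ℤ) + -1 = 0 by norm_num,
      LaurentPolynomial.T_zero, map_one]
  linear_combination (-(Polynomial.X ^ d i j *
    Polynomial.C (LaurentPolynomial.C (b i j)))) * h

theorem Rev2_coeff {p q : Polynomial (Polynomial R)} {k : ℕ}
    (h : Polynomial.mapRingHom (Polynomial.toLaurent : Polynomial R →+* LaurentPolynomial R) q =
      (Polynomial.C (LaurentPolynomial.T 1 : LaurentPolynomial R)) ^ k *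
        Polynomial.mapRingHom (Rev_inv R) (Polynomial.mapRingHom
          (Polynomial.toLaurent : Polynomial R →+* LaurentPolynomial R) p)) (j : ℕ) :
    ∀ m ≤ k, (q.coeff j).coeff (k - m) = (p.coeff j).coeff m := by
  have h1 := congrArg (fun f : Polynomial (LaurentPolynomial R) => f.coeff j) h
  simp only [Polynomial.coe_mapRingHom, Polynomial.coeff_map] at h1
  rw [← Polynomial.C_pow, Polynomial.coeff_C_mul, LaurentPolynomial.T_pow, mul_one,
    Polynomial.coeff_map, Polynomial.coeff_map, Rev_inv_apply] at h1
  exact (Rev_key h1).1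

/-- QB-33a. `R[X][X]`: outer variable `e`, inner variable `u`.  Proof: as `gd_rev`: apply
`Polynomial.mapRingHom` of `toLaurent` and of `invert` to the coefficients (in `e`);
`e^d (u a + b) = u • (e^d (a + u⁻¹ b))`; take the coefficient of `e^j` and then of `u^(k-m)`. -/
theorem gd_rev2 (a b : Matrix n n R) (d : n → n → ℕ) {k m : ℕ} (hm : m ≤ k) (j : ℕ) :
    ((((gd (R := Polynomial (Polynomial R)) (of fun i i' => (Polynomial.X) ^ d i i' *
      Polynomial.C (Polynomial.X * Polynomial.C (a i i') + Polynomial.C (b i i')))).coeff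
        k).coeff j).coeff (k - m)) =
    ((((gd (R := Polynomial (Polynomial R)) (of fun i i' => (Polynomial.X) ^ d i i' *
      Polynomial.C (Polynomial.C (a i i') + Polynomial.X * Polynomial.C (b i i')))).coeff
        k).coeff j).coeff m) := by
  refine Rev2_coeff ?_ j m hm
  rw [← Polynomial.coeff_map (Polynomial.mapRingHom
      (Polynomial.toLaurent : Polynomial R →+* LaurentPolynomial R)), ← gd_map, Rev2_mat,
    gd_smul_coeff, gd_map, Polynomial.coeff_map, gd_map, Polynomial.coeff_map]

/-- QB-33b. -/
theorem pfs_rev2 {P : Type*} [Fintype P] (e : P × Fin 2 ≃ n) (a b : Matrix n n R)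
    (d : n → n → ℕ) {m : ℕ} (hm : m ≤ Fintype.card P) (j : ℕ) :
    (((pfs e (of fun i i' => (Polynomial.X : Polynomial (Polynomial R)) ^ d i i' *
      Polynomial.C (Polynomial.X * Polynomial.C (a i i') + Polynomial.C (b i i')))).coeff
        j).coeff (Fintype.card P - m)) =
    (((pfs e (of fun i i' => (Polynomial.X : Polynomial (Polynomial R)) ^ d i i' *
      Polynomial.C (Polynomial.C (a i i') + Polynomial.X * Polynomial.C (b i i')))).coeff
        j).coeff m) := by
  refine Rev2_coeff ?_ j m hm
  rw [← pfs_map, Rev2_mat, pfs_smul, pfs_map, pfs_map]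

end

variable {K : Type*} [Field K] [CharZero K] {n : Type*} [Fintype n] [DecidableEq n]
variable {θ : Invol K (so n K)} {par : n → Bool}
variable {k : Type*} [LieRing k] [LieAlgebra K k]

/-- the involution is the conjugation by the diagonal matrix with the signs given by `par` -/
def IsPar (θ : Invol K (so n K)) (par : n → Bool) : Prop :=
  ∀ i j : n, θ.hom (Y0 K n (single i j 1)) =
    (if par i = par j then (1 : K) else -1) • Y0 K n (single i j 1)

/-- QB-33c. Proof: `even`, `oddc` of `Y0 (single i j 1)`; `x_0 + s x_1 = s^(dI) x`. -/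
theorem RS_letter (hθ : IsPar θ par) (e : so n K →ₗ[K] k) (f : so n K →ₗ[K] K) (i j : n) :
    RS θ (ιS K k ∘ₗ e) f (XT K (so n K) 0 (Y0 K n (single i j 1))) =
      (Polynomial.X) ^ dI par i j *
        Polynomial.C (Polynomial.X * Polynomial.C (ιS K k (e (Y0 K n (single i j 1)))) +
          Polynomial.C (algebraMap K (Sy K k) (f (Y0 K n (single i j 1))))) := by
  have h := hθ i j
  rw [RS, liftT_XT, rS, if_pos rfl, rT, if_pos rfl]
  simp only [LinearMap.add_apply, LinearMap.comp_apply, evL_apply, odL_apply, mon2_apply,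
    Algebra.linearMap_apply]
  unfold dI
  by_cases hp : par i = par j
  · rw [if_pos hp, one_smul] at h
    rw [if_pos hp, Pool.Agent.helper5.ASQ.even_of_fix θ h, Pool.Agent.helper5.ASQ.oddc_of_fix θ h]
    simp only [map_zero, add_zero, pow_zero, one_mul, zero_add, Polynomial.monomial_zero_left,
      ← Polynomial.C_mul_X_eq_monomial]
    rw [← map_add, mul_comm Polynomial.X]
  · rw [if_neg hp, neg_one_smul] at h
    rw [if_neg hp, Pool.Agent.helper5.ASQ.even_of_neg θ h, Pool.Agent.helper5.ASQ.oddc_of_neg θ h]
    simp only [map_zero, add_zero, pow_one, zero_add, Polynomial.monomial_zero_left,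
      ← Polynomial.C_mul_X_eq_monomial]
    rw [← add_mul, ← map_add, mul_comm Polynomial.X (Polynomial.C (ιS K k _))]
    ring

theorem Rev2_entry (hθ : IsPar θ par) (e : so n K →ₗ[K] k) (ξ : k →ₗ[K] K) :
    ((XM0 K n).map (scS θ : Sy K (so n K) →+* Polynomial (Sy K (so n K)))).map
      (Polynomial.mapRingHom ((shift ξ).comp (smap e) :
        Sy K (so n K) →+* Polynomial (Sy K k))) =
    (of fun i i' => (Polynomial.X) ^ dI par i i' *
        Polynomial.C (Polynomial.C (ιS K k (e (Y0 K n (single i' i 1)))) +
          Polynomial.X * Polynomial.C (algebraMap K (Sy K k)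
            (ξ (e (Y0 K n (single i' i 1))))))) := by
  ext1 i i'
  have h := hθ i' i
  rw [Matrix.map_apply, Matrix.map_apply, Matrix.of_apply]
  unfold XM0
  have h1 : (scS θ : Sy K (so n K) →+* Polynomial (Sy K (so n K)))
      (ιS K (so n K) (Y0 K n (single i' i 1))) = (Polynomial.X) ^ dI par i i' *
        Polynomial.C (ιS K (so n K) (Y0 K n (single i' i 1))) := by
    refine (scS_ι θ _).trans ?_
    unfold dI
    by_cases hp : par i' = par i
    · rw [if_pos hp, one_smul] at h
      rw [if_pos hp.symm, Pool.Agent.helper5.ASQ.even_of_fix θ h,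
        Pool.Agent.helper5.ASQ.oddc_of_fix θ h, map_zero, map_zero, mul_zero, add_zero, pow_zero,
        one_mul]
    · rw [if_neg hp, neg_one_smul] at h
      rw [if_neg (fun h' => hp h'.symm), Pool.Agent.helper5.ASQ.even_of_neg θ h,
        Pool.Agent.helper5.ASQ.oddc_of_neg θ h, map_zero, map_zero, zero_add, pow_one]
  rw [h1, map_mul, map_pow, Polynomial.coe_mapRingHom, Polynomial.map_X, Polynomial.map_C]
  congr 2
  have h2 : ((shift ξ).comp (smap e) : Sy K (so n K) →+* Polynomial (Sy K k))
      (ιS K (so n K) (Y0 K n (single i' i 1))) =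
      shift ξ (smap e (ιS K (so n K) (Y0 K n (single i' i 1)))) := rfl
  rw [h2, smap_ι, shift_ι, mul_comm Polynomial.X]

/-- QB-33d. Proof: `scS θ (ek c XM0) = (gd (e^dI XM0)).coeff c` (`gd_map`, `scS_ι`), then apply `smap e` and
`shift ξ` to the coefficients (`gd_map` again). -/
theorem shift_scS_ek (hθ : IsPar θ par) (e : so n K →ₗ[K] k) (ξ : k →ₗ[K] K) (c b m : ℕ) :
    (shift ξ (smap e ((scS θ (ek c (XM0 K n))).coeff b))).coeff m =
      ((((gd (R := Polynomial (Polynomial (Sy K k))) (of fun i i' =>
        (Polynomial.X) ^ dI par i i' *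
        Polynomial.C (Polynomial.C (ιS K k (e (Y0 K n (single i' i 1)))) +
          Polynomial.X * Polynomial.C (algebraMap K (Sy K k)
            (ξ (e (Y0 K n (single i' i 1)))))))).coeff c).coeff b).coeff m) := by
  rw [← Rev2_entry hθ e ξ, gd_map, gd_map, Polynomial.coeff_map, Polynomial.coeff_map,
    Polynomial.coe_mapRingHom, Polynomial.coeff_map]
  rfl

/-- QB-33e. -/
theorem shift_scS_pfn (hθ : IsPar θ par) {P : Type} [Fintype P] [DecidableEq P]
    (e' : P × Fin 2 ≃ n) (e : so n K →ₗ[K] k) (ξ : k →ₗ[K] K) (b m : ℕ) :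
    (shift ξ (smap e ((scS θ (pfn e' (XM0 K n))).coeff b))).coeff m =
      (((pfs e' (of fun i i' =>
        (Polynomial.X : Polynomial (Polynomial (Sy K k))) ^ dI par i i' *
        Polynomial.C (Polynomial.C (ιS K k (e (Y0 K n (single i' i 1)))) +
          Polynomial.X * Polynomial.C (algebraMap K (Sy K k)
            (ξ (e (Y0 K n (single i' i 1)))))))).coeff b).coeff m) := by
  rw [← Rev2_entry hθ e ξ, pfs_map, pfs_map, Polynomial.coe_mapRingHom, Polynomial.coeff_map]
  rfl

end Pool.Agent.helper74.QB
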