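import Pool.Agent.helper74.QB.BD
import Pool.Agent.helper74.QB.PsiT
import Pool.Agent.helper74.QB.Gauss

/-!
# QB-22. Commutative evaluation of the vectors of type B, D
-/

set_option autoImplicit false

namespace Pool.Agent.helper74.QB

open Finset Matrix LieAlgebra.Orthogonal TensorProduct Polynomial

/-- generating function of the sums of the principal minors -/
noncomputable def gd {R : Type*} [CommRing R] {n : Type*} [Fintype n] [DecidableEq n]
    (M : Matrix n n R) : R[X] := (1 + (Polynomial.X : R[X]) • M.map C).det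

/-- the coefficients of `(a + X b)^ν` -/
theorem SymBD_coeff {Q : Type*} [CommRing Q] (a b : Q) {ν N k : ℕ} (h : N + k = ν) :
    ((Polynomial.C a + Polynomial.X * Polynomial.C b) ^ ν).coeff k =
      (ν.choose k : Q) * (a ^ N * b ^ k) := by
  rw [add_comm, add_pow, Polynomial.finsetSum_coeff]
  have h1 : ∀ m ∈ range (ν + 1), (((Polynomial.X : Q[X]) * Polynomial.C b) ^ m *
      Polynomial.C a ^ (ν - m) * ((ν.choose m : ℕ) : Q[X])).coeff k =
      if k = m then (ν.choose m : Q) * (a ^ (ν - m) * b ^ m) else 0 := by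
    intro m _
    have h2 : ((Polynomial.X : Q[X]) * Polynomial.C b) ^ m * Polynomial.C a ^ (ν - m) *
        ((ν.choose m : ℕ) : Q[X]) =
        Polynomial.C ((ν.choose m : Q) * (a ^ (ν - m) * b ^ m)) * Polynomial.X ^ m := by
      rw [mul_pow, ← Polynomial.C_pow, ← Polynomial.C_pow, ← Polynomial.C_eq_natCast]
      simp only [Polynomial.C_mul]
      ring
    rw [h2, Polynomial.coeff_C_mul_X_pow]
  rw [sum_congr rfl h1, sum_ite_eq, if_pos (mem_range.2 (by omega))]
  rw [show ν - k = N by omega]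

/-- the polynomial `gd` after a base change and the substitution `2 X` -/
theorem SymBD_gd {B Q n : Type*} [CommRing B] [CommRing Q] [Fintype n] [DecidableEq n]
    (f : B →+* Q) (y : Matrix n n B) (k : ℕ) :
    (Matrix.det (of fun i j => (1 : Matrix n n Q[X]) i j +
      Polynomial.X * Polynomial.C (2 * f (y i j)))).coeff k = f ((gd y).coeff k) * 2 ^ k := by
  set g : B[X] →+* Q[X] :=
    (Polynomial.compRingHom (Polynomial.C (2 : Q) * Polynomial.X)).comp
      (Polynomial.mapRingHom f) with hg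
  have h1 : (of fun i j => (1 : Matrix n n Q[X]) i j +
      Polynomial.X * Polynomial.C (2 * f (y i j)) : Matrix n n Q[X]) =
      g.mapMatrix (1 + (Polynomial.X : B[X]) • y.map Polynomial.C) := by
    ext1 i j
    rw [RingHom.mapMatrix_apply, Matrix.map_apply, Matrix.add_apply, Matrix.smul_apply,
      Matrix.map_apply, smul_eq_mul, map_add, map_mul, of_apply]
    have e1 : g (Polynomial.C (y i j)) = Polynomial.C (f (y i j)) := by
      simp [hg]
    have e2 : g Polynomial.X = Polynomial.C (2 : Q) * Polynomial.X := by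
      simp [hg]
    have e3 : g ((1 : Matrix n n B[X]) i j) = (1 : Matrix n n Q[X]) i j := by
      rw [Matrix.one_apply, Matrix.one_apply]
      split_ifs <;> simp
    rw [e1, e2, e3, Polynomial.C_mul]
    ring
  rw [h1, ← RingHom.map_det]
  show ((((gd y).map f).comp (Polynomial.C (2 : Q) * Polynomial.X))).coeff k = _
  rw [Polynomial.comp_C_mul_X_coeff, Polynomial.coeff_map]

variable {K : Type*} [Field K] [CharZero K] {n : Type*} [Fintype n] [DecidableEq n]
variable {C : Type*} [CommRing C] [Algebra K C]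

/-- QB-22a. the element `h_0`.  Proof: `hh_zero`, `F 1 = br E`,
`(F 1)_{ij} = m(i0,j1) + m(i1,j0)`, `Y0 (single j i 1) = - Y0 (single i j 1)`, `anti`. -/
theorem Gr2.hso_zero {μ : K} (γ : Gr2 K (n × Fin 2) C μ) :
    hso (K := K) γ.F 0 =
      (2 : K) • ∑ i, ∑ j, γ.m (i, 0) (j, 1) ⊗ₜ[K] Y0 K n (single i j 1) := by
  have hF : γ.F 1 = br γ.m (Gr2.E C) := by
    show br γ.m ((Gr2.E C * γ.tau) ^ 0 * Gr2.E C) = _
    rw [pow_zero, one_mul]
  have hY : ∀ i j : n, Y0 K n (single j i 1) = - Y0 K n (single i j 1) := by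
    intro i j
    rw [← Y0_transpose, transpose_single]
  unfold hso
  rw [hh_zero γ.grp, hF, pr_apply]
  have h1 : ∀ i j : n, (br γ.m (Gr2.E C)) i j ⊗ₜ[K] Y0 K n (single i j 1) =
      γ.m (i, 0) (j, 1) ⊗ₜ[K] Y0 K n (single i j 1) +
        γ.m (j, 0) (i, 1) ⊗ₜ[K] Y0 K n (single j i 1) := by
    intro i j
    have h2 : (br γ.m (Gr2.E C)) i j = γ.m (i, 0) (j, 1) + γ.m (i, 1) (j, 0) := by
      simp [br, Gr2.E, Fin.sum_univ_two]
    rw [h2, add_tmul, hY i j, γ.anti (i, 1) (j, 0), neg_tmul, tmul_neg, neg_neg]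
  simp only [h1, sum_add_distrib]
  rw [sum_comm (f := fun i j => γ.m (j, 0) (i, 1) ⊗ₜ[K] Y0 K n (single j i 1)), ← two_smul K]

omit [CharZero K] in
theorem SymBD_lamth {μ : K} (γ : Gr2 K (n × Fin 2) C μ) (N : ℕ) {B : Type*} [CommRing B]
    [Algebra K B] (w : C ⊗[K] B) :
    lamB (γ.lamth N) w = lamB γ.lam (((γ.th ^ N) ⊗ₜ[K] (1 : B)) * w) := by
  induction w using TensorProduct.induction_on with
  | zero => rw [mul_zero, map_zero, map_zero]
  | tmul c b =>
    rw [Algebra.TensorProduct.tmul_mul_tmul, lamB_tmul, lamB_tmul, one_mul]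
    rfl
  | add a b ha hb => rw [mul_add, map_add, map_add, ha, hb]

/-- QB-22b. Proof.  `Φ̂ = EvC Φ : C ⊗ TP → C ⊗ B`; `y i j = Φ (XT 0 (Y0 (single i j 1)))`.  By
`EvC_PsiT_comm` and `hso_zero`, `k! Φ̂(PsiT (hso F) k) = H^k`, `H = 2 ∑ m(i0,j1) ⊗ y i j`.  Let `Q = C ⊗[K] B`
(a `ℚ`-algebra since `K` has characteristic `0`), `μ i j = C (m(i0,j1) ⊗ 1) ∈ Q[X]`,
`M = 1 + 2 X (1 ⊗ y)`; by `anti`, `cyc`: `μ i j * μ k l = - μ i l * μ k j`.  `gauss` gives, with `ν = card n`,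
`(C Θ + X H)^ν = ν! det M ∏ μ i i`, `Θ = θ ⊗ 1`.  The coefficient of `X^k` (`N + k = ν`):
`choose ν k • Θ^N H^k = ν! ((gd (2 y)).coeff k) * ∏ (m(i0,i1) ⊗ 1)` in `Q`, and
`(gd (2 y)).coeff k = 2^k (gd y).coeff k` (substitute `2 X`).  Apply `lamB γ.lam` (it is `B`-linear):
`choose ν k • lamB (lamth N) (H^k) = ν! 2^k (gd y).coeff k`; divide by `k!` and `choose ν k`. -/
theorem Gr2.lamB_PsiT {μ : K} (γ : Gr2 K (n × Fin 2) C μ)
    (hlam : γ.lam (∏ i : n, γ.m (i, 0) (i, 1)) = 1) {N k : ℕ} (hNk : N + k = Fintype.card n)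
    {B : Type*} [CommRing B] [Algebra K B] (Φ : TP K (so n K) →ₐ[K] B)
    (hΦ : ∀ (i : ℕ) (x : so n K), Φ (XT K (so n K) (i + 1) x) = 0) :
    lamB (γ.lamth N) (EvC (C := C) Φ (PsiT (hso γ.F) k)) =
      ((N.factorial : K) * 2 ^ k) •
        (gd (fun i j => Φ (XT K (so n K) 0 (Y0 K n (single i j 1))))).coeff k := by
  set y : Matrix n n B := fun i j => Φ (XT K (so n K) 0 (Y0 K n (single i j 1))) with hy
  set H : C ⊗[K] B := EvC (C := C) Φ (XTC 0 (hso (K := K) γ.F 0)) with hH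
  have hH1 : H = ∑ i, ∑ j, (2 : C ⊗[K] B) * (γ.m (i, 0) (j, 1) ⊗ₜ[K] y i j) := by
    rw [hH, γ.hso_zero, ← Nat.cast_ofNat (R := K), Nat.cast_smul_eq_nsmul, map_nsmul, map_nsmul,
      nsmul_eq_mul, map_sum, map_sum, mul_sum]
    refine sum_congr rfl fun i _ => ?_
    rw [map_sum, map_sum, mul_sum]
    refine sum_congr rfl fun j _ => ?_
    rw [XTC_tmul, EvC_tmul, Nat.cast_ofNat]
  have hcomm := EvC_PsiT_comm (C := C) Φ hΦ (hso (K := K) γ.F) k
  rw [← hH] at hcomm
  set Ψ := EvC (C := C) Φ (PsiT (hso (K := K) γ.F) k) with hΨ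
  -- the identity of polynomials
  let _ : Algebra ℚ (C ⊗[K] B)[X] :=
    ((algebraMap K (C ⊗[K] B)[X]).comp (algebraMap ℚ K)).toAlgebra
  have hμ : ∀ i j k l : n, Polynomial.C ((γ.m (i, 0) (j, 1)) ⊗ₜ[K] (1 : B)) *
      Polynomial.C ((γ.m (k, 0) (l, 1)) ⊗ₜ[K] (1 : B)) =
      -(Polynomial.C ((γ.m (i, 0) (l, 1)) ⊗ₜ[K] (1 : B)) *
      Polynomial.C ((γ.m (k, 0) (j, 1)) ⊗ₜ[K] (1 : B))) := by
    intro i j k l
    rw [← Polynomial.C_mul, ← Polynomial.C_mul, ← Polynomial.C_neg,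
      Algebra.TensorProduct.tmul_mul_tmul, Algebra.TensorProduct.tmul_mul_tmul, one_mul,
      ← neg_tmul, γ.cyc, γ.anti (k, 0) (j, 1)]
    congr 2
    ring
  have key := gauss (Q := (C ⊗[K] B)[X])
    (fun i j => Polynomial.C ((γ.m (i, 0) (j, 1)) ⊗ₜ[K] (1 : B))) hμ
    (of fun i j => (1 : Matrix n n (C ⊗[K] B)[X]) i j + Polynomial.X * Polynomial.C
      (2 * (Algebra.TensorProduct.includeRight : B →ₐ[K] C ⊗[K] B).toRingHom (y i j)))
  have hinner : ∑ i, ∑ j, (of fun i j => (1 : Matrix n n (C ⊗[K] B)[X]) i j +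
      Polynomial.X * Polynomial.C (2 * (Algebra.TensorProduct.includeRight :
        B →ₐ[K] C ⊗[K] B).toRingHom (y i j))) i j *
      Polynomial.C ((γ.m (i, 0) (j, 1)) ⊗ₜ[K] (1 : B)) =
      Polynomial.C (γ.th ⊗ₜ[K] (1 : B)) + Polynomial.X * Polynomial.C H := by
    have e1 : ∀ i j : n, (of fun i j => (1 : Matrix n n (C ⊗[K] B)[X]) i j +
      Polynomial.X * Polynomial.C (2 * (Algebra.TensorProduct.includeRight :
        B →ₐ[K] C ⊗[K] B).toRingHom (y i j))) i j *
      Polynomial.C ((γ.m (i, 0) (j, 1)) ⊗ₜ[K] (1 : B)) =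
      (if i = j then Polynomial.C ((γ.m (i, 0) (j, 1)) ⊗ₜ[K] (1 : B)) else 0) +
        Polynomial.X * Polynomial.C ((2 : C ⊗[K] B) * (γ.m (i, 0) (j, 1) ⊗ₜ[K] y i j)) := by
      intro i j
      have e2 : (2 : C ⊗[K] B) * (γ.m (i, 0) (j, 1) ⊗ₜ[K] y i j) =
          2 * (Algebra.TensorProduct.includeRight : B →ₐ[K] C ⊗[K] B).toRingHom (y i j) *
            ((γ.m (i, 0) (j, 1)) ⊗ₜ[K] (1 : B)) := by
        rw [mul_assoc]
        congr 1
        show _ = ((1 : C) ⊗ₜ[K] y i j) * _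
        rw [Algebra.TensorProduct.tmul_mul_tmul, one_mul, mul_one]
      rw [of_apply, add_mul, Matrix.one_apply, ite_mul, one_mul, zero_mul, e2,
        Polynomial.C_mul (a := 2 * _), mul_assoc]
    simp only [e1, sum_add_distrib, sum_ite_eq, mem_univ, if_true, ← mul_sum, ← map_sum]
    congr 2
    · rw [Gr2.th, TensorProduct.sum_tmul]
    · rw [hH1]
      simp only [mul_sum]
  rw [hinner, ← Polynomial.C_eq_natCast, ← map_prod] at key
  have key2 := congrArg (fun q => Polynomial.coeff q k) key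
  rw [SymBD_coeff _ _ hNk, Polynomial.coeff_mul_C, Polynomial.coeff_C_mul, SymBD_gd] at key2
  set c : B := (gd y).coeff k with hc
  have hprod : ∏ i : n, (γ.m (i, 0) (i, 1)) ⊗ₜ[K] (1 : B) =
      (∏ i : n, γ.m (i, 0) (i, 1)) ⊗ₜ[K] (1 : B) := by
    have := map_prod (Algebra.TensorProduct.includeLeft : C →ₐ[K] C ⊗[K] B)
      (fun i : n => γ.m (i, 0) (i, 1)) univ
    exact this.symm
  have hth : (γ.th ⊗ₜ[K] (1 : B)) ^ N = (γ.th ^ N) ⊗ₜ[K] (1 : B) := by
    rw [Algebra.TensorProduct.tmul_pow, one_pow]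
  have hr : ((Fintype.card n).factorial : C ⊗[K] B) *
      ((Algebra.TensorProduct.includeRight : B →ₐ[K] C ⊗[K] B).toRingHom c * 2 ^ k) *
      (∏ i : n, γ.m (i, 0) (i, 1)) ⊗ₜ[K] (1 : B) =
      (((Fintype.card n).factorial : K) * 2 ^ k) •
        ((∏ i : n, γ.m (i, 0) (i, 1)) ⊗ₜ[K] c) := by
    have e3 : (∏ i : n, γ.m (i, 0) (i, 1)) ⊗ₜ[K] c =
        (Algebra.TensorProduct.includeRight : B →ₐ[K] C ⊗[K] B).toRingHom c *
          (∏ i : n, γ.m (i, 0) (i, 1)) ⊗ₜ[K] (1 : B) := by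
      show _ = ((1 : C) ⊗ₜ[K] c) * _
      rw [Algebra.TensorProduct.tmul_mul_tmul, one_mul, mul_one]
    rw [e3, Algebra.smul_def, map_mul, map_pow, map_natCast, map_ofNat]
    ring
  rw [hprod, hth, hr] at key2
  have key3 := congrArg (lamB γ.lam) key2
  have hchoose : ((Fintype.card n).choose k : K) ≠ 0 := by
    exact_mod_cast (Nat.choose_pos (by omega)).ne'
  have hfac : (k.factorial : K) ≠ 0 := by exact_mod_cast (Nat.factorial_pos k).ne'
  rw [← nsmul_eq_mul, map_nsmul, ← SymBD_lamth, ← hcomm, map_smul, map_smul, lamB_tmul, hlam,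
    one_smul, ← Nat.cast_smul_eq_nsmul K, smul_smul] at key3
  have hN : ((Fintype.card n).factorial : K) =
      ((Fintype.card n).choose k : K) * (k.factorial : K) * (N.factorial : K) := by
    have := Nat.choose_mul_factorial_mul_factorial (n := Fintype.card n) (k := k) (by omega)
    rw [show Fintype.card n - k = N by omega] at this
    exact_mod_cast this.symm
  have h5 := congrArg (fun v => (((Fintype.card n).choose k : K) * (k.factorial : K))⁻¹ • v) key3
  rw [smul_smul, smul_smul, inv_mul_cancel₀ (mul_ne_zero hchoose hfac), one_smul] at h5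
  rw [h5, hN]
  congr 1
  field_simp

end Pool.Agent.helper74.QB
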