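import Mathlib

/-!
# QB-01. The enveloping algebra of `s⁻¹ g[s⁻¹]`

`UP K g` is the associative algebra with generators `X i x` (`i : ℕ`, `x ∈ g`, linear in `x`;
`X i x` is the element `x s^(-1-i)`) and relations
`X i x * X j y - X j y * X i x = X (i + j + 1) ⁅x, y⁆`.
-/

set_option autoImplicit false

namespace Pool.Agent.helper74.QB

variable (K : Type*) [CommRing K] (g : Type*) [LieRing g] [LieAlgebra K g]

/-- the tensor algebra of the space `s⁻¹ g[s⁻¹]` -/
abbrev TP : Type _ := TensorAlgebra K (ℕ →₀ g)

/-- the letters of the tensor algebra -/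
noncomputable def XT (i : ℕ) : g →ₗ[K] TP K g :=
  TensorAlgebra.ι K ∘ₗ Finsupp.lsingle i

/-- the defining relations -/
inductive UPRel : TP K g → TP K g → Prop
  | comm (i j : ℕ) (x y : g) :
      UPRel (XT K g i x * XT K g j y) (XT K g j y * XT K g i x + XT K g (i + j + 1) ⁅x, y⁆)

/-- the enveloping algebra of `s⁻¹ g[s⁻¹]` -/
def UP : Type _ := RingQuot (UPRel K g)

noncomputable instance : Ring (UP K g) := inferInstanceAs (Ring (RingQuot (UPRel K g)))
noncomputable instance : Algebra K (UP K g) := inferInstanceAs (Algebra K (RingQuot (UPRel K g)))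

/-- the quotient map from the tensor algebra -/
noncomputable def toUP : TP K g →ₐ[K] UP K g := RingQuot.mkAlgHom K (UPRel K g)

/-- the generators -/
noncomputable def X (i : ℕ) : g →ₗ[K] UP K g := (toUP K g).toLinearMap ∘ₗ XT K g i

variable {K g}

theorem toUP_XT (i : ℕ) (x : g) : toUP K g (XT K g i x) = X K g i x := rfl

theorem X_mul (i j : ℕ) (x y : g) :
    X K g i x * X K g j y = X K g j y * X K g i x + X K g (i + j + 1) ⁅x, y⁆ := by
  have h := RingQuot.mkAlgHom_rel K (UPRel.comm (K := K) (g := g) i j x y)
  rw [map_mul, map_add, map_mul] at h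
  exact h

/-- the relations which a family of linear maps must satisfy to define a homomorphism on `UP` -/
def IsRep {A : Type*} [Ring A] [Algebra K A] (f : ℕ → g →ₗ[K] A) : Prop :=
  ∀ (i j : ℕ) (x y : g), f i x * f j y = f j y * f i x + f (i + j + 1) ⁅x, y⁆

/-- the homomorphism on the tensor algebra defined by a family of linear maps -/
noncomputable def liftT {A : Type*} [Ring A] [Algebra K A] (f : ℕ → g →ₗ[K] A) : TP K g →ₐ[K] A :=
  TensorAlgebra.lift K (Finsupp.lsum K f)

theorem liftT_XT {A : Type*} [Ring A] [Algebra K A] (f : ℕ → g →ₗ[K] A) (i : ℕ) (x : g) :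
    liftT f (XT K g i x) = f i x := by
  simp [liftT, XT]

/-- the universal property -/
noncomputable def lift {A : Type*} [Ring A] [Algebra K A] (f : ℕ → g →ₗ[K] A) (hf : IsRep f) :
    UP K g →ₐ[K] A :=
  RingQuot.liftAlgHom K ⟨liftT f, by
    intro a b h
    cases h with
    | comm i j x y =>
      rw [map_mul, map_add, map_mul, liftT_XT, liftT_XT, liftT_XT]
      exact hf i j x y⟩

theorem lift_toUP {A : Type*} [Ring A] [Algebra K A] (f : ℕ → g →ₗ[K] A) (hf : IsRep f)
    (t : TP K g) : lift f hf (toUP K g t) = liftT f t := by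
  exact RingQuot.liftAlgHom_mkAlgHom_apply K (liftT f) _ t

theorem lift_X {A : Type*} [Ring A] [Algebra K A] (f : ℕ → g →ₗ[K] A) (hf : IsRep f) (i : ℕ)
    (x : g) : lift f hf (X K g i x) = f i x := by
  rw [← toUP_XT, lift_toUP, liftT_XT]

theorem toUP_surjective : Function.Surjective (toUP K g) := RingQuot.mkAlgHom_surjective K _

/-- the tensor algebra is spanned by the products of letters -/
theorem TP_induction {M : Submodule K (TP K g)} (h1 : (1 : TP K g) ∈ M)
    (hX : ∀ (i : ℕ) (x : g), ∀ u ∈ M, XT K g i x * u ∈ M) (u : TP K g) : u ∈ M := by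
  suffices h : ∀ v ∈ M, u * v ∈ M by simpa using h 1 h1
  induction u using TensorAlgebra.induction with
  | algebraMap r =>
    intro v hv
    rw [← Algebra.smul_def]
    exact M.smul_mem r hv
  | ι f =>
    intro v hv
    induction f using Finsupp.induction_linear with
    | zero => rw [map_zero, zero_mul]; exact M.zero_mem
    | add p q hp hq => rw [map_add, add_mul]; exact M.add_mem hp hq
    | single i x => exact hX i x v hv
  | mul a b ha hb =>
    intro v hv
    rw [mul_assoc]
    exact ha _ (hb _ hv)
  | add a b ha hb =>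
    intro v hv
    rw [add_mul]
    exact M.add_mem (ha v hv) (hb v hv)

/-- a subspace of `UP` which contains `1` and is stable under left multiplication by the
generators is everything -/
theorem UP_induction {M : Submodule K (UP K g)} (h1 : (1 : UP K g) ∈ M)
    (hX : ∀ (i : ℕ) (x : g), ∀ u ∈ M, X K g i x * u ∈ M) (u : UP K g) : u ∈ M := by
  obtain ⟨t, rfl⟩ := toUP_surjective u
  have := TP_induction (M := M.comap (toUP K g).toLinearMap) (by simpa using h1)
    (fun i x u hu => by
      simp only [Submodule.mem_comap, AlgHom.toLinearMap_apply, map_mul] at hu ⊢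
      exact hX i x _ hu) t
  exact this

/-- induction in predicate form -/
theorem UP_ind {p : UP K g → Prop} (h0 : p 0) (h1 : p 1) (hadd : ∀ u v, p u → p v → p (u + v))
    (hsmul : ∀ (c : K) u, p u → p (c • u))
    (hX : ∀ (i : ℕ) (x : g) (u : UP K g), p u → p (X K g i x * u)) (u : UP K g) : p u := by
  let M : Submodule K (UP K g) :=
    { carrier := {u | p u}
      add_mem' := fun {a b} ha hb => hadd a b ha hb
      zero_mem' := h0
      smul_mem' := fun c a ha => hsmul c a ha }
  exact UP_induction (M := M) h1 (fun i x u hu => hX i x u hu) u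

/-- homomorphisms on `UP` which agree on the generators are equal -/
theorem UP_hom_ext {A : Type*} [Ring A] [Algebra K A] {f f' : UP K g →ₐ[K] A}
    (h : ∀ (i : ℕ) (x : g), f (X K g i x) = f' (X K g i x)) : f = f' := by
  refine AlgHom.ext fun u => ?_
  refine UP_ind (p := fun u => f u = f' u) (by simp) (by simp) ?_ ?_ ?_ u
  · intro u v hu hv; rw [map_add, map_add, hu, hv]
  · intro c u hu; rw [map_smul, map_smul, hu]
  · intro i x u hu; rw [map_mul, map_mul, h, hu]

end Pool.Agent.helper74.QB
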