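import Pool.Agent.helper74.QB.UP

/-!
# QB-02. The vacuum module

`κ` is a bilinear form on `g`.  On `UP K g = U(s⁻¹ g[s⁻¹])` there are operators
`φ r x` (`r ≥ 0`, `x ∈ g`; the action of `x s^r`) with `φ r x 1 = 0` and
`φ r x (y_i u) = y_i (φ r x u) + [x, y] s^(r-1-i) u + r δ_{r,i+1} κ(x, y) u`.
-/

set_option autoImplicit false

namespace Pool.Agent.helper74.QB

variable {K : Type*} [CommRing K] {g : Type*} [LieRing g] [LieAlgebra K g]

variable (K g) in
/-- the auxiliary module -/
abbrev VM : Type _ := UP K g × (ℕ → g →ₗ[K] UP K g)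

/-- the linear map `x ↦ ⁅x, y⁆` -/
noncomputable def adR (y : g) : g →ₗ[K] g where
  toFun x := ⁅x, y⁆
  map_add' a b := add_lie a b y
  map_smul' c a := smul_lie c a y

@[simp] theorem adR_apply (x y : g) : adR (K := K) y x = ⁅x, y⁆ := rfl

/-- the second component of the action of `X i y` on `VM` -/
noncomputable def act2 (κ : g →ₗ[K] g →ₗ[K] K) (i : ℕ) (y : g) (w : VM K g) (r : ℕ) :
    g →ₗ[K] UP K g :=
  LinearMap.mulLeft K (X K g i y) ∘ₗ w.2 r +
    (if r ≤ i then LinearMap.mulRight K w.1 ∘ₗ X K g (i - r) ∘ₗ adR y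
      else w.2 (r - i - 1) ∘ₗ adR y) +
    (if r = i + 1 then (r : K) • (κ.flip y).smulRight w.1 else 0)

theorem act2_apply (κ : g →ₗ[K] g →ₗ[K] K) (i : ℕ) (y : g) (w : VM K g) (r : ℕ) (x : g) :
    act2 κ i y w r x = X K g i y * w.2 r x +
      (if r ≤ i then X K g (i - r) ⁅x, y⁆ * w.1 else w.2 (r - i - 1) ⁅x, y⁆) +
      (if r = i + 1 then ((r : K) * κ x y) • w.1 else 0) := by
  unfold act2
  split_ifs <;> simp [mul_smul]

/-- the action of `X i y` on `VM` -/
noncomputable def act (κ : g →ₗ[K] g →ₗ[K] K) (i : ℕ) : g →ₗ[K] Module.End K (VM K g) where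
  toFun y :=
    { toFun := fun w => (X K g i y * w.1, act2 κ i y w)
      map_add' := fun w w' => by
        refine Prod.ext (by simp [mul_add]) (funext fun r => LinearMap.ext fun x => ?_)
        simp only [act2_apply, Prod.fst_add, Prod.snd_add, Pi.add_apply, LinearMap.add_apply,
          mul_add, smul_add]
        split_ifs <;> abel
      map_smul' := fun c w => by
        refine Prod.ext (by simp) (funext fun r => LinearMap.ext fun x => ?_)
        simp only [act2_apply, Prod.smul_fst, Prod.smul_snd, Pi.smul_apply, LinearMap.smul_apply,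
          RingHom.id_apply, smul_add, mul_smul_comm]
        split_ifs <;> simp [smul_comm c] }
  map_add' y y' := by
    refine LinearMap.ext fun w => Prod.ext (by simp [add_mul]) (funext fun r =>
      LinearMap.ext fun x => ?_)
    simp only [act2_apply, LinearMap.coe_mk, AddHom.coe_mk, LinearMap.add_apply, Prod.snd_add,
      Pi.add_apply, map_add, add_mul, lie_add, mul_add, add_smul]
    split_ifs <;> abel
  map_smul' c y := by
    refine LinearMap.ext fun w => Prod.ext (by simp) (funext fun r =>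
      LinearMap.ext fun x => ?_)
    simp only [act2_apply, LinearMap.coe_mk, AddHom.coe_mk, LinearMap.smul_apply, Prod.smul_snd,
      Pi.smul_apply, map_smul, smul_mul_assoc, lie_smul, smul_add, RingHom.id_apply, smul_eq_mul]
    split_ifs <;> simp [smul_smul, mul_left_comm]

/-- invariance of a symmetric bilinear form -/
structure IsInv (κ : g →ₗ[K] g →ₗ[K] K) : Prop where
  symm : ∀ x y, κ x y = κ y x
  inv : ∀ x y z, κ ⁅x, y⁆ z = κ x ⁅y, z⁆

/-- auxiliary: the letter part of the second component -/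
private noncomputable def tt (w : VM K g) (n r : ℕ) (a : g) : UP K g :=
  if r ≤ n then X K g (n - r) a * w.1 else w.2 (r - n - 1) a

private theorem tt_add (w : VM K g) (n r : ℕ) (a b : g) :
    tt w n r (a + b) = tt w n r a + tt w n r b := by
  unfold tt
  split_ifs
  · rw [map_add, add_mul]
  · rw [map_add]

private theorem act2_tt (κ : g →ₗ[K] g →ₗ[K] K) (i : ℕ) (y : g) (w : VM K g) (r : ℕ) (x : g) :
    act2 κ i y w r x = X K g i y * w.2 r x + tt w i r ⁅x, y⁆ +
      (if r = i + 1 then ((r : K) * κ x y) • w.1 else 0) := act2_apply κ i y w r x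

private theorem act_mk (κ : g →ₗ[K] g →ₗ[K] K) (i : ℕ) (y : g) (w : VM K g) :
    act κ i y w = (X K g i y * w.1, act2 κ i y w) := rfl

private theorem tt_act (κ : g →ₗ[K] g →ₗ[K] K) (i j : ℕ) (z : g) (w : VM K g) (r : ℕ) (a : g) :
    tt (act κ j z w) i r a = X K g j z * tt w i r a + tt w (i + j + 1) r ⁅a, z⁆ +
      (if r = i + j + 2 then (((j + 1 : ℕ) : K) * κ a z) • w.1 else 0) := by
  by_cases h : r ≤ i
  · have h1 : r ≤ i + j + 1 := by omega
    have h2 : ¬ r = i + j + 2 := by omega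
    have h3 : i + j + 1 - r = i - r + j + 1 := by omega
    unfold tt
    rw [if_pos h, if_pos h, if_pos h1, if_neg h2, add_zero, act_mk, h3, ← mul_assoc, X_mul,
      add_mul, mul_assoc]
  · have e1 : tt (act κ j z w) i r a = act2 κ j z w (r - i - 1) a := by
      unfold tt
      rw [if_neg h, act_mk]
    have e2 : tt w i r a = w.2 (r - i - 1) a := by
      unfold tt
      rw [if_neg h]
    have e3 : tt w (i + j + 1) r ⁅a, z⁆ = tt w j (r - i - 1) ⁅a, z⁆ := by
      unfold tt
      by_cases h1 : r ≤ i + j + 1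
      · have h2 : r - i - 1 ≤ j := by omega
        have h3 : i + j + 1 - r = j - (r - i - 1) := by omega
        rw [if_pos h1, if_pos h2, h3]
      · have h2 : ¬ r - i - 1 ≤ j := by omega
        have h3 : r - (i + j + 1) - 1 = r - i - 1 - j - 1 := by omega
        rw [if_neg h1, if_neg h2, h3]
    rw [e1, e2, e3, act2_tt]
    congr 1
    by_cases h1 : r = i + j + 2
    · have h2 : r - i - 1 = j + 1 := by omega
      rw [if_pos h1, if_pos h2, h2]
    · have h2 : ¬ r - i - 1 = j + 1 := by omega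
      rw [if_neg h1, if_neg h2]

/-- QB-02 (main point): the endomorphisms `act κ i y` satisfy the relations of `UP`.
Proof: `(act i y)(act j z) w - (act j z)(act i y) w - act (i+j+1) ⁅y, z⁆ w = 0`.  First component:
`X_mul`.  Second component at `r`, `x`, with `w = (u, θ)`: by `act2_apply` the terms
`y_i z_j θ(x)` give `[y,z]_{i+j+1} θ_r(x)`; mixed terms `y_i (..)` cancel in pairs; it remains to
check, case by case (`r ≤ i` or not, `r ≤ j` or not, `r ≤ i + j + 1` or not), that
* the parts with a letter: if `r ≤ i`, `⁅X (i-r) ⁅x,y⁆, X j z⁆ = X (i-r+j+1) ⁅⁅x,y⁆,z⁆` (from `X_mul`),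
  if `i < r` and `r-i-1 ≤ j` it is `X (j-(r-i-1)) ⁅⁅x,y⁆,z⁆` directly: in both cases one gets
  `X (i+j+1-r) ⁅⁅x,y⁆,z⁆` if and only if `r ≤ i+j+1`, otherwise `θ (r-i-j-2) ⁅⁅x,y⁆,z⁆`; minus the same with
  `(i,y)`, `(j,z)` exchanged; Jacobi: `⁅⁅x,y⁆,z⁆ - ⁅⁅x,z⁆,y⁆ = ⁅x,⁅y,z⁆⁆`;
* the scalar terms: for `r = i+j+2`: `(j+1) κ ⁅x,y⁆ z - (i+1) κ ⁅x,z⁆ y = (i+j+2) κ x ⁅y,z⁆`. -/
theorem act_isRep {κ : g →ₗ[K] g →ₗ[K] K} (hκ : IsInv κ) :
    IsRep (K := K) (g := g) (A := Module.End K (VM K g)) (act κ) := by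
  intro i j y z
  refine LinearMap.ext fun w => ?_
  rw [Module.End.mul_apply, LinearMap.add_apply, Module.End.mul_apply]
  refine Prod.ext ?_ (funext fun r => LinearMap.ext fun x => ?_)
  · show X K g i y * (X K g j z * w.1) = X K g j z * (X K g i y * w.1) +
      X K g (i + j + 1) ⁅y, z⁆ * w.1
    rw [← mul_assoc, X_mul, add_mul, mul_assoc]
  · show act2 κ i y (act κ j z w) r x = act2 κ j z (act κ i y w) r x +
      act2 κ (i + j + 1) ⁅y, z⁆ w r x
    have hj : tt w (i + j + 1) r ⁅⁅x, y⁆, z⁆ =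
        tt w (i + j + 1) r ⁅⁅x, z⁆, y⁆ + tt w (i + j + 1) r ⁅x, ⁅y, z⁆⁆ := by
      rw [← tt_add]
      congr 1
      rw [leibniz_lie x y z, ← lie_skew y ⁅x, z⁆]
      abel
    have hij : j + i + 1 = i + j + 1 := by omega
    have hij2 : j + i + 2 = i + j + 2 := by omega
    have hs : (if r = i + j + 2 then (((j + 1 : ℕ) : K) * κ ⁅x, y⁆ z) • w.1 else 0) =
        (if r = i + j + 2 then (((i + 1 : ℕ) : K) * κ ⁅x, z⁆ y) • w.1 else 0) +
        (if r = i + j + 1 + 1 then ((r : K) * κ x ⁅y, z⁆) • w.1 else 0) := by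
      by_cases h : r = i + j + 2
      · have h' : r = i + j + 1 + 1 := by omega
        rw [if_pos h, if_pos h, if_pos h', ← add_smul, hκ.inv, hκ.inv, ← lie_skew y z, map_neg, h]
        congr 1
        push_cast
        ring
      · have h' : ¬ r = i + j + 1 + 1 := by omega
        rw [if_neg h, if_neg h, if_neg h', add_zero]
    have hm : X K g i y * (X K g j z * w.2 r x) = X K g j z * (X K g i y * w.2 r x) +
        X K g (i + j + 1) ⁅y, z⁆ * w.2 r x := by
      rw [← mul_assoc, X_mul, add_mul, mul_assoc]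
    have f1 : (act κ j z w).1 = X K g j z * w.1 := rfl
    have f2 : (act κ i y w).1 = X K g i y * w.1 := rfl
    have f3 : (act κ j z w).2 = act2 κ j z w := rfl
    have f4 : (act κ i y w).2 = act2 κ i y w := rfl
    rw [act2_tt κ i y (act κ j z w), act2_tt κ j z (act κ i y w), act2_tt κ (i + j + 1),
      tt_act, tt_act, f1, f2, f3, f4, act2_tt κ j z w, act2_tt κ i y w, hij, hij2, hj, hs,
      mul_add, mul_add, mul_add, mul_add, hm]
    have g1 : X K g i y * (if r = j + 1 then ((r : K) * κ x z) • w.1 else 0) =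
        if r = j + 1 then ((r : K) * κ x z) • (X K g i y * w.1) else 0 := by
      split_ifs
      · rw [mul_smul_comm]
      · rw [mul_zero]
    have g2 : X K g j z * (if r = i + 1 then ((r : K) * κ x y) • w.1 else 0) =
        if r = i + 1 then ((r : K) * κ x y) • (X K g j z * w.1) else 0 := by
      split_ifs
      · rw [mul_smul_comm]
      · rw [mul_zero]
    rw [g1, g2]
    abel

/-- the operator `x s^r` on the vacuum module -/
noncomputable def phi (κ : g →ₗ[K] g →ₗ[K] K) (hκ : IsInv κ) (r : ℕ) :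
    g →ₗ[K] Module.End K (UP K g) :=
  LinearMap.flip
    { toFun := fun u => ((lift (act κ) (act_isRep hκ) u : Module.End K (VM K g)) (1, 0)).2 r
      map_add' := fun u v => by simp
      map_smul' := fun c u => by simp }

theorem phi_apply (κ : g →ₗ[K] g →ₗ[K] K) (hκ : IsInv κ) (r : ℕ) (x : g) (u : UP K g) :
    phi κ hκ r x u =
      ((lift (act κ) (act_isRep hκ) u : Module.End K (VM K g)) (1, 0)).2 r x := rfl

theorem lift_act_fst (κ : g →ₗ[K] g →ₗ[K] K) (hκ : IsInv κ) (u : UP K g) :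
    ((lift (act κ) (act_isRep hκ) u : Module.End K (VM K g)) (1, 0)).1 = u := by
  refine UP_ind (p := fun u =>
    ((lift (act κ) (act_isRep hκ) u : Module.End K (VM K g)) (1, 0)).1 = u) ?_ ?_ ?_ ?_ ?_ u
  · simp
  · simp
  · intro u v hu hv
    rw [map_add, LinearMap.add_apply, Prod.fst_add, hu, hv]
  · intro c u hu
    rw [map_smul, LinearMap.smul_apply, Prod.smul_fst, hu]
  · intro i x u hu
    rw [map_mul, lift_X, Module.End.mul_apply]
    show X K g i x * _ = _
    rw [hu]

/-- the vacuum vector is killed by all `x s^r`, `r ≥ 0` -/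
theorem phi_one (κ : g →ₗ[K] g →ₗ[K] K) (hκ : IsInv κ) (r : ℕ) (x : g) :
    phi κ hκ r x 1 = 0 := by
  rw [phi_apply, map_one]
  rfl

/-- the commutation rule -/
theorem phi_X_mul (κ : g →ₗ[K] g →ₗ[K] K) (hκ : IsInv κ) (r i : ℕ) (x y : g) (u : UP K g) :
    phi κ hκ r x (X K g i y * u) = X K g i y * phi κ hκ r x u +
      (if r ≤ i then X K g (i - r) ⁅x, y⁆ * u else phi κ hκ (r - i - 1) ⁅x, y⁆ u) +
      (if r = i + 1 then ((r : K) * κ x y) • u else 0) := by
  rw [phi_apply, map_mul, lift_X, Module.End.mul_apply]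
  show act2 κ i y _ r x = _
  rw [act2_apply, lift_act_fst κ hκ]
  rfl

end Pool.Agent.helper74.QB
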