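import Pool.Agent.helper74.QB.Vac

/-!
# QB-03. Commutation of the annihilation operators, singular vectors
-/

set_option autoImplicit false

namespace Pool.Agent.helper74.QB

variable {K : Type*} [CommRing K] {g : Type*} [LieRing g] [LieAlgebra K g]
variable (κ : g →ₗ[K] g →ₗ[K] K) (hκ : IsInv κ)

private theorem form_le {r i j : ℕ} (h : i = r + j) (x y : g) (u : UP K g) :
    phi κ hκ r x (X K g i y * u) = X K g i y * phi κ hκ r x u + X K g j ⁅x, y⁆ * u := by
  subst h
  rw [phi_X_mul, if_pos (Nat.le_add_right r j), if_neg (by omega), add_zero,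
    Nat.add_sub_cancel_left]

private theorem form_gt {r i k : ℕ} (h : r = i + 1 + k) (x y : g) (u : UP K g) :
    phi κ hκ r x (X K g i y * u) = X K g i y * phi κ hκ r x u + phi κ hκ k ⁅x, y⁆ u +
      (if k = 0 then (((i : K) + 1) * κ x y) • u else 0) := by
  subst h
  rw [phi_X_mul, if_neg (by omega)]
  have e : i + 1 + k - i - 1 = k := by omega
  rw [e]
  by_cases hk : k = 0
  · subst hk
    simp
  · rw [if_neg (by omega), if_neg hk]

private theorem jac (x y z : g) : ⁅x, ⁅y, z⁆⁆ = ⁅y, ⁅x, z⁆⁆ + ⁅⁅x, y⁆, z⁆ := by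
  rw [leibniz_lie x y z]
  abel

/-- the statement of `phi_comm` for one vector -/
private def PC (u : UP K g) : Prop := ∀ (r s : ℕ) (x y : g),
  phi κ hκ r x (phi κ hκ s y u) = phi κ hκ s y (phi κ hκ r x u) + phi κ hκ (r + s) ⁅x, y⁆ u

private theorem step {u : UP K g} (hu : PC κ hκ u) (i : ℕ) (z : g) (r s : ℕ) (x y : g)
    (hrs : r ≤ s) :
    phi κ hκ r x (phi κ hκ s y (X K g i z * u)) =
      phi κ hκ s y (phi κ hκ r x (X K g i z * u)) +
        phi κ hκ (r + s) ⁅x, y⁆ (X K g i z * u) := by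
  have q1 : κ x ⁅y, z⁆ = κ ⁅x, y⁆ z := (hκ.inv x y z).symm
  have q2 : κ y ⁅x, z⁆ = - κ ⁅x, y⁆ z := by
    rw [← hκ.inv y x z, ← lie_skew x y, map_neg, LinearMap.neg_apply, neg_neg]
  have hJ := jac (g := g) x y z
  rcases Nat.lt_or_ge i s with hs | hs
  · obtain ⟨b, rfl⟩ : ∃ b, s = i + 1 + b := ⟨s - (i + 1), by omega⟩
    rcases Nat.lt_or_ge i r with hr | hr
    · obtain ⟨a, rfl⟩ : ∃ a, r = i + 1 + a := ⟨r - (i + 1), by omega⟩
      rw [form_gt κ hκ (i := i) (k := b) rfl y z u, form_gt κ hκ (i := i) (k := a) rfl x z u,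
        form_gt κ hκ (i := i) (k := i + 1 + a + b) (by omega) ⁅x, y⁆ z u,
        if_neg (show i + 1 + a + b ≠ 0 by omega)]
      simp only [map_add]
      rw [form_gt κ hκ (i := i) (k := a) rfl x z, form_gt κ hκ (i := i) (k := b) rfl y z,
        hu (i + 1 + a) b x ⁅y, z⁆, hu (i + 1 + b) a y ⁅x, z⁆, hu (i + 1 + a) (i + 1 + b) x y, hJ]
      rw [show i + 1 + b + a = i + 1 + a + b by omega]
      simp only [map_add, LinearMap.add_apply, mul_add]
      split_ifs <;> simp only [map_smul, map_zero] <;> abel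
    · obtain ⟨j, rfl⟩ : ∃ j, i = r + j := ⟨i - r, by omega⟩
      rw [form_gt κ hκ (i := r + j) (k := b) rfl y z u, form_le κ hκ (j := j) rfl x z u,
        form_gt κ hκ (i := r + j) (k := r + b) (by omega) ⁅x, y⁆ z u]
      simp only [map_add]
      rw [form_le κ hκ (j := j) rfl x z, form_gt κ hκ (i := r + j) (k := b) rfl y z,
        form_gt κ hκ (i := j) (k := r + b) (by omega) y ⁅x, z⁆,
        hu r b x ⁅y, z⁆, hu r (r + j + 1 + b) x y, hJ]
      simp only [map_add, LinearMap.add_apply, mul_add]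
      by_cases h0 : r + b = 0
      · obtain ⟨rfl, rfl⟩ : r = 0 ∧ b = 0 := by omega
        simp only [if_true, q2, map_smul, Nat.zero_add, Nat.add_zero, mul_neg, neg_smul]
        abel
      · simp only [if_neg h0]
        split_ifs <;> simp only [map_smul, map_zero] <;> abel
  · have hr : r ≤ i := hrs.trans hs
    rcases Nat.lt_or_ge i (r + s) with h | h
    · obtain ⟨k, hk⟩ : ∃ k, r + s = i + 1 + k := ⟨r + s - (i + 1), by omega⟩
      obtain ⟨j, hj⟩ : ∃ j, i = r + j := ⟨i - r, by omega⟩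
      obtain ⟨l, hl⟩ : ∃ l, i = s + l := ⟨i - s, by omega⟩
      have hs' : s = j + 1 + k := by omega
      have hr' : r = l + 1 + k := by omega
      rw [form_le κ hκ (j := l) hl y z u, form_le κ hκ (j := j) hj x z u,
        form_gt κ hκ (i := i) (k := k) hk ⁅x, y⁆ z u]
      simp only [map_add]
      rw [form_le κ hκ (j := j) hj x z, form_le κ hκ (j := l) hl y z,
        form_gt κ hκ (i := l) (k := k) hr' x ⁅y, z⁆, form_gt κ hκ (i := j) (k := k) hs' y ⁅x, z⁆,
        hu r s x y, hJ]
      simp only [map_add, LinearMap.add_apply, mul_add, q1, q2]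
      by_cases h0 : k = 0
      · subst h0
        have hi : (i : K) = (l : K) + (j : K) + 1 := by
          have : i = l + j + 1 := by omega
          rw [this]
          push_cast
          ring
        simp only [if_true, hi]
        module
      · simp only [if_neg h0]
        abel
    · obtain ⟨k, rfl⟩ : ∃ k, i = r + s + k := ⟨i - (r + s), by omega⟩
      rw [form_le κ hκ (j := r + k) (by omega) y z u, form_le κ hκ (j := s + k) (by omega) x z u,
        form_le κ hκ (j := k) rfl ⁅x, y⁆ z u]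
      simp only [map_add]
      rw [form_le κ hκ (j := s + k) (by omega) x z, form_le κ hκ (j := r + k) (by omega) y z,
        form_le κ hκ (j := k) rfl x ⁅y, z⁆, form_le κ hκ (j := k) rfl y ⁅x, z⁆,
        hu r s x y, hJ]
      simp only [map_add, mul_add, add_mul]
      abel

/-- QB-03a. Proof: induction on `u` with `UP_ind` (for all `r s x y`).  `u = 1`: both sides are `0`
by `phi_one`.  `u = X i z * u'`: expand both sides with `phi_X_mul` (twice on the left).  The terms
`X i z * phi (phi ..)` are covered by the induction hypothesis.  The mixed terms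
`(phi s y on the remaining factor)`: cases `r ≤ i`, `s ≤ i`, `r + s ≤ i`; when `i < s` one has
`phi r x (phi (s-i-1) ⁅y,z⁆ u') - phi (s-i-1) ⁅y,z⁆ (phi r x u') = phi (r+s-i-1) ⁅x,⁅y,z⁆⁆ u'` by the induction
hypothesis; when `s ≤ i` use `phi_X_mul` for `phi r x (X (i-s) ⁅y,z⁆ * u')`.  Everything is antisymmetric
under `(r,x) ↔ (s,y)`; Jacobi `⁅x,⁅y,z⁆⁆ - ⁅y,⁅x,z⁆⁆ = ⁅⁅x,y⁆,z⁆`.  Scalar terms (only for `r + s = i + 1`):
`r κ x ⁅y,z⁆` (if `s ≤ i`, i.e. `r ≥ 1`; for `r = 0` the coefficient vanishes anyway) minus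
`s κ y ⁅x,z⁆` equals `(r+s) κ ⁅x,y⁆ z`, because `κ x ⁅y,z⁆ = κ ⁅x,y⁆ z` and
`κ y ⁅x,z⁆ = κ ⁅y,x⁆ z = - κ ⁅x,y⁆ z`. -/
theorem phi_comm (r s : ℕ) (x y : g) (u : UP K g) :
    phi κ hκ r x (phi κ hκ s y u) =
      phi κ hκ s y (phi κ hκ r x u) + phi κ hκ (r + s) ⁅x, y⁆ u := by
  revert r s x y
  refine UP_ind (p := PC κ hκ) ?_ ?_ ?_ ?_ ?_ u
  · intro r s x y
    simp only [map_zero, add_zero]
  · intro r s x y
    simp only [phi_one, map_zero, add_zero]
  · intro u v hu hv r s x y
    simp only [map_add, hu r s x y, hv r s x y]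
    abel
  · intro c u hu r s x y
    simp only [map_smul, hu r s x y, smul_add]
  · intro i z u hu r s x y
    rcases le_total r s with h | h
    · exact step κ hκ hu i z r s x y h
    · have h1 := step κ hκ hu i z s r y x h
      rw [h1, ← lie_skew x y, add_comm s r, map_neg, LinearMap.neg_apply]
      abel

/-- singular vectors of the vacuum module (Segal-Sugawara vectors) -/
def IsSS (S : UP K g) : Prop := ∀ (r : ℕ) (x : g), phi κ hκ r x S = 0

/-- QB-03b. If `g` is perfect it is enough to check `r = 0` and `r = 1`.  Proof: induction on `r`;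
for `r ≥ 1` the set of `z` with `phi (r+1) z S = 0` is a subspace; it contains `⁅x, y⁆` by `phi_comm`
with `(1, x)`, `(r, y)`. -/
theorem isSS_of_zero_one (hperf : Submodule.span K {z : g | ∃ x y : g, ⁅x, y⁆ = z} = ⊤)
    {S : UP K g} (h0 : ∀ x, phi κ hκ 0 x S = 0) (h1 : ∀ x, phi κ hκ 1 x S = 0) :
    IsSS κ hκ S := by
  intro r
  induction r with
  | zero => exact h0
  | succ r ih =>
    intro x
    let M : Submodule K g := LinearMap.ker ((phi κ hκ (r + 1)).flip S)
    have hM : (⊤ : Submodule K g) ≤ M := by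
      rw [← hperf, Submodule.span_le]
      rintro z ⟨a, b, rfl⟩
      show phi κ hκ (r + 1) ⁅a, b⁆ S = 0
      have h := phi_comm κ hκ 1 r a b S
      rw [ih b, h1 a, map_zero, map_zero, zero_add, add_comm 1 r] at h
      exact h.symm
    exact hM (Submodule.mem_top (x := x))

end Pool.Agent.helper74.QB
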